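import Pool.Agent.Lib.C37.Kit

/-! Block AA: the regulator form on the genus four curve as a sum of Steinberg relations. -/

open Complex Filter Topology Set

namespace C37

namespace AA

def OK (f : ℂ → ℂ) (τ : ℂ) : Prop := DifferentiableAt ℂ f τ ∧ f τ ≠ 0

variable {f g u v : ℂ → ℂ} {τ : ℂ}

lemma OK.mul (hf : OK f τ) (hg : OK g τ) : OK (fun σ => f σ * g σ) τ :=
  ⟨hf.1.mul hg.1, mul_ne_zero hf.2 hg.2⟩
lemma OK.pow (hf : OK f τ) (n : ℕ) : OK (fun σ => f σ ^ n) τ :=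
  ⟨hf.1.pow n, pow_ne_zero n hf.2⟩
lemma lmul (hf : OK f τ) (hg : OK g τ) : LL (fun σ => f σ * g σ) τ = LL f τ + LL g τ :=
  LL_mul hf.1 hg.1 hf.2 hg.2
lemma ldiv (hf : OK f τ) (hg : OK g τ) : LL (fun σ => f σ / g σ) τ = LL f τ - LL g τ :=
  LL_div hf.1 hg.1 hf.2 hg.2
lemma lpow (hf : OK f τ) (n : ℕ) : LL (fun σ => f σ ^ n) τ = (n : ℝ) • LL f τ := LL_pow hf.1 n
lemma st {c1 c2 c3 : ℂ} (n1 : ‖c1‖ = 1) (n2 : ‖c2‖ = 1) (n3 : ‖c3‖ = 1) (hf : OK f τ)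
    (hg : OK g τ) (hu : OK u τ) (hr : ∀ σ, c1 * f σ + c2 * g σ + c3 * u σ = 0) :
    DI (fun σ => DD (-c1 / c3 * (f σ / u σ))) (cyc f g u τ) τ :=
  stb n1 n2 n3 hf.1 hg.1 hu.1 hf.2 hg.2 hu.2 (.of_forall hr)
lemma lcross {c : ℂ} (hc : ‖c‖ = 1) (hf : OK f τ) (hg : OK g τ) (hu : OK u τ) (hv : OK v τ)
    (h : ∀ᶠ σ in 𝓝 τ, f σ * u σ = c * (g σ * v σ)) : LL f τ - LL g τ = LL v τ - LL u τ := by
  have h1 : LL (fun σ => f σ * u σ) τ = LL (fun σ => c * (g σ * v σ)) τ := LL_congr h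
  rw [LL_cmul hc, lmul hf hu, lmul hg hv] at h1
  rw [sub_eq_sub_iff_add_eq_add, h1, add_comm]

lemma nw2 : ‖w ^ 2‖ = 1 := by rw [norm_pow, norm_w, one_pow]
lemma facA (p : ℂ) : (p - 1) * (p - w) * (p - w ^ 2) = p ^ 3 - 1 := by
  linear_combination (-p ^ 2 + p * w + 1 - w) * hw
lemma facB (r : ℂ) : (r + 1) * (r + w) * (r + w ^ 2) = r ^ 3 + 1 := by
  linear_combination (r ^ 2 + r * w - 1 + w) * hw
lemma facR (p r : ℂ) : (r + w * p) * (r + w ^ 2 * p) = p ^ 2 - p * r + r ^ 2 := by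
  linear_combination (p * r + p ^ 2 * (w - 1)) * hw
lemma cc0 (p r : ℂ) : cc 0 p r = (r + w ^ 2) ^ 2 / (p - 1) := by simp [cc]
lemma cc1 (p r : ℂ) : cc 1 p r = (r + 1) ^ 2 / (p - w) := by simp [cc, w_cube]
lemma cc2 (p r : ℂ) : cc 2 p r = (r + w) ^ 2 / (p - w ^ 2) := by
  have : w ^ (2 + 2) = w := by linear_combination w * w_cube
  rw [cc, this]
lemma XB_eq (p r : ℂ) :
    XB p r = -w ^ 2 * ((p - 1) * (r + 1) / ((p - w ^ 2) * (r + w ^ 2))) := by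
  rw [XB, LB, LB, pow_zero, mul_div_assoc]
lemma yB_eq (p r : ℂ) :
    yB p r = (p - 1) * (r + 1) * ((p - w) * (r + w)) / ((p - w ^ 2) * (r + w ^ 2)) ^ 2 := by
  simp [yB, LB]
lemma x1_eq {p r : ℂ} (hg : p + r ≠ 0) :
    xE p r + 1 = (r + w * p) * (r + w ^ 2 * p) / (p + r) ^ 2 := by
  rw [facR, xE]; field_simp; ring

lemma key {p r : ℂ} (hF : Ph p r = 0) (hg : p + r ≠ 0) :
    hp (xE p r) (yE p r) * (((p - 1) * (p - w) * (p - w ^ 2)) ^ 2 * r ^ 3 * (r + w * p)) =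
      w * (hm (xE p r) (yE p r) *
        (((r + 1) * (r + w) * (r + w ^ 2)) ^ 2 * p ^ 3 * (r + w ^ 2 * p))) := by
  have h1 : hp (xE p r) (yE p r) = ((-7 - 3 * w + 3 * p ^ 2 * r - 6 * p * r ^ 2 - r ^ 3) * (p + r) +
      -3 * p * r * (p + r) ^ 2 + (-3 * p * r) ^ 2) / (p + r) ^ 4 := by
    unfold hp xE yE; field_simp
  have h2 : hm (xE p r) (yE p r) = (-(p + r) ^ 4 -
      (-7 - 3 * w + 3 * p ^ 2 * r - 6 * p * r ^ 2 - r ^ 3) * (p + r) +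
      -3 * p * r * (p + r) ^ 2 + (-3 * p * r) ^ 2) / (p + r) ^ 4 := by
    unfold hm xE yE; field_simp
  rw [h1, h2, facA, facB, div_mul_eq_mul_div, div_mul_eq_mul_div, ← mul_div_assoc]
  congr 1
  unfold Ph at hF
  linear_combination
    (p ^ 5 * r ^ 3 * w - p ^ 3 * r ^ 5 * w - p ^ 5 * r ^ 3 + p ^ 3 * r ^ 5 - p ^ 4 * r * w - p ^
    3 * r ^ 2 * w - p ^ 2 * r ^ 3 * w - p * r ^ 4 * w - p ^ 5 - p ^ 4 * r - p * r ^ 4 - r ^ 5) *
    hF + (p ^ 8 * r ^ 6 * w + 10 * p ^ 7 * r ^ 7 * w - 4 * p ^ 8 * r ^ 6 - 10 * p ^ 7 * r ^ 7 +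
    3 * p ^ 6 * r ^ 8 - 3 * p ^ 5 * r ^ 6 * w ^ 2 - 3 * p ^ 4 * r ^ 7 * w ^ 2 + 2 * p ^ 8 * r ^
    3 * w + 20 * p ^ 7 * r ^ 4 * w - 4 * p ^ 5 * r ^ 6 * w - 4 * p ^ 4 * r ^ 7 * w - 5 * p ^ 8 *
    r ^ 3 - 20 * p ^ 7 * r ^ 4 + 3 * p ^ 6 * r ^ 5 + 10 * p ^ 5 * r ^ 6 + 7 * p ^ 4 * r ^ 7 - 3
    * p ^ 3 * r ^ 8 - 6 * p ^ 5 * r ^ 3 * w ^ 2 - 6 * p ^ 4 * r ^ 4 * w ^ 2 + p ^ 8 * w + 10 * p
    ^ 7 * r * w - 8 * p ^ 5 * r ^ 3 * w - 8 * p ^ 4 * r ^ 4 * w - p ^ 8 - 10 * p ^ 7 * r + 17 *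
    p ^ 5 * r ^ 3 + 14 * p ^ 4 * r ^ 4 - 3 * p ^ 3 * r ^ 5 - 3 * p ^ 5 * w ^ 2 - 3 * p ^ 4 * r *
    w ^ 2 - 4 * p ^ 5 * w - 4 * p ^ 4 * r * w + 7 * p ^ 5 + 7 * p ^ 4 * r) * hw

noncomputable def Ψ (p r : ℂ) : ℝ :=
  3 * DD (-1 / w ^ 2 * ((r + 1) / (r + w ^ 2))) -
    3 * (DD (-1 / -1 * ((p - 1) / (p + r))) + DD (-1 / -1 * ((p - w) / (p + r))) +
      DD (-1 / -1 * ((p - w ^ 2) / (p + r)))) +
    DD (-1 / -1 * ((p - 1) * (p - w) * (p - w ^ 2) / ((p + r) * (r + w * p) * (r + w ^ 2 * p)))) -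
    DD (-1 / w ^ 2 * ((p + r) / (r + w ^ 2 * p))) - 3 * DD (-1 / -1 * (r / (p + r))) +
    3 / 2 * DD (-1 / -1 * (r / (r + w * p))) + 3 / 2 * DD (-1 / -1 * (r / (r + w ^ 2 * p)))

end AA

open AA in
theorem st_AA : St_AA := by
  refine ⟨AA.Ψ, fun p r τ ap ar hF hG => ?_⟩
  obtain ⟨h0, hA, hB, hg, hx0, -, hx1, -, hS, -⟩ := hG
  have dp := ap.differentiableAt
  have dr := ar.differentiableAt
  have hA' : (p τ - 1) * (p τ - w) * (p τ - w ^ 2) ≠ 0 := by rw [facA]; exact sub_ne_zero.mpr hA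
  have hB' : (r τ + 1) * (r τ + w) * (r τ + w ^ 2) ≠ 0 := by
    rw [facB]; exact fun h => hB (eq_neg_of_add_eq_zero_left h)
  have hR' : (r τ + w * p τ) * (r τ + w ^ 2 * p τ) ≠ 0 := fun h => hx1 (by
    have := x1_eq hg
    rw [h, zero_div] at this
    exact eq_neg_of_add_eq_zero_left this)
  have op : OK p τ := ⟨dp, fun h => hx0 (by simp [xE, h])⟩
  have or : OK r τ := ⟨dr, fun h => hx0 (by simp [xE, h])⟩
  have a0 : OK (fun σ => p σ - 1) τ :=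
    ⟨dp.sub_const _, left_ne_zero_of_mul (left_ne_zero_of_mul hA')⟩
  have a1 : OK (fun σ => p σ - w) τ :=
    ⟨dp.sub_const _, right_ne_zero_of_mul (left_ne_zero_of_mul hA')⟩
  have a2 : OK (fun σ => p σ - w ^ 2) τ := ⟨dp.sub_const _, right_ne_zero_of_mul hA'⟩
  have b0 : OK (fun σ => r σ + 1) τ :=
    ⟨dr.add_const _, left_ne_zero_of_mul (left_ne_zero_of_mul hB')⟩
  have b1 : OK (fun σ => r σ + w) τ :=
    ⟨dr.add_const _, right_ne_zero_of_mul (left_ne_zero_of_mul hB')⟩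
  have b2 : OK (fun σ => r σ + w ^ 2) τ := ⟨dr.add_const _, right_ne_zero_of_mul hB'⟩
  have og : OK (fun σ => p σ + r σ) τ := ⟨dp.add dr, hg⟩
  have r1 : OK (fun σ => r σ + w * p σ) τ := ⟨dr.add (dp.const_mul _), left_ne_zero_of_mul hR'⟩
  have r2 : OK (fun σ => r σ + w ^ 2 * p σ) τ :=
    ⟨dr.add (dp.const_mul _), right_ne_zero_of_mul hR'⟩
  have oA := (a0.mul a1).mul a2
  have oB := (b0.mul b1).mul b2
  have oU := ((oA.pow 2).mul (or.pow 3)).mul r1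
  have oV := ((oB.pow 2).mul (op.pow 3)).mul r2
  have dx : DifferentiableAt ℂ (fun σ => xE (p σ) (r σ)) τ := by
    unfold xE
    exact ((dp.const_mul _).mul dr).div (og.pow 2).1 (og.pow 2).2
  have dy : DifferentiableAt ℂ (fun σ => yE (p σ) (r σ)) τ := by
    unfold yE
    exact DifferentiableAt.div (by fun_prop) (og.pow 3).1 (og.pow 3).2
  have hk := key h0 hg
  have hd : hp (xE (p τ) (r τ)) (yE (p τ) (r τ)) - hm (xE (p τ) (r τ)) (yE (p τ) (r τ)) ≠ 0 := by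
    intro h; apply hS; unfold hp hm at h; unfold SA; linear_combination h
  have n1 : hp (xE (p τ) (r τ)) (yE (p τ) (r τ)) ≠ 0 := by
    intro h
    rw [h, zero_mul] at hk
    have := (mul_eq_zero.mp ((mul_eq_zero.mp hk.symm).resolve_left w_ne)).resolve_right oV.2
    exact hd (by rw [h, this, sub_zero])
  have n2 : hm (xE (p τ) (r τ)) (yE (p τ) (r τ)) ≠ 0 := by
    intro h
    rw [h, zero_mul, mul_zero] at hk
    exact n1 ((mul_eq_zero.mp hk).resolve_right oU.2)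
  have oP : OK (fun σ => hp (xE (p σ) (r σ)) (yE (p σ) (r σ))) τ :=
    ⟨by unfold hp; exact (dy.add dx).add (dx.pow 2), n1⟩
  have oM : OK (fun σ => hm (xE (p σ) (r σ)) (yE (p σ) (r σ))) τ :=
    ⟨by unfold hm; exact ((dy.const_sub _).add dx).add (dx.pow 2), n2⟩
  have evg : ∀ᶠ σ in 𝓝 τ, p σ + r σ ≠ 0 := og.1.continuousAt.eventually_ne hg
  have eH := lcross norm_w oP oM oU oV (by
    filter_upwards [hF, evg] with σ h1 h2 using key h1 h2)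
  have eX : LL (fun σ => xE (p σ) (r σ) + 1) τ =
      LL (fun σ => (r σ + w * p σ) * (r σ + w ^ 2 * p σ) / (p σ + r σ) ^ 2) τ :=
    LL_congr (by filter_upwards [evg] with σ h using x1_eq h)
  have n0 : ‖(1 : ℂ)‖ = 1 := norm_one
  have nm : ‖(-1 : ℂ)‖ = 1 := by simp
  have t1 := st n0 norm_w nw2 b0 b1 b2 fun σ => by
    linear_combination (r σ + 1 - w + w ^ 2) * hw
  have t20 := st n0 n0 nm a0 b0 og fun σ => by ring
  have t21 := st n0 n0 nm a1 b1 og fun σ => by ring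
  have t22 := st n0 n0 nm a2 b2 og fun σ => by ring
  have t3 := st n0 n0 nm oA oB ((og.mul r1).mul r2) fun σ => by
    rw [facA, facB, mul_assoc (p σ + r σ), facR]; ring
  have t4 := st n0 norm_w nw2 og r1 r2 fun σ => by
    linear_combination (r σ + p σ * (1 - w + w ^ 2)) * hw
  have t5 := st n0 n0 nm or op og fun σ => by ring
  have t6 := st n0 norm_w nm or op r1 fun σ => by ring
  have t7 := st n0 nw2 nm or op r2 fun σ => by ring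
  refine (((((((t1.cmul 3).sub (((t20.add t21).add t22).cmul 3)).add t3).sub t4).sub
    (t5.cmul 3)).add (t6.cmul (3 / 2))).add (t7.cmul (3 / 2))).congr (.refl _ _) ?_
  simp only [cyc, eta, xi, cc0, cc1, cc2, XB_eq, yB_eq]
  rw [eH, eX, LL_cmul (by rw [norm_neg, nw2]), ldiv (b2.pow 2) a0, ldiv (b0.pow 2) a1,
    ldiv (b1.pow 2) a2, ldiv (a0.mul b0) (a2.mul b2),
    ldiv ((a0.mul b0).mul (a1.mul b1)) ((a2.mul b2).pow 2), ldiv (r1.mul r2) (og.pow 2),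
    lmul ((oA.pow 2).mul (or.pow 3)) r1, lmul ((oB.pow 2).mul (op.pow 3)) r2,
    lmul (oA.pow 2) (or.pow 3), lmul (oB.pow 2) (op.pow 3), lpow oA, lpow oB, lpow or, lpow op,
    lpow (a2.mul b2), lpow og, lpow b0, lpow b1, lpow b2, lmul (a0.mul a1) a2, lmul (b0.mul b1) b2,
    lmul (og.mul r1) r2, lmul (a0.mul b0) (a1.mul b1), lmul a0 a1, lmul b0 b1, lmul og r1,
    lmul a0 b0, lmul a1 b1, lmul a2 b2, lmul r1 r2]
  generalize LL (fun σ => p σ - 1) τ = A0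
  generalize LL (fun σ => p σ - w) τ = A1
  generalize LL (fun σ => p σ - w ^ 2) τ = A2
  generalize LL (fun σ => r σ + 1) τ = B0
  generalize LL (fun σ => r σ + w) τ = B1
  generalize LL (fun σ => r σ + w ^ 2) τ = B2
  generalize LL (fun σ => p σ + r σ) τ = G
  generalize LL (fun σ => r σ + w * p σ) τ = R1
  generalize LL (fun σ => r σ + w ^ 2 * p σ) τ = R2
  generalize LL p τ = P
  generalize LL r τ = R
  simp only [wd, Prod.fst_add, Prod.snd_add, Prod.fst_sub, Prod.snd_sub, Prod.smul_fst,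
    Prod.smul_snd, smul_eq_mul, real_smul]
  push_cast
  ring

end C37
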