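import Pool.Agent.Lib.C37.Kit

/-! The transformation law for the whole modular group from the two generators. -/

open Complex

namespace C37

namespace ACT

variable {k : ℕ} {F : ℤ × ℤ → ℂ → ℂ} {a b c d : ℤ}

def P (k : ℕ) (F : ℤ × ℤ → ℂ → ℂ) (a b c d : ℤ) : Prop :=
  ∀ v, NZ v → ∀ τ ∈ UH, F v ((a * τ + b) / (c * τ + d)) =
    (c * τ + d) ^ k * F (v.1 * a + v.2 * c, v.1 * b + v.2 * d) τ

theorem den (h : a * d - b * c = 1) {τ : ℂ} (hτ : τ ∈ UH) : (c * τ + d : ℂ) ≠ 0 := fun z => by
  have t : 0 < τ.im := hτ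
  have e : (c : ℝ) * τ.im = 0 := by simpa using congrArg im z
  obtain rfl : c = 0 := by exact_mod_cast (mul_eq_zero.1 e).resolve_right t.ne'
  obtain rfl : d = 0 := by simpa using z
  simp at h

theorem mem (h : a * d - b * c = 1) {τ : ℂ} (hτ : τ ∈ UH) : (a * τ + b) / (c * τ + d) ∈ UH := by
  have t : 0 < τ.im := hτ
  have n := normSq_pos.2 (den h hτ)
  have e : (a : ℝ) * d - b * c = 1 := by exact_mod_cast h
  show 0 < ((a * τ + b) / (c * τ + d)).im
  rw [div_im, ← sub_div]
  refine div_pos ?_ n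
  simp only [add_im, add_re, mul_im, mul_re, intCast_re, intCast_im]
  nlinarith

theorem stepT (hF : Law k F) (h : a * d - b * c = 1) :
    P k F a b c d ↔ P k F (a + c) (b + d) c d := by
  have e : ∀ τ ∈ UH, (((a + c : ℤ) : ℂ) * τ + (b + d : ℤ)) / (c * τ + d) =
      (a * τ + b) / (c * τ + d) + 1 := fun τ hτ => by
    rw [div_add_one (den h hτ)]; push_cast; ring
  refine ⟨fun p v hv τ hτ => ?_, fun p v hv τ hτ => ?_⟩
  · rw [e τ hτ, hF.hT v hv _ (mem h hτ),
      p (v.1, v.1 + v.2) (fun z => hv ⟨z.1, (dvd_add_right z.1).1 z.2⟩) τ hτ]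
    ring_nf
  · have hw : NZ (v.1, v.2 - v.1) := fun z => hv ⟨z.1, by simpa using dvd_add z.2 z.1⟩
    have q := p _ hw τ hτ
    rw [e τ hτ, hF.hT _ hw _ (mem h hτ)] at q
    simp only [add_sub_cancel] at q
    rw [q]
    ring_nf

theorem stepN (hF : Law k F) (h : a * d - b * c = 1) (p : P k F a b c d) (n : ℤ) :
    P k F (a + n * c) (b + n * d) c d := by
  induction n using Int.induction_on with
  | zero => simpa using p
  | succ n ih =>
    have q := (stepT hF (by linear_combination h)).1 ih
    rwa [show a + n * c + c = a + (n + 1) * c by ring,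
      show b + n * d + d = b + (n + 1) * d by ring] at q
  | pred n ih =>
    refine (stepT hF (by linear_combination h)).2 ?_
    rwa [show a + (-n - 1) * c + c = a + -n * c by ring,
      show b + (-n - 1) * d + d = b + -n * d by ring]

theorem stepS (hF : Law k F) (h : a * d - b * c = 1) (p : P k F a b c d) :
    P k F (-c) (-d) a b := fun v hv τ hτ => by
  have n := den h hτ
  have e : (((-c : ℤ) : ℂ) * τ + (-d : ℤ)) / (a * τ + b) = -1 / ((a * τ + b) / (c * τ + d)) := by
    rw [div_div_eq_mul_div]; push_cast; ring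
  rw [e, hF.hS v hv _ (mem h hτ), p _ (fun z => hv ⟨dvd_neg.1 z.2, z.1⟩) τ hτ, ← mul_assoc,
    ← mul_pow, div_mul_cancel₀ _ n]
  ring_nf

theorem upper (hF : Law k F) (b : ℤ) : P k F 1 b 0 1 := by
  have p : P k F 1 0 0 1 := fun v _ τ _ => by simp
  simpa using stepN hF (by norm_num) p b

theorem all (hF : Law k F) (n : ℕ) : ∀ a b c d : ℤ, c.natAbs = n → a * d - b * c = 1 →
    P k F a b c d := by
  induction n using Nat.strong_induction_on with
  | _ n ih =>
    intro a b c d hn h
    by_cases hc : c = 0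
    · subst hc
      rcases Int.eq_one_or_neg_one_of_mul_eq_one' (show a * d = 1 by simpa using h) with
        ⟨rfl, rfl⟩ | ⟨rfl, rfl⟩
      · exact upper hF b
      · simpa using stepS hF (by norm_num) (stepS hF (by norm_num) (upper hF (-b)))
    · have e := Int.emod_add_ediv_mul a c
      have l : (-(a % c)).natAbs < n := by
        rw [Int.natAbs_neg, ← hn]; exact Int.natAbs_lt_natAbs_of_nonneg_of_lt
          (Int.emod_nonneg a hc) (Int.emod_lt a hc) |>.trans_eq (Int.natAbs_natCast _)
      have d1 : c * -(b - a / c * d) - d * -(a % c) = 1 := by linear_combination h + d * e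
      have p := stepS hF d1 (ih _ l c d _ _ rfl d1)
      have q := stepN hF (by linear_combination d1) p (a / c)
      rwa [neg_neg, neg_neg, e, sub_add_cancel] at q

end ACT

theorem st_ACT : St_ACT := fun _ _ hF a b c d h => ACT.all hF _ a b c d rfl h

end C37
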