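import Pool.Agent.Lib.C37.Kit

/-! Block AD: the two elliptic quotients of the canonical curve. -/

namespace C37

namespace AD

variable {p r : ℂ}

lemma i1 (h : Ph p r = 0) :
    (-7 - 3 * w + 3 * p ^ 2 * r - 6 * p * r ^ 2 - r ^ 3) ^ 2 +
      (-7 - 3 * w + 3 * p ^ 2 * r - 6 * p * r ^ 2 - r ^ 3) * (p + r) ^ 3 =
      (-3 * p * r) ^ 3 - -3 * p * r * (p + r) ^ 4 := by
  unfold Ph at h
  linear_combination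
    (3 * w + 7) * h + (-9 * p ^ 3 * r ^ 3) * hw

lemma i2 (h : Ph p r = 0) :
    LB 0 p r * LB 1 p r ^ 2 + LB 1 p r * LB 2 p r ^ 2 + w ^ 6 * LB 2 p r * LB 0 p r ^ 2 =
      4 * w ^ 2 * LB 0 p r * LB 1 p r * LB 2 p r := by
  unfold Ph at h
  unfold LB
  linear_combination
    (-w - 1) * h + (-p ^ 2 * r ^ 2 * w ^ 8 + p ^ 3 * r ^ 2 * w ^ 6 - p ^ 2 * r ^ 3 * w ^ 6 + p
    ^ 2 * r ^ 2 * w ^ 7 - 2 * p ^ 2 * r * w ^ 8 + 2 * p * r ^ 2 * w ^ 8 + p ^ 3 * r ^ 3 * w ^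
    4 - p ^ 3 * r ^ 2 * w ^ 5 + 2 * p ^ 3 * r * w ^ 6 + p ^ 2 * r ^ 3 * w ^ 5 - 4 * p ^ 2 * r
    ^ 2 * w ^ 6 + 2 * p ^ 2 * r * w ^ 7 - p ^ 2 * w ^ 8 + 2 * p * r ^ 3 * w ^ 6 - 2 * p * r ^
    2 * w ^ 7 + 4 * p * r * w ^ 8 - r ^ 2 * w ^ 8 - p ^ 3 * r ^ 3 * w ^ 3 + 2 * p ^ 3 * r ^ 2
    * w ^ 4 - 2 * p ^ 3 * r * w ^ 5 + p ^ 3 * w ^ 6 - 2 * p ^ 2 * r ^ 3 * w ^ 4 + 3 * p ^ 2 *
    r ^ 2 * w ^ 5 - 5 * p ^ 2 * r * w ^ 6 + p ^ 2 * w ^ 7 - 2 * p * r ^ 3 * w ^ 5 + 5 * p * r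
    ^ 2 * w ^ 6 - 4 * p * r * w ^ 7 + 2 * p * w ^ 8 - r ^ 3 * w ^ 6 + r ^ 2 * w ^ 7 - 2 * r *
    w ^ 8 - p ^ 3 * r ^ 2 * w ^ 3 + p ^ 3 * r * w ^ 4 - p ^ 3 * w ^ 5 + p ^ 2 * r ^ 3 * w ^ 3
    + p ^ 2 * r ^ 2 * w ^ 4 + 7 * p ^ 2 * r * w ^ 5 - 2 * p ^ 2 * w ^ 6 + p * r ^ 3 * w ^ 4 -
    7 * p * r ^ 2 * w ^ 5 + p * r * w ^ 6 - p * w ^ 7 + r ^ 3 * w ^ 5 - 2 * r ^ 2 * w ^ 6 + r
    * w ^ 7 - 2 * w ^ 8 + p ^ 3 * r ^ 3 * w - 5 * p ^ 3 * r ^ 2 * w ^ 2 - 3 * p ^ 3 * r * w ^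
    3 + 5 * p ^ 2 * r ^ 3 * w ^ 2 + 4 * p ^ 2 * r ^ 2 * w ^ 3 + 2 * p ^ 2 * r * w ^ 4 + 3 * p
    ^ 2 * w ^ 5 - 3 * p * r ^ 3 * w ^ 3 - 2 * p * r ^ 2 * w ^ 4 - p * r * w ^ 5 - 2 * p * w ^
    6 + 3 * r ^ 2 * w ^ 5 + 2 * r * w ^ 6 + 2 * w ^ 7 - 2 * p ^ 3 * r ^ 3 + 2 * p ^ 3 * r ^ 2
    * w - p ^ 3 * r * w ^ 2 - 2 * p ^ 3 * w ^ 3 - 2 * p ^ 2 * r ^ 3 * w + 3 * p ^ 2 * r ^ 2 *
    w ^ 2 - 2 * p ^ 2 * r * w ^ 3 + 2 * p ^ 2 * w ^ 4 - p * r ^ 3 * w ^ 2 + 2 * p * r ^ 2 * w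
    ^ 3 - 7 * p * r * w ^ 4 - p * w ^ 5 + 2 * r ^ 3 * w ^ 3 + 2 * r ^ 2 * w ^ 4 + r * w ^ 5 +
    4 * w ^ 6 + p ^ 3 * r ^ 2 + 2 * p ^ 3 * r * w + 2 * p ^ 3 * w ^ 2 - p ^ 2 * r ^ 3 - 3 * p
    ^ 2 * r ^ 2 * w + 6 * p ^ 2 * r * w ^ 2 - p ^ 2 * w ^ 3 + 2 * p * r ^ 3 * w - 6 * p * r ^
    2 * w ^ 2 - p * w ^ 4 - 2 * r ^ 3 * w ^ 2 - r ^ 2 * w ^ 3 + r * w ^ 4 - 6 * w ^ 5 - p ^ 2
    * r ^ 2 - 2 * p ^ 2 * r * w - p ^ 2 * w ^ 2 + 2 * p * r ^ 2 * w + 4 * p * r * w ^ 2 + 2 *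
    p * w ^ 3 - r ^ 2 * w ^ 2 - 2 * r * w ^ 3 + 2 * w ^ 4 - p ^ 3 - 9 * p ^ 2 * r + 9 * p * r
    ^ 2 + r ^ 3 + 4 * w ^ 3 - 7 * w ^ 2 + 3 * w + 7) * hw

lemma i3 (h : Ph p r = 0) :
    (-3 * Phr p r * r + -3 * p * -Php p r) * (p + r) - 2 * (-3 * p * r) * (Phr p r - Php p r) =
      9 * (p - r) * (2 * (-7 - 3 * w + 3 * p ^ 2 * r - 6 * p * r ^ 2 - r ^ 3) + (p + r) ^ 3) := by
  unfold Ph at h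
  unfold Phr Php
  linear_combination
    (18 * p - 18 * r) * h + (0) * hw

lemma i4 (h : Ph p r = 0) :
    -w ^ 2 * ((Phr p r * (r + w ^ 0) - (p - w ^ 0) * Php p r) * LB 2 p r -
      LB 0 p r * (Phr p r * (r + w ^ 2) - (p - w ^ 2) * Php p r)) =
      3 * (1 + 2 * w) * (p + r) *
        (2 * LB 0 p r * LB 1 p r - 4 * w ^ 2 * LB 0 p r * LB 2 p r + LB 2 p r ^ 2) := by
  unfold Ph at h
  unfold Phr Php LB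
  linear_combination
    (6 * p * w + 6 * r * w + 3 * p + 3 * r) * h + (9 * p ^ 4 * r ^ 3 * w ^ 3 + 9 * p ^ 3 * r ^
    4 * w ^ 3 + 9 * p ^ 3 * r ^ 2 * w ^ 5 + 9 * p ^ 2 * r ^ 3 * w ^ 5 - 21 * p ^ 4 * r ^ 3 * w
    ^ 2 - 21 * p ^ 3 * r ^ 4 * w ^ 2 - 21 * p ^ 3 * r ^ 2 * w ^ 4 - 21 * p ^ 2 * r ^ 3 * w ^ 4
    + 3 * p ^ 4 * r ^ 3 * w + 3 * p ^ 3 * r ^ 4 * w + 3 * p ^ 3 * r ^ 2 * w ^ 3 + 3 * p ^ 2 *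
    r ^ 3 * w ^ 3 - 24 * p ^ 2 * r * w ^ 5 - 24 * p * r ^ 2 * w ^ 5 - 6 * p * w ^ 7 - 6 * r *
    w ^ 7 + 12 * p ^ 4 * r ^ 3 + 12 * p ^ 3 * r ^ 4 + 30 * p ^ 3 * r ^ 2 * w ^ 2 + 24 * p ^ 3
    * r * w ^ 3 + 3 * p ^ 3 * w ^ 4 + 30 * p ^ 2 * r ^ 3 * w ^ 2 + 21 * p ^ 2 * r * w ^ 4 - 12
    * p ^ 2 * w ^ 5 - 24 * p * r ^ 3 * w ^ 3 + 21 * p * r ^ 2 * w ^ 4 + 3 * p * w ^ 6 + 3 * r
    ^ 3 * w ^ 4 + 12 * r ^ 2 * w ^ 5 + 3 * r * w ^ 6 - 3 * p ^ 4 * w ^ 2 - 9 * p ^ 3 * r ^ 2 *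
    w - 30 * p ^ 3 * r * w ^ 2 + 15 * p ^ 3 * w ^ 3 - 9 * p ^ 2 * r ^ 3 * w - 3 * p ^ 2 * r *
    w ^ 3 - 6 * p ^ 2 * w ^ 4 + 30 * p * r ^ 3 * w ^ 2 - 3 * p * r ^ 2 * w ^ 3 + 27 * p * w ^
    5 + 3 * r ^ 4 * w ^ 2 + 15 * r ^ 3 * w ^ 3 + 6 * r ^ 2 * w ^ 4 + 27 * r * w ^ 5 + 3 * p ^
    4 * w - 9 * p ^ 3 * r ^ 2 + 18 * p ^ 3 * r * w - 9 * p ^ 3 * w ^ 2 - 9 * p ^ 2 * r ^ 3 -
    21 * p ^ 2 * r * w ^ 2 - 6 * p ^ 2 * w ^ 3 - 18 * p * r ^ 3 * w - 21 * p * r ^ 2 * w ^ 2 -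
    18 * p * w ^ 4 - 3 * r ^ 4 * w - 9 * r ^ 3 * w ^ 2 + 6 * r ^ 2 * w ^ 3 - 18 * r * w ^ 4 +
    3 * p ^ 4 + 24 * p ^ 3 * r - 6 * p ^ 3 * w + 12 * p ^ 2 * r * w + 12 * p ^ 2 * w ^ 2 - 24
    * p * r ^ 3 + 12 * p * r ^ 2 * w - 9 * p * w ^ 3 - 3 * r ^ 4 - 6 * r ^ 3 * w - 12 * r ^ 2
    * w ^ 2 - 9 * r * w ^ 3 + 6 * p ^ 2 * r + 6 * p ^ 2 * w + 6 * p * r ^ 2 + 27 * p * w ^ 2 -
    6 * r ^ 2 * w + 27 * r * w ^ 2 - 30 * p * w - 30 * r * w - 21 * p - 21 * r) * hw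

lemma LB_ne (hp : p ^ 3 ≠ 1) (hr : r ^ 3 ≠ -1) (i : ℕ) : LB i p r ≠ 0 := by
  have e : (w ^ i) ^ 3 = 1 := by rw [← pow_mul, mul_comm, pow_mul, w_cube, one_pow]
  refine mul_ne_zero (fun h => hp ?_) fun h => hr ?_
  · rw [sub_eq_zero.mp h, e]
  · rw [eq_neg_of_add_eq_zero_left h]
    linear_combination -e

lemma dLB {P R : ℂ → ℂ} {τ a b : ℂ} (hP : HasDerivAt P a τ) (hR : HasDerivAt R b τ) (i : ℕ) :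
    HasDerivAt (fun σ => LB i (P σ) (R σ)) (a * (R τ + w ^ i) + (P τ - w ^ i) * b) τ :=
  (hP.sub_const (w ^ i)).fun_mul (hR.add_const (w ^ i))

end AD

open AD in
theorem st_AD : St_AD := by
  intro p r h
  refine ⟨fun hg => ?_, fun hp hr => ⟨?_, ?_⟩, ?_⟩
  · have e : yE p r ^ 2 + yE p r = xE p r ^ 3 - xE p r := by
      have := i1 h
      unfold yE xE
      generalize -7 - 3 * w + 3 * p ^ 2 * r - 6 * p * r ^ 2 - r ^ 3 = y at *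
      generalize -3 * p * r = x at *
      generalize p + r = g at *
      field_simp
      linear_combination this
    refine ⟨e, ?_⟩
    unfold SA XA Ca
    linear_combination 4 * e
  · have h2 := LB_ne hp hr 2
    have := i2 h
    unfold SB yB XB Cb
    generalize LB 0 p r = a at *
    generalize LB 1 p r = b at *
    generalize LB 2 p r = c at *
    field_simp
    linear_combination 4 * a * this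
  · exact div_ne_zero (mul_ne_zero (neg_ne_zero.mpr (pow_ne_zero _ w_ne)) (LB_ne hp hr 0))
      (LB_ne hp hr 2)
  · rintro P R τ ν rfl rfl hP hR
    refine ⟨fun hg => ?_, fun hp hr => ?_⟩
    · have d := (((hP.const_mul (-3)).fun_mul hR).fun_div ((hP.fun_add hR).fun_pow 2)
        (pow_ne_zero 2 hg)).sub_const 1
      refine HasDerivAt.congr_deriv d ?_
      have := i3 h
      unfold SA yE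
      generalize -7 - 3 * w + 3 * P τ ^ 2 * R τ - 6 * P τ * R τ ^ 2 - R τ ^ 3 = y at *
      generalize Phr (P τ) (R τ) = u at *
      generalize Php (P τ) (R τ) = v at *
      generalize P τ + R τ = g at *
      field_simp
      push_cast
      linear_combination ν * g * this
    · have h2 := LB_ne hp hr 2
      have d := ((dLB hP hR 0).const_mul (-w ^ 2)).fun_div (dLB hP hR 2) h2
      refine HasDerivAt.congr_deriv d ?_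
      have := i4 h
      unfold SB yB XB
      generalize LB 0 (P τ) (R τ) = a at *
      generalize LB 1 (P τ) (R τ) = b at *
      generalize LB 2 (P τ) (R τ) = c at *
      field_simp
      linear_combination ν * this

end C37
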