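import Pool.Agent.Lib.C37.Kit

open Complex Filter Topology

namespace C37

namespace AE

noncomputable def Psi (x y : ℂ) : ℝ :=
  17 / 4 * DD (-1 / -1 * ((x + 1) / 1)) + DD (-1 / -1 * (y ^ 2 / x ^ 3))
    - DD (-1 / 1 * ((y - x) / x)) - 13 / 2 * DD (-1 / 1 * (y / x))
    + 5 / 2 * DD (-1 / 1 * (y ^ 2 / y))
    + DD (-1 / -1 * (y * (y - x) / (x * (x - 1) * (x + 1))))
    + 7 / 2 * DD (-1 / -1 * (x * (x - 1) * (x + 1) / (y * (y + x))))
    + 3 / 2 * DD (-1 / 1 * ((x - 1) / 1))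
    + DD (-1 / -1 * (y * (y + x) / (x ^ 2 * (x - 1))))

end AE

theorem st_AE : St_AE := by
  refine ⟨AE.Psi, fun x y τ ax ay hE x0 x1 xm x2 => ?_⟩
  have dx := ax.differentiableAt
  have dy := ay.differentiableAt
  have E0 := hE.self_of_nhds
  have nb : x τ - 1 ≠ 0 := sub_ne_zero.mpr x1
  have nc : x τ + 1 ≠ 0 := fun h => xm (by linear_combination h)
  have n2 : x τ - 2 ≠ 0 := sub_ne_zero.mpr x2
  have nN : x τ * (x τ - 1) * (x τ + 1) ≠ 0 := mul_ne_zero (mul_ne_zero x0 nb) nc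
  have nd : y τ ≠ 0 := fun h => nN (by linear_combination (y τ + 1) * h - E0)
  have ne : y τ + x τ ≠ 0 := fun h => mul_ne_zero (pow_ne_zero 2 x0) nb
    (by linear_combination (y τ - x τ + 1) * h - E0)
  have nf : y τ - x τ ≠ 0 := fun h => mul_ne_zero (mul_ne_zero x0 n2) nc
    (by linear_combination (y τ + x τ + 1) * h - E0)
  have db : DifferentiableAt ℂ (fun σ => x σ - 1) τ := by fun_prop
  have dc : DifferentiableAt ℂ (fun σ => x σ + 1) τ := by fun_prop
  have de : DifferentiableAt ℂ (fun σ => y σ + x σ) τ := by fun_prop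
  have df : DifferentiableAt ℂ (fun σ => y σ - x σ) τ := by fun_prop
  have d1 : DifferentiableAt ℂ (fun _ : ℂ => (1 : ℂ)) τ := by fun_prop
  have p : ‖(1 : ℂ)‖ = 1 := by simp
  have m : ‖(-1 : ℂ)‖ = 1 := by simp
  have t1 := stb p m m dc dx d1 nc x0 one_ne_zero (.of_forall fun σ => by ring)
  have t2 := stb p p m (dy.fun_pow 2) de (dx.fun_pow 3) (pow_ne_zero 2 nd) ne (pow_ne_zero 3 x0)
    (hE.mono fun σ h => by linear_combination h)
  have t3 := stb p m p df dy dx nf nd x0 (.of_forall fun σ => by ring)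
  have t4 := stb p m p dy de dx nd ne x0 (.of_forall fun σ => by ring)
  have t5 := stb p m p (dy.fun_pow 2) ((dx.fun_mul db).fun_mul dc) dy (pow_ne_zero 2 nd) nN nd
    (hE.mono fun σ h => by linear_combination h)
  have t6 := stb p p m (dy.fun_mul df) (dc.fun_mul dy) ((dx.fun_mul db).fun_mul dc)
    (mul_ne_zero nd nf) (mul_ne_zero nc nd) nN (hE.mono fun σ h => by linear_combination h)
  have t7 := stb p p m ((dx.fun_mul db).fun_mul dc) (db.fun_mul dy) (dy.fun_mul de) nN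
    (mul_ne_zero nb nd) (mul_ne_zero nd ne) (hE.mono fun σ h => by linear_combination -h)
  have t8 := stb p m p db dx d1 nb x0 one_ne_zero (.of_forall fun σ => by ring)
  have t9 := stb p m m (dy.fun_mul de) (db.fun_mul de) ((dx.fun_pow 2).fun_mul db)
    (mul_ne_zero nd ne) (mul_ne_zero nb ne) (mul_ne_zero (pow_ne_zero 2 x0) nb)
    (hE.mono fun σ h => by linear_combination h)
  have key := ((((((((t1.cmul (17 / 4)).add t2).sub t3).sub (t4.cmul (13 / 2))).add
    (t5.cmul (5 / 2))).add t6).add (t7.cmul (7 / 2))).add (t8.cmul (3 / 2))).add t9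
  refine key.congr (.of_forall fun σ => rfl) ?_
  have dg : DifferentiableAt ℂ (fun σ => y σ - 2 * x σ + 2) τ := by fun_prop
  have dp : DifferentiableAt ℂ (fun σ => hp (x σ) (y σ)) τ := by unfold hp; fun_prop
  have dm : DifferentiableAt ℂ (fun σ => hm (x σ) (y σ)) τ := by unfold hm; fun_prop
  have eg : (fun σ => (y σ - 2 * x σ + 2) * ((x σ + 1) * (y σ + x σ))) =ᶠ[𝓝 τ]
      fun σ => (x σ - 1) * (y σ * (y σ - x σ)) := hE.mono fun σ h => by linear_combination 2 * h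
  have ep : (fun σ => hp (x σ) (y σ) * (x σ - 1)) =ᶠ[𝓝 τ] fun σ => y σ * (y σ + x σ) :=
    hE.mono fun σ h => by unfold hp; linear_combination -h
  have em : (fun σ => hm (x σ) (y σ) * (y σ * (y σ + x σ))) =ᶠ[𝓝 τ]
      fun σ => x σ ^ 3 * ((x σ - 1) * (x σ + 1)) :=
    hE.mono fun σ h => by unfold hm; linear_combination (x σ ^ 2 - y σ) * h
  have ng : y τ - 2 * x τ + 2 ≠ 0 := fun h => mul_ne_zero nb (mul_ne_zero nd nf)
    (by rw [← eg.eq_of_nhds, h, zero_mul])
  have np : hp (x τ) (y τ) ≠ 0 := fun h => mul_ne_zero nd ne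
    (by rw [← ep.eq_of_nhds, h, zero_mul])
  have nm : hm (x τ) (y τ) ≠ 0 := fun h => mul_ne_zero (pow_ne_zero 3 x0) (mul_ne_zero nb nc)
    (by rw [← em.eq_of_nhds, h, zero_mul])
  have lg := LL_congr eg
  have lp := LL_congr ep
  have lm := LL_congr em
  rw [LL_mul dg (dc.fun_mul de) ng (mul_ne_zero nc ne), LL_mul dc de nc ne,
    LL_mul db (dy.fun_mul df) nb (mul_ne_zero nd nf), LL_mul dy df nd nf] at lg
  rw [LL_mul dp db np nb, LL_mul dy de nd ne] at lp
  rw [LL_mul dm (dy.fun_mul de) nm (mul_ne_zero nd ne), LL_mul dy de nd ne,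
    LL_mul (dx.fun_pow 3) (db.fun_mul dc) (pow_ne_zero 3 x0) (mul_ne_zero nb nc),
    LL_mul db dc nb nc, LL_pow dx] at lm
  simp only [cyc, eta, xi]
  rw [eq_sub_of_add_eq lg, eq_sub_of_add_eq lp, eq_sub_of_add_eq lm,
    LL_mul (dx.fun_mul db) dc (mul_ne_zero x0 nb) nc, LL_mul dx db x0 nb, LL_mul dy df nd nf,
    LL_mul dc dy nc nd, LL_mul db dy nb nd, LL_mul dy de nd ne, LL_mul db de nb ne,
    LL_mul (dx.fun_pow 2) db (pow_ne_zero 2 x0) nb, LL_pow dx, LL_pow dx, LL_pow dy, LL_const p]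
  simp only [wd, Prod.fst_add, Prod.snd_add, Prod.fst_sub, Prod.snd_sub, Prod.smul_fst,
    Prod.smul_snd, Prod.fst_zero, Prod.snd_zero, smul_eq_mul, real_smul]
  push_cast
  ring

end C37
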