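import Pool.Agent.Lib.C37.Kit

/-! Algebraic identities on the plane sextic. -/

set_option linter.unusedVariables false

namespace C37

namespace AG1

def a0 (x y z : ℂ) : ℂ :=
  x ^ 2 * y - 2 * x * y ^ 2 + 2 * x * z ^ 2 + y ^ 3 - 3 * y ^ 2 * z + 2 * y * z ^ 2 - z ^ 3
def b0 (x y z : ℂ) : ℂ :=
  x ^ 3 - 2 * x ^ 2 * y - 2 * x ^ 2 * z + 3 * x * z ^ 2 - y ^ 2 * z + 2 * y * z ^ 2 - z ^ 3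
def a1 (x y z : ℂ) : ℂ :=
  -x ^ 3 + 3 * x ^ 2 * y - 3 * x ^ 2 * z - 3 * x * y ^ 2 + 7 * x * y * z + 3 * x * z ^ 2 - y ^ 3 + 3 * y ^ 2 * z - 3 * y * z ^ 2 - z ^ 3
def b1 (x y z : ℂ) : ℂ :=
  -x ^ 3 + 2 * x ^ 2 * y + x ^ 2 * z + x * y ^ 2 + 2 * x * y * z + 2 * x * z ^ 2 - y ^ 3 + 2 * y ^ 2 * z + y * z ^ 2 - z ^ 3
def a2 (x y z : ℂ) : ℂ :=
  -x ^ 3 + 3 * x ^ 2 * y - 3 * x ^ 2 * z - 3 * x * y ^ 2 + 7 * x * y * z + 3 * x * z ^ 2 - y ^ 3 + 3 * y ^ 2 * z - 3 * y * z ^ 2 - z ^ 3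
def b2 (x y z : ℂ) : ℂ :=
  x ^ 2 * y - 4 * x ^ 2 * z - 4 * x * y ^ 2 + 5 * x * y * z + x * z ^ 2 + y ^ 2 * z - 4 * y * z ^ 2
def a3 (x y z : ℂ) : ℂ :=
  x ^ 2 * y - 2 * x * y ^ 2 + 2 * x * z ^ 2 + y ^ 3 - 3 * y ^ 2 * z + 2 * y * z ^ 2 - z ^ 3
def b3 (x y z : ℂ) : ℂ :=
  -x ^ 3 + 3 * x ^ 2 * y + 2 * x ^ 2 * z - 2 * x * y ^ 2 - x * z ^ 2 + y ^ 3 - 2 * y ^ 2 * z

lemma z0_eq (x y z : ℂ) : z0 x y z = a0 x y z + b0 x y z * w := by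
  unfold z0 a0 b0 RR; linear_combination (y ^ 2 * z + z ^ 3 - 2 * z ^ 2 * x - 2 * z ^ 2 * y) * hw
lemma z1_eq (x y z : ℂ) : z1 x y z = a1 x y z + b1 x y z * w := by
  unfold z1 a1 b1 Aa Ab; ring
lemma z2_eq (x y z : ℂ) : z2 x y z = a2 x y z + b2 x y z * w := by
  unfold z2 a2 b2 Aa Ab; ring
lemma z3_eq (x y z : ℂ) : z3 x y z = a3 x y z + b3 x y z * w := by
  unfold z3 a3 b3 RR; linear_combination (-x ^ 3 * w ^ 2 + 2 * x ^ 2 * y * w ^ 2 + 2 * x ^ 2 * z * w ^ 2 - x * z ^ 2 * w ^ 2 + x ^ 3 * w - 2 * x ^ 2 * y * w - 2 * x ^ 2 * z * w + 3 * x * z ^ 2 * w - y ^ 2 * z * w + 2 * y * z ^ 2 * w - z ^ 3 * w - x ^ 2 * y + 2 * x * y ^ 2 - 2 * x * z ^ 2 - y ^ 3 + 3 * y ^ 2 * z - 2 * y * z ^ 2 + z ^ 3) * hw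

lemma i1g (a0 b0 a1 b1 a2 b2 a3 b3 x y z : ℂ)
    (h0 : a0 * a3 - b0 * b3 - a1 * a2 + b1 * b2 = 0)
    (h1 : a0 * b3 + b0 * a3 - b0 * b3 - a1 * b2 - b1 * a2 + b1 * b2 = 0) :
    (a0 + b0 * w) * (a3 + b3 * w) - (a1 + b1 * w) * (a2 + b2 * w) = 0 := by
  linear_combination h0 + w * h1 + (b0 * b3 - b1 * b2) * hw

lemma i1 (x y z : ℂ) (hF : Fs x y z = 0) :
    z0 x y z * z3 x y z - z1 x y z * z2 x y z = 0 := by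
  rw [z0_eq, z1_eq, z2_eq, z3_eq]
  unfold Fs at hF
  refine i1g (a0 x y z) (b0 x y z) (a1 x y z) (b1 x y z) (a2 x y z) (b2 x y z) (a3 x y z)
    (b3 x y z) x y z ?_ ?_
  · unfold a0 b0 a1 b1 a2 b2 a3 b3
    linear_combination (-6) * hF
  · unfold a0 b0 a1 b1 a2 b2 a3 b3
    linear_combination (-6) * hF

lemma i2g (a0 b0 a1 b1 a2 b2 a3 b3 x y z : ℂ)
    (h0 : 7 * a0 ^ 3 - 9 * a0 ^ 2 * b0 - 12 * a0 * b0 ^ 2 + 7 * b0 ^ 3 - a1 ^ 3 - 9 * a1 ^ 2 * a2 + 3 * a1 * b1 ^ 2 + 18 * a1 * b1 * b2 + 9 * a1 * a2 ^ 2 - 9 * a1 * b2 ^ 2 - b1 ^ 3 + 9 * b1 ^ 2 * a2 - 9 * b1 ^ 2 * b2 - 18 * b1 * a2 * b2 + 9 * b1 * b2 ^ 2 + a2 ^ 3 - 3 * a2 * b2 ^ 2 + b2 ^ 3 - 4 * a3 ^ 3 - 9 * a3 ^ 2 * b3 + 21 * a3 * b3 ^ 2 - 4 * b3 ^ 3 = 0)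
    (h1 : 3 * a0 ^ 3 + 12 * a0 ^ 2 * b0 - 21 * a0 * b0 ^ 2 + 3 * b0 ^ 3 - 3 * a1 ^ 2 * b1 - 9 * a1 ^ 2 * b2 + 3 * a1 * b1 ^ 2 - 18 * a1 * b1 * a2 + 18 * a1 * b1 * b2 + 18 * a1 * a2 * b2 - 9 * a1 * b2 ^ 2 + 9 * b1 ^ 2 * a2 + 9 * b1 * a2 ^ 2 - 18 * b1 * a2 * b2 + 3 * a2 ^ 2 * b2 - 3 * a2 * b2 ^ 2 + 3 * a3 ^ 3 - 21 * a3 ^ 2 * b3 + 12 * a3 * b3 ^ 2 + 3 * b3 ^ 3 = 0) :
    (-4 + 3 * w) * (a3 + b3 * w) ^ 3 - (-7 - 3 * w) * (a0 + b0 * w) ^ 3 - ((a1 + b1 * w) - (a2 + b2 * w)) * ((a1 + b1 * w) ^ 2 + 10 * (a1 + b1 * w) * (a2 + b2 * w) + (a2 + b2 * w) ^ 2) = 0 := by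
  linear_combination h0 + w * h1 + (3 * b0 ^ 3 * w ^ 2 + 3 * b3 ^ 3 * w ^ 2 + 9 * a0 * b0 ^ 2 * w + 4 * b0 ^ 3 * w - b1 ^ 3 * w - 9 * b1 ^ 2 * b2 * w + 9 * b1 * b2 ^ 2 * w + b2 ^ 3 * w + 9 * a3 * b3 ^ 2 * w - 7 * b3 ^ 3 * w + 9 * a0 ^ 2 * b0 + 12 * a0 * b0 ^ 2 - 7 * b0 ^ 3 - 3 * a1 * b1 ^ 2 - 18 * a1 * b1 * b2 + 9 * a1 * b2 ^ 2 + b1 ^ 3 - 9 * b1 ^ 2 * a2 + 9 * b1 ^ 2 * b2 + 18 * b1 * a2 * b2 - 9 * b1 * b2 ^ 2 + 3 * a2 * b2 ^ 2 - b2 ^ 3 + 9 * a3 ^ 2 * b3 - 21 * a3 * b3 ^ 2 + 4 * b3 ^ 3) * hw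

lemma i2 (x y z : ℂ) (hF : Fs x y z = 0) :
    (-4 + 3 * w) * z3 x y z ^ 3 - (-7 - 3 * w) * z0 x y z ^ 3 - (z1 x y z - z2 x y z) * (z1 x y z ^ 2 + 10 * z1 x y z * z2 x y z + z2 x y z ^ 2) = 0 := by
  rw [z0_eq, z1_eq, z2_eq, z3_eq]
  unfold Fs at hF
  refine i2g (a0 x y z) (b0 x y z) (a1 x y z) (b1 x y z) (a2 x y z) (b2 x y z) (a3 x y z)
    (b3 x y z) x y z ?_ ?_
  · unfold a0 b0 a1 b1 a2 b2 a3 b3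
    linear_combination (-45 * x ^ 3 + 18 * x ^ 2 * y + 333 * x ^ 2 * z + 333 * x * y ^ 2 - 270 * x * y * z + 18 * x * z ^ 2 - 45 * y ^ 3 + 18 * y ^ 2 * z + 333 * y * z ^ 2 - 45 * z ^ 3) * hF
  · unfold a0 b0 a1 b1 a2 b2 a3 b3
    linear_combination (0) * hF

lemma i3g (a0 b0 a1 b1 a2 b2 a3 b3 x y z : ℂ)
    (h0 : -a0 ^ 3 * x + 3 * a0 ^ 2 * b0 * x + 3 * a0 ^ 2 * b0 * z + a0 ^ 2 * b1 * x - a0 ^ 2 * b1 * z + 2 * a0 ^ 2 * a2 * x + 2 * a0 ^ 2 * b2 * z - 3 * a0 * b0 ^ 2 * z + 2 * a0 * b0 * a1 * x - 2 * a0 * b0 * a1 * z - 2 * a0 * b0 * b1 * x + 2 * a0 * b0 * b1 * z + 4 * a0 * b0 * a2 * z - 4 * a0 * b0 * b2 * x - 4 * a0 * b0 * b2 * z + 2 * a0 * a1 * a2 * x - 2 * a0 * a1 * b2 * x - 2 * a0 * a1 * b2 * z - 2 * a0 * b1 * a2 * x - 2 * a0 * b1 * a2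 * z + 2 * a0 * b1 * b2 * z - 2 * a0 * a2 * b2 * x + 2 * a0 * a2 * b2 * z + a0 * b2 ^ 2 * x - a0 * b2 ^ 2 * z - b0 ^ 3 * x - b0 ^ 2 * a1 * x + b0 ^ 2 * a1 * z - 2 * b0 ^ 2 * a2 * x - 2 * b0 ^ 2 * a2 * z + 2 * b0 ^ 2 * b2 * x - 2 * b0 * a1 * a2 * x - 2 * b0 * a1 * a2 * z + 2 * b0 * a1 * b2 * z + 2 * b0 * b1 * a2 * z + 2 * b0 * b1 * b2 * x - b0 * a2 ^ 2 * x + b0 * a2 ^ 2 * z + 2 * b0 * a2 * b2 * x - 2 * b0 * a2 * b2 * z - a1 * a2 ^ 2 * x - 2 * a1 * a2 * b2 * z + a1 * b2 ^ 2 * x + a1 * b2 ^ 2 * z - b1 * a2 ^ 2 * z + 2 * b1 * a2 * b2 * x + 2 * b1 * a2 * b2 * z - b1 * b2 ^ 2 * x = 0)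
    (h1 : -a0 ^ 3 * x - a0 ^ 3 * z + 3 * a0 ^ 2 * b0 * z - a0 ^ 2 * a1 * x + a0 ^ 2 * a1 * z + a0 ^ 2 * b1 * x - a0 ^ 2 * b1 * z - 2 * a0 ^ 2 * a2 * z + 2 * a0 ^ 2 * b2 * x + 2 * a0 ^ 2 * b2 * z + 3 * a0 * b0 ^ 2 * x + 2 * a0 * b0 * a1 * x - 2 * a0 * b0 * a1 * z + 4 * a0 * b0 * a2 * x + 4 * a0 * b0 * a2 * z - 4 * a0 * b0 * b2 * x + 2 * a0 * a1 * a2 * x + 2 * a0 * a1 * a2 * z - 2 * a0 * a1 * b2 * z - 2 * a0 * b1 * a2 * z - 2 * a0 * b1 * b2 * x + a0 * a2 ^ 2 * x - a0 * a2 ^ 2 * z - 2 * a0 * a2 * b2 * x + 2 * a0 * a2 * b2 * z - b0 ^ 3 * x - b0 ^ 3 * z - b0 ^ 2 * b1 * x + b0 ^ 2 * b1 * z - 2 * b0 ^ 2 * a2 * x - 2 * b0 ^ 2 * b2 * z - 2 * b0 * a1 * a2 * z - 2 * b0 * a1 * b2 * x - 2 * b0 * b1 * a2 * x + 2 * b0 * b1 * b2 * x + 2 * b0 * b1 * b2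 * z - b0 * a2 ^ 2 * x + b0 * a2 ^ 2 * z + b0 * b2 ^ 2 * x - b0 * b2 ^ 2 * z + a1 * a2 ^ 2 * z - 2 * a1 * a2 * b2 * x - 2 * a1 * a2 * b2 * z + a1 * b2 ^ 2 * x - b1 * a2 ^ 2 * x - b1 * a2 ^ 2 * z + 2 * b1 * a2 * b2 * x + b1 * b2 ^ 2 * z = 0) :
    ((a2 + b2 * w) + (a0 + b0 * w)) ^ 2 * ((a1 + b1 * w) - (a0 + b0 * w)) * z * w - ((a2 + b2 * w) + (a0 + b0 * w) * w ^ 2) ^ 2 * ((a1 + b1 * w) - (a0 + b0 * w) * w) * x = 0 := by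
  linear_combination h0 + w * h1 + (b0 ^ 3 * x * w ^ 6 + 3 * a0 * b0 ^ 2 * x * w ^ 5 - b0 ^ 3 * x * w ^ 5 - b0 ^ 2 * b1 * x * w ^ 5 + 3 * a0 ^ 2 * b0 * x * w ^ 4 - 3 * a0 * b0 ^ 2 * x * w ^ 4 - 2 * a0 * b0 * b1 * x * w ^ 4 - b0 ^ 2 * a1 * x * w ^ 4 + b0 ^ 2 * b1 * x * w ^ 4 + 2 * b0 ^ 2 * b2 * x * w ^ 4 + a0 ^ 3 * x * w ^ 3 - 3 * a0 ^ 2 * b0 * x * w ^ 3 - a0 ^ 2 * b1 * x * w ^ 3 - 2 * a0 * b0 * a1 * x * w ^ 3 + 2 * a0 * b0 * b1 * x * w ^ 3 + 4 * a0 * b0 * b2 * x * w ^ 3 + b0 ^ 3 * x * w ^ 3 + b0 ^ 2 * a1 * x * w ^ 3 + 2 * b0 ^ 2 * a2 * x * w ^ 3 - 2 * b0 ^ 2 * b2 * x * w ^ 3 - 2 * b0 * b1 * b2 * x * w ^ 3 - a0 ^ 3 * x * w ^ 2 - a0 ^ 2 * a1 * x * w ^ 2 + a0 ^ 2 * b1 * x * w ^ 2 + 2 * a0 ^ 2 * b2 * x * w ^ 2 + 3 * a0 * b0 ^ 2 * x * w ^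 2 + 2 * a0 * b0 * a1 * x * w ^ 2 + 4 * a0 * b0 * a2 * x * w ^ 2 - 4 * a0 * b0 * b2 * x * w ^ 2 - 2 * a0 * b1 * b2 * x * w ^ 2 - b0 ^ 3 * x * w ^ 2 - b0 ^ 3 * z * w ^ 2 - b0 ^ 2 * b1 * x * w ^ 2 + b0 ^ 2 * b1 * z * w ^ 2 - 2 * b0 ^ 2 * a2 * x * w ^ 2 - 2 * b0 ^ 2 * b2 * z * w ^ 2 - 2 * b0 * a1 * b2 * x * w ^ 2 - 2 * b0 * b1 * a2 * x * w ^ 2 + 2 * b0 * b1 * b2 * x * w ^ 2 + 2 * b0 * b1 * b2 * z * w ^ 2 + b0 * b2 ^ 2 * x * w ^ 2 - b0 * b2 ^ 2 * z * w ^ 2 + b1 * b2 ^ 2 * z * w ^ 2 + 3 * a0 ^ 2 * b0 * x * w + a0 ^ 2 * a1 * x * w + 2 * a0 ^ 2 * a2 * x * w - 2 * a0 ^ 2 * b2 * x * w - 3 * a0 * b0 ^ 2 * x * w - 3 * a0 * b0 ^ 2 * z * w - 2 * a0 * b0 * b1 * x * w + 2 * a0 * b0 * b1 * z * w - 4 * a0 * b0 * a2 * x * w - 4 * a0 * b0 * b2 * z * w -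 2 * a0 * a1 * b2 * x * w - 2 * a0 * b1 * a2 * x * w + 2 * a0 * b1 * b2 * x * w + 2 * a0 * b1 * b2 * z * w + a0 * b2 ^ 2 * x * w - a0 * b2 ^ 2 * z * w + b0 ^ 3 * z * w - b0 ^ 2 * a1 * x * w + b0 ^ 2 * a1 * z * w + b0 ^ 2 * b1 * x * w - b0 ^ 2 * b1 * z * w - 2 * b0 ^ 2 * a2 * z * w + 2 * b0 ^ 2 * b2 * x * w + 2 * b0 ^ 2 * b2 * z * w - 2 * b0 * a1 * a2 * x * w + 2 * b0 * a1 * b2 * x * w + 2 * b0 * a1 * b2 * z * w + 2 * b0 * b1 * a2 * x * w + 2 * b0 * b1 * a2 * z * w - 2 * b0 * b1 * b2 * z * w + 2 * b0 * a2 * b2 * x * w - 2 * b0 * a2 * b2 * z * w - b0 * b2 ^ 2 * x * w + b0 * b2 ^ 2 * z * w + a1 * b2 ^ 2 * z * w + 2 * b1 * a2 * b2 * z * w - b1 * b2 ^ 2 * x * w - b1 * b2 ^ 2 * z * w + a0 ^ 3 * x - 3 * a0 ^ 2 * b0 * x - 3 * a0 ^ 2 * b0 * z -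 a0 ^ 2 * b1 * x + a0 ^ 2 * b1 * z - 2 * a0 ^ 2 * a2 * x - 2 * a0 ^ 2 * b2 * z + 3 * a0 * b0 ^ 2 * z - 2 * a0 * b0 * a1 * x + 2 * a0 * b0 * a1 * z + 2 * a0 * b0 * b1 * x - 2 * a0 * b0 * b1 * z - 4 * a0 * b0 * a2 * z + 4 * a0 * b0 * b2 * x + 4 * a0 * b0 * b2 * z - 2 * a0 * a1 * a2 * x + 2 * a0 * a1 * b2 * x + 2 * a0 * a1 * b2 * z + 2 * a0 * b1 * a2 * x + 2 * a0 * b1 * a2 * z - 2 * a0 * b1 * b2 * z + 2 * a0 * a2 * b2 * x - 2 * a0 * a2 * b2 * z - a0 * b2 ^ 2 * x + a0 * b2 ^ 2 * z + b0 ^ 3 * x + b0 ^ 2 * a1 * x - b0 ^ 2 * a1 * z + 2 * b0 ^ 2 * a2 * x + 2 * b0 ^ 2 * a2 * z - 2 * b0 ^ 2 * b2 * x + 2 * b0 * a1 * a2 * x + 2 * b0 * a1 * a2 * z - 2 * b0 * a1 * b2 * z - 2 * b0 * b1 * a2 * z - 2 * b0 * b1 * b2 * x + b0 * a2 ^ 2 * x - b0 * a2 ^ 2 *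 z - 2 * b0 * a2 * b2 * x + 2 * b0 * a2 * b2 * z + 2 * a1 * a2 * b2 * z - a1 * b2 ^ 2 * x - a1 * b2 ^ 2 * z + b1 * a2 ^ 2 * z - 2 * b1 * a2 * b2 * x - 2 * b1 * a2 * b2 * z + b1 * b2 ^ 2 * x) * hw

lemma i3 (x y z : ℂ) (hF : Fs x y z = 0) :
    (z2 x y z + z0 x y z) ^ 2 * (z1 x y z - z0 x y z) * z * w - (z2 x y z + z0 x y z * w ^ 2) ^ 2 * (z1 x y z - z0 x y z * w) * x = 0 := by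
  rw [z0_eq, z1_eq, z2_eq]
  unfold Fs at hF
  refine i3g (a0 x y z) (b0 x y z) (a1 x y z) (b1 x y z) (a2 x y z) (b2 x y z) (a3 x y z)
    (b3 x y z) x y z ?_ ?_
  · unfold a0 b0 a1 b1 a2 b2
    linear_combination (3 * x ^ 4 - 15 * x ^ 3 * y + 9 * x ^ 2 * y ^ 2 - 15 * x ^ 2 * y * z - 3 * x ^ 2 * z ^ 2 + 6 * x * y ^ 3 + 33 * x * y ^ 2 * z - 81 * x * y * z ^ 2 - 27 * x * z ^ 3 - 3 * y ^ 4 + 15 * y ^ 3 * z - 15 * y ^ 2 * z ^ 2 + 6 * y * z ^ 3 + 15 * z ^ 4) * hF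
  · unfold a0 b0 a1 b1 a2 b2
    linear_combination (-3 * x ^ 4 - 3 * x ^ 3 * y + 27 * x ^ 3 * z + 27 * x ^ 2 * y ^ 2 - 12 * x ^ 2 * y * z + 3 * x ^ 2 * z ^ 2 + 3 * x * y ^ 3 - 6 * x * y ^ 2 * z - 36 * x * y * z ^ 2 - 9 * x * z ^ 3 + 3 * y ^ 4 + 3 * y ^ 3 * z - 21 * y ^ 2 * z ^ 2 + 21 * y * z ^ 3 + 3 * z ^ 4) * hF

lemma i4g (a0 b0 a1 b1 a2 b2 a3 b3 x y z : ℂ)
    (h0 : a0 ^ 3 * x + 3 * a0 ^ 2 * b0 * y + a0 ^ 2 * a1 * x - a0 ^ 2 * a1 * y - a0 ^ 2 * b1 * x + a0 ^ 2 * b1 * y - 2 * a0 ^ 2 * a2 * x + 2 * a0 ^ 2 * b2 * x + 2 * a0 ^ 2 * b2 * y - 3 * a0 * b0 ^ 2 * x - 3 * a0 * b0 ^ 2 * y - 2 * a0 * b0 * a1 * x + 2 * a0 * b0 * a1 * y + 4 * a0 * b0 * a2 * x + 4 * a0 * b0 * a2 * y - 4 * a0 * b0 * b2 * y - 2 * a0 * a1 * a2 * y + 2 * a0 * a1 * b2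 * x + 2 * a0 * a1 * b2 * y + 2 * a0 * b1 * a2 * x + 2 * a0 * b1 * a2 * y - 2 * a0 * b1 * b2 * x - 2 * a0 * a2 * b2 * x + 2 * a0 * a2 * b2 * y + a0 * b2 ^ 2 * x - a0 * b2 ^ 2 * y + b0 ^ 3 * x + b0 ^ 2 * b1 * x - b0 ^ 2 * b1 * y - 2 * b0 ^ 2 * a2 * y - 2 * b0 ^ 2 * b2 * x + 2 * b0 * a1 * a2 * x + 2 * b0 * a1 * a2 * y - 2 * b0 * a1 * b2 * x - 2 * b0 * b1 * a2 * x - 2 * b0 * b1 * b2 * y - b0 * a2 ^ 2 * x + b0 * a2 ^ 2 * y + 2 * b0 * a2 * b2 * x - 2 * b0 * a2 * b2 * y - a1 * a2 ^ 2 * x - a1 * a2 ^ 2 * y + 2 * a1 * a2 * b2 * y + a1 * b2 ^ 2 * x + b1 * a2 ^ 2 * y + 2 * b1 * a2 * b2 * x - b1 * b2 ^ 2 * x - b1 * b2 ^ 2 * y = 0)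
    (h1 : -a0 ^ 3 * y + 3 * a0 ^ 2 * b0 * x + 3 * a0 ^ 2 * b0 * y + a0 ^ 2 * a1 * x - a0 ^ 2 * a1 * y - 2 * a0 ^ 2 * a2 * x - 2 * a0 ^ 2 * a2 * y + 2 * a0 ^ 2 * b2 * y - 3 * a0 * b0 ^ 2 * x - 2 * a0 * b0 * b1 * x + 2 * a0 * b0 * b1 * y + 4 * a0 * b0 * a2 * y + 4 * a0 * b0 * b2 * x - 2 * a0 * a1 * a2 * x - 2 * a0 * a1 * a2 * y + 2 * a0 * a1 * b2 * x + 2 * a0 * b1 * a2 * x + 2 * a0 * b1 * b2 * y + a0 * a2 ^ 2 * x - a0 * a2 ^ 2 * y - 2 * a0 * a2 * b2 * x + 2 * a0 * a2 * b2 * y - b0 ^ 3 * y - b0 ^ 2 * a1 * x + b0 ^ 2 * a1 * y + b0 ^ 2 * b1 * x - b0 ^ 2 * b1 * y + 2 * b0 ^ 2 * a2 * x - 2 * b0 ^ 2 * b2 * x - 2 * b0 ^ 2 * b2 * y + 2 * b0 * a1 * a2 * x + 2 * b0 * a1 * b2 * y + 2 * b0 * b1 * a2 * y - 2 * b0 * b1 * b2 * x - 2 * b0 * b1 * b2 * y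 - b0 * a2 ^ 2 * x + b0 * a2 ^ 2 * y + b0 * b2 ^ 2 * x - b0 * b2 ^ 2 * y - a1 * a2 ^ 2 * y - 2 * a1 * a2 * b2 * x + a1 * b2 ^ 2 * x + a1 * b2 ^ 2 * y - b1 * a2 ^ 2 * x + 2 * b1 * a2 * b2 * x + 2 * b1 * a2 * b2 * y - b1 * b2 ^ 2 * y = 0) :
    ((a2 + b2 * w) + (a0 + b0 * w)) ^ 2 * ((a1 + b1 * w) - (a0 + b0 * w) * w ^ 2) * y * w ^ 2 - ((a2 + b2 * w) + (a0 + b0 * w) * w) ^ 2 * ((a1 + b1 * w) - (a0 + b0 * w) * w) * x = 0 := by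
  linear_combination h0 + w * h1 + (-b0 ^ 3 * y * w ^ 5 - 2 * b0 ^ 2 * b2 * y * w ^ 5 - b0 * b2 ^ 2 * y * w ^ 5 - 3 * a0 * b0 ^ 2 * y * w ^ 4 - 4 * a0 * b0 * b2 * y * w ^ 4 - a0 * b2 ^ 2 * y * w ^ 4 + b0 ^ 3 * x * w ^ 4 + b0 ^ 3 * y * w ^ 4 - 2 * b0 ^ 2 * a2 * y * w ^ 4 + 2 * b0 ^ 2 * b2 * y * w ^ 4 - 2 * b0 * a2 * b2 * y * w ^ 4 + b0 * b2 ^ 2 * y * w ^ 4 - 3 * a0 ^ 2 * b0 * y * w ^ 3 - 2 * a0 ^ 2 * b2 * y * w ^ 3 + 3 * a0 * b0 ^ 2 * x * w ^ 3 + 3 * a0 * b0 ^ 2 * y * w ^ 3 - 4 * a0 * b0 * a2 * y * w ^ 3 + 4 * a0 * b0 * b2 * y * w ^ 3 - 2 * a0 * a2 * b2 * y * w ^ 3 + a0 * b2 ^ 2 * y * w ^ 3 - b0 ^ 3 * x * w ^ 3 - b0 ^ 2 * b1 * x * w ^ 3 + b0 ^ 2 * b1 * y * w ^ 3 + 2 * b0 ^ 2 * a2 * y * w ^ 3 + 2 * b0 ^ 2 * b2 * x * w ^ 3 + 2 * b0 * b1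 * b2 * y * w ^ 3 - b0 * a2 ^ 2 * y * w ^ 3 + 2 * b0 * a2 * b2 * y * w ^ 3 + b1 * b2 ^ 2 * y * w ^ 3 - a0 ^ 3 * y * w ^ 2 + 3 * a0 ^ 2 * b0 * x * w ^ 2 + 3 * a0 ^ 2 * b0 * y * w ^ 2 - 2 * a0 ^ 2 * a2 * y * w ^ 2 + 2 * a0 ^ 2 * b2 * y * w ^ 2 - 3 * a0 * b0 ^ 2 * x * w ^ 2 - 2 * a0 * b0 * b1 * x * w ^ 2 + 2 * a0 * b0 * b1 * y * w ^ 2 + 4 * a0 * b0 * a2 * y * w ^ 2 + 4 * a0 * b0 * b2 * x * w ^ 2 + 2 * a0 * b1 * b2 * y * w ^ 2 - a0 * a2 ^ 2 * y * w ^ 2 + 2 * a0 * a2 * b2 * y * w ^ 2 - b0 ^ 3 * y * w ^ 2 - b0 ^ 2 * a1 * x * w ^ 2 + b0 ^ 2 * a1 * y * w ^ 2 + b0 ^ 2 * b1 * x * w ^ 2 - b0 ^ 2 * b1 * y * w ^ 2 + 2 * b0 ^ 2 * a2 * x * w ^ 2 - 2 * b0 ^ 2 * b2 * x * w ^ 2 - 2 * b0 ^ 2 * b2 * y * w ^ 2 + 2 * b0 * a1 * b2 * y * w ^ 2 + 2 * b0 * b1 *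 a2 * y * w ^ 2 - 2 * b0 * b1 * b2 * x * w ^ 2 - 2 * b0 * b1 * b2 * y * w ^ 2 + b0 * a2 ^ 2 * y * w ^ 2 + b0 * b2 ^ 2 * x * w ^ 2 - b0 * b2 ^ 2 * y * w ^ 2 + a1 * b2 ^ 2 * y * w ^ 2 + 2 * b1 * a2 * b2 * y * w ^ 2 - b1 * b2 ^ 2 * y * w ^ 2 + a0 ^ 3 * x * w + a0 ^ 3 * y * w - 3 * a0 ^ 2 * b0 * x * w - a0 ^ 2 * b1 * x * w + a0 ^ 2 * b1 * y * w + 2 * a0 ^ 2 * a2 * y * w + 2 * a0 ^ 2 * b2 * x * w - 3 * a0 * b0 ^ 2 * y * w - 2 * a0 * b0 * a1 * x * w + 2 * a0 * b0 * a1 * y * w + 2 * a0 * b0 * b1 * x * w - 2 * a0 * b0 * b1 * y * w + 4 * a0 * b0 * a2 * x * w - 4 * a0 * b0 * b2 * x * w - 4 * a0 * b0 * b2 * y * w + 2 * a0 * a1 * b2 * y * w + 2 * a0 * b1 * a2 * y * w - 2 * a0 * b1 * b2 * x * w - 2 * a0 * b1 * b2 * y * w + a0 * a2 ^ 2 * y * w + a0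 * b2 ^ 2 * x * w - a0 * b2 ^ 2 * y * w + b0 ^ 3 * x * w + b0 ^ 3 * y * w + b0 ^ 2 * a1 * x * w - b0 ^ 2 * a1 * y * w - 2 * b0 ^ 2 * a2 * x * w - 2 * b0 ^ 2 * a2 * y * w + 2 * b0 ^ 2 * b2 * y * w + 2 * b0 * a1 * a2 * y * w - 2 * b0 * a1 * b2 * x * w - 2 * b0 * a1 * b2 * y * w - 2 * b0 * b1 * a2 * x * w - 2 * b0 * b1 * a2 * y * w + 2 * b0 * b1 * b2 * x * w + 2 * b0 * a2 * b2 * x * w - 2 * b0 * a2 * b2 * y * w - b0 * b2 ^ 2 * x * w + b0 * b2 ^ 2 * y * w + 2 * a1 * a2 * b2 * y * w - a1 * b2 ^ 2 * y * w + b1 * a2 ^ 2 * y * w - 2 * b1 * a2 * b2 * y * w - b1 * b2 ^ 2 * x * w - a0 ^ 3 * x - 3 * a0 ^ 2 * b0 * y - a0 ^ 2 * a1 * x + a0 ^ 2 * a1 * y + a0 ^ 2 * b1 * x - a0 ^ 2 * b1 * y + 2 * a0 ^ 2 * a2 * x - 2 * a0 ^ 2 * b2 * x - 2 * a0 ^ 2 * b2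 * y + 3 * a0 * b0 ^ 2 * x + 3 * a0 * b0 ^ 2 * y + 2 * a0 * b0 * a1 * x - 2 * a0 * b0 * a1 * y - 4 * a0 * b0 * a2 * x - 4 * a0 * b0 * a2 * y + 4 * a0 * b0 * b2 * y + 2 * a0 * a1 * a2 * y - 2 * a0 * a1 * b2 * x - 2 * a0 * a1 * b2 * y - 2 * a0 * b1 * a2 * x - 2 * a0 * b1 * a2 * y + 2 * a0 * b1 * b2 * x + 2 * a0 * a2 * b2 * x - 2 * a0 * a2 * b2 * y - a0 * b2 ^ 2 * x + a0 * b2 ^ 2 * y - b0 ^ 3 * x - b0 ^ 2 * b1 * x + b0 ^ 2 * b1 * y + 2 * b0 ^ 2 * a2 * y + 2 * b0 ^ 2 * b2 * x - 2 * b0 * a1 * a2 * x - 2 * b0 * a1 * a2 * y + 2 * b0 * a1 * b2 * x + 2 * b0 * b1 * a2 * x + 2 * b0 * b1 * b2 * y + b0 * a2 ^ 2 * x - b0 * a2 ^ 2 * y - 2 * b0 * a2 * b2 * x + 2 * b0 * a2 * b2 * y + a1 * a2 ^ 2 * y - 2 * a1 * a2 * b2 * y - a1 * b2 ^ 2 * x - b1 * a2 ^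 2 * y - 2 * b1 * a2 * b2 * x + b1 * b2 ^ 2 * x + b1 * b2 ^ 2 * y) * hw

lemma i4 (x y z : ℂ) (hF : Fs x y z = 0) :
    (z2 x y z + z0 x y z) ^ 2 * (z1 x y z - z0 x y z * w ^ 2) * y * w ^ 2 - (z2 x y z + z0 x y z * w) ^ 2 * (z1 x y z - z0 x y z * w) * x = 0 := by
  rw [z0_eq, z1_eq, z2_eq]
  unfold Fs at hF
  refine i4g (a0 x y z) (b0 x y z) (a1 x y z) (b1 x y z) (a2 x y z) (b2 x y z) (a3 x y z)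
    (b3 x y z) x y z ?_ ?_
  · unfold a0 b0 a1 b1 a2 b2
    linear_combination (12 * x ^ 4 - 18 * x ^ 3 * y - 15 * x ^ 3 * z - 6 * x ^ 2 * y ^ 2 - 45 * x ^ 2 * y * z + 6 * x ^ 2 * z ^ 2 - 27 * x * y ^ 3 - 3 * x * y ^ 2 * z + 39 * x * y * z ^ 2 + 12 * x * z ^ 3 + 6 * y ^ 4 - 12 * y ^ 3 * z - 18 * y ^ 2 * z ^ 2 + 3 * y * z ^ 3 - 6 * z ^ 4) * hF
  · unfold a0 b0 a1 b1 a2 b2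
    linear_combination (15 * x ^ 4 - 27 * x ^ 3 * y + 6 * x ^ 3 * z - 3 * x ^ 2 * y ^ 2 - 81 * x ^ 2 * y * z - 15 * x ^ 2 * z ^ 2 - 15 * x * y ^ 2 * z + 33 * x * y * z ^ 2 + 15 * x * z ^ 3 + 3 * y ^ 4 - 15 * y ^ 3 * z + 9 * y ^ 2 * z ^ 2 + 6 * y * z ^ 3 - 3 * z ^ 4) * hF

end AG1

open AG1 in
theorem st_AG1 : St_AG1 := by
  intro x y z hF h0
  have h1 := i1 x y z hF
  have h2 := i2 x y z hF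
  have h3 := i3 x y z hF
  have h4 := i4 x y z hF
  have e1 : z1 x y z = pp x y z * z0 x y z := by unfold pp; field_simp
  have e2 : z2 x y z = rr x y z * z0 x y z := by unfold rr; field_simp
  have e3 : pp x y z * rr x y z * z0 x y z = z3 x y z := by
    apply mul_left_cancel₀ h0
    rw [e1, e2] at h1
    linear_combination -h1
  rw [← e3, e1, e2] at h2
  rw [e1, e2] at h3 h4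
  generalize pp x y z = p at *
  generalize rr x y z = r at *
  generalize z0 x y z = t at *
  have ht : t ^ 3 ≠ 0 := pow_ne_zero _ h0
  refine ⟨?_, e3, fun hp => ?_⟩
  · apply mul_left_cancel₀ ht
    unfold Ph
    linear_combination h2
  · have w3 := w_cube
    have n0 : p - 1 ≠ 0 := fun h => hp (by rw [sub_eq_zero.mp h]; norm_num)
    have n1 : p - w ≠ 0 := fun h => hp (by rw [sub_eq_zero.mp h]; exact w3)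
    have n2 : p - w ^ 2 ≠ 0 := fun h => hp (by
      rw [sub_eq_zero.mp h]; linear_combination (w ^ 3 + 1) * w3)
    have w4 : w ^ (2 + 2) = w := by linear_combination w * w3
    have h5 : (r + 1) ^ 2 * (p - 1) * z * w - (r + w ^ 2) ^ 2 * (p - w) * x = 0 := by
      apply mul_left_cancel₀ ht
      linear_combination h3
    have h6 : (r + 1) ^ 2 * (p - w ^ 2) * y * w ^ 2 - (r + w) ^ 2 * (p - w) * x = 0 := by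
      apply mul_left_cancel₀ ht
      linear_combination h4
    simp only [cc, w4, Nat.reduceAdd, w3, pow_zero, pow_one]
    constructor
    · field_simp
      linear_combination h5
    · field_simp
      linear_combination h6

end C37
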