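import Pool.Agent.Lib.C37.Kit

/-! Derivatives of the canonical coordinates along the sextic. -/

open Complex Filter Topology Set MeasureTheory Asymptotics
open scoped Real ComplexConjugate

namespace C37

namespace XAG2

noncomputable section

/-- coefficients of a cubic form -/
structure Cf where
  (c0 c1 c2 c3 c4 c5 c6 c7 c8 c9 : ℂ)

def C3 (c : Cf) (x y z : ℂ) : ℂ :=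
  c.c0 * x ^ 3 + c.c1 * x ^ 2 * y + c.c2 * x ^ 2 * z + c.c3 * x * y ^ 2 + c.c4 * x * y * z +
    c.c5 * x * z ^ 2 + c.c6 * y ^ 3 + c.c7 * y ^ 2 * z + c.c8 * y * z ^ 2 + c.c9 * z ^ 3
def Cx (c : Cf) (x y z : ℂ) : ℂ :=
  3 * c.c0 * x ^ 2 + 2 * c.c1 * x * y + 2 * c.c2 * x * z + c.c3 * y ^ 2 + c.c4 * y * z +
    c.c5 * z ^ 2
def Cy (c : Cf) (x y z : ℂ) : ℂ :=
  c.c1 * x ^ 2 + 2 * c.c3 * x * y + c.c4 * x * z + 3 * c.c6 * y ^ 2 + 2 * c.c7 * y * z +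
    c.c8 * z ^ 2
def Cz (c : Cf) (x y z : ℂ) : ℂ :=
  c.c2 * x ^ 2 + c.c4 * x * y + 2 * c.c5 * x * z + c.c7 * y ^ 2 + 2 * c.c8 * y * z +
    3 * c.c9 * z ^ 2
def Cb (c : Cf) (x y z : ℂ) : ℂ := Cx c x y z * Fd y z x - Cy c x y z * Fd x y z

def k0 : Cf :=
  ⟨0 + 1 * w, 1 - 2 * w, 0 - 2 * w, -2 + 0 * w, 0 + 0 * w,
    2 + 3 * w, 1 + 0 * w, -3 - 1 * w, 2 + 2 * w, -1 - 1 * w⟩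
def k1 : Cf :=
  ⟨-1 - 1 * w, 3 + 2 * w, -3 + 1 * w, -3 + 1 * w, 7 + 2 * w,
    3 + 2 * w, -1 - 1 * w, 3 + 2 * w, -3 + 1 * w, -1 - 1 * w⟩
def k2 : Cf :=
  ⟨-1 + 0 * w, 3 + 1 * w, -3 - 4 * w, -3 - 4 * w, 7 + 5 * w,
    3 + 1 * w, -1 + 0 * w, 3 + 1 * w, -3 - 4 * w, -1 + 0 * w⟩
def k3 : Cf :=
  ⟨0 - 1 * w, 1 + 3 * w, 0 + 2 * w, -2 - 2 * w, 0 + 0 * w,
    2 - 1 * w, 1 + 1 * w, -3 - 2 * w, 2 + 0 * w, -1 + 0 * w⟩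

end

lemma e0 (x y z : ℂ) : z0 x y z = C3 k0 x y z := by
  have h : z0 x y z = RR x y z - RR y z x + w * (RR z x y - RR y z x) := by
    unfold z0; linear_combination RR y z x * hw
  rw [h]; simp only [RR, C3, k0]; ring
lemma e1 (x y z : ℂ) : z1 x y z = C3 k1 x y z := by
  simp only [z1, Aa, Ab, C3, k1]; ring
lemma e2 (x y z : ℂ) : z2 x y z = C3 k2 x y z := by
  simp only [z2, Aa, Ab, C3, k2]; ring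
lemma e3 (x y z : ℂ) : z3 x y z = C3 k3 x y z := by
  have h : z3 x y z = RR x y z - RR y z x + w * (RR x y z - RR z x y) := by
    unfold z3
    linear_combination (-RR x y z - (w - 1) * RR y z x - w * (w - 1) * RR z x y) * hw
  rw [h]; simp only [RR, C3, k3]; ring

lemma core_p {x y z : ℂ} (hF : Fs x y z = 0) :
    Cb k1 x y z * C3 k0 x y z - C3 k1 x y z * Cb k0 x y z = (-1 - w) / 9 * z *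
      (3 * (-4 + 3 * w) * C3 k1 x y z * C3 k3 x y z ^ 2 - C3 k0 x y z * (9 * C3 k1 x y z ^ 2 -
        18 * C3 k1 x y z * C3 k2 x y z - 3 * C3 k2 x y z ^ 2)) := by
  simp only [Cb, Cx, Cy, C3, k0, k1, k2, k3, Fd, Fs] at hF ⊢
  linear_combination (
    -12 * x ^ 4 * w + 72 * x ^ 3 * y * w + 7 * x ^ 3 * z * w - 96 * x ^ 2 * y ^ 2 * w
    - 20 * x ^ 2 * y * z * w + 52 * x ^ 2 * z ^ 2 * w + 36 * x * y ^ 3 * w - 64 * x * y ^ 2 * z * w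
    + 36 * x * y * z ^ 2 * w - 103 * x * z ^ 3 * w - 6 * y ^ 4 * w + 38 * y ^ 3 * z * w
    - 39 * y ^ 2 * z ^ 2 * w - 30 * y * z ^ 3 * w + 33 * z ^ 4 * w - 6 * x ^ 4 + 36 * x ^ 3 * y
    - 14 * x ^ 3 * z - 66 * x ^ 2 * y ^ 2 + 69 * x ^ 2 * y * z + 16 * x ^ 2 * z ^ 2
    + 72 * x * y ^ 3 - 150 * x * y ^ 2 * z + 72 * x * y * z ^ 2 - 76 * x * z ^ 3 - 30 * y ^ 4
    + 105 * y ^ 3 * z - 83 * y ^ 2 * z ^ 2 - 22 * y * z ^ 3 + 29 * z ^ 4) * hF + (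
    -x ^ 9 * z * w ^ 3 + 8 * x ^ 8 * y * z * w ^ 3 + 5 * x ^ 8 * z ^ 2 * w ^ 3
    - 24 * x ^ 7 * y ^ 2 * z * w ^ 3 - 24 * x ^ 7 * y * z ^ 2 * w ^ 3 - 8 * x ^ 7 * z ^ 3 * w ^ 3
    + 33 * x ^ 6 * y ^ 3 * z * w ^ 3 + 27 * x ^ 6 * y ^ 2 * z ^ 2 * w ^ 3
    + 11 * x ^ 6 * y * z ^ 3 * w ^ 3 + x ^ 6 * z ^ 4 * w ^ 3 - 19 * x ^ 5 * y ^ 4 * z * w ^ 3
    + 16 * x ^ 5 * y ^ 3 * z ^ 2 * w ^ 3 + 30 * x ^ 5 * y ^ 2 * z ^ 3 * w ^ 3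
    + 24 * x ^ 5 * y * z ^ 4 * w ^ 3 + 11 * x ^ 5 * z ^ 5 * w ^ 3 - 3 * x ^ 4 * y ^ 5 * z * w ^ 3
    - 32 * x ^ 4 * y ^ 4 * z ^ 2 * w ^ 3 - 25 * x ^ 4 * y ^ 3 * z ^ 3 * w ^ 3
    - 21 * x ^ 4 * y ^ 2 * z ^ 4 * w ^ 3 - 24 * x ^ 4 * y * z ^ 5 * w ^ 3
    - 13 * x ^ 4 * z ^ 6 * w ^ 3 + 15 * x ^ 3 * y ^ 6 * z * w ^ 3
    + 4 * x ^ 3 * y ^ 5 * z ^ 2 * w ^ 3 - 16 * x ^ 3 * y ^ 4 * z ^ 3 * w ^ 3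
    - 16 * x ^ 3 * y ^ 3 * z ^ 4 * w ^ 3 - 13 * x ^ 3 * y ^ 2 * z ^ 5 * w ^ 3
    + 4 * x ^ 3 * y * z ^ 6 * w ^ 3 + 6 * x ^ 3 * z ^ 7 * w ^ 3 - 12 * x ^ 2 * y ^ 7 * z * w ^ 3
    + 21 * x ^ 2 * y ^ 6 * z ^ 2 * w ^ 3 + 8 * x ^ 2 * y ^ 5 * z ^ 3 * w ^ 3
    - 6 * x ^ 2 * y ^ 4 * z ^ 4 * w ^ 3 + 7 * x ^ 2 * y ^ 3 * z ^ 5 * w ^ 3
    + 14 * x ^ 2 * y ^ 2 * z ^ 6 * w ^ 3 + x ^ 2 * y * z ^ 7 * w ^ 3 - x ^ 2 * z ^ 8 * w ^ 3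
    + 5 * x * y ^ 8 * z * w ^ 3 - 18 * x * y ^ 7 * z ^ 2 * w ^ 3 + 12 * x * y ^ 6 * z ^ 3 * w ^ 3
    + 4 * x * y ^ 5 * z ^ 4 * w ^ 3 + 6 * x * y ^ 4 * z ^ 5 * w ^ 3 + 6 * x * y ^ 3 * z ^ 6 * w ^ 3
    - 4 * x * y ^ 2 * z ^ 7 * w ^ 3 - y ^ 9 * z * w ^ 3 + 6 * y ^ 8 * z ^ 2 * w ^ 3
    - 11 * y ^ 7 * z ^ 3 * w ^ 3 + 3 * y ^ 6 * z ^ 4 * w ^ 3 + 8 * y ^ 5 * z ^ 5 * w ^ 3
    - 4 * y ^ 4 * z ^ 6 * w ^ 3 - 2 / 3 * x ^ 9 * z * w ^ 2 + 13 / 3 * x ^ 8 * y * z * w ^ 2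
    + 19 / 3 * x ^ 8 * z ^ 2 * w ^ 2 - 29 / 3 * x ^ 7 * y ^ 2 * z * w ^ 2
    - 71 / 3 * x ^ 7 * y * z ^ 2 * w ^ 2 - x ^ 7 * z ^ 3 * w ^ 2
    + 56 / 3 * x ^ 6 * y ^ 3 * z * w ^ 2 + 5 / 3 * x ^ 6 * y ^ 2 * z ^ 2 * w ^ 2
    - 125 / 3 * x ^ 6 * y * z ^ 3 * w ^ 2 - 92 / 3 * x ^ 6 * z ^ 4 * w ^ 2
    - 56 * x ^ 5 * y ^ 4 * z * w ^ 2 + 229 / 3 * x ^ 5 * y ^ 3 * z ^ 2 * w ^ 2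
    + 269 / 3 * x ^ 5 * y ^ 2 * z ^ 3 * w ^ 2 + 356 / 3 * x ^ 5 * y * z ^ 4 * w ^ 2
    + 69 * x ^ 5 * z ^ 5 * w ^ 2 + 277 / 3 * x ^ 4 * y ^ 5 * z * w ^ 2
    - 446 / 3 * x ^ 4 * y ^ 4 * z ^ 2 * w ^ 2 + 145 / 3 * x ^ 4 * y ^ 3 * z ^ 3 * w ^ 2
    - 61 / 3 * x ^ 4 * y ^ 2 * z ^ 4 * w ^ 2 - 117 * x ^ 4 * y * z ^ 5 * w ^ 2
    - 224 / 3 * x ^ 4 * z ^ 6 * w ^ 2 - 54 * x ^ 3 * y ^ 6 * z * w ^ 2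
    + 512 / 3 * x ^ 3 * y ^ 5 * z ^ 2 * w ^ 2 - 190 / 3 * x ^ 3 * y ^ 4 * z ^ 3 * w ^ 2
    - 50 / 3 * x ^ 3 * y ^ 3 * z ^ 4 * w ^ 2 - 139 / 3 * x ^ 3 * y ^ 2 * z ^ 5 * w ^ 2
    + 241 / 3 * x ^ 3 * y * z ^ 6 * w ^ 2 + 71 / 3 * x ^ 3 * z ^ 7 * w ^ 2
    + 3 * x ^ 2 * y ^ 7 * z * w ^ 2 - 64 / 3 * x ^ 2 * y ^ 6 * z ^ 2 * w ^ 2
    + 52 * x ^ 2 * y ^ 5 * z ^ 3 * w ^ 2 - 190 / 3 * x ^ 2 * y ^ 4 * z ^ 4 * w ^ 2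
    + 173 / 3 * x ^ 2 * y ^ 3 * z ^ 5 * w ^ 2 - 7 * x ^ 2 * y ^ 2 * z ^ 6 * w ^ 2
    - 329 / 3 * x ^ 2 * y * z ^ 7 * w ^ 2 + 10 * x ^ 2 * z ^ 8 * w ^ 2
    + 13 / 3 * x * y ^ 8 * z * w ^ 2 - 29 * x * y ^ 7 * z ^ 2 * w ^ 2
    + 200 / 3 * x * y ^ 6 * z ^ 3 * w ^ 2 - 224 / 3 * x * y ^ 5 * z ^ 4 * w ^ 2
    + 331 / 3 * x * y ^ 4 * z ^ 5 * w ^ 2 - 338 / 3 * x * y ^ 3 * z ^ 6 * w ^ 2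
    - 121 / 3 * x * y ^ 2 * z ^ 7 * w ^ 2 + 200 / 3 * x * y * z ^ 8 * w ^ 2 - 7 * x * z ^ 9 * w ^ 2
    - 5 / 3 * y ^ 9 * z * w ^ 2 + 14 * y ^ 8 * z ^ 2 * w ^ 2 - 127 / 3 * y ^ 7 * z ^ 3 * w ^ 2
    + 131 / 3 * y ^ 6 * z ^ 4 * w ^ 2 + 74 / 3 * y ^ 5 * z ^ 5 * w ^ 2
    - 212 / 3 * y ^ 4 * z ^ 6 * w ^ 2 + 70 / 3 * y ^ 3 * z ^ 7 * w ^ 2
    + 56 / 3 * y ^ 2 * z ^ 8 * w ^ 2 - 12 * y * z ^ 9 * w ^ 2 + z ^ 10 * w ^ 2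
    + 7 / 3 * x ^ 9 * z * w - 73 / 3 * x ^ 8 * y * z * w + 13 / 3 * x ^ 8 * z ^ 2 * w
    + 99 * x ^ 7 * y ^ 2 * z * w - 80 / 3 * x ^ 7 * y * z ^ 2 * w + 2 / 3 * x ^ 7 * z ^ 3 * w
    - 559 / 3 * x ^ 6 * y ^ 3 * z * w + 103 * x ^ 6 * y ^ 2 * z ^ 2 * w
    + 4 / 3 * x ^ 6 * y * z ^ 3 * w + 10 * x ^ 6 * z ^ 4 * w + 428 / 3 * x ^ 5 * y ^ 4 * z * w
    - 584 / 3 * x ^ 5 * y ^ 3 * z ^ 2 * w - 512 / 3 * x ^ 5 * y ^ 2 * z ^ 3 * w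
    - 32 / 3 * x ^ 5 * y * z ^ 4 * w + 169 / 3 * x ^ 5 * z ^ 5 * w + 20 * x ^ 4 * y ^ 5 * z * w
    - 17 * x ^ 4 * y ^ 4 * z ^ 2 * w + 1280 / 3 * x ^ 4 * y ^ 3 * z ^ 3 * w
    + 178 / 3 * x ^ 4 * y ^ 2 * z ^ 4 * w - 887 / 3 * x ^ 4 * y * z ^ 5 * w
    - 440 / 3 * x ^ 4 * z ^ 6 * w - 250 / 3 * x ^ 3 * y ^ 6 * z * w
    + 274 * x ^ 3 * y ^ 5 * z ^ 2 * w - 289 * x ^ 3 * y ^ 4 * z ^ 3 * w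
    + 86 / 3 * x ^ 3 * y ^ 3 * z ^ 4 * w - 235 / 3 * x ^ 3 * y ^ 2 * z ^ 5 * w
    + 1192 / 3 * x ^ 3 * y * z ^ 6 * w + 373 / 3 * x ^ 3 * z ^ 7 * w
    + 46 / 3 * x ^ 2 * y ^ 7 * z * w - 245 / 3 * x ^ 2 * y ^ 6 * z ^ 2 * w
    + 218 * x ^ 2 * y ^ 5 * z ^ 3 * w - 793 / 3 * x ^ 2 * y ^ 4 * z ^ 4 * w
    + 845 / 3 * x ^ 2 * y ^ 3 * z ^ 5 * w - 502 / 3 * x ^ 2 * y ^ 2 * z ^ 6 * w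
    - 254 * x ^ 2 * y * z ^ 7 * w - 131 / 3 * x ^ 2 * z ^ 8 * w - 2 / 3 * x * y ^ 8 * z * w
    - 20 * x * y ^ 7 * z ^ 2 * w + 107 * x * y ^ 6 * z ^ 3 * w - 794 / 3 * x * y ^ 5 * z ^ 4 * w
    + 1310 / 3 * x * y ^ 4 * z ^ 5 * w - 1114 / 3 * x * y ^ 3 * z ^ 6 * w
    + 223 / 3 * x * y ^ 2 * z ^ 7 * w + 308 / 3 * x * y * z ^ 8 * w + 16 / 3 * x * z ^ 9 * w
    + y ^ 9 * z * w - 5 * y ^ 8 * z ^ 2 * w + 32 / 3 * y ^ 7 * z ^ 3 * w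
    - 82 / 3 * y ^ 6 * z ^ 4 * w + 74 * y ^ 5 * z ^ 5 * w - 337 / 3 * y ^ 4 * z ^ 6 * w
    + 212 / 3 * y ^ 3 * z ^ 7 * w + 6 * y ^ 2 * z ^ 8 * w - 53 / 3 * y * z ^ 9 * w + x ^ 9 * z
    - 59 / 3 * x ^ 8 * y * z - x ^ 8 * z ^ 2 + 347 / 3 * x ^ 7 * y ^ 2 * z + 13 * x ^ 7 * y * z ^ 2
    - 55 / 3 * x ^ 7 * z ^ 3 - 331 * x ^ 6 * y ^ 3 * z - 89 / 3 * x ^ 6 * y ^ 2 * z ^ 2
    + 149 * x ^ 6 * y * z ^ 3 + 83 / 3 * x ^ 6 * z ^ 4 + 1472 / 3 * x ^ 5 * y ^ 4 * z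
    + 58 * x ^ 5 * y ^ 3 * z ^ 2 - 1828 / 3 * x ^ 5 * y ^ 2 * z ^ 3 - 190 / 3 * x ^ 5 * y * z ^ 4
    + 43 / 3 * x ^ 5 * z ^ 5 - 12 * x ^ 4 * y ^ 6 - 922 / 3 * x ^ 4 * y ^ 5 * z
    - 592 / 3 * x ^ 4 * y ^ 4 * z ^ 2 + 2950 / 3 * x ^ 4 * y ^ 3 * z ^ 3
    + 584 / 3 * x ^ 4 * y ^ 2 * z ^ 4 - 1247 / 3 * x ^ 4 * y * z ^ 5 - 81 * x ^ 4 * z ^ 6
    + 30 * x ^ 3 * y ^ 7 - 106 / 3 * x ^ 3 * y ^ 6 * z + 574 / 3 * x ^ 3 * y ^ 5 * z ^ 2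
    - 1139 / 3 * x ^ 3 * y ^ 4 * z ^ 3 - 1874 / 3 * x ^ 3 * y ^ 3 * z ^ 4
    + 333 * x ^ 3 * y ^ 2 * z ^ 5 + 511 * x ^ 3 * y * z ^ 6 + 296 / 3 * x ^ 3 * z ^ 7
    - 24 * x ^ 2 * y ^ 8 + 262 / 3 * x ^ 2 * y ^ 7 * z - 100 / 3 * x ^ 2 * y ^ 6 * z ^ 2
    - 301 * x ^ 2 * y ^ 5 * z ^ 3 + 351 * x ^ 2 * y ^ 4 * z ^ 4 + 413 * x ^ 2 * y ^ 3 * z ^ 5
    - 1279 / 3 * x ^ 2 * y ^ 2 * z ^ 6 - 646 / 3 * x ^ 2 * y * z ^ 7 - 158 / 3 * x ^ 2 * z ^ 8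
    - 2 * x * y ^ 8 * z + 2 * x * y ^ 7 * z ^ 2 + 181 / 3 * x * y ^ 6 * z ^ 3
    - 251 * x * y ^ 5 * z ^ 4 + 979 / 3 * x * y ^ 4 * z ^ 5 - 758 / 3 * x * y ^ 3 * z ^ 6
    + 569 / 3 * x * y ^ 2 * z ^ 7 + 45 * x * y * z ^ 8 + 37 / 3 * x * z ^ 9 + 8 / 3 * y ^ 9 * z
    - 26 * y ^ 8 * z ^ 2 + 99 * y ^ 7 * z ^ 3 - 183 * y ^ 6 * z ^ 4 + 505 / 3 * y ^ 5 * z ^ 5
    - 245 / 3 * y ^ 4 * z ^ 6 + 103 / 3 * y ^ 3 * z ^ 7 - 65 / 3 * y ^ 2 * z ^ 8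
    - 17 / 3 * y * z ^ 9 - z ^ 10) * hw

lemma core_r {x y z : ℂ} (hF : Fs x y z = 0) :
    Cb k2 x y z * C3 k0 x y z - C3 k2 x y z * Cb k0 x y z = -((-1 - w) / 9 * z *
      (3 * (-4 + 3 * w) * C3 k2 x y z * C3 k3 x y z ^ 2 - C3 k0 x y z * (3 * C3 k1 x y z ^ 2 +
        18 * C3 k1 x y z * C3 k2 x y z - 9 * C3 k2 x y z ^ 2))) := by
  simp only [Cb, Cx, Cy, C3, k0, k1, k2, k3, Fd, Fs] at hF ⊢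
  linear_combination (
    -12 * x ^ 3 * y * w - 26 * x ^ 3 * z * w + 42 * x ^ 2 * y ^ 2 * w + 85 * x ^ 2 * y * z * w
    - 12 * x ^ 2 * z ^ 2 * w - 12 * x * y ^ 3 * w - 122 * x * y ^ 2 * z * w
    + 180 * x * y * z ^ 2 * w - 52 * x * z ^ 3 * w - 24 * y ^ 4 * w + 89 * y ^ 3 * z * w
    - 87 * y ^ 2 * z ^ 2 * w - 22 * y * z ^ 3 * w + 21 * z ^ 4 * w - 24 * x ^ 3 * y
    - 29 * x ^ 3 * z + 12 * x ^ 2 * y ^ 2 + 141 * x ^ 2 * y * z - 58 * x ^ 2 * z ^ 2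
    + 48 * x * y ^ 3 - 170 * x * y ^ 2 * z + 36 * x * y * z ^ 2 + 23 * x * z ^ 3 - 30 * y ^ 4
    + 87 * y ^ 3 * z - 38 * y ^ 2 * z ^ 2 - 48 * y * z ^ 3 + 2 * z ^ 4) * hF + (
    -x ^ 8 * y * z * w ^ 3 + 4 * x ^ 8 * z ^ 2 * w ^ 3 + 10 * x ^ 7 * y ^ 2 * z * w ^ 3
    - 25 * x ^ 7 * y * z ^ 2 * w ^ 3 - 17 * x ^ 7 * z ^ 3 * w ^ 3 - 37 * x ^ 6 * y ^ 3 * z * w ^ 3
    + 53 * x ^ 6 * y ^ 2 * z ^ 2 * w ^ 3 + 72 * x ^ 6 * y * z ^ 3 * w ^ 3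
    + 28 * x ^ 6 * z ^ 4 * w ^ 3 + 66 * x ^ 5 * y ^ 4 * z * w ^ 3
    - 63 * x ^ 5 * y ^ 3 * z ^ 2 * w ^ 3 - 79 * x ^ 5 * y ^ 2 * z ^ 3 * w ^ 3
    - 78 * x ^ 5 * y * z ^ 4 * w ^ 3 - 22 * x ^ 5 * z ^ 5 * w ^ 3 - 66 * x ^ 4 * y ^ 5 * z * w ^ 3
    + 89 * x ^ 4 * y ^ 4 * z ^ 2 * w ^ 3 + 22 * x ^ 4 * y ^ 3 * z ^ 3 * w ^ 3
    + 44 * x ^ 4 * y ^ 2 * z ^ 4 * w ^ 3 + 49 * x ^ 4 * y * z ^ 5 * w ^ 3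
    + 8 * x ^ 4 * z ^ 6 * w ^ 3 + 44 * x ^ 3 * y ^ 6 * z * w ^ 3
    - 92 * x ^ 3 * y ^ 5 * z ^ 2 * w ^ 3 - 4 * x ^ 3 * y ^ 4 * z ^ 3 * w ^ 3
    + 6 * x ^ 3 * y ^ 3 * z ^ 4 * w ^ 3 + 4 * x ^ 3 * y ^ 2 * z ^ 5 * w ^ 3
    - 21 * x ^ 3 * y * z ^ 6 * w ^ 3 - x ^ 3 * z ^ 7 * w ^ 3 - 17 * x ^ 2 * y ^ 7 * z * w ^ 3
    + 50 * x ^ 2 * y ^ 6 * z ^ 2 * w ^ 3 - 16 * x ^ 2 * y ^ 5 * z ^ 3 * w ^ 3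
    + 6 * x ^ 2 * y ^ 4 * z ^ 4 * w ^ 3 - 34 * x ^ 2 * y ^ 3 * z ^ 5 * w ^ 3
    - 5 * x ^ 2 * y ^ 2 * z ^ 6 * w ^ 3 + 4 * x ^ 2 * y * z ^ 7 * w ^ 3 + 4 * x * y ^ 8 * z * w ^ 3
    - 17 * x * y ^ 7 * z ^ 2 * w ^ 3 + 11 * x * y ^ 6 * z ^ 3 * w ^ 3
    + 18 * x * y ^ 5 * z ^ 4 * w ^ 3 - 16 * x * y ^ 4 * z ^ 5 * w ^ 3
    + 16 * x * y ^ 3 * z ^ 6 * w ^ 3 - y ^ 8 * z ^ 2 * w ^ 3 + 8 * y ^ 7 * z ^ 3 * w ^ 3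
    - 20 * y ^ 6 * z ^ 4 * w ^ 3 + 16 * y ^ 5 * z ^ 5 * w ^ 3 + 4 / 3 * x ^ 9 * z * w ^ 2
    - 35 / 3 * x ^ 8 * y * z * w ^ 2 + 1 / 3 * x ^ 8 * z ^ 2 * w ^ 2
    + 41 * x ^ 7 * y ^ 2 * z * w ^ 2 + 1 / 3 * x ^ 7 * y * z ^ 2 * w ^ 2
    - 27 * x ^ 7 * z ^ 3 * w ^ 2 - 66 * x ^ 6 * y ^ 3 * z * w ^ 2
    - 73 / 3 * x ^ 6 * y ^ 2 * z ^ 2 * w ^ 2 + 115 * x ^ 6 * y * z ^ 3 * w ^ 2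
    + 136 / 3 * x ^ 6 * z ^ 4 * w ^ 2 + 36 * x ^ 5 * y ^ 4 * z * w ^ 2
    + 101 / 3 * x ^ 5 * y ^ 3 * z ^ 2 * w ^ 2 - 103 * x ^ 5 * y ^ 2 * z ^ 3 * w ^ 2
    - 380 / 3 * x ^ 5 * y * z ^ 4 * w ^ 2 - 85 / 3 * x ^ 5 * z ^ 5 * w ^ 2
    - 5 / 3 * x ^ 4 * y ^ 5 * z * w ^ 2 + 80 * x ^ 4 * y ^ 4 * z ^ 2 * w ^ 2
    - 109 / 3 * x ^ 4 * y ^ 3 * z ^ 3 * w ^ 2 + 169 / 3 * x ^ 4 * y ^ 2 * z ^ 4 * w ^ 2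
    + 289 / 3 * x ^ 4 * y * z ^ 5 * w ^ 2 - 130 / 3 * x ^ 4 * z ^ 6 * w ^ 2
    + 28 * x ^ 3 * y ^ 6 * z * w ^ 2 - 424 / 3 * x ^ 3 * y ^ 5 * z ^ 2 * w ^ 2
    + 148 * x ^ 3 * y ^ 4 * z ^ 3 * w ^ 2 + 20 * x ^ 3 * y ^ 3 * z ^ 4 * w ^ 2
    - 31 / 3 * x ^ 3 * y ^ 2 * z ^ 5 * w ^ 2 - 157 / 3 * x ^ 3 * y * z ^ 6 * w ^ 2
    + 169 / 3 * x ^ 3 * z ^ 7 * w ^ 2 - 17 * x ^ 2 * y ^ 7 * z * w ^ 2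
    + 352 / 3 * x ^ 2 * y ^ 6 * z ^ 2 * w ^ 2 - 578 / 3 * x ^ 2 * y ^ 5 * z ^ 3 * w ^ 2
    + 112 * x ^ 2 * y ^ 4 * z ^ 4 * w ^ 2 - 511 / 3 * x ^ 2 * y ^ 3 * z ^ 5 * w ^ 2
    + 177 * x ^ 2 * y ^ 2 * z ^ 6 * w ^ 2 - 139 / 3 * x ^ 2 * y * z ^ 7 * w ^ 2
    - 70 / 3 * x ^ 2 * z ^ 8 * w ^ 2 + 5 / 3 * x * y ^ 8 * z * w ^ 2
    - 77 / 3 * x * y ^ 7 * z ^ 2 * w ^ 2 + 76 * x * y ^ 6 * z ^ 3 * w ^ 2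
    - 148 / 3 * x * y ^ 5 * z ^ 4 * w ^ 2 - 45 * x * y ^ 4 * z ^ 5 * w ^ 2
    + 394 / 3 * x * y ^ 3 * z ^ 6 * w ^ 2 - 179 * x * y ^ 2 * z ^ 7 * w ^ 2
    + 118 / 3 * x * y * z ^ 8 * w ^ 2 + 13 / 3 * x * z ^ 9 * w ^ 2 + y ^ 9 * z * w ^ 2
    - 8 * y ^ 8 * z ^ 2 * w ^ 2 + 91 / 3 * y ^ 7 * z ^ 3 * w ^ 2 - 71 * y ^ 6 * z ^ 4 * w ^ 2
    + 274 / 3 * y ^ 5 * z ^ 5 * w ^ 2 - 98 / 3 * y ^ 4 * z ^ 6 * w ^ 2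
    - 124 / 3 * y ^ 3 * z ^ 7 * w ^ 2 + 124 / 3 * y ^ 2 * z ^ 8 * w ^ 2
    - 20 / 3 * y * z ^ 9 * w ^ 2 - 1 / 3 * z ^ 10 * w ^ 2 + 4 / 3 * x ^ 9 * z * w
    - 22 / 3 * x ^ 8 * y * z * w - 8 / 3 * x ^ 8 * z ^ 2 * w + 2 * x ^ 7 * y ^ 2 * z * w
    + 79 / 3 * x ^ 7 * y * z ^ 2 * w + 5 / 3 * x ^ 7 * z ^ 3 * w + 218 / 3 * x ^ 6 * y ^ 3 * z * w
    - 104 * x ^ 6 * y ^ 2 * z ^ 2 * w - 203 / 3 * x ^ 6 * y * z ^ 3 * w + 23 * x ^ 6 * z ^ 4 * w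
    - 592 / 3 * x ^ 5 * y ^ 4 * z * w + 574 / 3 * x ^ 5 * y ^ 3 * z ^ 2 * w
    + 670 / 3 * x ^ 5 * y ^ 2 * z ^ 3 * w + 160 / 3 * x ^ 5 * y * z ^ 4 * w
    - 188 / 3 * x ^ 5 * z ^ 5 * w + 186 * x ^ 4 * y ^ 5 * z * w - 213 * x ^ 4 * y ^ 4 * z ^ 2 * w
    - 466 / 3 * x ^ 4 * y ^ 3 * z ^ 3 * w - 764 / 3 * x ^ 4 * y ^ 2 * z ^ 4 * w
    - 284 / 3 * x ^ 4 * y * z ^ 5 * w - 131 / 3 * x ^ 4 * z ^ 6 * w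
    - 136 / 3 * x ^ 3 * y ^ 6 * z * w + 84 * x ^ 3 * y ^ 5 * z ^ 2 * w
    + 88 * x ^ 3 * y ^ 4 * z ^ 3 * w - 46 / 3 * x ^ 3 * y ^ 3 * z ^ 4 * w
    + 338 / 3 * x ^ 3 * y ^ 2 * z ^ 5 * w + 157 / 3 * x ^ 3 * y * z ^ 6 * w
    + 397 / 3 * x ^ 3 * z ^ 7 * w - 26 / 3 * x ^ 2 * y ^ 7 * z * w
    + 331 / 3 * x ^ 2 * y ^ 6 * z ^ 2 * w - 239 * x ^ 2 * y ^ 5 * z ^ 3 * w
    - 76 / 3 * x ^ 2 * y ^ 4 * z ^ 4 * w + 440 / 3 * x ^ 2 * y ^ 3 * z ^ 5 * w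
    + 599 / 3 * x ^ 2 * y ^ 2 * z ^ 6 * w - 38 * x ^ 2 * y * z ^ 7 * w
    - 269 / 3 * x ^ 2 * z ^ 8 * w - 14 / 3 * x * y ^ 8 * z * w + 10 * x * y ^ 7 * z ^ 2 * w
    + 42 * x * y ^ 6 * z ^ 3 * w - 377 / 3 * x * y ^ 5 * z ^ 4 * w
    + 263 / 3 * x * y ^ 4 * z ^ 5 * w + 392 / 3 * x * y ^ 3 * z ^ 6 * w
    - 710 / 3 * x * y ^ 2 * z ^ 7 * w + 59 / 3 * x * y * z ^ 8 * w + 79 / 3 * x * z ^ 9 * w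
    + y ^ 9 * z * w - 11 * y ^ 8 * z ^ 2 * w + 137 / 3 * y ^ 7 * z ^ 3 * w
    - 283 / 3 * y ^ 6 * z ^ 4 * w + 83 * y ^ 5 * z ^ 5 * w + 74 / 3 * y ^ 4 * z ^ 6 * w
    - 277 / 3 * y ^ 3 * z ^ 7 * w + 57 * y ^ 2 * z ^ 8 * w - 8 / 3 * y * z ^ 9 * w - 3 * z ^ 10 * w
    - 5 * x ^ 9 * z + 211 / 3 * x ^ 8 * y * z + 14 * x ^ 8 * z ^ 2 - 319 * x ^ 7 * y ^ 2 * z
    - 116 * x ^ 7 * y * z ^ 2 + 167 / 3 * x ^ 7 * z ^ 3 + 1979 / 3 * x ^ 6 * y ^ 3 * z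
    + 856 / 3 * x ^ 6 * y ^ 2 * z ^ 2 - 884 / 3 * x ^ 6 * y * z ^ 3 - 214 / 3 * x ^ 6 * z ^ 4
    - 6 * x ^ 5 * y ^ 5 - 1612 / 3 * x ^ 5 * y ^ 4 * z - 1051 / 3 * x ^ 5 * y ^ 3 * z ^ 2
    + 2059 / 3 * x ^ 5 * y ^ 2 * z ^ 3 + 374 * x ^ 5 * y * z ^ 4 + 92 / 3 * x ^ 5 * z ^ 5
    + 48 * x ^ 4 * y ^ 6 - 163 / 3 * x ^ 4 * y ^ 5 * z + 151 * x ^ 4 * y ^ 4 * z ^ 2
    + 314 * x ^ 4 * y ^ 3 * z ^ 3 - 1670 * x ^ 4 * y ^ 2 * z ^ 4 + 390 * x ^ 4 * y * z ^ 5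
    - 307 / 3 * x ^ 4 * z ^ 6 - 48 * x ^ 3 * y ^ 7 + 416 / 3 * x ^ 3 * y ^ 6 * z
    + 1036 / 3 * x ^ 3 * y ^ 5 * z ^ 2 - 1648 * x ^ 3 * y ^ 4 * z ^ 3
    + 4520 / 3 * x ^ 3 * y ^ 3 * z ^ 4 + 790 * x ^ 3 * y ^ 2 * z ^ 5 - 2560 / 3 * x ^ 3 * y * z ^ 6
    + 160 * x ^ 3 * z ^ 7 + 34 / 3 * x ^ 2 * y ^ 7 * z - 98 * x ^ 2 * y ^ 6 * z ^ 2
    - 31 / 3 * x ^ 2 * y ^ 5 * z ^ 3 + 2576 / 3 * x ^ 2 * y ^ 4 * z ^ 4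
    - 1230 * x ^ 2 * y ^ 3 * z ^ 5 - 88 / 3 * x ^ 2 * y ^ 2 * z ^ 6 + 1798 / 3 * x ^ 2 * y * z ^ 7
    - 310 / 3 * x ^ 2 * z ^ 8 + 56 / 3 * x * y ^ 8 * z - 391 / 3 * x * y ^ 7 * z ^ 2
    + 404 * x * y ^ 6 * z ^ 3 - 1807 / 3 * x * y ^ 5 * z ^ 4 + 515 / 3 * x * y ^ 4 * z ^ 5
    + 1240 / 3 * x * y ^ 3 * z ^ 6 - 188 / 3 * x * y ^ 2 * z ^ 7 - 575 / 3 * x * y * z ^ 8
    + 31 * x * z ^ 9 - 2 * y ^ 8 * z ^ 2 + 25 / 3 * y ^ 7 * z ^ 3 + 11 / 3 * y ^ 6 * z ^ 4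
    - 175 / 3 * y ^ 5 * z ^ 5 + 313 / 3 * y ^ 4 * z ^ 6 - 88 * y ^ 3 * z ^ 7
    + 53 / 3 * y ^ 2 * z ^ 8 + 24 * y * z ^ 9 - 11 / 3 * z ^ 10) * hw

variable {x y z : ℂ → ℂ} {τ x' y' z' : ℂ}

lemma mono (hx : HasDerivAt x x' τ) (hy : HasDerivAt y y' τ) (hz : HasDerivAt z z' τ)
    (a b c : ℕ) : HasDerivAt (fun σ => x σ ^ a * y σ ^ b * z σ ^ c)
      ((a * x τ ^ (a - 1) * x' * y τ ^ b + x τ ^ a * (b * y τ ^ (b - 1) * y')) * z τ ^ c +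
        x τ ^ a * y τ ^ b * (c * z τ ^ (c - 1) * z')) τ :=
  ((hx.fun_pow a).fun_mul (hy.fun_pow b)).fun_mul (hz.fun_pow c)

lemma dC (hx : HasDerivAt x x' τ) (hy : HasDerivAt y y' τ) (hz : HasDerivAt z z' τ) (c : Cf) :
    HasDerivAt (fun σ => C3 c (x σ) (y σ) (z σ)) (Cx c (x τ) (y τ) (z τ) * x' +
      Cy c (x τ) (y τ) (z τ) * y' + Cz c (x τ) (y τ) (z τ) * z') τ := by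
  have m := mono hx hy hz
  have h := (m 3 0 0).const_mul c.c0 |>.add
    ((m 2 1 0).const_mul c.c1) |>.add
    ((m 2 0 1).const_mul c.c2) |>.add
    ((m 1 2 0).const_mul c.c3) |>.add
    ((m 1 1 1).const_mul c.c4) |>.add
    ((m 1 0 2).const_mul c.c5) |>.add
    ((m 0 3 0).const_mul c.c6) |>.add
    ((m 0 2 1).const_mul c.c7) |>.add
    ((m 0 1 2).const_mul c.c8) |>.add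
    ((m 0 0 3).const_mul c.c9)
  refine (h.congr_of_eventuallyEq (Eventually.of_forall fun σ => ?_)).congr_deriv ?_
  · simp only [Pi.add_apply, C3]; ring
  · simp only [Cx, Cy, Cz]; push_cast; ring

lemma dF (hx : HasDerivAt x x' τ) (hy : HasDerivAt y y' τ) (hz : HasDerivAt z z' τ) :
    HasDerivAt (fun σ => Fs (x σ) (y σ) (z σ)) (Fd (x τ) (y τ) (z τ) * x' +
      Fd (y τ) (z τ) (x τ) * y' + Fd (z τ) (x τ) (y τ) * z') τ := by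
  have m := mono hx hy hz
  have h := (m 5 0 1).const_mul (1) |>.add
    ((m 4 1 1).const_mul (-5)) |>.add
    ((m 3 2 1).const_mul (9)) |>.add
    ((m 3 1 2).const_mul (-3)) |>.add
    ((m 2 3 1).const_mul (-3)) |>.add
    ((m 2 2 2).const_mul (2)) |>.add
    ((m 2 1 3).const_mul (9)) |>.add
    ((m 1 5 0).const_mul (1)) |>.add
    ((m 1 4 1).const_mul (-5)) |>.add
    ((m 1 3 2).const_mul (9)) |>.add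
    ((m 1 2 3).const_mul (-3)) |>.add
    ((m 1 1 4).const_mul (-5)) |>.add
    ((m 0 1 5).const_mul (1))
  refine (h.congr_of_eventuallyEq (Eventually.of_forall fun σ => ?_)).congr_deriv ?_
  · simp only [Pi.add_apply, Fs]; ring
  · simp only [Fd]; push_cast; ring

lemma euler (x y z : ℂ) : x * Fd x y z + y * Fd y z x + z * Fd z x y = 6 * Fs x y z := by
  simp only [Fd, Fs]; ring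

lemma step (c : Cf) {x y z x' y' z' μ : ℂ} (h1 : z * x' - x * z' = μ * Fd y z x)
    (h0 : y * z' - z * y' = μ * Fd x y z) :
    z * (Cx c x y z * x' + Cy c x y z * y' + Cz c x y z * z') =
      3 * C3 c x y z * z' + μ * Cb c x y z := by
  have h : x * Cx c x y z + y * Cy c x y z + z * Cz c x y z = 3 * C3 c x y z := by
    simp only [Cx, Cy, Cz, C3]; ring
  unfold Cb
  linear_combination Cx c x y z * h1 - Cy c x y z * h0 + z' * h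

end XAG2

open XAG2 in
theorem st_AG2 (hAG1 : St_AG1) : St_AG2 := by
  intro x y z τ x' y' z' hx hy hz hev hz0 hD h0
  have hF := hev.self_of_nhds
  have hd : Fd (x τ) (y τ) (z τ) * x' + Fd (y τ) (z τ) (x τ) * y' + Fd (z τ) (x τ) (y τ) * z' = 0 :=
    (dF hx hy hz).unique ((hasDerivAt_const τ (0 : ℂ)).congr_of_eventuallyEq hev)
  have hE := euler (x τ) (y τ) (z τ)
  rw [hF, mul_zero] at hE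
  obtain ⟨μ, hμ⟩ : ∃ μ, μ * Dn (x τ) (y τ) (z τ) = Wn (x τ) (y τ) (z τ) x' y' z' :=
    ⟨_, div_mul_cancel₀ _ hD⟩
  have h1 : z τ * x' - x τ * z' = μ * Fd (y τ) (z τ) (x τ) := by
    refine mul_right_cancel₀ hD ?_
    rw [mul_right_comm, hμ]
    unfold Dn Wn
    linear_combination (x τ * x' - y τ * z') * hE - (x τ * x τ - y τ * z τ) * hd
  have h2 : y τ * z' - z τ * y' = μ * Fd (x τ) (y τ) (z τ) := by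
    refine mul_right_cancel₀ hD ?_
    rw [mul_right_comm, hμ]
    unfold Dn Wn
    linear_combination (z τ * z' - x τ * y') * hE - (z τ * z τ - x τ * y τ) * hd
  have hpr := (hAG1 _ _ _ hF h0).2.1
  have s0 := step k0 h1 h2
  have s1 := step k1 h1 h2
  have s2 := step k2 h1 h2
  have cp1 := core_p hF
  have cr1 := core_r hF
  have hA : z1 (x τ) (y τ) (z τ) - z2 (x τ) (y τ) (z τ) = w * Aa (x τ) (y τ) (z τ) := by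
    unfold z1 z2; ring
  have hB : z1 (x τ) (y τ) (z τ) + z2 (x τ) (y τ) (z τ) = (2 + w) * Ab (x τ) (y τ) (z τ) := by
    unfold z1 z2; ring
  have d1 := (dC hx hy hz k1).fun_div (dC hx hy hz k0) (e0 _ _ _ ▸ h0)
  have d2 := (dC hx hy hz k2).fun_div (dC hx hy hz k0) (e0 _ _ _ ▸ h0)
  have hp : z1 (x τ) (y τ) (z τ) = pp (x τ) (y τ) (z τ) * z0 (x τ) (y τ) (z τ) :=
    (div_mul_cancel₀ _ h0).symm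
  have hr : z2 (x τ) (y τ) (z τ) = rr (x τ) (y τ) (z τ) * z0 (x τ) (y τ) (z τ) :=
    (div_mul_cancel₀ _ h0).symm
  simp only [← e0, ← e1, ← e2, ← e3] at s0 s1 s2 cp1 cr1 d1 d2
  refine ⟨(-1 - w) / 9 * μ * z0 (x τ) (y τ) (z τ), d1.congr_deriv ?_, d2.congr_deriv ?_, ?_, ?_⟩
  · rw [div_eq_iff (pow_ne_zero 2 h0)]
    refine mul_left_cancel₀ hz0 ?_
    rw [← hpr, hp, hr] at cp1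
    rw [hp] at s1 ⊢
    simp only [cp, Phr]
    linear_combination z0 (x τ) (y τ) (z τ) * s1 -
      pp (x τ) (y τ) (z τ) * z0 (x τ) (y τ) (z τ) * s0 + μ * cp1
  · rw [div_eq_iff (pow_ne_zero 2 h0)]
    refine mul_left_cancel₀ hz0 ?_
    rw [← hpr, hp, hr] at cr1
    rw [hr] at s2 ⊢
    simp only [cp, Php]
    linear_combination z0 (x τ) (y τ) (z τ) * s2 -
      rr (x τ) (y τ) (z τ) * z0 (x τ) (y τ) (z τ) * s0 + μ * cr1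
  · rw [hp, hr] at hA
    simp only [cp, ← hμ]
    linear_combination (1 + w) * μ * Dn (x τ) (y τ) (z τ) * hA +
      μ * Dn (x τ) (y τ) (z τ) * Aa (x τ) (y τ) (z τ) * hw
  · rw [hp, hr] at hB
    simp only [cp, ← hμ]
    linear_combination (1 + 2 * w) * (1 + w) / 3 * μ * Dn (x τ) (y τ) (z τ) * hB +
      (2 * w + 5) / 3 * μ * Dn (x τ) (y τ) (z τ) * Ab (x τ) (y τ) (z τ) * hw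

end C37
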