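import Pool.Agent.Lib.C37.Kit

/-! Leading terms of the sextic and of the adjoint cubics. -/

open Complex Filter Topology Set Asymptotics
open scoped Real

namespace C37

namespace AP0

/-- truncated powers -/
def pw (M : ℕ) (l : List ℤ) : ℕ → List ℤ
  | 0 => [1]
  | n + 1 => mulT M (pw M l n) l

/-- a polynomial in two variables, given by its monomials -/
noncomputable def evP (P : List (ℤ × ℕ × ℕ)) (x y : ℂ) : ℂ :=
  P.foldr (fun m s => m.1 * (x ^ m.2.1 * y ^ m.2.2) + s) 0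

/-- its truncated expansion -/
def lsP (M : ℕ) (P : List (ℤ × ℕ × ℕ)) (l l' : List ℤ) : List ℤ :=
  P.foldr (fun m s => addL (smL m.1 (mulT M (pw M l m.2.1) (pw M l' m.2.2))) s) [0]

variable (hK : St_APK) {M : ℕ} {f g : ℂ → ℂ} {l l' : List ℤ}
include hK

lemma ap_pw (h : Ap M f l) (n : ℕ) : Ap M (fun τ => f τ ^ n) (pw M l n) := by
  induction n with
  | zero => simpa [pw] using (hK M).2.2.2.1 1
  | succ n ih => simpa only [pw, pow_succ] using (hK M).2.2.1 _ _ _ _ ih h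

lemma ap_evP (h : Ap M f l) (h' : Ap M g l') (P : List (ℤ × ℕ × ℕ)) :
    Ap M (fun τ => evP P (f τ) (g τ)) (lsP M P l l') := by
  induction P with
  | nil => simpa [evP, lsP] using (hK M).2.2.2.1 0
  | cons m P ih =>
    exact (hK M).1 _ _ _ _ ((hK M).2.1 m.1 _ _ ((hK M).2.2.1 _ _ _ _ (ap_pw hK h _)
      (ap_pw hK h' _))) ih

lemma ap_of (hU : St_APU) (hM : M ≤ 150) (P : List (ℤ × ℕ × ℕ)) {F : ℂ → ℂ → ℂ}
    (hF : ∀ x y, evP P x y = F x y) (hl : eqT M (lsP M P (Lu.take M) (Lv.take M)) l = true) :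
    (fun τ => F (uu τ) (vv τ) - ∑ n ∈ Finset.range M, (l.getD n 0 : ℂ) * Q τ ^ n) =O[cusp]
      fun τ => Q τ ^ M :=
  ((hK M).2.2.2.2.2.2.2.2.1 _ _).1 ((hK M).2.2.2.2.2.1 _ _ _ _
    (ap_evP hK ((hK M).2.2.2.2.2.2.1 _ _ _ hM hU.1) ((hK M).2.2.2.2.2.2.1 _ _ _ hM hU.2.1) P)
    (fun _ _ => hF _ _) hl)

end AP0

open AP0 in
theorem st_AP0 (hAPK : St_APK) (hAPU : St_APU) : St_AP0 := by
  refine ⟨?_, fun α β c0 c1 c2 hc h => ?_⟩
  · simpa using ap_of hAPK (M := 13) (l := []) hAPU (by norm_num)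
      [(1, 5, 0), (-5, 4, 1), (9, 3, 2), (-3, 3, 1), (-3, 2, 3), (2, 2, 2), (9, 2, 1), (1, 1, 5),
        (-5, 1, 4), (9, 1, 3), (-3, 1, 2), (-5, 1, 1), (1, 0, 1)] (F := fun x y => Fs x y 1)
      (fun x y => by simp [evP, Fs]; ring) (by decide +kernel)
  have a1 := ap_of hAPK (M := 4) (l := [-1, -1, 4, 10]) hAPU (by norm_num)
    [(-1, 3, 0), (-1, 0, 3), (-1, 0, 0), (1, 2, 1), (1, 0, 2), (1, 1, 0), (5, 2, 0), (5, 1, 2),
      (5, 0, 1), (-3, 1, 1)] (F := fun x y => Aa x y 1)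
    (fun x y => by simp [evP, Aa]; ring) (by decide +kernel)
  have a2 := ap_of hAPK (M := 4) (l := [-1, -3, -6, -8]) hAPU (by norm_num)
    [(-1, 3, 0), (-1, 0, 3), (-1, 0, 0), (3, 2, 1), (3, 0, 2), (3, 1, 0), (-3, 2, 0), (-3, 1, 2),
      (-3, 0, 1), (7, 1, 1)] (F := fun x y => Ab x y 1)
    (fun x y => by simp [evP, Ab]; ring) (by decide +kernel)
  have a3 := ap_of hAPK (M := 4) (l := []) hAPU (by norm_num)
    [(1, 2, 1), (1, 0, 3), (-2, 0, 2), (-2, 1, 2)] (F := fun x y => RR x y 1)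
    (fun x y => by simp [evP, RR]; ring) (by decide +kernel)
  have a4 := ap_of hAPK (M := 4) (l := [1, 2, 2, 2]) hAPU (by norm_num)
    [(1, 0, 2), (1, 0, 0), (-2, 1, 0), (-2, 0, 1)] (F := fun x y => RR y 1 x)
    (fun x y => by simp [evP, RR]; ring) (by decide +kernel)
  have a5 := ap_of hAPK (M := 4) (l := [0, -1, -3, -6]) hAPU (by norm_num)
    [(1, 1, 0), (1, 3, 0), (-2, 2, 1), (-2, 2, 0)] (F := fun x y => RR 1 x y)
    (fun x y => by simp [evP, RR]; ring) (by decide +kernel)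
  have key := (hAPK 4).2.2.2.2.2.2.2.2.2.2 (fun n => α * ([-1, -1, 4, 10].getD n 0 : ℤ) +
    β * ([-1, -3, -6, -8].getD n 0 : ℤ) + c1 * ([1, 2, 2, 2].getD n 0 : ℤ) +
    c2 * ([0, -1, -3, -6].getD n 0 : ℤ))
    ((((((a1.const_mul_left α).add (a2.const_mul_left β)).add (a3.const_mul_left c0)).add
      (a4.const_mul_left c1)).add (a5.const_mul_left c2)).neg_left.congr'
      (ev_UH_cusp.mono fun τ hτ => by
        have := h τ hτ
        simp [Finset.sum_range_succ]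
        linear_combination -this) (.refl _ _))
  have k0 := key 0 (by norm_num)
  have k1 := key 1 (by norm_num)
  have k2 := key 2 (by norm_num)
  have k3 := key 3 (by norm_num)
  simp only [List.getD_cons_zero, List.getD_cons_succ] at k0 k1 k2 k3
  push_cast at k0 k1 k2 k3
  have e1 : c1 = 0 := by linear_combination 11 / 3 * k0 - k1 - k2 + 2 / 3 * k3
  have e2 : c2 = 0 := by linear_combination 8 / 3 * k0 - 2 * k1 + k2 - 1 / 3 * k3
  exact ⟨by linear_combination 5 / 3 * k0 - k1 + 1 / 6 * k3,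
    by linear_combination k0 - k2 + 1 / 2 * k3, by linear_combination hc - e1 - e2, e1, e2⟩

end C37
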