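import Pool.Agent.Lib.C37.B_APD0

namespace C37

namespace APD

lemma k2 : eqT 150 (mulT 150 Lu Lu) U2 = true := by
  decide +kernel
lemma k3 : eqT 150 (mulT 150 Lu U2) U3 = true := by
  decide +kernel
lemma k4 : eqT 150 (mulT 150 Lu U3) U4 = true := by
  decide +kernel
lemma k5 : eqT 150 (mulT 150 Lu U4) U5 = true := by
  decide +kernel
lemma k6 : eqT 150 (mulT 150 Lu U5) U6 = true := by
  decide +kernel
lemma kAW : eqT 150 (mulT 150 LA LW) (mulT 150 LD La) = true := by
  decide +kernel
lemma kBW : eqT 150 (mulT 150 LB LW) (mulT 150 LD Lb) = true := by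
  decide +kernel

end APD

end C37
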