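import Pool.Agent.Lib.C37.B_APD0

namespace C37

namespace APD

lemma kD4 : eqT 150 (hor (cD.drop 4) []) H4 = true := by
  decide +kernel
lemma kD2 : eqT 150 (hor ((cD.drop 2).take 2) H4) H2 = true := by
  decide +kernel
lemma kD0 : eqT 150 (hor (cD.take 2) H2) LD = true := by
  decide +kernel
lemma kW1 : eqT 150 (addL (mulT 150 Lu Ldv) (smL (-1) (mulT 150 Lv Ldu))) W1 = true := by
  decide +kernel

end APD

end C37
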