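import Pool.Agent.Lib.C37.B_APD0

namespace C37

namespace APD

lemma kA : eqT 150 (hor cA []) LA = true := by
  decide +kernel
lemma kB : eqT 150 (hor cB []) LB = true := by
  decide +kernel
lemma kW : eqT 150 (addL (addL Ldu (mulT 150 Lu W1)) (smL (-1) (mulT 150 Lv Ldv))) LW = true := by
  decide +kernel

end APD

end C37
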