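import Pool.Agent.Lib.C37.Kit
import Pool.Agent.Lib.C37.B_APD1
import Pool.Agent.Lib.C37.B_APD2
import Pool.Agent.Lib.C37.B_APD3

open Complex Filter Topology Set Asymptotics

namespace C37

namespace APD

lemma ap_nil : Ap 150 (fun _ => 0) [] := by
  simpa [Ap, ev] using isBigO_zero (E' := ℂ) (fun τ => Q τ ^ 150) cusp

variable (hK : St_APK)
include hK

lemma ap_lin {fs : List (ℂ → ℂ)} {ls : List (List ℤ)} (h : List.Forall₂ (Ap 150) fs ls)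
    (cs : List ℤ) :
    Ap 150 (fun τ => (List.zipWith (fun (c : ℤ) (f : ℂ → ℂ) => c * f τ) cs fs).sum) (lin cs ls) := by
  induction h generalizing cs with
  | nil => cases cs <;> simpa [lin] using ap_nil
  | cons h1 _ ih =>
    cases cs with
    | nil => simpa [lin] using ap_nil
    | cons c cs =>
      simpa [lin] using (hK 150).1 _ _ _ _ ((hK 150).2.1 c _ _ h1) (ih cs)

noncomputable def fpw : List (ℂ → ℂ) :=
  [fun _ => (1 : ℤ), uu, fun τ => uu τ ^ 2, fun τ => uu τ ^ 3, fun τ => uu τ ^ 4, fun τ => uu τ ^ 5,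
    fun τ => uu τ ^ 6]

lemma ap_pw (hu : Ap 150 uu Lu) : List.Forall₂ (Ap 150) fpw pw := by
  obtain ⟨-, -, kmul, kc, -, kcongr, -⟩ := hK 150
  have h2 : Ap 150 (fun τ => uu τ ^ 2) U2 := kcongr _ _ _ _ (kmul _ _ _ _ hu hu) (fun _ _ => by ring) k2
  have h3 : Ap 150 (fun τ => uu τ ^ 3) U3 := kcongr _ _ _ _ (kmul _ _ _ _ hu h2) (fun _ _ => by ring) k3
  have h4 : Ap 150 (fun τ => uu τ ^ 4) U4 := kcongr _ _ _ _ (kmul _ _ _ _ hu h3) (fun _ _ => by ring) k4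
  have h5 : Ap 150 (fun τ => uu τ ^ 5) U5 := kcongr _ _ _ _ (kmul _ _ _ _ hu h4) (fun _ _ => by ring) k5
  have h6 : Ap 150 (fun τ => uu τ ^ 6) U6 := kcongr _ _ _ _ (kmul _ _ _ _ hu h5) (fun _ _ => by ring) k6
  exact .cons (kc 1) (.cons hu (.cons h2 (.cons h3 (.cons h4 (.cons h5 (.cons h6 .nil))))))

lemma ap_hor (hu : Ap 150 uu Lu) (hv : Ap 150 vv Lv) (css : List (List ℤ)) {g : ℂ → ℂ} {s0 : List ℤ}
    (hg : Ap 150 g s0) :
    Ap 150 (fun τ => css.foldr (fun cs s =>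
      (List.zipWith (fun (c : ℤ) (f : ℂ → ℂ) => c * f τ) cs fpw).sum + vv τ * s) (g τ))
      (hor css s0) := by
  induction css with
  | nil => exact hg
  | cons cs css ih =>
    exact (hK 150).1 _ _ _ _ (ap_lin hK (ap_pw hK hu) cs) ((hK 150).2.2.1 _ _ _ _ hv ih)

end APD

open APD in
theorem st_APD (hAPK : St_APK) (hAPU : St_APU) : St_APD := by
  obtain ⟨hu, hv, hdu, hdv⟩ := hAPU
  obtain ⟨kadd, ksm, kmul, -, -, kcongr, -⟩ := hAPK 150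
  have h4 := kcongr _ _ _ _ (ap_hor hAPK hu hv (cD.drop 4) ap_nil) (fun _ _ => rfl) kD4
  have h2 := kcongr _ _ _ _ (ap_hor hAPK hu hv ((cD.drop 2).take 2) h4) (fun _ _ => rfl) kD2
  have hD : Ap 150 Du LD := kcongr _ _ _ _ (ap_hor hAPK hu hv (cD.take 2) h2)
    (fun τ _ => by simp [cD, fpw, Du, Dn, Fd]; ring) kD0
  have hA : Ap 150 (fun τ => Aa (uu τ) (vv τ) 1) LA := kcongr _ _ _ _ (ap_hor hAPK hu hv cA ap_nil)
    (fun τ _ => by simp [cA, fpw, Aa]; ring) kA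
  have hB : Ap 150 (fun τ => Ab (uu τ) (vv τ) 1) APD.LB := kcongr _ _ _ _ (ap_hor hAPK hu hv cB ap_nil)
    (fun τ _ => by simp [cB, fpw, Ab]; ring) kB
  have hW1 := kcongr _ _ _ _ (kadd _ _ _ _ (kmul _ _ _ _ hu hdv) (ksm (-1) _ _ (kmul _ _ _ _ hv hdu)))
    (fun _ _ => rfl) kW1
  have hW : Ap 150 Wu LW := kcongr _ _ _ _ (kadd _ _ _ _ (kadd _ _ _ _ hdu (kmul _ _ _ _ hu hW1))
    (ksm (-1) _ _ (kmul _ _ _ _ hv hdv))) (fun τ _ => by unfold Wu Wn; push_cast; ring) kW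
  exact ⟨LD, rfl, hD, kcongr _ _ _ _ (kmul _ _ _ _ hA hW) (fun _ _ => rfl) kAW,
    kcongr _ _ _ _ (kmul _ _ _ _ hB hW) (fun _ _ => rfl) kBW⟩

end C37
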