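import Pool.Agent.Lib.C37.Kit

/-! Truncated expansions of the infinite products and of the divisor sums. -/

open Complex Filter Topology Set MeasureTheory Asymptotics
open scoped Real ComplexConjugate

namespace C37

namespace APG

lemma bd (c : ZMod 37 → ℤ) : ∃ C : ℝ, 0 ≤ C ∧ ∀ a, ‖(c a : ℂ)‖ ≤ C :=
  ⟨∑ a, ‖(c a : ℂ)‖, Finset.sum_nonneg fun _ _ => norm_nonneg _, fun a =>
    Finset.single_le_sum (f := fun a => ‖(c a : ℂ)‖) (fun _ _ => norm_nonneg _) (Finset.mem_univ a)⟩

lemma pb_sd (c : ZMod 37 → ℤ) : PBd fun m _ => (c m : ℂ) * m := by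
  obtain ⟨C, h0, hC⟩ := bd c
  refine ⟨C, 1, fun m n _ hn => ?_⟩
  have h1 : (1 : ℝ) ≤ n := by exact_mod_cast hn
  rw [norm_mul, pow_one, Complex.norm_natCast]
  exact mul_le_mul (hC _) (le_mul_of_one_le_right (Nat.cast_nonneg m) h1) (Nat.cast_nonneg m) h0

noncomputable def al (c : ZMod 37 → ℤ) (K m n : ℕ) : ℂ := if K ≤ m then (c m : ℂ) / n else 0

lemma pb_al (c : ZMod 37 → ℤ) (K : ℕ) : PBd (al c K) := by
  obtain ⟨C, h0, hC⟩ := bd c
  refine ⟨C, 0, fun m n _ hn => ?_⟩
  have h1 : (1 : ℝ) ≤ n := by exact_mod_cast hn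
  rw [pow_zero, mul_one]
  unfold al
  split_ifs
  · rw [norm_div, Complex.norm_natCast]
    exact (div_le_self (norm_nonneg _) h1).trans (hC _)
  · simpa using h0

lemma row {K : ℕ} (hK : 0 < K) {τ : ℂ} (h : τ ∈ UH) :
    HasSum (fun p : ℕ+ × ℕ+ => (if (p.1 : ℕ) = K then (1 : ℂ) / (p.2 : ℕ) else 0) *
      Q τ ^ ((p.1 : ℕ) * (p.2 : ℕ))) (-Complex.log (1 - Q τ ^ K)) := by
  have hn : ‖Q τ ^ K‖ < 1 := by
    rw [norm_pow]; exact pow_lt_one₀ (norm_nonneg _) (norm_Q_lt h) hK.ne'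
  have h1 := (hasSum_nat_add_iff' 1).mpr (Complex.hasSum_taylorSeries_neg_log hn)
  have hi : Function.Injective fun n : ℕ => ((⟨K, hK⟩ : ℕ+), n.succPNat) := fun a b hab =>
    Nat.succPNat_injective (congrArg Prod.snd hab)
  refine (hi.hasSum_iff fun p hp => ?_).mp ?_
  · rw [if_neg, zero_mul]
    intro h2
    refine hp ⟨p.2.natPred, Prod.ext (Subtype.ext h2.symm) ?_⟩
    simp
  · simp only [Finset.range_one, Finset.sum_singleton, Nat.cast_zero, div_zero, sub_zero] at h1
    refine (HasSum.congr_fun h1 fun x => ?_)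
    simp only [Function.comp, PNat.mk_coe, if_true, Nat.succPNat_coe, pow_mul, Nat.succ_eq_add_one]
    ring

lemma ev_rep (K : ℕ) (l : List ℤ) (x : ℂ) : ev (List.replicate K 0 ++ l) x = x ^ K * ev l x := by
  induction K with
  | zero => simp
  | succ K ih =>
    have : ev (List.replicate (K + 1) 0 ++ l) x = (0 : ℤ) + x * ev (List.replicate K 0 ++ l) x := rfl
    rw [this, ih]; push_cast; ring

lemma shift {M : ℕ} (K : ℕ) {f : ℂ → ℂ} {l : List ℤ} (h : Ap M f l) :
    Ap M (fun τ => Q τ ^ K * f τ) (List.replicate K 0 ++ l) := by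
  have h1 : (fun τ => Q τ ^ K) =O[cusp] fun _ => (1 : ℂ) := (tendsto_Q_cusp.pow K).isBigO_one ℂ
  refine (h1.mul h).congr (fun τ => ?_) fun τ => one_mul _
  rw [ev_rep]; ring

lemma step (hSS : St_SS) (c : ZMod 37 → ℤ) {K : ℕ} (hK : 0 < K) (h1 : c K = 1) {τ : ℂ}
    (h : τ ∈ UH) : cexp (-SS (al c K) τ) = cexp (-SS (al c (K + 1)) τ) * (1 - Q τ ^ K) := by
  have h2 := ((hSS _ (pb_al c (K + 1))).1 τ h).add (row hK h)
  have h3 : SS (al c K) τ = SS (al c (K + 1)) τ + -Complex.log (1 - Q τ ^ K) := by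
    refine ((hSS _ (pb_al c K)).1 τ h).unique (HasSum.congr_fun h2 fun p => ?_)
    rw [← add_mul]
    congr 1
    unfold al
    rcases lt_trichotomy (p.1 : ℕ) K with h4 | h4 | h4
    · rw [if_neg (by omega), if_neg (by omega), if_neg (by omega), add_zero]
    · rw [if_pos (by omega), if_neg (by omega), if_pos h4, h4, h1, zero_add, Int.cast_one]
    · rw [if_pos (by omega), if_pos (by omega), if_neg (by omega), add_zero]
  have hn : ‖Q τ ^ K‖ < 1 := by
    rw [norm_pow]; exact pow_lt_one₀ (norm_nonneg _) (norm_Q_lt h) hK.ne'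
  have h0 : 1 - Q τ ^ K ≠ 0 := fun h5 => by
    rw [← sub_eq_zero.mp h5] at hn; simp at hn
  rw [h3, neg_add, neg_neg, Complex.exp_add, Complex.exp_log h0]

lemma skip (c : ZMod 37 → ℤ) {K : ℕ} (h1 : c K = 0) : al c K = al c (K + 1) := by
  funext m n
  unfold al
  rcases lt_trichotomy m K with h4 | h4 | h4
  · rw [if_neg (by omega), if_neg (by omega)]
  · rw [if_pos (by omega), if_neg (by omega), h4, h1, Int.cast_zero, zero_div]
  · rw [if_pos (by omega), if_pos (by omega)]

lemma base (hAPK : St_APK) (hSS : St_SS) (c : ZMod 37 → ℤ) {M : ℕ} (hM : 0 < M) :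
    Ap M (fun τ => cexp (-SS (al c M) τ)) [1] := by
  have h1 := (hAPK M).2.2.2.2.2.2.2.2.2.1 _ _ (hSS _ (pb_al c M)).2.1
  have h2 : SS (al c M) =O[cusp] fun τ => Q τ ^ M := by
    refine h1.congr_left fun τ => ?_
    rw [Finset.sum_eq_zero, sub_zero]
    intro n hn
    rw [Finset.sum_eq_zero, zero_mul]
    intro x hx
    have h3 := Nat.divisor_le (Nat.fst_mem_divisors_of_mem_antidiagonal hx)
    have h4 := Finset.mem_range.mp hn
    unfold al
    rw [if_neg (by omega)]
  have h3 : Tendsto (fun τ => -SS (al c M) τ) cusp (𝓝 0) := by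
    refine h2.neg_left.trans_tendsto ?_
    simpa [hM.ne'] using tendsto_Q_cusp.pow M
  have h4 := (Complex.hasDerivAt_exp 0).isBigO_sub.comp_tendsto h3
  refine (h4.congr (fun τ => ?_) fun τ => ?_).trans h2.neg_left
  · simp [ev]
  · simp

lemma fold (hAPK : St_APK) (hSS : St_SS) (j : ℕ) {M : ℕ} (hM : 0 < M) (d : ℕ) :
    ∀ K, K + d = M → Ap M (fun τ => cexp (-SS (al (chi j) K) τ)) ((List.range' K d).foldr
      (fun (m : ℕ) l => if chi j m = 1 then
        (addL l (List.replicate m 0 ++ smL (-1) l)).take M else l) [1]) := by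
  induction d with
  | zero =>
    intro K hK
    obtain rfl : K = M := hK
    exact base hAPK hSS _ hM
  | succ d ih =>
    intro K hK
    have h1 := ih (K + 1) (by omega)
    rw [List.range'_succ, List.foldr_cons]
    split_ifs with h2
    · have hK0 : 0 < K := by
        rcases Nat.eq_zero_or_pos K with rfl | h3
        · exfalso
          unfold chi at h2
          rw [if_neg] at h2
          · exact zero_ne_one h2
          · rw [Nat.cast_zero, zero_pow (by norm_num)]
            exact (pow_ne_zero j (by decide)).symm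
        · exact h3
      have h3 := (hAPK M).2.2.2.2.2.2.1 M _ _ le_rfl
        ((hAPK M).1 _ _ _ _ h1 (shift K ((hAPK M).2.1 (-1) _ _ h1)))
      refine h3.congr' ?_ (.refl _ _)
      filter_upwards [ev_UH_cusp] with τ hτ
      rw [step hSS _ hK0 h2 hτ]
      push_cast; ring
    · have h3 : chi j K = 0 := by
        unfold chi at h2 ⊢
        split_ifs at h2 ⊢ with h4
        · exact absurd rfl h2
        · rfl
      rw [skip _ h3]
      exact h1

lemma coef (c : ZMod 37 → ℤ) {M k : ℕ} (hk : k < M) :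
    (((SL c M).getD k 0 : ℤ) : ℂ) = ∑ x ∈ k.divisorsAntidiagonal, (c x.1 : ℂ) * x.1 := by
  rw [Nat.sum_divisorsAntidiagonal (f := fun a _ => (c a : ℂ) * a)]
  unfold SL
  rw [List.getD_eq_getElem _ _ (by simpa using hk), List.getElem_map, List.getElem_range,
    ← List.sum_toFinset _ List.nodup_range, List.toFinset_range, ← Finset.sum_filter]
  push_cast
  refine Finset.sum_congr ?_ fun _ _ => rfl
  ext m
  simp only [Finset.mem_filter, Finset.mem_range, Nat.mem_divisors]
  exact ⟨fun h => ⟨h.2.2, h.2.1.ne'⟩, fun h => ⟨Nat.lt_succ_of_le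
    (Nat.le_of_dvd (Nat.pos_of_ne_zero h.2) h.1), Nat.pos_of_ne_zero h.2, h.1⟩⟩

end APG

theorem st_APG (hAPK : St_APK) (hSS : St_SS) : St_APG := by
  intro M hM
  refine ⟨fun j => ?_, fun c => ?_⟩
  · have h1 := APG.fold hAPK hSS j hM M 0 (Nat.zero_add M)
    rw [← List.range_eq_range'] at h1
    exact h1
  · refine ((hAPK M).2.2.2.2.2.2.2.2.1 _ _).mpr ?_
    refine ((hAPK M).2.2.2.2.2.2.2.2.2.1 _ _ (hSS _ (APG.pb_sd c)).2.1).congr_left fun τ => ?_
    refine congrArg₂ (· - ·) rfl (Finset.sum_congr rfl fun n hn => ?_)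
    rw [APG.coef c (Finset.mem_range.mp hn)]

end C37
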