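import Pool.Agent.Lib.C37.Kit

/-! Calculus of truncated expansions at the cusp. -/

open Complex Filter Topology Set MeasureTheory Asymptotics
open scoped Real ComplexConjugate

namespace C37

namespace APK

lemma ev_nil (x : ℂ) : ev [] x = 0 := rfl

lemma ev_cons (a : ℤ) (s : List ℤ) (x : ℂ) : ev (a :: s) x = a + x * ev s x := rfl

lemma ev_addL (x : ℂ) : ∀ l l' : List ℤ, ev (addL l l') x = ev l x + ev l' x
  | [], l => by rw [addL, ev_nil, zero_add]
  | a :: s, [] => by rw [addL, ev_nil, add_zero]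
  | a :: s, b :: t => by
    rw [addL, ev_cons, ev_cons, ev_cons, ev_addL x s t]; push_cast; ring

lemma ev_smL (c : ℤ) (x : ℂ) : ∀ l : List ℤ, ev (smL c l) x = c * ev l x
  | [] => by rw [smL, List.map_nil, ev_nil, mul_zero]
  | a :: s => by
    have := ev_smL c x s
    rw [smL] at this
    rw [smL, List.map_cons, ev_cons, ev_cons, this]; push_cast; ring

lemma ev_take (x : ℂ) : ∀ (M : ℕ) (l : List ℤ),
    ev l x - ev (l.take M) x = ev (l.drop M) x * x ^ M
  | 0, l => by rw [List.take_zero, List.drop_zero, ev_nil]; ring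
  | M + 1, [] => by rw [List.take_nil, List.drop_nil, ev_nil]; ring
  | M + 1, a :: s => by
    rw [List.take_succ_cons, List.drop_succ_cons, ev_cons, ev_cons]
    linear_combination x * ev_take x M s

lemma ev_sum (x : ℂ) : ∀ (M : ℕ) (l : List ℤ),
    ev (l.take M) x = ∑ n ∈ Finset.range M, (l.getD n 0 : ℂ) * x ^ n
  | 0, l => by rw [List.take_zero, ev_nil, Finset.sum_range_zero]
  | M + 1, [] => by simp [ev_nil]
  | M + 1, a :: s => by
    rw [List.take_succ_cons, ev_cons, ev_sum x M s, Finset.sum_range_succ', Finset.mul_sum,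
      List.getD_cons_zero, pow_zero, mul_one, add_comm]
    congr 1
    exact Finset.sum_congr rfl fun n _ => by rw [List.getD_cons_succ]; ring

lemma ev_zero (x : ℂ) : ∀ l : List ℤ, l.all (· == 0) = true → ev l x = 0
  | [], _ => rfl
  | a :: s, h => by
    rw [List.all_cons, Bool.and_eq_true, beq_iff_eq] at h
    rw [ev_cons, ev_zero x s h.2, h.1]; simp

lemma ev_lim : ∀ l : List ℤ, Tendsto (fun τ => ev l (Q τ)) cusp (𝓝 ((l.headD 0 : ℤ) : ℂ))
  | [] => by simpa [ev_nil] using tendsto_const_nhds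
  | a :: s => by
    have := (tendsto_Q_cusp.mul (ev_lim s)).const_add (a : ℂ)
    rw [zero_mul, add_zero] at this
    exact this

lemma ev_bd (l : List ℤ) : (fun τ => ev l (Q τ)) =O[cusp] fun _ => (1 : ℂ) :=
  (ev_lim l).isBigO_one ℂ

lemma pow_bd (M : ℕ) : (fun τ => Q τ ^ M) =O[cusp] fun _ => (1 : ℂ) :=
  (tendsto_Q_cusp.pow M).isBigO_one ℂ

lemma bd_mul {f g h : ℂ → ℂ} (h1 : f =O[cusp] fun _ => (1 : ℂ)) (h2 : g =O[cusp] h) :
    (fun τ => f τ * g τ) =O[cusp] h := by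
  simpa using h1.mul h2

lemma take_O (M : ℕ) (l : List ℤ) :
    (fun τ => ev l (Q τ) - ev (l.take M) (Q τ)) =O[cusp] fun τ => Q τ ^ M :=
  (bd_mul (ev_bd (l.drop M)) (isBigO_refl _ _)).congr_left fun τ => (ev_take _ M l).symm

lemma mulT_O (l' : List ℤ) : ∀ (M : ℕ) (l : List ℤ),
    (fun τ => ev l (Q τ) * ev l' (Q τ) - ev (mulT M l l') (Q τ)) =O[cusp] fun τ => Q τ ^ M
  | 0, l => by simpa using (bd_mul (ev_bd l) (ev_bd l')).sub (ev_bd _)
  | M + 1, [] => by
    simpa [mulT, ev_nil] using isBigO_zero _ _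
  | M + 1, a :: s => by
    have h1 := ((isBigO_refl Q cusp).mul (mulT_O l' M s)).congr_right
      (g₂ := fun τ => Q τ ^ (M + 1)) fun τ => by ring
    refine (((take_O (M + 1) l').const_mul_left (a : ℂ)).add h1).congr_left fun τ => ?_
    rw [mulT, ev_addL, ev_smL, ev_cons, ev_cons]; push_cast; ring

variable {M : ℕ} {f g : ℂ → ℂ} {l l' : List ℤ}

lemma ap_bd (h : Ap M f l) : f =O[cusp] fun _ => (1 : ℂ) :=
  ((IsBigO.trans h (pow_bd M)).add (ev_bd l)).congr_left fun τ => by ring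

lemma ap_ev (M : ℕ) (l : List ℤ) : Ap M (fun τ => ev l (Q τ)) l :=
  (isBigO_zero _ _).congr_left fun τ => (sub_self _).symm

lemma ap_mul (h1 : Ap M f l) (h2 : Ap M g l') : Ap M (fun τ => f τ * g τ) (mulT M l l') :=
  (((bd_mul (ap_bd h2) h1).add (bd_mul (ev_bd l) h2)).add (mulT_O l' M l)).congr_left
    fun τ => by ring

lemma ap_eq (h1 : Ap M f l) (h2 : ∀ τ ∈ UH, f τ = g τ) (h3 : eqT M l l' = true) : Ap M g l' := by
  refine (IsBigO.add h1 (take_O M (addL l (smL (-1) l')))).congr' ?_ (.refl _ _)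
  filter_upwards [ev_UH_cusp] with τ hτ
  rw [ev_zero _ _ h3, ev_addL, ev_smL, h2 τ hτ]; push_cast; ring

lemma ap_take {M' : ℕ} (h : M ≤ M') (h1 : Ap M' f l) : Ap M f (l.take M) := by
  obtain ⟨k, rfl⟩ := Nat.exists_eq_add_of_le h
  have h2 : (fun τ => Q τ ^ (M + k)) =O[cusp] fun τ => Q τ ^ M :=
    (bd_mul (pow_bd k) (isBigO_refl _ _)).congr_left fun τ => by ring
  exact ((IsBigO.trans h1 h2).add (take_O M l)).congr_left fun τ => by ring

lemma ap_div {a b c : ℂ → ℂ} {la lb lc : List ℤ} (hM : 0 < M) (ha : Ap M a la) (hb : Ap M b lb)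
    (h0 : lb.headD 0 ≠ 0) (h1 : ∀ τ ∈ UH, b τ * c τ = a τ)
    (h2 : eqT M (mulT M lb lc) la = true) : Ap M c lc := by
  have h3 := ap_eq (ap_mul hb (ap_ev M lc)) (fun _ _ => rfl) h2
  have h4 : Tendsto (fun τ => Q τ ^ M) cusp (𝓝 0) := by
    simpa [hM.ne'] using tendsto_Q_cusp.pow M
  have h5 : Tendsto b cusp (𝓝 ((lb.headD 0 : ℤ) : ℂ)) := by
    have := (IsBigO.trans_tendsto hb h4).add (ev_lim lb)
    rw [zero_add] at this
    exact this.congr fun τ => by ring
  have h6 : ((lb.headD 0 : ℤ) : ℂ) ≠ 0 := Int.cast_ne_zero.mpr h0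
  refine (bd_mul ((h5.inv₀ h6).isBigO_one ℂ) (IsBigO.sub ha h3)).congr' ?_ (.refl _ _)
  filter_upwards [ev_UH_cusp, h5.eventually_ne h6] with τ hτ h7
  rw [← h1 τ hτ]; field_simp; ring

lemma ap_iff : Ap M f l ↔
    (fun τ => f τ - ∑ n ∈ Finset.range M, (l.getD n 0 : ℂ) * Q τ ^ n) =O[cusp] fun τ => Q τ ^ M :=
  ⟨fun h => (IsBigO.add h (take_O M l)).congr_left fun τ => by rw [ev_sum]; ring,
    fun h => (h.sub (take_O M l)).congr_left fun τ => by rw [ev_sum]; ring⟩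

lemma tail (M : ℕ) (a : ℕ → ℂ) (h : ∀ τ ∈ UH, HasSum (fun n => a n * Q τ ^ n) (f τ)) :
    (fun τ => f τ - ∑ n ∈ Finset.range M, a n * Q τ ^ n) =O[cusp] fun τ => Q τ ^ M := by
  have hI : I ∈ UH := by simp [UH]
  have h1 : Summable fun n => ‖a (n + M) * Q I ^ (n + M)‖ :=
    (summable_nat_add_iff (f := fun n => ‖a n * Q I ^ n‖) M).mpr (h I hI).summable.norm
  have h2 : 0 < ‖Q I‖ ^ M := pow_pos (norm_pos_iff.mpr (Q_ne _)) M
  refine IsBigO.of_bound ((∑' n, ‖a (n + M) * Q I ^ (n + M)‖) / ‖Q I‖ ^ M) ?_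
  filter_upwards [ev_im_cusp 1] with τ hτ
  have h3 : ‖Q τ‖ ≤ ‖Q I‖ := by
    rw [norm_Q, norm_Q, I_im]
    have := Real.pi_pos
    exact Real.exp_le_exp.mpr (by nlinarith)
  refine ((hasSum_nat_add_iff' M).mpr (h τ (lt_trans one_pos hτ))).norm_le_of_bounded
    ((h1.hasSum.div_const _).mul_right _) fun n => ?_
  simp only [norm_mul, norm_pow, pow_add]
  rw [← mul_assoc, ← mul_assoc, mul_div_cancel_right₀ _ h2.ne']
  gcongr

lemma uniq : ∀ (M : ℕ) (a : ℕ → ℂ),
    ((fun τ => ∑ n ∈ Finset.range M, a n * Q τ ^ n) =O[cusp] fun τ => Q τ ^ M) → ∀ n < M, a n = 0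
  | 0, _, _ => fun _ h => absurd h (Nat.not_lt_zero _)
  | M + 1, a, h => by
    have e1 : ∀ τ, ∑ n ∈ Finset.range (M + 1), a n * Q τ ^ n =
        Q τ * ∑ n ∈ Finset.range M, a (n + 1) * Q τ ^ n + a 0 := fun τ => by
      rw [Finset.sum_range_succ', Finset.mul_sum, pow_zero, mul_one]
      congr 1
      exact Finset.sum_congr rfl fun n _ => by ring
    have h1 : Tendsto (fun τ => Q τ ^ (M + 1)) cusp (𝓝 0) := by
      simpa using tendsto_Q_cusp.pow (M + 1)
    have h2 := (tendsto_Q_cusp.mul (tendsto_finsetSum (Finset.range M) fun n _ =>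
      (tendsto_Q_cusp.pow n).const_mul (a (n + 1)))).add_const (a 0)
    rw [zero_mul, zero_add] at h2
    have h0 : a 0 = 0 :=
      tendsto_nhds_unique (h2.congr fun τ => (e1 τ).symm) (h.trans_tendsto h1)
    have h3 := uniq M (fun n => a (n + 1)) (((isBigO_refl (fun τ => (Q τ)⁻¹) cusp).mul h).congr
      (fun τ => by rw [e1, h0, add_zero, inv_mul_cancel_left₀ (Q_ne τ)])
      fun τ => by rw [pow_succ', inv_mul_cancel_left₀ (Q_ne τ)])
    rintro (_ | n) hn
    · exact h0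
    · exact h3 n (Nat.lt_of_succ_lt_succ hn)

end APK

open APK in
theorem st_APK : St_APK := fun M =>
  ⟨fun _ _ _ _ h1 h2 => (IsBigO.add h1 h2).congr_left fun τ => by rw [ev_addL]; ring,
    fun c _ _ h => (IsBigO.const_mul_left h (c : ℂ)).congr_left fun τ => by rw [ev_smL]; ring,
    fun _ _ _ _ => ap_mul,
    fun c => (isBigO_zero _ _).congr_left fun τ => by rw [ev_cons, ev_nil]; ring,
    (isBigO_zero _ _).congr_left fun τ => by rw [ev_cons, ev_cons, ev_nil]; push_cast; ring,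
    fun _ _ _ _ => ap_eq, fun _ _ _ => ap_take, fun _ _ _ _ _ _ => ap_div, fun _ _ => ap_iff,
    fun _ a => tail M a, uniq M⟩

end C37
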