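import Pool.Agent.Lib.C37.Kit

/-! Expansions of `u`, `v` and of their logarithmic derivatives to order 150. -/

open Complex Filter Topology Set MeasureTheory Asymptotics
open scoped Real ComplexConjugate

namespace C37

namespace APU

lemma pbd (j : ℕ) : PBd fun m n => (chi j m : ℂ) / n := by
  refine ⟨1, 0, fun m n _ hn => ?_⟩
  have h1 : ‖(chi j m : ℂ)‖ ≤ 1 := by
    unfold chi
    split_ifs <;> simp
  have h2 : (1 : ℝ) ≤ n := by exact_mod_cast hn
  rw [norm_div, Complex.norm_natCast, pow_zero, mul_one, div_le_one (by linarith)]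
  linarith

lemma k1 : eqT 150 (mulT 150 (PL 0 150) Lu) (smL (-1) (mulT 150 [0, 1] (PL 2 150))) = true := by
  decide +kernel

lemma k2 : eqT 150 (mulT 150 (PL 1 150) Lv) (mulT 150 [0, 0, 0, 0, 0, 1] (PL 2 150)) = true := by
  decide +kernel

lemma k3 : eqT 150 (mulT 150 Lu (addL [1] (SL cu 150))) Ldu = true := by
  decide +kernel

lemma k4 : eqT 150 (mulT 150 Lv (addL [5] (SL cv 150))) Ldv = true := by
  decide +kernel

lemma k5 : (PL 0 150).headD 0 ≠ 0 := by decide +kernel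

lemma k6 : (PL 1 150).headD 0 ≠ 0 := by decide +kernel

lemma sg_sub (hSS : St_SS) (i j : ℕ) {τ : ℂ} (hτ : τ ∈ UH) :
    sg (fun a => chi i a - chi j a) τ = sg (chi i) τ - sg (chi j) τ := by
  have h := ((hSS _ (pbd i)).1 τ hτ).sub ((hSS _ (pbd j)).1 τ hτ)
  unfold sg
  rw [← h.tsum_eq]
  unfold SS
  refine tsum_congr fun p => ?_
  push_cast
  ring

lemma exp_Q (o : ℕ) (τ : ℂ) : cexp (2 * π * I * ((o : ℤ) : ℂ) * τ / 37) = Q τ ^ o := by
  unfold Q
  rw [e_pow]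
  unfold e
  congr 1
  push_cast
  ring

lemma ap_Q5 (M : ℕ) : Ap M (fun τ => Q τ ^ 5) [0, 0, 0, 0, 0, 1] := by
  unfold Ap
  have : (fun τ => Q τ ^ 5 - ev [0, 0, 0, 0, 0, 1] (Q τ)) = fun _ => (0 : ℂ) := by
    funext τ
    simp [ev]
    ring
  rw [this]
  exact isBigO_zero _ _

end APU

open APU in
theorem st_APU (hAPK : St_APK) (hAPG : St_APG) (hSS : St_SS) : St_APU := by
  obtain ⟨hadd, hsm, hmul, hc, hQ, heq, -, hdiv, -⟩ := hAPK 150
  obtain ⟨hP, hS⟩ := hAPG 150 (by norm_num)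
  have hu : Ap 150 uu Lu := by
    refine hdiv _ _ _ _ _ _ (by norm_num) (hsm (-1) _ _ (hmul _ _ _ _ hQ (hP 2))) (hP 0) k5
      (fun τ hτ => ?_) k1
    have h1 : sg cu τ = sg (chi 0) τ - sg (chi 2) τ := sg_sub hSS 0 2 hτ
    have h2 := exp_Q 1 τ
    rw [Nat.cast_one, pow_one] at h2
    unfold uu ell
    rw [exp_add, h2, h1, exp_sub, exp_neg, exp_neg]
    have := exp_ne_zero (sg (chi 0) τ)
    have := exp_ne_zero (sg (chi 2) τ)
    push_cast
    field_simp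
  have hv : Ap 150 vv Lv := by
    refine hdiv _ _ _ _ _ _ (by norm_num) (hmul _ _ _ _ (ap_Q5 150) (hP 2)) (hP 1) k6
      (fun τ hτ => ?_) k2
    have h1 : sg cv τ = sg (chi 1) τ - sg (chi 2) τ := sg_sub hSS 1 2 hτ
    have h2 := exp_Q 5 τ
    rw [Nat.cast_ofNat] at h2
    unfold vv ell
    rw [exp_add, h2, h1, exp_sub, exp_neg, exp_neg]
    have := exp_ne_zero (sg (chi 1) τ)
    have := exp_ne_zero (sg (chi 2) τ)
    field_simp
  refine ⟨hu, hv, ?_, ?_⟩
  · refine heq _ _ _ _ (hmul _ _ _ _ hu (hadd _ _ _ _ (hc 1) (hS cu))) (fun τ _ => ?_) k3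
    unfold du
    push_cast
    rfl
  · refine heq _ _ _ _ (hmul _ _ _ _ hv (hadd _ _ _ _ (hc 5) (hS cv))) (fun τ _ => ?_) k4
    unfold dv
    push_cast
    rfl

end C37
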