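import Pool.Agent.Lib.C37.Kit

/-! A cubic bound for the coefficients. -/

namespace C37

namespace CB

open Finset

lemma chi_sub (i j : ℕ) (a : ZMod 37) : |chi i a - chi j a| ≤ 1 := by
  unfold chi; split_ifs <;> simp

lemma wt_le (yi a d : ZMod 37) : |wt yi a d| ≤ 2 := by
  have h : ∀ x y : ℤ, |x| ≤ 1 → |y| ≤ 1 → |x * y| ≤ 1 := fun x y hx hy => by
    rw [abs_mul]; exact mul_le_one₀ hx (abs_nonneg _) hy
  exact (abs_sub _ _).trans (add_le_add (h _ _ (chi_sub _ _ _) (chi_sub _ _ _))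
    (h _ _ (chi_sub _ _ _) (chi_sub _ _ _)))

lemma ea_le (a d : ZMod 37) (m n : ℕ) : |ea a d m n| ≤ 1 := by
  unfold ea iv; split_ifs <;> simp

lemma ea_le' (a d : ZMod 37) (m n : ℕ) :
    |ea a d m n| ≤ iv m a * iv n d + iv (-m) a * iv (-n) d := by
  simp only [ea, iv, neg_eq_iff_eq_neg]
  split_ifs <;> simp

lemma card_le (j : ℕ) : (#j.divisorsAntidiagonal : ℤ) ≤ j := by
  rw [← Nat.map_div_right_divisors, card_map]
  exact_mod_cast Nat.card_divisors_le_self j

lemma ec_le (a d : ZMod 37) (j : ℕ) : |ec a d j| ≤ j := by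
  refine (abs_sum_le_sum_abs _ _).trans ((sum_le_card_nsmul _ _ 1 fun x _ => ea_le ..).trans ?_)
  simpa using card_le j

lemma sum_iv (m : ZMod 37) : ∑ a, iv m a = 1 := by simp [iv]

lemma sum_ec (j : ℕ) : ∑ a, ∑ d, |ec a d j| ≤ 2 * j := by
  calc ∑ a, ∑ d, |ec a d j| ≤ ∑ a, ∑ d, ∑ x ∈ j.divisorsAntidiagonal,
        (iv x.1 a * iv x.2 d + iv (-x.1) a * iv (-x.2) d) :=
        sum_le_sum fun a _ => sum_le_sum fun d _ =>
          (abs_sum_le_sum_abs _ _).trans (sum_le_sum fun x _ => ea_le' ..)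
    _ = ∑ x ∈ j.divisorsAntidiagonal, (2 : ℤ) := by
        rw [sum_congr rfl fun a _ => sum_comm, sum_comm]
        refine sum_congr rfl fun x _ => ?_
        simp only [sum_add_distrib, ← mul_sum, sum_iv, mul_one]
        rfl
    _ ≤ 2 * j := by
        rw [sum_const, nsmul_eq_mul, mul_comm]
        exact mul_le_mul_of_nonneg_left (card_le j) zero_le_two

end CB

open CB Finset in
theorem st_CB : St_CB := by
  intro y yi k
  have h1 : |∑ a, ∑ d, wt yi a d *
      ∑ j ∈ range (k + 1), ec a d j * ec (a * y) (-(d * yi)) (k - j)| ≤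
      ∑ a, ∑ d, ∑ j ∈ range (k + 1), 2 * ((k - j : ℕ) : ℤ) * |ec a d j| := by
    refine (abs_sum_le_sum_abs _ _).trans (sum_le_sum fun a _ =>
      (abs_sum_le_sum_abs _ _).trans (sum_le_sum fun d _ => ?_))
    simp only [mul_assoc, ← mul_sum]
    rw [abs_mul]
    refine mul_le_mul (wt_le ..) ((abs_sum_le_sum_abs _ _).trans (sum_le_sum fun j _ => ?_))
      (abs_nonneg _) zero_le_two
    rw [abs_mul, mul_comm]
    exact mul_le_mul_of_nonneg_right (ec_le ..) (abs_nonneg _)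
  replace h1 := h1.trans_eq ((sum_congr rfl fun a _ => sum_comm).trans sum_comm)
  simp only [← mul_sum] at h1
  have h2 : ∑ j ∈ range (k + 1), 2 * ((k - j : ℕ) : ℤ) * ∑ a, ∑ d, |ec a d j| ≤ k ^ 3 := by
    refine (sum_le_sum fun j _ => mul_le_mul_of_nonneg_left (sum_ec j) (by positivity)).trans ?_
    rw [sum_range_succ', Nat.cast_zero, mul_zero, mul_zero, add_zero]
    refine (sum_le_card_nsmul _ _ ((k : ℤ) ^ 2) fun j hj => ?_).trans (by simp [pow_succ'])
    rw [Nat.cast_sub (mem_range.1 hj)]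
    nlinarith [sq_nonneg ((k : ℤ) - 2 * (j + 1 : ℕ))]
  rw [cf, abs_mul, abs_neg, abs_two]
  linarith

end C37
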