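import Pool.Agent.Lib.C37.Kit

/-! A function with the properties `Mod` is a cusp form. -/

open Complex Filter Topology Set MeasureTheory Asymptotics
open scoped Real ComplexConjugate MatrixGroups ModularForm

namespace C37

namespace CF

lemma sl (F : ℂ → ℂ) (γ : SL(2, ℤ)) (τ : UpperHalfPlane) :
    ((fun σ : UpperHalfPlane => F σ) ∣[(2 : ℤ)] γ) τ =
      F ((γ 0 0 * τ + γ 0 1) / (γ 1 0 * τ + γ 1 1)) / (γ 1 0 * τ + γ 1 1) ^ 2 := by
  rw [ModularForm.SL_slash_apply, UpperHalfPlane.coe_specialLinearGroup_apply,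
    ModularGroup.denom_apply, zpow_neg, div_eq_mul_inv (F _)]
  simp only [eq_intCast, ofReal_intCast]
  rfl

lemma den (γ : SL(2, ℤ)) (τ : UpperHalfPlane) : (γ 1 0 * τ + γ 1 1 : ℂ) ≠ 0 := by
  have := UpperHalfPlane.denom_ne_zero γ τ
  rwa [ModularGroup.denom_apply] at this

lemma dt (γ : SL(2, ℤ)) : γ 0 0 * γ 1 1 - γ 0 1 * γ 1 0 = 1 := by
  have := γ.det_coe
  rwa [Matrix.det_fin_two] at this

lemma inv {F : ℂ → ℂ} (h : Mod F) (γ : SL(2, ℤ)) (hc : (37 : ℤ) ∣ γ 1 0) :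
    (fun σ : UpperHalfPlane => F σ) ∣[(2 : ℤ)] γ = fun σ : UpperHalfPlane => F σ := by
  funext τ
  rw [sl, h.inv _ _ _ _ (dt γ) hc τ τ.2, mul_div_cancel_left₀ _ (pow_ne_zero 2 (den γ τ))]

lemma other {F : ℂ → ℂ} (h : Mod F) (γ : SL(2, ℤ)) (k : ℤ) (hk : (37 : ℤ) ∣ γ 1 0 * k - γ 1 1) :
    (fun σ : UpperHalfPlane => F σ) ∣[(2 : ℤ)] γ =
      fun σ : UpperHalfPlane => F (-1 / (σ + k)) / (σ + k) ^ 2 := by
  funext τ
  have m : (τ : ℂ) + k ∈ UH := add_mem_UH τ.2 (by simp)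
  have n := ne_of_UH m
  have d := den γ τ
  have e1 := h.inv (γ 0 0 * k - γ 0 1) (γ 0 0) (γ 1 0 * k - γ 1 1) (γ 1 0)
    (by linear_combination dt γ) hk _ (inv_mem_UH m)
  have e2 : ((γ 0 0 * k - γ 0 1 : ℤ) : ℂ) * (-1 / (τ + k)) + γ 0 0 =
      (γ 0 0 * τ + γ 0 1) / (τ + k) := by
    push_cast; field_simp; ring
  have e3 : ((γ 1 0 * k - γ 1 1 : ℤ) : ℂ) * (-1 / (τ + k)) + γ 1 0 =
      (γ 1 0 * τ + γ 1 1) / (τ + k) := by
    push_cast; field_simp; ring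
  rw [e2, e3, div_div_div_cancel_right₀ n] at e1
  rw [sl, e1]
  field_simp

lemma exk {c : ℤ} (hc : ¬ (37 : ℤ) ∣ c) (d : ℤ) : ∃ k : ℤ, (37 : ℤ) ∣ c * k - d := by
  have h1 : IsCoprime (37 : ℤ) c :=
    (Prime.coprime_iff_not_dvd (Int.prime_iff_natAbs_prime.mpr (by norm_num))).mpr hc
  obtain ⟨u, v, h2⟩ := h1
  exact ⟨v * d, -u * d, by linear_combination d * h2⟩

lemma shift (k : ℤ) : Tendsto (fun σ : UpperHalfPlane => (σ : ℂ) + k) UpperHalfPlane.atImInfty cusp := by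
  have h : Tendsto (fun σ : UpperHalfPlane => σ.im) UpperHalfPlane.atImInfty atTop := tendsto_comap
  refine tendsto_comap_iff.mpr (h.congr fun σ => ?_)
  simp

end CF

open CF in
theorem st_CF : St_CF := fun F h =>
  ⟨{ toFun := fun σ => F σ
     slash_action_eq' := by
       rintro _ ⟨γ, hγ, rfl⟩
       exact inv h γ ((ZMod.intCast_zmod_eq_zero_iff_dvd _ 37).mp hγ)
     holo' := by
       rw [UpperHalfPlane.mdifferentiable_iff]
       exact h.hol.congr fun z hz => by simp [UpperHalfPlane.ofComplex_apply_of_im_pos hz]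
     zero_at_cusps' := fun hc => by
       rw [Subgroup.IsArithmetic.isCusp_iff_isCusp_SL2Z] at hc
       rw [OnePoint.isZeroAt_iff_forall_SL2Z hc]
       intro γ _
       by_cases h1 : (37 : ℤ) ∣ γ 1 0
       · rw [inv h γ h1]
         exact h.z1.comp UpperHalfPlane.tendsto_coe_atImInfty
       · obtain ⟨k, hk⟩ := exk h1 (γ 1 1)
         rw [other h γ k hk]
         exact h.z0.comp (shift k) }, fun _ => rfl⟩

end C37
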