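import Pool.Agent.Lib.C37.Kit

/-! Block CNT: the bad points of a parametrisation are countable. -/

open Complex Set Polynomial

namespace C37

namespace CNT

/-- the point `(p, r)` lies on an algebraic hyperplane section -/
def Hy (p r : ℂ) : Prop := ∃ a0 a1 a2 a3 : ℂ, IsAlgebraic ℚ a0 ∧ IsAlgebraic ℚ a1 ∧
  IsAlgebraic ℚ a2 ∧ IsAlgebraic ℚ a3 ∧ ¬(a0 = 0 ∧ a1 = 0 ∧ a2 = 0 ∧ a3 = 0) ∧
  a0 + a1 * p + a2 * r + a3 * (p * r) = 0

lemma cubic {x : ℂ} (k a b c : ℚ) (hk : k ≠ 0) (h : k * x ^ 3 + a * x ^ 2 + b * x + c = 0) :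
    IsAlgebraic ℚ x := by
  refine ⟨C k * X ^ 3 + C a * X ^ 2 + C b * X + C c, fun h0 => hk ?_, by simpa using h⟩
  simpa using congrArg (fun f => coeff f 3) h0

lemma alg_rat (q : ℚ) : IsAlgebraic ℚ (q : ℂ) := isAlgebraic_algebraMap q

lemma alg_w : IsAlgebraic ℚ w := cubic 1 0 0 (-1) one_ne_zero (by simp [w_cube])

lemma of_xE {p r : ℂ} (h : p + r ≠ 0) (hc : IsAlgebraic ℚ (xE p r)) : Hy p r := by
  have z := isAlgebraic_zero (R := ℚ) (A := ℂ)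
  have o := isAlgebraic_one (R := ℚ) (A := ℂ)
  have e : xE p r * (p + r) ^ 2 = -3 * p * r := div_mul_cancel₀ _ (pow_ne_zero 2 h)
  generalize xE p r = c at hc e
  by_cases hp : p = 0
  · exact ⟨0, 1, 0, 0, z, o, z, z, by simp, by simp [hp]⟩
  by_cases h0 : c = 0
  · exact ⟨0, 0, 0, 1, z, z, z, o, by simp, by rw [h0] at e; linear_combination (1 / 3 : ℂ) * e⟩
  have h2 : IsAlgebraic ℚ (2 * c) := by simpa using (alg_rat 2).mul hc
  have h3 : IsAlgebraic ℚ (2 * c * r / p + 2 * c + 3) := by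
    refine IsAlgebraic.of_pow two_pos ?_
    have e2 : (2 * c * r / p + 2 * c + 3) ^ 2 = (12 : ℚ) * c + (9 : ℚ) := by
      push_cast
      field_simp
      linear_combination 4 * c * e
    rw [e2]
    exact ((alg_rat 12).mul hc).add (alg_rat 9)
  have h4 : IsAlgebraic ℚ (-(2 * c * r / p)) := by
    have := (h2.add (alg_rat 3)).sub h3
    push_cast at this
    rwa [show 2 * c + 3 - (2 * c * r / p + 2 * c + 3) = -(2 * c * r / p) by ring] at this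
  refine ⟨0, _, _, 0, z, h4, h2, z, fun h5 => h0 ?_, ?_⟩
  · simpa using h5.2.2.1
  · field_simp
    ring

lemma of_bad (hAD : St_AD) {p r : ℂ} (h : Ph p r = 0) (hb : ¬Good p r) : Hy p r := by
  have z := isAlgebraic_zero (R := ℚ) (A := ℂ)
  have o := isAlgebraic_one (R := ℚ) (A := ℂ)
  obtain ⟨hA, hB, -⟩ := hAD p r h
  by_cases h1 : p ^ 3 = 1
  · exact ⟨-p, 1, 0, 0, (cubic 1 0 0 (-1) one_ne_zero (by simp [h1])).neg, o, z, z, by simp,
      by simp⟩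
  by_cases h2 : r ^ 3 = -1
  · exact ⟨-r, 0, 1, 0, (cubic 1 0 0 1 one_ne_zero (by simp [h2])).neg, z, o, z, by simp, by simp⟩
  by_cases h3 : p + r = 0
  · exact ⟨0, 1, 1, 0, z, o, o, z, by simp, by simpa using h3⟩
  by_cases h4 : IsAlgebraic ℚ (xE p r)
  · exact of_xE h3 h4
  have h5 : ∀ q : ℚ, xE p r ≠ q := fun q e => h4 (e ▸ alg_rat q)
  have h6 : SA p r ≠ 0 := fun e => h4 (cubic 4 0 (-4) 1 (by norm_num) (by
    have e2 : 2 * yE p r + 1 = 0 := e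
    push_cast
    linear_combination (2 * yE p r + 1) * e2 - 4 * (hA h3).1))
  have h7 : SB p r = 0 := by
    by_contra h7
    exact hb ⟨h, h1, h2, h3, by simpa using h5 0, by simpa using h5 1, by simpa using h5 (-1),
      by simpa using h5 2, h6, h7⟩
  have h8 : IsAlgebraic ℚ (XB p r) := cubic 4 16 8 1 (by norm_num) (by
    have e2 := (hB h1 h2).1
    rw [h7, Cb] at e2
    push_cast
    linear_combination -e2)
  have h9 : LB 2 p r ≠ 0 := mul_ne_zero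
    (fun e => h1 (by rw [sub_eq_zero.mp e]; linear_combination (w ^ 3 + 1) * w_cube))
    fun e => h2 (by rw [eq_neg_of_add_eq_zero_left e]; linear_combination (-w ^ 3 - 1) * w_cube)
  have e : XB p r * LB 2 p r = -w ^ 2 * LB 0 p r := div_mul_cancel₀ _ h9
  generalize XB p r = c at h8 e
  have hw2 := alg_w.pow 2
  refine ⟨-(c * w ^ 2 * w ^ 2 + w ^ 2), c * w ^ 2 + w ^ 2, -(c * w ^ 2 + w ^ 2), c + w ^ 2,
    (((h8.mul hw2).mul hw2).add hw2).neg, (h8.mul hw2).add hw2, ((h8.mul hw2).add hw2).neg,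
    h8.add hw2, fun ⟨_, k1, _, k3⟩ => ?_, ?_⟩
  · have k4 : (3 : ℂ) = 0 := by
      have k5 : w ^ 2 - w ^ 4 = 0 := by linear_combination k1 - w ^ 2 * k3
      have k6 : w = 1 := by linear_combination w ^ 2 * k5 + (w ^ 3 + 1 - w) * w_cube
      simpa [k6, show (1 : ℂ) + 1 + 1 = 3 by norm_num] using hw
    norm_num at k4
  · unfold LB at e
    linear_combination e

end CNT

open CNT in
theorem st_CNT (hHYP : St_HYP) (hAG1 : St_AG1) (hAD : St_AD) : St_CNT := by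
  intro x y z Za Zb hT
  obtain ⟨h1, h2⟩ := hHYP x y z Za Zb hT
  have hA := Algebraic.countable ℚ ℂ
  have hS : {a : ℂ × ℂ × ℂ × ℂ | (IsAlgebraic ℚ a.1 ∧ IsAlgebraic ℚ a.2.1 ∧ IsAlgebraic ℚ a.2.2.1 ∧
      IsAlgebraic ℚ a.2.2.2) ∧ ¬(a.1 = 0 ∧ a.2.1 = 0 ∧ a.2.2.1 = 0 ∧ a.2.2.2 = 0)}.Countable :=
    (hA.prod (hA.prod (hA.prod hA))).mono fun a ha => ha.1
  refine (h1.union (hS.biUnion fun a ha => h2 a.1 a.2.1 a.2.2.1 a.2.2.2 ha.2)).mono ?_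
  rintro τ ⟨hτ, hG⟩
  by_cases hD : Dn (x τ) (y τ) (z τ) = 0
  · exact Or.inl ⟨hτ, hD⟩
  right
  have o0 := isAlgebraic_zero (R := ℚ) (A := ℂ)
  by_cases h0 : z0 (x τ) (y τ) (z τ) = 0
  · exact mem_biUnion (x := (1, 0, 0, 0)) ⟨⟨isAlgebraic_one, o0, o0, o0⟩, by simp⟩
      ⟨hτ, by simp [h0]⟩
  obtain ⟨k1, k2, -⟩ := hAG1 _ _ _ (hT.hF τ hτ) h0
  obtain ⟨a0, a1, a2, a3, b0, b1, b2, b3, hn, e⟩ := of_bad hAD k1 fun hg => hG ⟨hτ, hD, h0, hg⟩
  refine mem_biUnion (x := (a0, a1, a2, a3)) ⟨⟨b0, b1, b2, b3⟩, hn⟩ ⟨hτ, ?_⟩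
  have e1 : pp (x τ) (y τ) (z τ) * z0 (x τ) (y τ) (z τ) = z1 (x τ) (y τ) (z τ) :=
    div_mul_cancel₀ _ h0
  have e2 : rr (x τ) (y τ) (z τ) * z0 (x τ) (y τ) (z τ) = z2 (x τ) (y τ) (z τ) :=
    div_mul_cancel₀ _ h0
  show a0 * _ + a1 * _ + a2 * _ + a3 * _ = 0
  rw [← e1, ← e2, ← k2]
  linear_combination z0 (x τ) (y τ) (z τ) * e

end C37
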