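import Pool.Agent.Lib.C37.Kit

/-! The first coefficients of the two weight two forms, by packing the series into integers. -/

open Finset

namespace C37

namespace CO

/-- a truncated series evaluated at `B` -/
def pk (B : ℤ) (N : ℕ) (u : ℕ → ℤ) : ℤ := ∑ j ∈ range N, u j * B ^ j

lemma pk_zero {B : ℤ} (hB : 0 < B) (N : ℕ) (u : ℕ → ℤ) (h1 : ∀ j < N, |u j| < B)
    (h2 : B ^ N ∣ pk B N u) : ∀ j < N, u j = 0 := by
  induction N generalizing u with
  | zero => intro j hj; omega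
  | succ N ih =>
    have e : pk B (N + 1) u = B * pk B N (fun j => u (j + 1)) + u 0 := by
      rw [pk, sum_range_succ', pk, mul_sum, pow_zero, mul_one]
      exact congrArg (· + u 0) (sum_congr rfl fun j _ => by ring)
    rw [e, pow_succ'] at h2
    have h0 : u 0 = 0 := Int.eq_zero_of_abs_lt_dvd
      ((dvd_add_right (dvd_mul_right _ _)).mp ((dvd_mul_right _ _).trans h2)) (h1 0 N.succ_pos)
    rw [h0, add_zero, mul_dvd_mul_iff_left hB.ne'] at h2
    intro j hj
    cases j with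
    | zero => exact h0
    | succ j => exact ih _ (fun i hi => h1 (i + 1) (by omega)) h2 j (by omega)

lemma pk_mul (B : ℤ) (N : ℕ) (u v : ℕ → ℤ) :
    B ^ N ∣ pk B N u * pk B N v - pk B N fun k => ∑ j ∈ range (k + 1), u j * v (k - j) := by
  have e : (pk B N fun k => ∑ j ∈ range (k + 1), u j * v (k - j)) =
      ∑ m ∈ range N, ∑ k ∈ range (N - m), u m * B ^ m * (v k * B ^ k) := by
    rw [← sum_range_diag_flip N fun m k => u m * B ^ m * (v k * B ^ k), pk]
    refine sum_congr rfl fun k _ => ?_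
    rw [sum_mul]
    refine sum_congr rfl fun j hj => ?_
    have : B ^ k = B ^ j * B ^ (k - j) := by
      rw [← pow_add, Nat.add_sub_cancel' (Nat.lt_succ_iff.mp (mem_range.mp hj))]
    rw [this]; ring
  rw [e, pk, pk, sum_mul_sum, ← sum_sub_distrib]
  refine dvd_sum fun m _ => ?_
  rw [← sum_Ico_eq_sub _ (Nat.sub_le N m)]
  refine dvd_sum fun k hk => ?_
  have h : B ^ N ∣ B ^ (m + k) := pow_dvd_pow _ (by have := (mem_Ico.mp hk).1; omega)
  rw [show u m * B ^ m * (v k * B ^ k) = u m * v k * B ^ (m + k) by ring]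
  exact h.mul_left _

lemma pk_cf (B : ℤ) (N : ℕ) (y yi : ZMod 37) : B ^ N ∣ (-2 * ∑ a, ∑ d, wt yi a d *
    (pk B N (ec a d) * pk B N (ec (a * y) (-(d * yi))))) - pk B N (cf y yi) := by
  have e : pk B N (cf y yi) = -2 * ∑ a, ∑ d, wt yi a d * pk B N fun k =>
      ∑ j ∈ range (k + 1), ec a d j * ec (a * y) (-(d * yi)) (k - j) := by
    simp only [pk, cf, mul_assoc, ← mul_sum]
    refine congrArg (-2 * ·) ?_
    simp only [sum_mul (s := univ), mul_sum (s := range N), mul_assoc]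
    rw [sum_comm]
    exact sum_congr rfl fun a _ => sum_comm
  rw [e, ← mul_sub, ← sum_sub_distrib]
  refine (dvd_sum fun a _ => ?_).mul_left _
  rw [← sum_sub_distrib]
  refine dvd_sum fun d _ => ?_
  rw [← mul_sub]
  exact (pk_mul _ _ _ _).mul_left _

lemma sum_iv (a : ZMod 37) (f : ℕ → ℤ) (K : ℕ) :
    ∑ m ∈ range (37 * K), iv m a * f m = ∑ i ∈ range K, f (a.val + 37 * i) := by
  induction K with
  | zero => simp
  | succ K ih =>
    rw [sum_range_succ, Nat.mul_succ, sum_range_add, ih, add_right_inj, sum_eq_single a.val,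
      add_comm (37 * K)]
    · have : ((a.val + 37 * K : ℕ) : ZMod 37) = a := by
        rw [Nat.cast_add, Nat.cast_mul, ZMod.natCast_self, zero_mul, add_zero, ZMod.natCast_zmod_val]
      rw [iv, if_pos this, one_mul]
    · intro r hr hne
      rw [iv, if_neg, zero_mul]
      intro h
      rw [Nat.cast_add, Nat.cast_mul, ZMod.natCast_self, zero_mul, zero_add] at h
      exact hne (by rw [← h, ZMod.val_cast_of_lt (mem_range.mp hr)])
    · intro h
      exact absurd (mem_range.mpr a.val_lt) h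

/-- one monomial -/
def mo (t : ℕ) : ℤ := if 0 < t ∧ t < 667 then (2 ^ (64 * t) : ℕ) else 0

/-- the series of a pair of residue classes -/
def Pn (a d : ℕ) : ℤ := ∑ i ∈ range (if d = 0 then 19 else 667 / d / 37 + 1),
  ∑ l ∈ range (667 / (a + 37 * i) / 37 + 1), mo ((a + 37 * i) * (d + 37 * l))

lemma Pn_eq (a d : ℕ) : Pn a d = ∑ i ∈ range 19, ∑ l ∈ range (667 / (a + 37 * i) / 37 + 1),
    mo ((a + 37 * i) * (d + 37 * l)) := by
  have h1 : 667 / d ≤ 667 := Nat.div_le_self _ _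
  refine sum_subset (range_mono (by split_ifs <;> omega)) fun i hi hi' =>
    sum_eq_zero fun l _ => if_neg fun h => ?_
  by_cases hd : d = 0
  · exact hi' (by rwa [if_pos hd])
  · have h2 : a + 37 * i ≤ 667 / d := (Nat.le_div_iff_mul_le (Nat.pos_of_ne_zero hd)).mpr
      ((Nat.mul_le_mul_left _ (Nat.le_add_right _ _)).trans h.2.le)
    rw [if_neg hd, mem_range] at hi'
    omega

lemma sum_fib (N M : ℕ) (h : N ≤ M) (F : ℕ × ℕ → ℤ)
    (hF : ∀ x : ℕ × ℕ, ¬(0 < x.1 * x.2 ∧ x.1 * x.2 < N) → F x = 0) :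
    ∑ j ∈ range N, ∑ x ∈ j.divisorsAntidiagonal, F x = ∑ x ∈ range M ×ˢ range M, F x := by
  rw [← sum_filter_of_ne (s := range M ×ˢ range M)
    (p := fun x : ℕ × ℕ => 0 < x.1 * x.2 ∧ x.1 * x.2 < N)
    fun x _ h => by_contra fun h' => h (hF x h'),
    ← sum_fiberwise_of_maps_to (t := range N) (g := fun x : ℕ × ℕ => x.1 * x.2)
      fun x hx => mem_range.mpr (mem_filter.mp hx).2.2]
  refine sum_congr rfl fun j hj => sum_congr ?_ fun _ _ => rfl
  rw [mem_range] at hj
  ext x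
  simp only [Nat.mem_divisorsAntidiagonal, mem_filter, mem_product, mem_range]
  constructor
  · rintro ⟨rfl, h⟩
    have h0 := Nat.pos_of_ne_zero h
    have h1 := Nat.le_mul_of_pos_right x.1 (Nat.pos_of_mul_pos_left h0)
    have h2 := Nat.le_mul_of_pos_left x.2 (Nat.pos_of_mul_pos_right h0)
    exact ⟨⟨⟨by omega, by omega⟩, h0, hj⟩, rfl⟩
  · rintro ⟨⟨-, h, -⟩, rfl⟩
    exact ⟨rfl, h.ne'⟩

lemma pk_iv (a d : ZMod 37) :
    (pk (2 ^ 64) 667 fun j => ∑ x ∈ j.divisorsAntidiagonal, iv x.1 a * iv x.2 d) =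
      Pn a.val d.val := by
  have e1 : Pn a.val d.val = ∑ m ∈ range (37 * 19), iv m a *
      ∑ n ∈ range (37 * 19), iv n d * mo (m * n) := by
    rw [sum_iv, Pn_eq]
    refine sum_congr rfl fun i _ => ?_
    rw [sum_iv d fun n => mo ((a.val + 37 * i) * n)]
    generalize a.val + 37 * i = m
    have h1 : 667 / m ≤ 667 := Nat.div_le_self _ _
    refine sum_subset (range_mono (by omega)) fun l _ hl => if_neg fun h => ?_
    have h2 : 0 < m := Nat.pos_of_mul_pos_right h.1
    have h3 : d.val + 37 * l ≤ 667 / m := (Nat.le_div_iff_mul_le h2).mpr (mul_comm m _ ▸ h.2.le)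
    rw [mem_range] at hl
    omega
  rw [e1]
  simp only [mul_sum]
  rw [← sum_product', ← sum_fib 667 (37 * 19) (by norm_num) _ fun x h => by
    rw [mo, if_neg h, mul_zero, mul_zero]]
  refine sum_congr rfl fun j hj => ?_
  rw [sum_mul]
  refine sum_congr rfl fun x hx => ?_
  obtain ⟨rfl, h⟩ := Nat.mem_divisorsAntidiagonal.mp hx
  rw [mo, if_pos ⟨Nat.pos_of_ne_zero h, mem_range.mp hj⟩, Nat.cast_pow, Nat.cast_ofNat,
    pow_mul _ 64, mul_assoc]

lemma pk_ec (a d : ZMod 37) :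
    pk (2 ^ 64) 667 (ec a d) = Pn a.val d.val - Pn (-a).val (-d).val := by
  rw [← pk_iv, ← pk_iv, pk, pk, pk, ← sum_sub_distrib]
  refine sum_congr rfl fun j _ => ?_
  rw [← sub_mul, ← sum_sub_distrib]
  rfl

lemma iv_mem (a b : ZMod 37) : iv a b = 0 ∨ iv a b = 1 := by
  unfold iv; split_ifs <;> simp

lemma ec_le (a d : ZMod 37) {j : ℕ} (hj : j < 667) : |ec a d j| ≤ 667 := by
  have h1 : ∀ x ∈ j.divisorsAntidiagonal, |ea a d x.1 x.2| ≤ 1 := fun x _ => by
    unfold ea
    rcases iv_mem x.1 a with h1 | h1 <;> rcases iv_mem x.2 d with h2 | h2 <;>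
      rcases iv_mem x.1 (-a) with h3 | h3 <;> rcases iv_mem x.2 (-d) with h4 | h4 <;>
      rw [h1, h2, h3, h4] <;> norm_num
  have h2 := (abs_sum_le_sum_abs _ _).trans (sum_le_card_nsmul _ _ _ h1)
  have h3 : j.divisorsAntidiagonal.card ≤ 667 := by
    rw [← Nat.map_div_right_divisors, card_map]
    exact (Nat.card_divisors_le_self j).trans hj.le
  rw [nsmul_eq_mul, mul_one] at h2
  exact h2.trans (by exact_mod_cast h3)

lemma cu_le : ∀ a, |cu a| ≤ 1 ∧ |cv a| ≤ 1 := by decide +kernel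

lemma wt_le (yi a d : ZMod 37) : |wt yi a d| ≤ 2 := by
  refine (abs_sub _ _).trans ?_
  rw [abs_mul, abs_mul]
  have h1 := mul_le_one₀ (cu_le a).1 (abs_nonneg _) (cu_le (d * yi)).2
  have h2 := mul_le_one₀ (cu_le a).2 (abs_nonneg _) (cu_le (d * yi)).1
  linarith

lemma cf_le (y yi : ZMod 37) {k : ℕ} (hk : k < 667) : |cf y yi k| ≤ 2 ^ 50 := by
  have h1 : ∀ a d : ZMod 37, |wt yi a d *
      ∑ j ∈ range (k + 1), ec a d j * ec (a * y) (-(d * yi)) (k - j)| ≤ 2 * 667 ^ 3 := by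
    intro a d
    rw [abs_mul]
    refine mul_le_mul (wt_le _ _ _) ?_ (abs_nonneg _) (by norm_num)
    have h2 := (abs_sum_le_sum_abs _ _).trans (sum_le_card_nsmul (range (k + 1))
      (fun j => |ec a d j * ec (a * y) (-(d * yi)) (k - j)|) (667 * 667) fun j hj => by
        rw [abs_mul]
        exact mul_le_mul (ec_le _ _ (by have := mem_range.mp hj; omega)) (ec_le _ _ (by omega))
          (abs_nonneg _) (by norm_num))
    rw [card_range, nsmul_eq_mul] at h2
    have h3 : ((k + 1 : ℕ) : ℤ) ≤ 667 := by exact_mod_cast hk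
    linarith
  have h2 := (abs_sum_le_sum_abs _ _).trans (sum_le_card_nsmul univ _ _ fun a _ =>
    (abs_sum_le_sum_abs _ _).trans (sum_le_card_nsmul univ _ _ fun d _ => h1 a d))
  rw [card_univ, ZMod.card, nsmul_eq_mul, nsmul_eq_mul] at h2
  rw [cf, abs_mul]
  norm_num at h2 ⊢
  linarith

/-- the expected coefficients -/
def ex (c : ℤ) (l : List ℤ) (k : ℕ) : ℤ := if k % 37 = 0 then c * l.getD (k / 37) 0 else 0

/-- the check -/
def chk (y yi : ZMod 37) (c : ℤ) (l : List ℤ) : Prop :=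
  ((-2 * ∑ a, ∑ d, if wt yi a d = 0 then 0 else wt yi a d *
    ((Pn a.val d.val - Pn (-a).val (-d).val) *
      (Pn (a * y).val (-(d * yi)).val - Pn (-(a * y)).val (-(-(d * yi))).val))) -
    pk (2 ^ 64) 667 (ex c l)) % (2 ^ 64) ^ 667 = 0 ∧ ∀ k < 667, |ex c l k| ≤ 2 ^ 50

instance (y yi : ZMod 37) (c : ℤ) (l : List ℤ) : Decidable (chk y yi c l) :=
  inferInstanceAs (Decidable (_ ∧ _))

lemma of_chk {y yi : ZMod 37} {c : ℤ} {l : List ℤ} (h : chk y yi c l) :
    ∀ n < 19, cf y yi (37 * n) = c * l.getD n 0 := by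
  intro n hn
  have h1 := Int.dvd_of_emod_eq_zero h.1
  have h2 := pk_cf (2 ^ 64) 667 y yi
  simp only [pk_ec] at h2
  have e : ∀ w x : ℤ, (if w = 0 then 0 else w * x) = w * x := fun w x => by
    split_ifs with h
    · rw [h, zero_mul]
    · rfl
  simp only [e] at h1
  have h3 := dvd_sub h1 h2
  rw [sub_sub_sub_cancel_left, pk, pk, ← sum_sub_distrib] at h3
  simp only [← sub_mul] at h3
  have h4 := pk_zero (B := 2 ^ 64) (by norm_num) 667 (fun k => cf y yi k - ex c l k)
    (fun k hk => by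
      have := abs_sub (cf y yi k) (ex c l k)
      have := cf_le y yi hk
      have := h.2 k hk
      linarith) h3 (37 * n) (by omega)
  rw [sub_eq_zero.mp h4, ex, if_pos (Nat.mul_mod_right _ _), Nat.mul_div_cancel_left _ (by norm_num)]

lemma chk1 : chk 3 25 16 La := by decide +kernel

lemma chk2 : chk 5 15 24 Lb := by decide +kernel

end CO

theorem st_CO1 : St_CO1 := CO.of_chk CO.chk1

theorem st_CO2 : St_CO2 := CO.of_chk CO.chk2

end C37
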