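import Pool.Agent.Lib.C37.Kit

/-! The two cubic curves: real branch points and primitives. -/

open Complex Filter Topology Set
open scoped Real ComplexConjugate

namespace C37

namespace CV

theorem roots {a p q r : ℝ} (h1 : p < q) (h2 : q ≤ -1) (h3 : -1 < r) (h4 : r < 0)
    (s1 : 4 * p ^ 3 + a * p ^ 2 + 8 * p + 1 < 0) (s2 : 0 < 4 * q ^ 3 + a * q ^ 2 + 8 * q + 1)
    (s3 : 11 < a) (s4 : 4 * r ^ 3 + a * r ^ 2 + 8 * r + 1 < 0) :
    ∃ e1 e2 e3 : ℝ, p < e3 ∧ e3 < q ∧ -1 < e2 ∧ e2 < e1 ∧ e1 < 0 ∧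
      ∀ x : ℂ, 4 * x ^ 3 + a * x ^ 2 + 8 * x + 1 = 4 * (x - e1) * (x - e2) * (x - e3) := by
  have c : ∀ s, ContinuousOn (fun x : ℝ => 4 * x ^ 3 + a * x ^ 2 + 8 * x + 1) s := fun s => by
    fun_prop
  obtain ⟨e3, ⟨a1, a2⟩, a3⟩ :=
    intermediate_value_Ioo h1.le (c _) (show (0 : ℝ) ∈ Ioo _ _ from ⟨s1, s2⟩)
  obtain ⟨e2, ⟨b1, b2⟩, b3⟩ := intermediate_value_Ioo' h3.le (c _)
    (show (0 : ℝ) ∈ Ioo _ _ from ⟨s4, by norm_num; linarith⟩)
  obtain ⟨e1, ⟨c1, c2⟩, c3⟩ := intermediate_value_Ioo h4.le (c _)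
    (show (0 : ℝ) ∈ Ioo _ _ from ⟨s4, by norm_num⟩)
  simp only at a3 b3 c3
  have n1 : e1 - e2 ≠ 0 := (show 0 < e1 - e2 by linarith).ne'
  have n2 : e1 - e3 ≠ 0 := (show 0 < e1 - e3 by linarith).ne'
  have n3 : e2 - e3 ≠ 0 := (show 0 < e2 - e3 by linarith).ne'
  have k1 : 4 * (e1 ^ 2 + e1 * e2 + e2 ^ 2) + a * (e1 + e2) + 8 = 0 :=
    mul_left_cancel₀ n1 (by linear_combination c3 - b3)
  have k2 : 4 * (e1 ^ 2 + e1 * e3 + e3 ^ 2) + a * (e1 + e3) + 8 = 0 :=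
    mul_left_cancel₀ n2 (by linear_combination c3 - a3)
  have k3 : a = -4 * (e1 + e2 + e3) := mul_left_cancel₀ n3 (by linear_combination k1 - k2)
  have k4 : 8 = 4 * (e1 * e2 + e1 * e3 + e2 * e3) := by
    linear_combination k1 - (e1 + e2) * k3
  have k5 : 1 = -4 * (e1 * e2 * e3) := by linear_combination c3 - e1 ^ 2 * k3 - e1 * k4
  refine ⟨e1, e2, e3, a1, a2, b1, b2.trans c1, c2, fun x => ?_⟩
  have l3 : (a : ℂ) = -4 * (e1 + e2 + e3) := by exact_mod_cast k3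
  have l4 : (8 : ℂ) = 4 * (e1 * e2 + e1 * e3 + e2 * e3) := by exact_mod_cast k4
  have l5 : (1 : ℂ) = -4 * (e1 * e2 * e3) := by exact_mod_cast k5
  linear_combination x ^ 2 * l3 + x * l4 + l5

theorem LL_id (x : ℂ) (n : ℕ) : LL (fun σ => σ ^ n) x = (n : ℝ) • LL id x :=
  LL_pow (f := id) differentiableAt_id n

end CV

open CV in
theorem st_CV : St_CV := by
  have p1 := Real.pi_gt_d2
  have p2 := Real.pi_lt_d2
  refine ⟨?_, ?_, ⟨DD, DD_conj, fun x h0 h1 => ?_⟩, fun _ => neg_zero.symm, fun x h0 _ => ?_⟩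
  · obtain ⟨e1, e2, e3, a1, a2, a3, a4, a5, a6⟩ := roots (a := 12) (p := -2.4) (q := -2)
      (r := -0.5) (by norm_num) (by norm_num) (by norm_num) (by norm_num) (by norm_num)
      (by norm_num) (by norm_num) (by norm_num)
    refine ⟨e1, e2, e3, ⟨by linarith, a3, a4, a5, fun x => ?_, by simp [Ca], fun x hx => ?_⟩,
      ?_, ?_⟩
    · rw [← a6, Ca]
      push_cast
      ring
    · rcases mul_eq_zero.1 hx with h | h
      · simp [pow_eq_zero_iff two_ne_zero |>.1 h]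
      · simp [← sub_eq_zero.1 h]
    · have : √(e1 - e3) < 1.55 := Real.sqrt_lt' (by norm_num) |>.2 (by linarith)
      rw [one_lt_div (by have := Real.sqrt_pos.2 (show 0 < e1 - e3 by linarith); positivity)]
      linarith
    · have : 1 < √(e2 - e3) := Real.lt_sqrt (by norm_num) |>.2 (by linarith)
      rw [div_lt_iff₀ (by positivity)]
      linarith
  · obtain ⟨e1, e2, e3, a1, a2, a3, a4, a5, a6⟩ := roots (a := 16) (p := -3.8) (q := -1)
      (r := -0.25) (by norm_num) (by norm_num) (by norm_num) (by norm_num) (by norm_num)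
      (by norm_num) (by norm_num) (by norm_num)
    refine ⟨e1, e2, e3, ⟨a2, a3, a4, a5, fun x => ?_, by simp [Cb], fun x hx => ?_⟩, ?_⟩
    · rw [← a6, Cb]
      push_cast
      ring
    · simp [pow_eq_zero_iff three_ne_zero |>.1 (neg_eq_zero.1 hx)]
    · have : √(e1 - e3) < 1.95 := Real.sqrt_lt' (by norm_num) |>.2 (by linarith)
      rw [lt_div_iff₀ (by have := Real.sqrt_pos.2 (show 0 < e1 - e3 by linarith); positivity)]
      linarith
  · have h2 : 1 - x ≠ 0 := right_ne_zero_of_mul h1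
    refine (DD_di h0 h2).congr (.refl _ _) ?_
    have : LL Ca x = (2 : ℕ) • LL id x + LL (fun σ => 1 - σ) x := by
      rw [← Nat.cast_smul_eq_nsmul ℝ, ← LL_id]
      exact LL_mul (by fun_prop) (by fun_prop) (pow_ne_zero 2 h0) h2
    simp only [eta, this, wd, Prod.fst_add, Prod.snd_add, two_nsmul]
    push_cast
    ring
  · refine (DI.const 0 x).congr (.refl _ _) ?_
    have : LL Cb x = (3 : ℕ) • LL id x := by
      rw [← Nat.cast_smul_eq_nsmul ℝ, ← LL_id]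
      exact LL_neg
    simp only [eta, this, wd, Prod.fst_add, Prod.snd_add, three_nsmul]
    push_cast
    ring

end C37
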