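import Pool.Agent.Lib.C37.Kit

/-! The weight one Eisenstein series as a finite Fourier transform. -/

open Complex Filter Topology Set MeasureTheory Asymptotics
open scoped Real ComplexConjugate

namespace C37

namespace EE

lemma sum_psi (c d : ZMod 37) : ∑ b : ZMod 37, ψ (b * (c - d)) = 37 * (iv c d : ℂ) := by
  have h := AddChar.sum_mulShift (c - d) (ZMod.isPrimitive_stdAddChar 37)
  unfold ψ iv
  rw [h]
  by_cases e : c = d
  · simp [e]
  · simp [e, sub_ne_zero.2 e]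

lemma norm_iv (a b : ZMod 37) : ‖(iv a b : ℂ)‖ ≤ 1 := by
  unfold iv
  split_ifs <;> simp

lemma pbd {α : ℕ → ℕ → ℂ} (h : ∀ m n, ‖α m n‖ ≤ 2) : PBd α :=
  ⟨2, 0, fun m n _ _ => by simpa using h m n⟩

lemma pbd_hs (a b : ZMod 37) :
    PBd fun m n => (iv m a : ℂ) * ψ (b * n) - (iv m (-a) : ℂ) * ψ (-(b * n)) :=
  pbd fun m n => (norm_sub_le _ _).trans (by
    rw [norm_mul, norm_mul, norm_psi, norm_psi]
    linarith [norm_iv m a, norm_iv m (-a)])

lemma key (a d m n : ZMod 37) :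
    ∑ b : ZMod 37, ψ (-(b * d)) * ((iv m a : ℂ) * ψ (b * n) - (iv m (-a) : ℂ) * ψ (-(b * n))) =
      37 * ((iv m a * iv n d - iv m (-a) * iv n (-d) : ℤ) : ℂ) := by
  have h : ∀ b : ZMod 37,
      ψ (-(b * d)) * ((iv m a : ℂ) * ψ (b * n) - (iv m (-a) : ℂ) * ψ (-(b * n))) =
        (iv m a : ℂ) * ψ (b * (n - d)) - (iv m (-a) : ℂ) * ψ (b * (-d - n)) := fun b => by
    rw [show b * (n - d) = -(b * d) + b * n by ring,
      show b * (-d - n) = -(b * d) + -(b * n) by ring, psi_add, psi_add]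
    ring
  have h2 : iv (-d) n = iv n (-d) := by simp only [iv, eq_comm]
  simp only [h, Finset.sum_sub_distrib, ← Finset.mul_sum, sum_psi, h2]
  push_cast
  ring

end EE

open EE in
theorem st_EE (hHX : St_HX) (hSS : St_SS) : St_EE := by
  intro a d ha hd τ hτ
  have h0 : ∑ b : ZMod 37, ψ (-(b * d)) = 0 := by
    have := sum_psi 0 d
    simpa [iv, hd.symm] using this
  have h1 := hasSum_sum (s := Finset.univ) fun (b : ZMod 37) _ =>
    ((hSS _ (pbd_hs a b)).1 τ hτ).mul_left (ψ (-(b * d)))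
  have h2 : ∑ b : ZMod 37, ψ (-(b * d)) * hs a b τ = 37 * es a d τ := by
    unfold es SS
    rw [← tsum_mul_left]
    refine (h1.tsum_eq.symm.trans (tsum_congr fun p => ?_))
    simp only [← mul_assoc, ← Finset.sum_mul, key, ea]
  have h3 : ∀ b : ZMod 37, ψ (-(b * d)) * hh (a.val, b.val) τ =
      ψ (-(b * d)) * (a.val / 37 - 1 / 2) - ψ (-(b * d)) * hs a b τ := fun b => by
    rw [hHX a b (fun h => ha h.1) τ hτ, hc, if_neg ha, mul_sub]
  simp only [h3, Finset.sum_sub_distrib, ← Finset.sum_mul, h0, h2]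
  ring

end C37
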