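import Pool.Agent.Lib.C37.Kit

/-! The integral along the vertical line through the cusp 3 equals minus the period constant. -/

open Complex Filter Topology Set MeasureTheory Asymptotics
open scoped Real ComplexConjugate

namespace C37.XEND

lemma LL_exp (hE : St_ELL) (c : ZMod 37 → ℤ) (o : ℤ) {τ : ℂ} (hτ : τ ∈ UH) :
    LL (fun σ => cexp (ell c o σ)) τ = ((ell c o τ).re, eld c o τ) := by
  have h := ((hE c o).1 τ hτ).cexp
  have h0 : cexp (ell c o τ) ≠ 0 := exp_ne_zero _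
  simp only [LL, logDeriv_apply, h.deriv, norm_exp, Real.log_exp]
  congr 1
  field_simp

lemma re_ell (c : ZMod 37 → ℤ) (o : ℤ) (τ : ℂ) :
    (ell c o τ).re = -(2 * π / 37 * o * τ.im) + (sg c τ).re := by
  have : ell c o τ = ((2 * π / 37 * o : ℝ) : ℂ) * (I * τ) + sg c τ := by
    unfold ell; push_cast; ring
  rw [this, add_re, re_ofReal_mul]
  simp

lemma im_eld (c : ZMod 37 → ℤ) (o : ℤ) (τ : ℂ) :
    (eld c o τ).im = 2 * π / 37 * (o + (sd c τ).re) := by
  have : eld c o τ = ((2 * π / 37 : ℝ) : ℂ) * (I * (((o : ℝ) : ℂ) + sd c τ)) := by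
    unfold eld; push_cast; ring
  rw [this, im_ofReal_mul]
  simp

lemma im_eta (hE : St_ELL) {τ : ℂ} (hτ : τ ∈ UH) :
    (eta uu vv τ).im = 2 * π / 37 *
      (2 * π / 37 * (5 * (τ.im * (sd cu τ).re) - τ.im * (sd cv τ).re) +
        (sg cu τ).re * (5 + (sd cv τ).re) - (sg cv τ).re * (1 + (sd cu τ).re)) := by
  have h1 : LL uu τ = ((ell cu 1 τ).re, eld cu 1 τ) := by
    rw [← LL_exp hE cu 1 hτ]; exact LL_neg
  have h2 : LL vv τ = ((ell cv 5 τ).re, eld cv 5 τ) := LL_exp hE cv 5 hτ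
  simp only [eta, wd, h1, h2, sub_im, im_ofReal_mul, re_ell, im_eld]
  push_cast
  ring

lemma tendsto_imQ : Tendsto (fun τ : ℂ => τ.im * ‖Q τ‖) cusp (𝓝 0) := by
  have hk : (0 : ℝ) < 2 * π / 37 := by positivity
  have h1 := (Real.tendsto_pow_mul_exp_neg_atTop_nhds_zero 1).comp
    (tendsto_im_cusp.const_mul_atTop hk)
  have h2 := h1.const_mul (37 / (2 * π))
  rw [mul_zero] at h2
  refine h2.congr fun τ => ?_
  simp only [Function.comp, norm_Q, pow_one]
  rw [show 2 * π / 37 * τ.im = 2 * π * τ.im / 37 by ring]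
  field_simp

lemma tendsto_re {f : ℂ → ℂ} (h : f =O[cusp] Q) : Tendsto (fun τ => (f τ).re) cusp (𝓝 0) := by
  exact (continuous_re.tendsto 0).comp (h.trans_tendsto tendsto_Q_cusp)

lemma tendsto_im_re {f : ℂ → ℂ} (h : f =O[cusp] Q) :
    Tendsto (fun τ => τ.im * (f τ).re) cusp (𝓝 0) := by
  have h1 : (fun τ => (f τ).re) =O[cusp] fun τ => ‖Q τ‖ :=
    (IsBigO.of_bound 1 (Eventually.of_forall fun τ => by
      simpa using abs_re_le_norm (f τ))).trans h.norm_right
  exact ((isBigO_refl (fun τ : ℂ => τ.im) cusp).mul h1).trans_tendsto tendsto_imQ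

lemma tendsto_im_eta (hE : St_ELL) : Tendsto (fun τ => (eta uu vv τ).im) cusp (𝓝 0) := by
  have a1 := tendsto_re (hE cu 1).2.2.1
  have a2 := tendsto_re (hE cv 1).2.2.1
  have d1 := tendsto_re (hE cu 1).2.2.2
  have d2 := tendsto_re (hE cv 1).2.2.2
  have y1 := tendsto_im_re (hE cu 1).2.2.2
  have y2 := tendsto_im_re (hE cv 1).2.2.2
  have h := (((((y1.const_mul 5).sub y2).const_mul (2 * π / 37)).add
    (a1.mul (d2.const_add 5))).sub (a2.mul (d1.const_add 1))).const_mul (2 * π / 37)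
  simp only [mul_zero, sub_zero, zero_mul, add_zero] at h
  refine h.congr' ?_
  filter_upwards [ev_UH_cusp] with τ hτ
  rw [im_eta hE hτ]

lemma horiz (hE : St_ELL) {P : ℂ → ℝ} (hP : ∀ τ ∈ UH, DI P (eta uu vv τ) τ) :
    Tendsto (fun T : ℝ => P (3 + T * I) - P (T * I + 12)) atTop (𝓝 0) := by
  rw [Metric.tendsto_nhds]
  intro ε hε
  have h1 := (Metric.tendsto_nhds.mp (tendsto_im_eta hE) (ε / 10) (by positivity)).and ev_UH_cusp
  rw [cusp, eventually_comap] at h1
  filter_upwards [h1] with T hT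
  have hd : ∀ s ∈ (univ : Set ℝ), HasDerivWithinAt (fun s : ℝ => P (s + T * I))
      ((eta uu vv (s + T * I)).im) univ s := by
    intro s _
    have h2 := hT (s + T * I) (by simp)
    have h3 : HasDerivAt (fun s : ℝ => (s : ℂ) + T * I) 1 s := by
      simpa using (ofRealCLM.hasDerivAt (x := s)).add_const (T * I)
    have h4 := DI.curve (γ := fun s : ℝ => (s : ℂ) + T * I) (hP _ h2.2) h3
    rw [mul_one] at h4
    exact h4.hasDerivWithinAt
  have hb : ∀ s ∈ (univ : Set ℝ), ‖(eta uu vv (s + T * I)).im‖ ≤ ε / 10 := by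
    intro s _
    have h2 := (hT (s + T * I) (by simp)).1
    rw [dist_zero_right] at h2
    exact h2.le
  have h4 := convex_univ.norm_image_sub_le_of_norm_hasDerivWithin_le hd hb (mem_univ 12)
    (mem_univ 3)
  rw [dist_zero_right, add_comm (T * I : ℂ) 12]
  have h5 : ‖(3 : ℝ) - 12‖ = 9 := by norm_num
  rw [h5] at h4
  push_cast at h4
  linarith

lemma vert {P : ℂ → ℝ} (hP : ∀ τ ∈ UH, DI P (eta uu vv τ) τ) {t : ℝ} (ht : 0 < t) :
    HasDerivAt (fun s : ℝ => P (3 + s * I)) (JJ t) t := by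
  have h2 : (3 + t * I : ℂ) ∈ UH := by simpa [UH] using ht
  have h3 : HasDerivAt (fun s : ℝ => (3 : ℂ) + s * I) I t := by
    simpa using ((ofRealCLM.hasDerivAt (x := t)).mul_const I).const_add 3
  simpa [JJ] using DI.curve (γ := fun s : ℝ => (3 : ℂ) + s * I) (hP _ h2) h3

lemma tendsto_int {f : ℝ → ℝ} {v : ℝ} (h : HI f v) :
    Tendsto (fun T : ℝ => ∫ y in T⁻¹..T, f y) atTop (𝓝 v) := by
  have c1 : AECover (volume.restrict (Ioi (0 : ℝ))) atTop fun T : ℝ => Ioc T⁻¹ T := by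
    refine ⟨(ae_restrict_mem measurableSet_Ioi).mono fun x hx => ?_, fun _ => measurableSet_Ioc⟩
    filter_upwards [tendsto_inv_atTop_zero.eventually (eventually_lt_nhds hx),
      eventually_ge_atTop x] with T h1 h2
    exact ⟨h1, h2⟩
  have h1 := c1.integral_tendsto_of_countably_generated h.1
  rw [h.2] at h1
  refine h1.congr' ?_
  filter_upwards [eventually_ge_atTop (1 : ℝ)] with T hT
  have h0 : 0 < T⁻¹ := by positivity
  have h2 : T⁻¹ ≤ T := (inv_le_one_of_one_le₀ hT).trans hT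
  have h3 : Ioc T⁻¹ T ⊆ Ioi 0 := fun x hx => h0.trans hx.1
  rw [intervalIntegral.integral_of_le h2, Measure.restrict_restrict measurableSet_Ioc,
    inter_eq_left.mpr h3]

end C37.XEND

namespace C37

open XEND in
theorem st_END (hELL : St_ELL) : St_END := by
  intro P c v hP hc hv
  have h1 := (horiz hELL hP).sub_const c
  rw [zero_sub] at h1
  refine tendsto_nhds_unique (tendsto_int hv) (h1.congr' ?_)
  filter_upwards [eventually_ge_atTop (1 : ℝ)] with T hT
  have hT0 : 0 < T := by linarith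
  have h0 : 0 < T⁻¹ := by positivity
  have h2 : T⁻¹ ≤ T := (inv_le_one_of_one_le₀ hT).trans hT
  have hsub : uIcc T⁻¹ T ⊆ Ioi 0 := by
    rw [uIcc_of_le h2]; exact fun x hx => h0.trans_le hx.1
  rw [intervalIntegral.integral_eq_sub_of_hasDerivAt (fun x hx => vert hP (hsub hx))
    (hv.1.mono_set hsub).intervalIntegrable]
  have h3 := hc (T * I) (by simpa [UH] using hT0)
  have h4 : (3 : ℂ) - 1 / (T * I) = 3 + ((T⁻¹ : ℝ) : ℂ) * I := by
    have : (T : ℂ) ≠ 0 := ofReal_ne_zero.mpr hT0.ne'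
    push_cast
    field_simp
    linear_combination -I_sq
  rw [h4] at h3
  linarith

end C37
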