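import Pool.Agent.Lib.C37.Kit

/-! Primitives of the form attached to a symbol on convex sets. -/

open Complex Filter Topology Set
open scoped Real

namespace C37

namespace ETA

lemma prim {U : Set ℂ} (ho : IsOpen U) (hc : Convex ℝ U) {φ : ℂ → ℂ} (h : DifferentiableOn ℂ φ U) :
    ∃ M : ℂ → ℂ, ∀ z ∈ U, HasDerivAt M (φ z) z := by
  obtain ⟨M, hM⟩ := hc.exists_forall_hasDerivWithinAt h
  exact ⟨M, fun z hz => (hM z hz).hasDerivAt (ho.mem_nhds hz)⟩

lemma dlog {U : Set ℂ} (ho : IsOpen U) {f : ℂ → ℂ} (h : DifferentiableOn ℂ f U)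
    (h0 : ∀ z ∈ U, f z ≠ 0) : DifferentiableOn ℂ (fun z => deriv f z / f z) U :=
  (h.deriv ho).div h h0

end ETA

theorem st_ETA : St_ETA := by
  intro U f g ho hc hf hg f0 g0
  rcases U.eq_empty_or_nonempty with rfl | ⟨p, hp⟩
  · exact ⟨0, fun z hz => hz.elim⟩
  have df : ∀ z ∈ U, HasDerivAt f (deriv f z) z := fun z hz =>
    (hf.differentiableAt (ho.mem_nhds hz)).hasDerivAt
  have dg : ∀ z ∈ U, HasDerivAt g (deriv g z) z := fun z hz =>
    (hg.differentiableAt (ho.mem_nhds hz)).hasDerivAt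
  obtain ⟨b, hb⟩ := ETA.prim ho hc (ETA.dlog ho hf f0)
  set k : ℝ := (b p).re - Real.log ‖f p‖ with hk
  have ha : ∀ z ∈ U, HasDerivAt (fun σ => b σ - k) (deriv f z / f z) z := fun z hz =>
    (hb z hz).sub_const _
  have hre : ∀ z ∈ U, (b z - k).re = Real.log ‖f z‖ := by
    intro z hz
    have := DI.eq_of_zero (F := fun σ => (b σ).re - Real.log ‖f σ‖) ho hc.isPreconnected
      (fun y hy => ((DI.re (hb y hy)).sub (DI.log (df y hy) (f0 y hy))).congr (.refl _ _)
        (sub_self _)) hz hp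
    simp only [sub_re, ofReal_re, hk]
    linarith
  obtain ⟨M, hM⟩ := ETA.prim ho hc (φ := fun z => (b z - k) * (deriv g z / g z))
    (DifferentiableOn.mul (fun z hz => (ha z hz).differentiableAt.differentiableWithinAt)
      (ETA.dlog ho hg g0))
  refine ⟨fun σ => (M σ).im - Real.log ‖g σ‖ * (b σ - k).im, fun z hz => ?_⟩
  refine ((DI.im (hM z hz)).sub ((DI.log (dg z hz) (g0 z hz)).mul (DI.im (ha z hz)))).congr
    (.refl _ _) ?_
  simp only [eta, wd, LL, logDeriv_apply, ← hre z hz]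
  linear_combination -(deriv g z / g z) * re_add_im (b z - k)

end C37
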