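import Pool.Agent.Lib.C37.Kit

/-! The integral of the weight one double series against the extra kernel. -/

open Filter Topology Set MeasureTheory Real RV6

namespace C37

namespace EXT

lemma HI_DS {α β : ℕ+ → ℝ} (hα : PB α) (hβ : PB β) (k : ℕ) {a b : ℝ}
    (ha : HasSum (fun m => α m / ((m : ℕ) : ℝ) ^ (k + 1)) a)
    (hb : HasSum (fun m => β m / ((m : ℕ) : ℝ) ^ (k + 1)) b) :
    HI (fun y => DS α β y * y ^ k) (k.factorial / π ^ (k + 1) * (a * b)) := by
  have hs := summable_mul_of_summable_norm ha.summable.norm hb.summable.norm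
  have e : ∀ (p : ℕ+ × ℕ+) (x z : ℝ), x * z *
      (k.factorial / (π * (((p.1 : ℕ) : ℝ) * ((p.2 : ℕ) : ℝ))) ^ (k + 1)) = k.factorial /
        π ^ (k + 1) * (x / ((p.1 : ℕ) : ℝ) ^ (k + 1) * (z / ((p.2 : ℕ) : ℝ) ^ (k + 1))) := by
    intro p x z
    simp only [mul_pow]
    ring
  refine (HI_tsum_pos (c := fun p : ℕ+ × ℕ+ => α p.1 * β p.2)
    (fun p => HI_exp k (c := π * (((p.1 : ℕ) : ℝ) * ((p.2 : ℕ) : ℝ)))
      (mul_pos pi_pos (mul_pos (c_pos _) (c_pos _)))) (fun p y hy => by positivity) ?_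
    (fun y hy => ((DS_hasSum hα hβ hy).mul_right (y ^ k)).congr_fun fun p => ?_)).congr
      (fun _ _ => rfl) ?_
  · refine (hs.abs.mul_left (k.factorial / π ^ (k + 1))).congr fun p => ?_
    rw [abs_mul, abs_mul, e, abs_div, abs_div, abs_of_pos (pow_pos (c_pos _) _),
      abs_of_pos (pow_pos (c_pos _) _)]
  · rw [ew, mul_right_comm π y]; ring
  · simp only [e]
    rw [tsum_mul_left, (ha.mul hb hs).tsum_eq]

lemma sum_cs (a : ZMod 37) :
    HasSum (fun m : ℕ+ => cs a m / ((m : ℕ) : ℝ) ^ (1 + 1)) (π ^ 2 * B2 a) := by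
  have hx : (a.val : ℝ) / 37 ∈ Icc (0 : ℝ) 1 := by
    have : (a.val : ℝ) < 37 := by exact_mod_cast a.val_lt
    exact ⟨by positivity, by rw [div_le_one (by norm_num)]; exact this.le⟩
  have h := hasSum_one_div_nat_pow_mul_cos (k := 1) one_ne_zero hx
  have h2 := bernoulliFun_two ((a.val : ℝ) / 37)
  unfold bernoulliFun at h2
  rw [show 2 * 1 = 2 from rfl, h2] at h
  have h3 := (hasSum_nat_add_iff' 1).mpr h
  have h4 := (hasSum_pnat_iff_hasSum_succ (f := fun n : ℕ =>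
    1 / (n : ℝ) ^ 2 * Real.cos (2 * π * n * ((a.val : ℝ) / 37)))).mpr h3
  have e : (π ^ 2 * B2 a : ℝ) = (-1) ^ (1 + 1) * (2 * π) ^ 2 / 2 / (Nat.factorial 2 : ℕ) *
      (((a.val : ℝ) / 37) ^ 2 - (a.val : ℝ) / 37 + 6⁻¹) - ∑ i ∈ Finset.range 1,
      1 / (i : ℝ) ^ 2 * Real.cos (2 * π * i * ((a.val : ℝ) / 37)) := by
    rw [Finset.sum_range_one, B2]
    simp only [Nat.factorial, Nat.cast_zero]
    push_cast
    ring
  rw [e]
  refine h4.congr_fun fun m => ?_
  unfold cs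
  rw [show 2 * π * (a.val : ℝ) * ((m : ℕ) : ℝ) / 37 = 2 * π * ((m : ℕ) : ℝ) * ((a.val : ℝ) / 37) by
    ring]
  ring

lemma sum_sn (d : ZMod 37) :
    HasSum (fun m : ℕ+ => sn d m / ((m : ℕ) : ℝ) ^ (1 + 1)) (Cl d) := by
  have h1 : Summable fun m : ℕ+ => 1 / ((m : ℕ) : ℝ) ^ 2 :=
    (summable_one_div_nat_pow.mpr one_lt_two).comp_injective PNat.coe_injective
  refine (Summable.of_norm_bounded h1 fun m => ?_).hasSum
  rw [norm_div, norm_pow, Real.norm_natCast]
  exact div_le_div_of_nonneg_right (abs_sin_le_one _) (by positivity)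

end EXT

open EXT in
theorem st_EXT : St_EXT := by
  intro a d
  have h := HI_DS (α := cs a) (β := sn d) (PB.of_le 1 fun _ => abs_cos_le_one _)
    (PB.of_le 1 fun _ => abs_sin_le_one _) 1 (sum_cs a) (sum_sn d)
  refine ((h.scale (c := 2 / 37) (by norm_num)).cmul (37 / 2)).inv.congr (fun y hy => ?_) ?_
  · unfold HH
    rw [show 2 / 37 * (1 / y) = 2 * (1 / y) / 37 by ring]
    field_simp
  · have := pi_pos
    simp only [Nat.factorial]
    field_simp
    norm_num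
    ring

end C37
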