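import Pool.Agent.Lib.C37.Kit

/-! The cusp forms on the imaginary axis. -/

open Complex Filter Topology Set MeasureTheory Asymptotics
open scoped Real ComplexConjugate
open Pool.Agent.Lib.MP_15b3df_nt

namespace C37

namespace XFP

lemma pbd (a d : ZMod 37) : PBd fun m n => (ea a d m n : ℂ) :=
  ⟨1, 0, fun m n _ _ => by
    simp only [ea, iv]
    split_ifs <;> simp⟩

lemma es_swap (a d : ZMod 37) (τ : ℂ) : es a d τ = es d a τ := by
  unfold es SS
  rw [← (Equiv.prodComm ℕ+ ℕ+).tsum_eq]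
  refine tsum_congr fun p => ?_
  simp only [Equiv.prodComm_apply, Prod.fst_swap, Prod.snd_swap, ea]
  push_cast
  ring

lemma Q_ew (t : ℝ) (p : ℕ+ × ℕ+) :
    Q (t * I) ^ ((p.1 : ℕ) * (p.2 : ℕ)) = (RV6.ew (2 * t / 37) p : ℝ) := by
  unfold Q RV6.ew
  rw [e_pow, e, ofReal_exp]
  congr 1
  push_cast
  linear_combination (2 * π * t / 37 * ((p.1 : ℕ) * (p.2 : ℕ) : ℂ)) * I_mul_I

lemma PP_eq (hSS : St_SS) (a d : ZMod 37) {t : ℝ} (ht : 0 < t) :
    (PP a d t : ℂ) = es a d (t * I) - es a (-d) (t * I) := by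
  have hU : (t * I : ℂ) ∈ UH := by simpa [UH] using ht
  rw [es, es, ← (((hSS _ (pbd a d)).1 _ hU).sub ((hSS _ (pbd a (-d))).1 _ hU)).tsum_eq, PP, RV6.DS,
    ofReal_tsum]
  refine tsum_congr fun p => ?_
  rw [Q_ew]
  simp only [ea, ir, neg_neg]
  push_cast
  ring

lemma chi_neg (j : ℕ) (a : ZMod 37) : chi j (-a) = chi j a := by
  unfold chi
  rw [Even.neg_pow (by decide)]

lemma wt_neg (yi a d : ZMod 37) : wt yi a (-d) = wt yi a d := by
  simp only [wt, cu, cv, neg_mul, chi_neg]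

lemma sum_neg (f : ZMod 37 → ℂ) : ∑ d, f (-d) = ∑ d, f d := Equiv.sum_comp (Equiv.neg _) f

lemma diag {y yi : ZMod 37} (h : y * yi = 1) (τ : ℂ) :
    ∑ a, ∑ d, (wt yi a d : ℂ) * es a d τ * es (a * y) (d * yi) τ = 0 := by
  have h1 : ∀ a : ZMod 37, a * y * yi = a := fun a => by rw [mul_assoc, h, mul_one]
  have h2 : ∀ a : ZMod 37, a * yi * y = a := fun a => by rw [mul_right_comm, h1]
  have hi : Function.Involutive fun p : ZMod 37 × ZMod 37 => (p.2 * yi, p.1 * y) := fun p => by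
    simp only [h1, h2]
  rw [← Fintype.sum_prod_type']
  have k := Equiv.sum_comp hi.toPerm fun p : ZMod 37 × ZMod 37 =>
    (wt yi p.1 p.2 : ℂ) * es p.1 p.2 τ * es (p.1 * y) (p.2 * yi) τ
  have k2 : ∀ p : ZMod 37 × ZMod 37, (wt yi (p.2 * yi) (p.1 * y) : ℂ) *
      es (p.2 * yi) (p.1 * y) τ * es (p.2 * yi * y) (p.1 * y * yi) τ =
      -((wt yi p.1 p.2 : ℂ) * es p.1 p.2 τ * es (p.1 * y) (p.2 * yi) τ) := fun p => by
    rw [es_swap (p.2 * yi), h2, wt, h1, es_swap p.2, wt]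
    push_cast
    ring
  simp only [Function.Involutive.coe_toPerm, k2, Finset.sum_neg_distrib] at k
  linear_combination (-1 / 2 : ℂ) * k

end XFP

open XFP in
theorem st_FP (hSS : St_SS) : St_FP := by
  intro y yi h t ht
  have k : ∀ a : ZMod 37, ∑ d, (wt yi a d : ℂ) * PP a d t * PP (a * y) (d * yi) t =
      2 * ∑ d, (wt yi a d : ℂ) * es a d (t * I) * es (a * y) (d * yi) (t * I) -
      2 * ∑ d, (wt yi a d : ℂ) * es a d (t * I) * es (a * y) (-(d * yi)) (t * I) := fun a => by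
    have k1 := sum_neg fun d => (wt yi a d : ℂ) * es a d (t * I) * es (a * y) (d * yi) (t * I)
    have k2 := sum_neg fun d => (wt yi a d : ℂ) * es a d (t * I) * es (a * y) (-(d * yi)) (t * I)
    simp only [wt_neg, neg_mul, neg_neg] at k1 k2
    rw [two_mul, two_mul]
    nth_rewrite 1 [← k1]
    nth_rewrite 1 [← k2]
    rw [← Finset.sum_add_distrib, ← Finset.sum_add_distrib, ← Finset.sum_sub_distrib]
    refine Finset.sum_congr rfl fun d _ => ?_
    rw [PP_eq hSS _ _ ht, PP_eq hSS _ _ ht]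
    ring
  unfold FP FF
  push_cast
  simp only [k, Finset.sum_sub_distrib, ← Finset.mul_sum, diag h]
  ring

end C37
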