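import Pool.Agent.Lib.C37.Kit

/-! The functions `U` and `V` at the cusp `(0, 1)` are holomorphic in `q`. -/

open Complex Filter Topology Set
open scoped Real

namespace C37

namespace G01

noncomputable def g (b : ℤ) (p : ℂ) : ℂ := e (-(b / 37) / 2) * RV6.th p (e (b / 37))

noncomputable def G (b : ℤ) (p : ℂ) : ℂ :=
  g (6 * b) p * g (8 * b) p * g (10 * b) p * g (14 * b) p * g (26 * b) p * g (36 * b) p

lemma kk_eq (a b : ℤ) (τ : ℂ) : kk (a • ((0 : ℤ), b)) τ = g (a * b) (e τ) := by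
  simp [kk, zv, Th, g, e_zero]

lemma KK_eq (b : ℤ) (τ : ℂ) : KK (0, b) τ = G b (e τ) := by
  simp only [KK, kk_eq, G]

lemma g_diff (hPO : St_PO) (b : ℤ) : DifferentiableOn ℂ (g b) (Metric.ball 0 1) := by
  have h : ∀ τ ∈ Metric.ball (0 : ℂ) 1, ‖id τ‖ < 1 := fun τ h => by simpa using h
  exact ((hPO _ (fun _ => e (b / 37)) id Metric.isOpen_ball (differentiableOn_const _)
    differentiableOn_id h).mul (hPO _ (fun p => p / e (b / 37)) id Metric.isOpen_ball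
      (differentiableOn_id.div_const _) differentiableOn_id h)).const_mul _

lemma th_ne {p w : ℂ} (hp : ‖p‖ < 1) (h1 : ‖w‖ = 1) (h3 : w ≠ 1) : RV6.th p w ≠ 0 := by
  unfold RV6.th
  rw [RV6.poch_succ hp w]
  refine mul_ne_zero (mul_ne_zero (sub_ne_zero.mpr h3.symm) (RV6.poch_ne_zero' hp ?_))
    (RV6.poch_ne_zero' hp ?_)
  · rwa [norm_mul, h1, one_mul]
  · rwa [norm_div, h1, div_one]

lemma g_ne {b : ℤ} (hb : ¬(37 : ℤ) ∣ b) {p : ℂ} (hp : p ∈ Metric.ball (0 : ℂ) 1) : g b p ≠ 0 := by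
  have h : ‖p‖ < 1 := by simpa using hp
  have n : ‖e (b / 37)‖ = 1 := by
    rw [norm_e, show (37 : ℂ) = ((37 : ℝ) : ℂ) by norm_num, div_ofReal_im]; simp
  refine mul_ne_zero (e_ne _) (th_ne h n fun k => hb ?_)
  obtain ⟨m, hm⟩ := exp_eq_one_iff.1 k
  have h2 : (2 * π * I : ℂ) ≠ 0 := two_pi_I_ne_zero
  have h3 : (b : ℂ) / 37 = m := mul_left_cancel₀ h2 (by rw [hm]; ring)
  refine ⟨m, ?_⟩
  have : (b : ℂ) = 37 * m := by rw [← h3]; ring
  exact_mod_cast this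

lemma G_diff (hPO : St_PO) (b : ℤ) : DifferentiableOn ℂ (G b) (Metric.ball 0 1) :=
  (((((g_diff hPO _).mul (g_diff hPO _)).mul (g_diff hPO _)).mul (g_diff hPO _)).mul
    (g_diff hPO _)).mul (g_diff hPO _)

lemma G_ne {b : ℤ} (hb : b = 1 ∨ b = 2 ∨ b = 4) {p : ℂ} (hp : p ∈ Metric.ball (0 : ℂ) 1) :
    G b p ≠ 0 := by
  refine mul_ne_zero (mul_ne_zero (mul_ne_zero (mul_ne_zero (mul_ne_zero ?_ ?_) ?_) ?_) ?_) ?_ <;>
    exact g_ne (by omega) hp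

end G01

open G01 in
theorem st_G01 (hPO : St_PO) : St_G01 := by
  have h0 : (0 : ℂ) ∈ Metric.ball (0 : ℂ) 1 := by simp
  refine ⟨fun p => G 4 p / G 1 p, fun p => -G 4 p / G 2 p,
    (G_diff hPO 4).div (G_diff hPO 1) fun p hp => G_ne (by simp) hp,
    (G_diff hPO 4).neg.div (G_diff hPO 2) fun p hp => G_ne (by simp) hp,
    div_ne_zero (G_ne (by simp) h0) (G_ne (by simp) h0),
    div_ne_zero (neg_ne_zero.2 (G_ne (by simp) h0)) (G_ne (by simp) h0), fun τ _ => ?_⟩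
  have e4 : (4 : ℤ) • ((0 : ℤ), (1 : ℤ)) = (0, 4) := by simp
  have e2 : (2 : ℤ) • ((0 : ℤ), (1 : ℤ)) = (0, 2) := by simp
  simp only [UU, VV, e4, e2, KK_eq, and_self]

end C37
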