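import Pool.Agent.Lib.C37.Kit

/-! From the local relations to the global ones. -/

open Complex Filter Topology Set

namespace C37

theorem st_GLOB (hCNT : St_CNT) (hCONN : St_CONN) : St_GLOB := by
  intro Ψ Wa Wb la lb ha hb hL x y z Za Zb hT P hP τ hτ σ hσ
  have hc : IsPreconnected (GT x y z) := by
    have := hCONN.1 _ (hCNT x y z Za Zb hT)
    rwa [Set.sdiff_sdiff_cancel_left fun _ h => h.1] at this
  have hl := hL x y z Za Zb hT
  have ho : IsOpen (GT x y z) := isOpen_iff_mem_nhds.mpr fun ρ hρ => (hl ρ hρ).1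
  refine ⟨?_, ?_, ?_⟩
  · have := DI.eq_of_zero ho hc (fun ρ hρ => ((hP ρ hρ.1).sub (hl ρ hρ).2.1).congr (.refl _ _)
      (sub_self _)) hσ hτ
    simp only [sub_im]
    linarith
  · obtain ⟨n, hn⟩ := hCONN.2 _ (fun ρ => cp Wa x y z ρ - (Za ρ).im) _ hc
      (fun ρ hρ => (hl ρ hρ).2.2.1) τ hτ σ hσ
    exact ⟨n, by rw [sub_im]; linarith⟩
  · obtain ⟨n, hn⟩ := hCONN.2 _ (fun ρ => cp Wb x y z ρ - (Zb ρ).im) _ hc
      (fun ρ hρ => (hl ρ hρ).2.2.2) τ hτ σ hσ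
    exact ⟨n, by rw [sub_im]; linarith⟩

end C37
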