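import Pool.Agent.Lib.C37.Kit

/-! Block GS: product expansions of the two units at the cusp infinity. -/

open Complex Filter Topology Set MeasureTheory Asymptotics
open scoped Real ComplexConjugate

namespace C37

namespace GS

lemma hs_sg (hSS : St_SS) (c : ZMod 37 → ℤ) {τ : ℂ} (hτ : τ ∈ UH) :
    HasSum (fun p : ℕ+ × ℕ+ => (c (p.1 : ℕ) : ℂ) / (p.2 : ℕ) * Q τ ^ ((p.1 : ℕ) * (p.2 : ℕ)))
      (sg c τ) := by
  refine (hSS (fun m n => (c m : ℂ) / n) ⟨∑ a, ‖(c a : ℂ)‖, 0, fun m n _ hn => ?_⟩).1 τ hτ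
  rw [pow_zero, mul_one, norm_div, Complex.norm_natCast]
  refine (div_le_self (norm_nonneg _) (by exact_mod_cast hn)).trans ?_
  exact Finset.single_le_sum (f := fun a => ‖(c a : ℂ)‖) (fun _ _ => norm_nonneg _)
    (Finset.mem_univ _)

lemma sg_add (hSS : St_SS) (c d : ZMod 37 → ℤ) {τ : ℂ} (hτ : τ ∈ UH) :
    sg (fun m => c m + d m) τ = sg c τ + sg d τ :=
  (hs_sg hSS _ hτ).unique (((hs_sg hSS c hτ).add (hs_sg hSS d hτ)).congr_fun fun p => by
    push_cast; ring)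

lemma sg_sub (hSS : St_SS) (c d : ZMod 37 → ℤ) {τ : ℂ} (hτ : τ ∈ UH) :
    sg (fun m => c m - d m) τ = sg c τ - sg d τ :=
  (hs_sg hSS _ hτ).unique (((hs_sg hSS c hτ).sub (hs_sg hSS d hτ)).congr_fun fun p => by
    push_cast; ring)

lemma poch_eq (hSS : St_SS) {a : ℕ} (h0 : 0 < a) (h1 : a < 37) {τ : ℂ} (hτ : τ ∈ UH) :
    RV6.poch (Q τ ^ a) (Q τ ^ 37) = cexp (-sg (fun m => iv m a) τ) := by
  have hQ := norm_Q_lt hτ
  have hp : ∀ k : ℕ, k ≠ 0 → ‖Q τ ^ k‖ < 1 := fun k hk => by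
    rw [norm_pow]; exact pow_lt_one₀ (norm_nonneg _) hQ hk
  obtain ⟨S, hS, e0⟩ := RV6.poch_exp (hp 37 (by norm_num)) (hp a h0.ne')
  rw [e0]
  congr 2
  refine hS.unique (HasSum.prod_fiberwise
    ((Equiv.prodComm ℕ+ ℕ+).hasSum_iff.2 (hs_sg hSS (fun m => iv m a) hτ)) fun n => ?_)
  have hi : Function.Injective fun k : ℕ => (⟨a + 37 * k, by omega⟩ : ℕ+) := fun k l h => by
    have := congrArg PNat.val h
    simp only [PNat.mk_coe] at this
    omega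
  refine (hi.hasSum_iff fun (m : ℕ+) hm => ?_).1 ?_
  · have : iv (m : ℕ) a = 0 := by
      unfold iv
      rw [if_neg]
      intro h
      rw [ZMod.natCast_eq_natCast_iff'] at h
      refine hm ⟨(m : ℕ) / 37, PNat.eq ?_⟩
      show a + 37 * ((m : ℕ) / 37) = (m : ℕ)
      omega
    show ((iv (m : ℕ) a : ℤ) : ℂ) / _ * _ = 0
    rw [this]; simp
  · have g := (hasSum_geometric_of_norm_lt_one (ξ := (Q τ ^ 37) ^ (n : ℕ))
      (by rw [← pow_mul]; exact hp _ (by positivity))).mul_left ((Q τ ^ a) ^ (n : ℕ) / (n : ℕ))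
    rw [← div_eq_mul_inv, div_div] at g
    refine g.congr_fun fun k => ?_
    have : iv ((a + 37 * k : ℕ) : ZMod 37) a = 1 := by
      unfold iv
      rw [if_pos]
      rw [ZMod.natCast_eq_natCast_iff']
      omega
    simp only [Function.comp, Equiv.prodComm_apply, Prod.swap, PNat.mk_coe, this]
    push_cast; ring

/-- indicator of the two classes of `a` and `-a` -/
def g (a : ℕ) (m : ZMod 37) : ℤ := iv m a + iv m (37 - a : ℕ)

lemma kk_eq (hSS : St_SS) (a : ℕ) (h0 : 0 < a) (h1 : a < 37) {τ : ℂ} (hτ : τ ∈ UH) :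
    kk (a, 0) τ = cexp (2 * π * I * ((a ^ 2 / 74 - a / 2) * τ / 37) - sg (g a) τ) := by
  have e1 : e (zv (a, 0) τ) = Q τ ^ a := by
    unfold Q zv; rw [e_pow]; congr 1; push_cast; ring
  have e2 : Q τ ^ 37 / Q τ ^ a = Q τ ^ (37 - a) := by
    rw [div_eq_iff (pow_ne_zero _ (Q_ne τ)), ← pow_add, Nat.sub_add_cancel h1.le]
  unfold kk Th RV6.th g
  rw [e1, ← Q_pow τ, e2, poch_eq hSS h0 h1 hτ, poch_eq hSS (by omega) (by omega) hτ,
    sg_add hSS _ _ hτ]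
  unfold e zv
  simp only [← exp_add]
  congr 1; push_cast; ring

lemma kk_red (hKL : St_KL) (a b : ℤ) (m : ℕ) (h : b = a + 37 * m) {τ : ℂ} (hτ : τ ∈ UH) :
    kk (b, 0) τ = (-1) ^ m * kk (a, 0) τ := by
  have := (hKL.2 τ hτ).1 (a, 0) (m, 0)
  rw [show ((a, 0) : ℤ × ℤ) + (37 : ℤ) • ((m : ℤ), (0 : ℤ)) = (b, 0) by simp [h]] at this
  rw [this, ← e_half, e_pow]
  congr 2; push_cast; ring

lemma six (hSS : St_SS) (j : ℕ) (a1 a2 a3 a4 a5 a6 : ℕ) (o : ℤ)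
    (hb : ∀ a ∈ [a1, a2, a3, a4, a5, a6], 0 < a ∧ a < 37)
    (h : ∀ m, chi j m = g a1 m + g a2 m + g a3 m + g a4 m + g a5 m + g a6 m)
    (ho : (a1 ^ 2 + a2 ^ 2 + a3 ^ 2 + a4 ^ 2 + a5 ^ 2 + a6 ^ 2 : ℤ) -
      37 * (a1 + a2 + a3 + a4 + a5 + a6) = 74 * o) {τ : ℂ} (hτ : τ ∈ UH) :
    kk (a1, 0) τ * kk (a2, 0) τ * kk (a3, 0) τ * kk (a4, 0) τ * kk (a5, 0) τ * kk (a6, 0) τ =
      cexp (2 * π * I * o * τ / 37 - sg (chi j) τ) := by
  have k := fun a ha => kk_eq hSS a (hb a ha).1 (hb a ha).2 hτ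
  rw [k a1 (by simp), k a2 (by simp), k a3 (by simp), k a4 (by simp), k a5 (by simp),
    k a6 (by simp), funext h]
  simp only [← exp_add, sg_add hSS _ _ hτ]
  congr 1
  have ho' := congrArg (Int.cast : ℤ → ℂ) ho
  push_cast at ho'
  linear_combination (2 * π * I * τ / 37 / 74) * ho'

end GS

open GS in
theorem st_GS (hKL : St_KL) (hSS : St_SS) : St_GS := by
  intro τ hτ
  have K1 : KK (1, 0) τ = cexp (2 * π * I * (-18 : ℤ) * τ / 37 - sg (chi 0) τ) := by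
    rw [← six hSS 0 6 8 10 14 26 36 (-18) (by decide) (by decide +kernel) (by decide) hτ]
    simp [KK]
  have K2 : KK ((2 : ℤ) • (1, 0)) τ = cexp (2 * π * I * (-22 : ℤ) * τ / 37 - sg (chi 1) τ) := by
    rw [← six hSS 1 12 16 20 28 15 35 (-22) (by decide) (by decide +kernel) (by decide) hτ]
    have b1 := kk_red hKL 15 52 1 (by decide) hτ
    have b2 := kk_red hKL 35 72 1 (by decide) hτ
    simp only [KK, Prod.smul_mk, smul_eq_mul, mul_zero, mul_one, Int.reduceMul, b1, b2,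
      Nat.cast_ofNat]
    ring
  have K4 : KK ((4 : ℤ) • (1, 0)) τ = -cexp (2 * π * I * (-17 : ℤ) * τ / 37 - sg (chi 2) τ) := by
    rw [← six hSS 2 24 32 3 19 30 33 (-17) (by decide) (by decide +kernel) (by decide) hτ]
    have b1 := kk_red hKL 3 40 1 (by decide) hτ
    have b2 := kk_red hKL 19 56 1 (by decide) hτ
    have b3 := kk_red hKL 30 104 2 (by decide) hτ
    have b4 := kk_red hKL 33 144 3 (by decide) hτ
    simp only [KK, Prod.smul_mk, smul_eq_mul, mul_zero, mul_one, Int.reduceMul, b1, b2, b3, b4,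
      Nat.cast_ofNat]
    ring
  have su : sg cu τ = sg (chi 0) τ - sg (chi 2) τ := sg_sub hSS _ _ hτ
  have sv : sg cv τ = sg (chi 1) τ - sg (chi 2) τ := sg_sub hSS _ _ hτ
  constructor
  · unfold UU uu ell
    rw [K1, K4, neg_div, ← exp_sub, su]
    congr 2; push_cast; ring
  · unfold VV vv ell
    rw [K2, K4, neg_neg, ← exp_sub, sv]
    congr 1; push_cast; ring

end C37
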