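import Pool.Agent.Lib.C37.Kit

/-! Transformation laws of the weight one Eisenstein family. -/

open Complex Filter Topology Set MeasureTheory Asymptotics
open scoped Real ComplexConjugate

namespace C37

namespace HL

lemma key {f g A P : ℂ → ℂ} {a c p z : ℂ} (hf : Differentiable ℂ f) (hg : Differentiable ℂ g)
    (hA : HasDerivAt A a z) (hP : HasDerivAt P p z) (hc : c ≠ 0) (h0 : g z ≠ 0)
    (h : ∀ x, f (A x) = c * e (P x) * g x) :
    logDeriv f (A z) * a = 2 * π * I * p + logDeriv g z := by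
  have h1 : HasDerivAt (fun x => f (A x)) (deriv f (A z) * a) z := (hf (A z)).hasDerivAt.comp z hA
  have h2 : HasDerivAt (fun x => c * e (P x) * g x)
      (c * (2 * π * I * e (P z) * p) * g z + c * e (P z) * deriv g z) z :=
    (((hasDerivAt_e (P z)).comp z hP).const_mul c).mul (hg z).hasDerivAt
  rw [funext h] at h1
  have h3 := e_ne (P z)
  rw [logDeriv_apply, logDeriv_apply, div_mul_eq_mul_div, h1.unique h2, h z]
  field_simp

lemma step {F : ℤ → ℂ} {c : ℂ} (h : ∀ m, F (m + 1) = F m + c) (m : ℤ) : F m = F 0 + m * c := by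
  induction m using Int.induction_on with
  | zero => simp
  | succ k ih => rw [h, ih]; push_cast; ring
  | pred k ih =>
    have h1 := h (-k - 1)
    rw [sub_add_cancel, ih] at h1
    push_cast at h1 ⊢
    linear_combination -h1

lemma nz (hTH : St_TH) {v : ℤ × ℤ} (hv : NZ v) {τ : ℂ} (hτ : τ ∈ UH) (m n : ℤ) :
    Th (zv v τ + m * τ + n) τ ≠ 0 := fun h => by
  obtain ⟨m', n', h1⟩ := ((hTH τ hτ).2.2.2.2.2 _).mp h
  have h2 : ((v.1 - 37 * (m' - m) : ℤ) : ℂ) * τ + ((v.2 - 37 * (n' - n) : ℤ) : ℂ) = 0 := by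
    unfold zv at h1
    push_cast
    linear_combination 37 * h1
  have h3 := congrArg Complex.im h2
  rw [add_im, intCast_im, add_zero, mul_im, intCast_im, zero_mul, add_zero, intCast_re,
    zero_im] at h3
  have h4 : v.1 - 37 * (m' - m) = 0 := by
    exact_mod_cast (mul_eq_zero.mp h3).resolve_right (ne_of_gt hτ)
  rw [h4, Int.cast_zero, zero_mul, zero_add, Int.cast_eq_zero] at h2
  exact hv ⟨⟨_, sub_eq_zero.mp h4⟩, ⟨_, sub_eq_zero.mp h2⟩⟩

lemma nz0 (hTH : St_TH) {v : ℤ × ℤ} (hv : NZ v) {τ : ℂ} (hτ : τ ∈ UH) : Th (zv v τ) τ ≠ 0 := by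
  simpa using nz hTH hv hτ 0 0

lemma shift (hTH : St_TH) {v : ℤ × ℤ} (hv : NZ v) {τ : ℂ} (hτ : τ ∈ UH) (m n : ℤ) :
    logDeriv (fun z => Th z τ) (zv v τ + m * τ + n) =
      logDeriv (fun z => Th z τ) (zv v τ) - m * (2 * π * I) := by
  obtain ⟨hd, h1, h2, -⟩ := hTH τ hτ
  have h3 := step (F := fun n : ℤ => logDeriv (fun z => Th z τ) (zv v τ + m * τ + n)) (c := 0)
    (fun n => by
      have h := key hd hd ((hasDerivAt_id' _).add_const 1) (hasDerivAt_const _ 0) (c := -1)
        (by norm_num) (nz hTH hv hτ m n) fun x => by rw [h1, e_zero]; ring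
      rw [Int.cast_add, Int.cast_one, ← add_assoc]
      linear_combination h) n
  have h4 := step (F := fun m : ℤ => logDeriv (fun z => Th z τ) (zv v τ + m * τ))
    (c := -(2 * π * I)) (fun m => by
      have h := key hd hd ((hasDerivAt_id' _).add_const τ)
        ((hasDerivAt_id' _).const_sub (-τ / 2)) (c := -1) (by norm_num)
        (z := zv v τ + m * τ) (by simpa using nz hTH hv hτ m 0) fun x => by rw [h2]; ring
      rw [Int.cast_add, Int.cast_one, add_mul, one_mul, ← add_assoc]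
      linear_combination h) m
  simp only [Int.cast_zero, add_zero, zero_mul, mul_zero] at h3 h4
  rw [h3, h4]
  ring

end HL

theorem st_HL (hTH : St_TH) (hTHS : St_THS) : St_HL := by
  have hπ : (2 * π * I : ℂ) ≠ 0 := two_pi_I_ne_zero
  refine ⟨⟨fun v u hv τ hτ => ?_, fun v _ τ hτ => ?_, fun v hv τ hτ => ?_⟩, fun v hv τ hτ => ?_⟩
  · have h1 : zv (v + (37 : ℤ) • u) τ = zv v τ + u.1 * τ + u.2 := by
      simp only [zv, Prod.fst_add, Prod.snd_add, Prod.smul_fst, Prod.smul_snd, smul_eq_mul]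
      push_cast
      ring
    rw [hh, hh, h1, HL.shift hTH hv hτ, sub_div, mul_div_cancel_right₀ _ hπ, Prod.fst_add,
      Prod.smul_fst, smul_eq_mul]
    push_cast
    ring
  · have h1 : zv v (τ + 1) = zv (v.1, v.1 + v.2) τ := by
      simp only [zv]
      push_cast
      ring
    rw [hh, hh, h1, funext (hTH τ hτ).2.2.2.2.1]
  · obtain ⟨c, hc, h⟩ := hTHS τ hτ
    have h0 := ne_of_UH hτ
    have h1 : zv v (-1 / τ) = zv (v.2, -v.1) τ / τ := by
      simp only [zv]
      push_cast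
      field_simp
      ring
    have h2 := HL.key (hTH _ (inv_mem_UH hτ)).1 (hTH τ hτ).1 ((hasDerivAt_id' _).div_const τ)
      ((hasDerivAt_pow 2 _).div_const (2 * τ)) hc
      (HL.nz0 hTH (v := (v.2, -v.1)) (fun h => hv ⟨dvd_neg.mp h.2, h.1⟩) hτ) h
    have h3 : logDeriv (fun z => Th z (-1 / τ)) (zv (v.2, -v.1) τ / τ) =
        2 * π * I * zv (v.2, -v.1) τ + τ * logDeriv (fun z => Th z τ) (zv (v.2, -v.1) τ) := by
      rw [mul_one_div, div_eq_iff h0] at h2
      rw [h2]
      push_cast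
      field_simp
    rw [hh, hh, h1, h3, add_div, mul_div_cancel_left₀ _ hπ, zv]
    push_cast
    ring
  · have h1 : zv (-v) τ = -zv v τ := by
      simp only [zv, Prod.fst_neg, Prod.snd_neg]
      push_cast
      ring
    have h2 := HL.key (hTH τ hτ).1 (hTH τ hτ).1 (hasDerivAt_neg' _) (hasDerivAt_const _ 0)
      (c := -1) (by norm_num) (HL.nz0 hTH hv hτ) fun x => by
        rw [(hTH τ hτ).2.2.2.1, e_zero]; ring
    rw [hh, hh, h1, Prod.fst_neg]
    push_cast
    linear_combination -h2 / (2 * π * I)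

end C37
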