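import Pool.Agent.Lib.C37.Kit

/-! Block HX: the expansion of the weight one Eisenstein series. -/

open Complex Filter Topology Set
open scoped Real

namespace C37
namespace HX

noncomputable def TT (r : ℕ) (p x : ℂ) : ℂ :=
  ∑' k : ℕ+, ((k : ℕ) : ℂ) ^ r * (x ^ (k : ℕ) / ((k : ℕ) * (1 - p ^ (k : ℕ))))

variable {p : ℂ}

lemma TT_le (hp : ‖p‖ < 1) (r : ℕ) {x : ℂ} {R : ℝ} (hx : ‖x‖ ≤ R) (k : ℕ+) :
    ‖((k : ℕ) : ℂ) ^ r * (x ^ (k : ℕ) / ((k : ℕ) * (1 - p ^ (k : ℕ))))‖ ≤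
      ((k : ℕ) : ℝ) ^ r * R ^ (k : ℕ) / (1 - ‖p‖) := by
  have h0 : ‖p‖ ^ (k : ℕ) ≤ ‖p‖ := pow_le_of_le_one (norm_nonneg _) hp.le k.ne_zero
  have h1 : 1 - ‖p‖ ≤ ‖1 - p ^ (k : ℕ)‖ := by
    have := norm_sub_norm_le (1 : ℂ) (p ^ (k : ℕ))
    rw [norm_one, norm_pow] at this
    linarith
  have h2 : (1 : ℝ) ≤ (k : ℕ) := by exact_mod_cast k.pos
  have h3 : 0 < 1 - ‖p‖ := by linarith
  have h4 := (norm_nonneg x).trans hx
  rw [norm_mul, norm_div, norm_mul, norm_pow, norm_pow, Complex.norm_natCast, mul_div_assoc]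
  gcongr
  nlinarith

lemma TT_summable (hp : ‖p‖ < 1) (r : ℕ) {x : ℂ} (hx : ‖x‖ < 1) : Summable fun k : ℕ+ =>
    ((k : ℕ) : ℂ) ^ r * (x ^ (k : ℕ) / ((k : ℕ) * (1 - p ^ (k : ℕ)))) :=
  Summable.of_norm_bounded ((RV6.summable_pow_geo r (norm_nonneg x) hx).div_const _)
    (TT_le hp r le_rfl)

lemma hasDerivAt_TT (hp : ‖p‖ < 1) (r : ℕ) {x : ℂ} (hx : ‖x‖ < 1) (hx0 : x ≠ 0) :
    HasDerivAt (TT r p) (TT (r + 1) p x / x) x := by
  have hU : IsOpen {z : ℂ | ‖z‖ < (‖x‖ + 1) / 2} := isOpen_lt continuous_norm continuous_const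
  have hx1 : x ∈ {z : ℂ | ‖z‖ < (‖x‖ + 1) / 2} := by simp only [mem_ofPred_eq]; linarith
  have hu := (RV6.summable_pow_geo r (x := (‖x‖ + 1) / 2) (by positivity) (by linarith)).div_const
    (1 - ‖p‖)
  have hF : ∀ k : ℕ+, DifferentiableOn ℂ (fun x : ℂ => ((k : ℕ) : ℂ) ^ r * (x ^ (k : ℕ) /
    ((k : ℕ) * (1 - p ^ (k : ℕ))))) {z : ℂ | ‖z‖ < (‖x‖ + 1) / 2} := fun k => by fun_prop
  have hd := (Complex.differentiableOn_tsum_of_summable_norm hu hF hU
    fun k z hz => TT_le hp r (le_of_lt hz) k).differentiableAt (hU.mem_nhds hx1)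
  refine hd.hasDerivAt.congr_deriv ((Complex.hasSum_deriv_of_summable_norm hu hF hU
    (fun k z hz => TT_le hp r (le_of_lt hz) k) hx1).unique
    (((TT_summable hp (r + 1) hx).hasSum.div_const x).congr_fun fun k => ?_))
  rw [(((hasDerivAt_pow (k : ℕ) x).div_const _).const_mul _).deriv, pow_sub₀ _ hx0 k.pos]
  ring

lemma poch_TT (hp : ‖p‖ < 1) {x : ℂ} (hx : ‖x‖ < 1) : RV6.poch x p = cexp (-TT 0 p x) := by
  obtain ⟨S, h1, h2⟩ := RV6.poch_exp hp hx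
  simp only [h2, TT, pow_zero, one_mul, h1.tsum_eq]

lemma hasSum_TT (hp : ‖p‖ < 1) {x : ℂ} (hx : ‖x‖ < 1) :
    HasSum (fun k : ℕ+ => x ^ (k : ℕ) / (1 - p ^ (k : ℕ))) (TT 1 p x) :=
  (TT_summable hp 1 hx).hasSum.congr_fun fun k => by
    have : ((k : ℕ) : ℂ) ≠ 0 := by exact_mod_cast k.ne_zero
    field_simp

lemma TT_shift (hp : ‖p‖ < 1) {x : ℂ} (hx : ‖x‖ < 1) :
    TT 1 p x = x / (1 - x) + TT 1 p (x * p) := by
  have h1 : ‖x * p‖ < 1 := by
    rw [norm_mul]; nlinarith [norm_nonneg x, norm_nonneg p]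
  have h2 : HasSum (fun k : ℕ+ => x ^ (k : ℕ)) (x / (1 - x)) := by
    have h3 := (hasSum_geometric_of_norm_lt_one hx).mul_left x
    rw [← Equiv.pnatEquivNat.symm.hasSum_iff, div_eq_mul_inv]
    refine h3.congr_fun fun n => ?_
    simp [pow_succ']
  refine (hasSum_TT hp hx).unique ((h2.add (hasSum_TT hp h1)).congr_fun fun k => ?_)
  have := RV6.one_sub_pow_ne hp k
  rw [mul_pow]
  field_simp
  ring

/-- the logarithmic derivative of the theta function in the annulus -/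
lemma logDeriv_Th {τ z : ℂ} (hτ : τ ∈ UH) (h1 : ‖e z * e τ‖ < 1) (h2 : ‖e τ / e z‖ < 1)
    (h3 : 1 - e z ≠ 0) : logDeriv (fun z => Th z τ) z / (2 * π * I) =
      -1 / 2 - e z / (1 - e z) - TT 1 (e τ) (e z * e τ) + TT 1 (e τ) (e τ / e z) := by
  have hp := norm_e_lt hτ
  have c1 : ContinuousAt (fun u => ‖e u * e τ‖) z := by
    have := differentiable_e.continuous
    fun_prop
  have c2 : ContinuousAt (fun u => ‖e τ / e u‖) z :=
    (continuousAt_const.div differentiable_e.continuous.continuousAt (e_ne z)).norm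
  have ev : (fun u => Th u τ) =ᶠ[𝓝 z] fun u => e (-u / 2) * (1 - e u) *
      cexp (-TT 0 (e τ) (e u * e τ) - TT 0 (e τ) (e τ / e u)) := by
    filter_upwards [c1.eventually_lt_const h1, c2.eventually_lt_const h2] with u k1 k2
    rw [Th, RV6.th, RV6.poch_succ hp, poch_TT hp k1, poch_TT hp k2, sub_eq_add_neg (-_), exp_add]
    ring
  have d0 : HasDerivAt (fun u => e (-u / 2)) (2 * π * I * e (-z / 2) * (-1 / 2)) z :=
    HasDerivAt.comp (h₂ := e) (h := fun u => -u / 2) z (hasDerivAt_e (-z / 2))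
      ((hasDerivAt_neg' z).div_const 2)
  have d1 : HasDerivAt (fun u => TT 0 (e τ) (e u * e τ))
      (TT 1 (e τ) (e z * e τ) / (e z * e τ) * (2 * π * I * e z * e τ)) z :=
    HasDerivAt.comp (h₂ := TT 0 (e τ)) (h := fun u => e u * e τ) z
      (hasDerivAt_TT hp 0 h1 (mul_ne_zero (e_ne _) (e_ne _))) ((hasDerivAt_e z).mul_const _)
  have d2 : HasDerivAt (fun u => TT 0 (e τ) (e τ / e u))
      (TT 1 (e τ) (e τ / e z) / (e τ / e z) *
        ((0 * e z - e τ * (2 * π * I * e z)) / e z ^ 2)) z :=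
    HasDerivAt.comp (h₂ := TT 0 (e τ)) (h := fun u => e τ / e u) z
      (hasDerivAt_TT hp 0 h2 (div_ne_zero (e_ne _) (e_ne _)))
      ((hasDerivAt_const z (e τ)).div (hasDerivAt_e z) (e_ne z))
  have d := (d0.mul ((hasDerivAt_e z).const_sub 1)).mul (d1.neg.sub d2).cexp
  rw [logDeriv_apply, ev.deriv_eq, ev.eq_of_nhds]
  have d' : deriv (fun u => e (-u / 2) * (1 - e u) *
      cexp (-TT 0 (e τ) (e u * e τ) - TT 0 (e τ) (e τ / e u))) z = _ := d.deriv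
  rw [d']
  have n1 := e_ne z
  have n2 := e_ne τ
  have n3 := e_ne (-z / 2)
  have n4 := exp_ne_zero (-TT 0 (e τ) (e z * e τ) - TT 0 (e τ) (e τ / e z))
  have n5 : (π : ℂ) ≠ 0 := ofReal_ne_zero.mpr Real.pi_ne_zero
  simp only [Pi.mul_apply, Pi.neg_apply, Pi.sub_apply]
  generalize e (-z / 2) = A at n3
  generalize cexp (-TT 0 (e τ) (e z * e τ) - TT 0 (e τ) (e τ / e z)) = B at n4
  generalize TT 1 (e τ) (e z * e τ) = C
  generalize TT 1 (e τ) (e τ / e z) = D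
  field_simp
  ring

lemma psi_mul_nat (b : ZMod 37) (n : ℕ) : ψ (b * n) = ψ b ^ n := by
  unfold ψ
  rw [← AddChar.map_nsmul_eq_pow, nsmul_eq_mul, mul_comm]

lemma pbd (c b : ZMod 37) : PBd fun m n => (iv m c : ℂ) * ψ (b * n) :=
  ⟨1, 0, fun m n _ _ => by
    rw [norm_mul, norm_psi]
    unfold iv
    split_ifs <;> simp⟩

/-- one residue class of the double series -/
lemma hasSum_class (hSS : St_SS) (c : ℕ) (h0 : 0 < c) (h1 : c ≤ 37) (b : ZMod 37) {τ : ℂ}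
    (hτ : τ ∈ UH) : HasSum (fun q : ℕ+ × ℕ+ => (iv (q.1 : ℕ) c : ℂ) * ψ (b * (q.2 : ℕ)) *
      Q τ ^ ((q.1 : ℕ) * (q.2 : ℕ))) (TT 1 (e τ) (ψ b * Q τ ^ c)) := by
  have hp := norm_e_lt hτ
  have h := (hSS _ (pbd c b)).1 τ hτ
  have hx : ‖ψ b * Q τ ^ c‖ < 1 := by
    rw [norm_mul, norm_psi, one_mul, norm_pow]
    exact pow_lt_one₀ (norm_nonneg _) (norm_Q_lt hτ) h0.ne'
  have h' := ((Equiv.prodComm ℕ+ ℕ+).hasSum_iff).mpr h
  suffices SS (fun m n => (iv m c : ℂ) * ψ (b * n)) τ = TT 1 (e τ) (ψ b * Q τ ^ c) from this ▸ h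
  refine (HasSum.prod_fiberwise h' fun n => ?_).unique (hasSum_TT hp hx)
  let f : ℕ → ℕ+ := fun k => ⟨c + 37 * k, by omega⟩
  have hf : Function.Injective f := fun k l hkl => by
    have : c + 37 * k = c + 37 * l := congrArg PNat.val hkl
    omega
  have hg := (hasSum_geometric_of_norm_lt_one (ξ := e τ ^ (n : ℕ)) (by
    rw [norm_pow]; exact pow_lt_one₀ (norm_nonneg _) hp n.ne_zero)).mul_left
      ((ψ b * Q τ ^ c) ^ (n : ℕ))
  rw [div_eq_mul_inv]
  refine (hf.hasSum_iff fun m hm => ?_).mp (hg.congr_fun fun k => ?_)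
  · have : ((m : ℕ) : ZMod 37) ≠ c := fun hc => hm (by
      have h2 := (ZMod.natCast_eq_natCast_iff' _ _ _).mp hc
      have h3 := m.pos
      refine ⟨((m : ℕ) - c) / 37, PNat.eq ?_⟩
      show c + 37 * (((m : ℕ) - c) / 37) = m
      omega)
    simp [iv, this]
  · have h37 : ((37 : ℕ) : ZMod 37) = 0 := ZMod.natCast_self 37
    have : ((c + 37 * k : ℕ) : ZMod 37) = c := by
      rw [Nat.cast_add, Nat.cast_mul, h37, zero_mul, add_zero]
    show (iv ((c + 37 * k : ℕ) : ZMod 37) c : ℂ) * ψ (b * (n : ℕ)) *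
      Q τ ^ ((c + 37 * k) * (n : ℕ)) = _
    rw [this, psi_mul_nat, ← Q_pow]
    simp only [iv, if_true, Int.cast_one, one_mul]
    ring

end HX

open HX in
theorem st_HX (_hTH : St_TH) (hSS : St_SS) : St_HX := by
  intro a b hab τ hτ
  have hp := norm_e_lt hτ
  have hQ := norm_Q_lt hτ
  have ha := ZMod.val_lt a
  have hz : e (zv (a.val, b.val) τ) = ψ b * Q τ ^ a.val := by
    rw [psi_eq, Q, e_pow, ← e_add, zv]
    congr 1; push_cast; ring
  have hw1 : ‖ψ b * Q τ ^ a.val‖ ≤ 1 := by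
    rw [norm_mul, norm_psi, one_mul, norm_pow]
    exact pow_le_one₀ (norm_nonneg _) hQ.le
  have hinv : e τ / (ψ b * Q τ ^ a.val) = ψ (-b) * Q τ ^ (37 - a.val) := by
    have h1 : ψ (-b) * ψ b = 1 := by rw [← psi_add, neg_add_cancel]; simp [ψ]
    have h2 : ψ b ≠ 0 := right_ne_zero_of_mul_eq_one h1
    have h3 : Q τ ^ (37 - a.val) * Q τ ^ a.val = e τ := by
      rw [← pow_add, Nat.sub_add_cancel ha.le, Q_pow]
    rw [div_eq_iff (mul_ne_zero h2 (pow_ne_zero _ (Q_ne τ))), ← h3]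
    linear_combination (-(Q τ ^ (37 - a.val) * Q τ ^ a.val)) * h1
  have hne : 1 - e (zv (a.val, b.val) τ) ≠ 0 := fun h => by
    rw [hz] at h
    by_cases h0 : a = 0
    · rw [h0, ZMod.val_zero, pow_zero, mul_one] at h
      exact hab ⟨h0, ((ZMod.isPrimitive_stdAddChar 37).zmod_char_eq_one_iff 37 b).mp
        (sub_eq_zero.mp h).symm⟩
    · have h2 := congrArg norm (sub_eq_zero.mp h)
      rw [norm_one, norm_mul, norm_psi, one_mul, norm_pow] at h2
      exact (pow_lt_one₀ (norm_nonneg _) hQ ((ZMod.val_ne_zero a).mpr h0)).ne' h2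
  have key := logDeriv_Th (z := zv (a.val, b.val) τ) hτ (by
    rw [hz, norm_mul]; nlinarith [norm_nonneg (ψ b * Q τ ^ a.val), norm_nonneg (e τ)]) (by
    rw [hz, hinv, norm_mul, norm_psi, one_mul, norm_pow]
    exact pow_lt_one₀ (norm_nonneg _) hQ (by omega)) hne
  have s2 := hasSum_class hSS (37 - a.val) (by omega) (by omega) (-b) hτ
  have e2 : ((37 - a.val : ℕ) : ZMod 37) = -a := by
    rw [Nat.cast_sub ha.le, ZMod.natCast_self, ZMod.natCast_zmod_val, zero_sub]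
  rw [e2] at s2
  simp only [neg_mul] at s2
  have fin : ∀ (c : ℕ), 0 < c → c ≤ 37 → (c : ZMod 37) = a →
      hs a b τ = TT 1 (e τ) (ψ b * Q τ ^ c) - TT 1 (e τ) (ψ (-b) * Q τ ^ (37 - a.val)) := by
    intro c h0 h1 h2
    have s1 := hasSum_class hSS c h0 h1 b hτ
    rw [h2] at s1
    exact ((s1.sub s2).congr_fun fun q => by ring).tsum_eq
  rw [hh, key, hz, hinv, hc]
  by_cases h0 : a = 0
  · rw [fin 37 (by norm_num) le_rfl (by rw [h0]; exact ZMod.natCast_self 37), if_pos h0, Q_pow]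
    simp only [h0, ZMod.val_zero, pow_zero, mul_one, Nat.cast_zero, Int.cast_zero]
    ring
  · have h1 := (ZMod.val_ne_zero a).mpr h0
    rw [fin a.val (by omega) ha.le (ZMod.natCast_zmod_val a), if_neg h0,
      TT_shift (x := ψ b * Q τ ^ a.val) hp (by
        rw [norm_mul, norm_psi, one_mul, norm_pow]
        exact pow_lt_one₀ (norm_nonneg _) hQ h1)]
    simp only [Int.cast_natCast]
    ring

end C37
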