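import Pool.Agent.Lib.C37.Kit

/-! Block HYP: hyperplane sections of the canonical curve are countable. -/

open Complex Filter Topology Set

namespace C37

namespace HYP

/-- a nonzero holomorphic function on the upper half plane has countably many zeros -/
theorem cnt {f : ℂ → ℂ} (hf : DifferentiableOn ℂ f UH) (h : ∃ τ ∈ UH, f τ ≠ 0) :
    {τ | τ ∈ UH ∧ f τ = 0}.Countable := by
  rcases (hf.analyticOnNhd isOpen_UH).eqOn_zero_or_eventually_ne_zero_of_preconnected
    convex_UH.isPreconnected with h0 | h0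
  · obtain ⟨τ, h1, h2⟩ := h
    exact absurd (h0 h1) h2
  · have h1 : ({τ | f τ = 0} ∩ UH).Countable :=
      (HereditarilyLindelofSpace.isLindelof _).countable_of_isDiscrete
        (isDiscrete_of_codiscreteWithin h0)
    exact h1.mono fun τ hτ => mem_inter hτ.2 hτ.1

theorem form (a0 a1 a2 a3 x y z : ℂ) :
    a0 * z0 x y z + a1 * z1 x y z + a2 * z2 x y z + a3 * z3 x y z =
      w * (a1 - a2) / 2 * Aa x y z + (2 + w) * (a1 + a2) / 2 * Ab x y z +
        (a0 - w ^ 2 * a3) * RR x y z + (w ^ 2 * a0 - w ^ 3 * a3) * RR y z x +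
        (w * a0 - w ^ 4 * a3) * RR z x y := by
  unfold z0 z1 z2 z3
  ring

end HYP

open HYP in
theorem st_HYP : St_HYP := by
  intro x y z Za Zb hT
  have dx := hT.dx
  have dy := hT.dy
  have dz := hT.dz
  refine ⟨cnt (f := fun τ => Dn (x τ) (y τ) (z τ)) ?_ hT.dn, fun a0 a1 a2 a3 ha => ?_⟩
  · unfold Dn Fd
    fun_prop
  refine cnt (f := fun τ => a0 * z0 (x τ) (y τ) (z τ) + a1 * z1 (x τ) (y τ) (z τ) +
    a2 * z2 (x τ) (y τ) (z τ) + a3 * z3 (x τ) (y τ) (z τ)) ?_ ?_
  · simp only [form]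
    unfold Aa Ab RR
    fun_prop
  by_contra h
  push Not at h
  simp only [form] at h
  obtain ⟨h1, h2, h3, h4, -⟩ := hT.li _ _ _ _ _ (by linear_combination (a0 - w ^ 2 * a3) * hw) h
  have k1 : (2 + w : ℂ) ≠ 0 := fun k => by
    have : (3 : ℂ) = 0 := by linear_combination hw - (w - 1) * k
    norm_num at this
  have k2 : (w - 1 : ℂ) ≠ 0 := fun k => by
    have : (3 : ℂ) = 0 := by linear_combination hw - (w + 2) * k
    norm_num at this
  have e1 : a1 - a2 = 0 := by simpa [w_ne] using h1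
  have e2 : a1 + a2 = 0 := by simpa [k1] using h2
  have e3 : a3 = 0 := by
    have : (w - 1) * a3 = 0 := by linear_combination h4 - w ^ 2 * h3 - (w - 1) * a3 * w_cube
    simpa [k2] using this
  exact ha ⟨by linear_combination h3 + w ^ 2 * e3, by linear_combination (e1 + e2) / 2,
    by linear_combination (e2 - e1) / 2, e3⟩

end C37
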