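import Pool.Agent.Lib.C37.Kit

/-! The inversion formula for the weight one series. -/

open Complex Filter Topology Set MeasureTheory Asymptotics
open scoped Real ComplexConjugate

namespace C37

namespace INV

lemma norm_iv (a b : ZMod 37) : ‖(iv a b : ℂ)‖ ≤ 1 := by
  unfold iv; split_ifs <;> simp

lemma pbd {α : ℕ → ℕ → ℂ} (h : ∀ m n, ‖α m n‖ ≤ 2) : PBd α :=
  ⟨2, 0, fun m n _ _ => by simpa using h m n⟩

lemma Q_im (t : ℝ) (p : ℕ+ × ℕ+) :
    Q (t * I) ^ ((p.1 : ℕ) * (p.2 : ℕ)) = (RV6.ew (2 * t / 37) p : ℝ) := by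
  unfold Q RV6.ew
  rw [e_pow, e, ofReal_exp]
  congr 1
  push_cast
  linear_combination (2 * π * (p.1 : ℕ) * (p.2 : ℕ) * t / 37 : ℂ) * I_mul_I

lemma DS_eq (A B : ℕ+ → ℝ) (t : ℝ) : (RV6.DS A B (2 * t / 37) : ℂ) =
    ∑' p : ℕ+ × ℕ+, (A p.1 : ℂ) * B p.2 * Q (t * I) ^ ((p.1 : ℕ) * (p.2 : ℕ)) := by
  unfold RV6.DS
  rw [ofReal_tsum]
  exact tsum_congr fun p => by rw [Q_im]; push_cast; rfl

lemma psi_neg (a : ZMod 37) : ψ (-a) = (ψ a)⁻¹ := AddChar.map_neg_eq_inv _ _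

lemma psi_mul (b : ZMod 37) (n : ℕ) : ψ (b * n) = cexp ((2 * π * b.val * n / 37 : ℝ) * I) := by
  have h : b * n = ((b.val * n : ℕ) : ZMod 37) := by simp
  rw [h, psi_nat, e]
  congr 1
  push_cast
  ring

lemma two_cs (b : ZMod 37) (n : ℕ+) : ψ (b * (n : ℕ)) + ψ (-(b * (n : ℕ))) = 2 * (cs b n : ℝ) := by
  rw [psi_neg, psi_mul, ← exp_neg, cs, ofReal_cos, two_cos, neg_mul]

lemma two_sn (b : ZMod 37) (n : ℕ+) :
    ψ (b * (n : ℕ)) - ψ (-(b * (n : ℕ))) = 2 * (sn b n : ℝ) * I := by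
  rw [psi_neg, psi_mul, ← exp_neg, sn, ofReal_sin, two_sin, neg_mul]
  linear_combination (cexp ((2 * π * b.val * (n : ℕ) / 37 : ℝ) * I) -
    cexp (-((2 * π * b.val * (n : ℕ) / 37 : ℝ) * I))) * I_mul_I

lemma hc_zero {c : ZMod 37} (h : c ≠ 0) : -2 * hc 0 c = (ct c : ℝ) * I := by
  have h1 : ψ c = cexp ((π * c.val / 37 : ℝ) * I) ^ 2 := by
    rw [psi_eq, e, ← exp_nat_mul]; congr 1; push_cast; ring
  have h2 : 0 < c.val := Nat.pos_of_ne_zero fun e => h ((ZMod.val_eq_zero c).mp e)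
  have h3 : (c.val : ℝ) < 37 := by exact_mod_cast ZMod.val_lt c
  have h4 : Real.sin (π * c.val / 37) ≠ 0 := (Real.sin_pos_of_pos_of_lt_pi (by positivity)
    (by rw [div_lt_iff₀ (by norm_num)]; exact mul_lt_mul_of_pos_left h3 Real.pi_pos)).ne'
  rw [hc, if_pos rfl, h1, ct, exp_mul_I, ← ofReal_cos, ← ofReal_sin, ofReal_div]
  have h5 := congrArg ((↑) : ℝ → ℂ) (Real.sin_sq_add_cos_sq (π * c.val / 37))
  rw [ofReal_add, ofReal_pow, ofReal_pow, ofReal_one] at h5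
  have h6 : (Real.sin (π * c.val / 37) : ℂ) ≠ 0 := ofReal_ne_zero.mpr h4
  generalize (Real.sin (π * c.val / 37) : ℂ) = s at h5 h6
  generalize (Real.cos (π * c.val / 37) : ℂ) = k at h5
  have h7 : 1 - (k + s * I) ^ 2 = -2 * s * I * (k + s * I) := by
    linear_combination -h5 + s ^ 2 * I_mul_I
  have h8 : k + s * I ≠ 0 := fun e => by
    have : (k + s * I) * (k - s * I) = 1 := by linear_combination h5 - s ^ 2 * I_mul_I
    simp [e] at this
  rw [h7]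
  field_simp
  linear_combination (-k) * I_mul_I

lemma hc_neg {a : ZMod 37} (c : ZMod 37) (h : a ≠ 0) : hc (-a) c = -hc a c := by
  rw [hc, hc, if_neg h, if_neg (neg_ne_zero.mpr h), ZMod.neg_val, if_neg h,
    Nat.cast_sub (ZMod.val_lt a).le]
  push_cast
  ring

lemma sum_hc (b c : ZMod 37) : ∑ a, (ψ (a * b) + ψ (-(a * b))) * hc a c = 2 * hc 0 c := by
  have h1 := Equiv.sum_comp (Equiv.neg (ZMod 37)) fun a => (ψ (a * b) + ψ (-(a * b))) * hc a c
  have h2 : ∑ a, ((ψ (-a * b) + ψ (-(-a * b))) * hc (-a) c + (ψ (a * b) + ψ (-(a * b))) * hc a c) =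
      4 * hc 0 c := by
    rw [Finset.sum_eq_single 0]
    · have : ψ 0 = 1 := AddChar.map_zero_eq_one _
      simp only [neg_zero, zero_mul, this]; ring
    · intro a _ ha
      rw [hc_neg c ha, neg_mul, neg_neg]; ring
    · simp
  rw [Finset.sum_add_distrib] at h2
  simp only [Equiv.neg_apply] at h1
  linear_combination (h2 - h1) / 2

lemma sum_iv (f : ZMod 37 → ℂ) (m : ZMod 37) : ∑ a, f a * (iv m a : ℂ) = f m := by
  rw [Finset.sum_eq_single m] <;> simp +contextual [iv, eq_comm]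

lemma sum_iv' (f : ZMod 37 → ℂ) (m : ZMod 37) : ∑ a, f a * (iv m (-a) : ℂ) = f (-m) := by
  rw [← sum_iv f (-m)]
  exact Finset.sum_congr rfl fun a _ => by simp only [iv, neg_eq_iff_eq_neg]

lemma sum_hs (hSS : St_SS) (b c : ZMod 37) {s : ℝ} (hs0 : 0 < s) :
    ∑ a, (ψ (a * b) + ψ (-(a * b))) * hs a c (s * I) = 4 * I * (HH b c s : ℝ) := by
  have hU : (s * I : ℂ) ∈ UH := by simpa [UH] using hs0
  have h1 := hasSum_sum (s := Finset.univ) fun (a : ZMod 37) _ =>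
    ((hSS (fun m n => (iv m a : ℂ) * ψ (c * n) - (iv m (-a) : ℂ) * ψ (-(c * n)))
      (pbd fun m n => (norm_sub_le _ _).trans (by
        rw [norm_mul, norm_mul, norm_psi, norm_psi]
        linarith [norm_iv m a, norm_iv m (-a)]))).1 _ hU).mul_left (ψ (a * b) + ψ (-(a * b)))
  rw [HH, DS_eq, ← tsum_mul_left]
  refine h1.tsum_eq.symm.trans (tsum_congr fun p => ?_)
  have h2 := sum_iv (fun a => ψ (a * b) + ψ (-(a * b))) (p.1 : ℕ)
  have h3 := sum_iv' (fun a => ψ (a * b) + ψ (-(a * b))) (p.1 : ℕ)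
  simp only [neg_mul, neg_neg] at h3
  rw [mul_comm _ b] at h2 h3
  rw [add_comm (ψ (-(b * _)))] at h3
  rw [two_cs] at h2 h3
  have h4 := two_sn c p.2
  simp only [← mul_assoc, mul_sub, sub_mul]
  rw [Finset.sum_sub_distrib, ← Finset.sum_mul, ← Finset.sum_mul, ← Finset.sum_mul,
    ← Finset.sum_mul, h2, h3]
  linear_combination 2 * (cs b p.1 : ℂ) * Q (s * I) ^ ((p.1 : ℕ) * (p.2 : ℕ)) * h4

lemma es_add (hSS : St_SS) (b c : ZMod 37) {t : ℝ} (ht : 0 < t) :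
    es c b (t * I) + es c (-b) (t * I) = (PP b c t : ℝ) := by
  have hU : (t * I : ℂ) ∈ UH := by simpa [UH] using ht
  have h0 : ∀ d, PBd fun m n => (ea c d m n : ℂ) := fun d => pbd fun m n => by
    rw [ea, Int.cast_sub, Int.cast_mul, Int.cast_mul]
    refine (norm_sub_le _ _).trans ?_
    rw [norm_mul, norm_mul]
    linarith [mul_le_one₀ (norm_iv m c) (norm_nonneg _) (norm_iv n d),
      mul_le_one₀ (norm_iv m (-c)) (norm_nonneg _) (norm_iv n (-d))]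
  have h1 := ((hSS _ (h0 b)).1 _ hU).add ((hSS _ (h0 (-b))).1 _ hU)
  rw [PP, DS_eq, ← (Equiv.prodComm ℕ+ ℕ+).tsum_eq]
  refine h1.tsum_eq.symm.trans (tsum_congr fun p => ?_)
  simp only [ea, ir, neg_neg, Equiv.prodComm_apply, Prod.fst_swap, Prod.snd_swap]
  rw [mul_comm (p.2 : ℕ)]
  push_cast
  ring

lemma nz {c : ZMod 37} (h : c ≠ 0) : ¬ (37 : ℤ) ∣ (c.val : ℤ) := fun e =>
  h (by simpa using (ZMod.intCast_zmod_eq_zero_iff_dvd (c.val : ℤ) 37).mpr e)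

lemma hh_S (hHL : St_HL) (a : ZMod 37) {c : ZMod 37} (h : c ≠ 0) {τ : ℂ} (hτ : τ ∈ UH) :
    hh (a.val, c.val) (-1 / τ) = τ * hh (c.val, (-a).val) τ := by
  rw [hHL.1.hS _ (fun e => nz h e.2) τ hτ, pow_one]
  obtain ⟨k, hk⟩ : (37 : ℤ) ∣ ((-a).val : ℤ) + a.val :=
    (ZMod.intCast_zmod_eq_zero_iff_dvd _ 37).mp (by simp)
  rw [← hHL.1.per (c.val, -(a.val : ℤ)) (0, k) (fun e => nz h e.1) τ hτ]
  congr 2
  exact Prod.ext (by simp) (show -(a.val : ℤ) + 37 * k = (-a).val by rw [← hk]; ring)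

end INV

open INV in
theorem st_INV (hHL : St_HL) (hHX : St_HX) (hEE : St_EE) (hSS : St_SS) : St_INV := by
  intro b c hb hc0 t ht
  have hU : (t * I : ℂ) ∈ UH := by simpa [UH] using ht
  have ht' : (t : ℂ) ≠ 0 := ofReal_ne_zero.mpr ht.ne'
  have h0 : (-1 / (t * I) : ℂ) = (1 / t : ℝ) * I := by
    push_cast
    field_simp
    linear_combination -I_mul_I
  have h1 : ∑ a, (ψ (a * b) + ψ (-(a * b))) * hh (a.val, c.val) (-1 / (t * I)) =
      2 * hc 0 c - 4 * I * (HH b c (1 / t) : ℝ) := by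
    rw [← sum_hc b c, ← sum_hs hSS b c (one_div_pos.mpr ht), ← Finset.sum_sub_distrib]
    exact Finset.sum_congr rfl fun a _ => by
      rw [hHX a c (fun e => hc0 e.2) _ (inv_mem_UH hU), h0]; ring
  have h2 := hEE c b hc0 hb _ hU
  have h3 := hEE c (-b) hc0 (neg_ne_zero.mpr hb) _ hU
  have h4 := Equiv.sum_comp (Equiv.neg (ZMod 37))
    fun B => (ψ (-(B * b)) + ψ (-(B * -b))) * hh (c.val, B.val) (t * I)
  have h5 : ∑ a, (ψ (a * b) + ψ (-(a * b))) * hh (a.val, c.val) (-1 / (t * I)) =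
      t * I * ∑ B, (ψ (-(B * b)) + ψ (-(B * -b))) * hh (c.val, B.val) (t * I) := by
    rw [← h4, Finset.mul_sum]
    exact Finset.sum_congr rfl fun a _ => by
      rw [hh_S hHL a hc0 hU]
      simp only [Equiv.neg_apply, neg_mul, mul_neg, neg_neg]
      ring
  simp only [add_mul, Finset.sum_add_distrib] at h1 h5
  have h6 := es_add hSS b c ht
  have h7 := hc_zero hc0
  have h8 : I * ((HH b c (1 / t) + ct c / 4 : ℝ) : ℂ) = I * (37 / 4 * t * PP b c t : ℝ) := by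
    push_cast
    linear_combination (h1 - h5) / 4 - h7 / 4 + 37 / 4 * t * I * (h6 - h2 - h3)
  exact ofReal_injective (mul_left_cancel₀ I_ne_zero h8)

end C37
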