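import Pool.Agent.Lib.C37.Kit

/-! Jensen's formula for the Mahler measure. -/

open Complex Filter Topology Set MeasureTheory Asymptotics
open scoped Real ComplexConjugate

namespace C37

namespace JEN

lemma e_eq (c : ℝ) : e c = circleMap 0 1 (2 * π * c) := by
  simp only [circleMap, e]; push_cast; ring_nf

lemma norm_e_real (c : ℝ) : ‖e c‖ = 1 := by rw [norm_e]; simp

lemma cont_e : Continuous fun c : ℝ => e c := by unfold e; fun_prop

lemma lin (A : ℂ) : IntervalIntegrable (fun c : ℝ => Real.log ‖e c - A‖) volume 0 1 ∧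
    ∫ c in (0 : ℝ)..1, Real.log ‖e c - A‖ = Real.posLog ‖A‖ := by
  simp_rw [e_eq]
  refine ⟨?_, ?_⟩
  · have := (circleIntegrable_log_norm_sub_const (a := A) (c := 0) 1).comp_mul_left (c := 2 * π)
    simpa [Real.pi_pos.ne'] using this
  · rw [intervalIntegral.integral_comp_mul_left
      (fun θ => Real.log ‖circleMap 0 1 θ - A‖) Real.two_pi_pos.ne', mul_zero, mul_one,
      ← Real.circleAverage_def (f := fun z => Real.log ‖z - A‖),
      circleAverage_log_norm_sub_const_eq_posLog]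

lemma quad {A B : ℂ} (hA : 2 ≤ ‖A‖) (hB : ‖B‖ ≤ 1) :
    IntervalIntegrable (fun c : ℝ => Real.log ‖(e c - A) * (e c - B)‖) volume 0 1 ∧
    ∫ c in (0 : ℝ)..1, Real.log ‖(e c - A) * (e c - B)‖ = Real.log ‖A‖ := by
  have h1 : ∀ᵐ c : ℝ, Real.log ‖e c - A‖ + Real.log ‖e c - B‖ =
      Real.log ‖(e c - A) * (e c - B)‖ := by
    have h2 := ((countable_singleton B).preimage_circleMap 0 one_ne_zero).preimage_of_injOn
      (f := fun c : ℝ => 2 * π * c) (mul_right_injective₀ Real.two_pi_pos.ne').injOn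
    filter_upwards [h2.ae_notMem volume] with c hc
    rw [norm_mul, Real.log_mul (norm_ne_zero_iff.mpr (sub_ne_zero.mpr fun h => ?_))
      (norm_ne_zero_iff.mpr (sub_ne_zero.mpr fun h => hc ((e_eq c).symm.trans h)))]
    rw [← h, norm_e_real] at hA
    norm_num at hA
  refine ⟨((lin A).1.add (lin B).1).congr_ae (ae_restrict_of_ae h1), ?_⟩
  rw [← intervalIntegral.integral_congr_ae (h1.mono fun _ h _ => h),
    intervalIntegral.integral_add (lin A).1 (lin B).1, (lin A).2, (lin B).2,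
    Real.posLog_eq_log (by rw [abs_norm]; linarith),
    (Real.posLog_eq_zero_iff _).mpr (by rwa [abs_norm]), add_zero]

/-- the polynomial -/
def Pxy (x y : ℂ) : ℂ := y ^ 2 + 4 * x * y + y - x ^ 3 + x ^ 2

lemma log_le (a c : ℝ) : Real.log ‖Pxy (e a) (e c)‖ ≤ Real.log 8 := by
  have h : ‖Pxy (e a) (e c)‖ ≤ 8 := by
    have h1 := norm_e_real a
    have h2 := norm_e_real c
    have h3 := norm_add_le (e c ^ 2 + 4 * e a * e c + e c - e a ^ 3) (e a ^ 2)
    have h4 := norm_sub_le (e c ^ 2 + 4 * e a * e c + e c) (e a ^ 3)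
    have h5 := norm_add₃_le (a := e c ^ 2) (b := 4 * e a * e c) (c := e c)
    simp only [norm_pow, norm_mul, h1, h2, one_pow, mul_one, Complex.norm_ofNat] at h3 h4 h5
    unfold Pxy
    linarith
  rcases (norm_nonneg (Pxy (e a) (e c))).eq_or_lt with h0 | h0
  · rw [← h0, Real.log_zero]; exact Real.log_nonneg (by norm_num)
  · exact Real.log_le_log h0 h

variable {e1 e2 e3 : ℝ}

lemma fac (hSQ : St_SQ) (h : Cv e1 e2 e3 Ca) (x : ℂ) :
    ym e1 e2 e3 x * (-(4 * x + 1) - ym e1 e2 e3 x) = x ^ 2 * (1 - x) := by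
  have := (hSQ _ _ _ _ h).2.1 x
  unfold Ca at this
  unfold ym yy
  linear_combination (-1 / 4 : ℂ) * this

lemma sizes (hSQ : St_SQ) (h : Cv e1 e2 e3 Ca) {x : ℂ} (hx : ‖x‖ = 1) :
    ‖ym e1 e2 e3 x‖ * ‖-(4 * x + 1) - ym e1 e2 e3 x‖ ≤ 2 ∧
      3 ≤ ‖ym e1 e2 e3 x‖ + ‖-(4 * x + 1) - ym e1 e2 e3 x‖ := by
  constructor
  · rw [← norm_mul, fac hSQ h, norm_mul, norm_pow, hx]
    linarith [norm_sub_le 1 x, norm_one (α := ℂ)]
  · have h1 := norm_add_le (ym e1 e2 e3 x) (-(4 * x + 1) - ym e1 e2 e3 x)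
    have h2 := norm_sub_le (4 * x + 1) 1
    rw [add_sub_cancel, norm_neg] at h1
    rw [add_sub_cancel_right, norm_mul, hx, norm_one, Complex.norm_ofNat] at h2
    linarith

lemma cont (hSQ : St_SQ) (h : Cv e1 e2 e3 Ca) :
    ContinuousOn (fun a : ℝ => ym e1 e2 e3 (e a)) (Icc 0 (1 / 2)) := by
  have h1 : ContinuousOn (fun a : ℝ => s0 e1 e2 e3 (e a)) (Icc 0 (1 / 2)) :=
    (hSQ _ _ _ _ h).1.comp cont_e.continuousOn fun a ha => by
      have : (e a).im = Real.sin (2 * π * a) := by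
        rw [e_eq, circleMap, zero_add, ofReal_one, one_mul, exp_ofReal_mul_I_im]
      change 0 ≤ (e a).im
      rw [this]
      exact Real.sin_nonneg_of_nonneg_of_le_pi (by have := ha.1; positivity)
        (by nlinarith [ha.2, Real.pi_pos])
  have h2 := cont_e.continuousOn (s := Icc 0 (1 / 2))
  unfold ym yy
  fun_prop

lemma big (hSQ : St_SQ) (h : Cv e1 e2 e3 Ca) {a : ℝ} (ha : a ∈ Icc (0 : ℝ) (1 / 2)) :
    2 ≤ ‖ym e1 e2 e3 (e a)‖ ∧ ‖-(4 * e a + 1) - ym e1 e2 e3 (e a)‖ ≤ 1 := by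
  have h0 : 3 / 2 ≤ ‖ym e1 e2 e3 (e (0 : ℝ))‖ := by
    have h1 := (hSQ _ _ _ _ h).2.2.2.1 1 (by linarith [h.h0])
    have h2 := Real.sqrt_nonneg ((1 - e1) * (1 - e2) * (1 - e3))
    rw [ofReal_zero, e_zero]
    refine le_trans ?_ (abs_re_le_norm _)
    rw [ofReal_one] at h1
    rw [ym, yy, h1]
    generalize √((1 - e1) * (1 - e2) * (1 - e3)) = r at h2
    refine le_abs.mpr (Or.inr ?_)
    norm_num
    linarith
  have h1 : 3 / 2 < ‖ym e1 e2 e3 (e a)‖ := not_le.mp fun h2 => by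
    obtain ⟨b, -, hb⟩ := isPreconnected_Icc.intermediate_value ha (left_mem_Icc.mpr (by norm_num))
      (cont hSQ h).norm ⟨h2, h0⟩
    obtain ⟨h3, h4⟩ := sizes hSQ h (norm_e_real b)
    simp only at hb
    rw [hb] at h3 h4
    linarith
  obtain ⟨h3, h4⟩ := sizes hSQ h (norm_e_real a)
  have h5 : ‖-(4 * e a + 1) - ym e1 e2 e3 (e a)‖ ≤ 1 := by nlinarith
  exact ⟨by linarith, h5⟩

lemma inner_up (hSQ : St_SQ) (h : Cv e1 e2 e3 Ca) {a : ℝ} (ha : a ∈ Icc (0 : ℝ) (1 / 2)) :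
    IntervalIntegrable (fun c : ℝ => Real.log ‖Pxy (e a) (e c)‖) volume 0 1 ∧
    ∫ c in (0 : ℝ)..1, Real.log ‖Pxy (e a) (e c)‖ = Real.log ‖ym e1 e2 e3 (e a)‖ := by
  have h1 : ∀ y, Pxy (e a) y =
      (y - ym e1 e2 e3 (e a)) * (y - (-(4 * e a + 1) - ym e1 e2 e3 (e a))) := fun y => by
    unfold Pxy
    linear_combination -fac hSQ h (e a)
  simp_rw [h1]
  exact quad (big hSQ h ha).1 (big hSQ h ha).2

lemma inner_dn (hSQ : St_SQ) (h : Cv e1 e2 e3 Ca) {a : ℝ} (ha : a ∈ Icc (1 / 2 : ℝ) 1) :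
    IntervalIntegrable (fun c : ℝ => Real.log ‖Pxy (e a) (e c)‖) volume 0 1 ∧
    ∫ c in (0 : ℝ)..1, Real.log ‖Pxy (e a) (e c)‖ = Real.log ‖ym e1 e2 e3 (e (1 - a : ℝ))‖ := by
  have hb : 1 - a ∈ Icc (0 : ℝ) (1 / 2) := ⟨by linarith [ha.2], by linarith [ha.1]⟩
  have h0 : conj (e (1 - a : ℝ)) = e a := by
    rw [ofReal_sub, ofReal_one, sub_eq_add_neg, e_add, e_one, one_mul, e, e, ← exp_conj]
    simp [map_ofNat]
  have h2 := congrArg conj (fac hSQ h (e (1 - a : ℝ)))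
  have h1 : ∀ y, Pxy (e a) y = (y - conj (ym e1 e2 e3 (e (1 - a : ℝ)))) *
      (y - conj (-(4 * e (1 - a : ℝ) + 1) - ym e1 e2 e3 (e (1 - a : ℝ)))) := fun y => by
    simp only [map_mul, map_sub, map_neg, map_add, map_pow, map_one, map_ofNat, h0] at h2 ⊢
    unfold Pxy
    linear_combination -h2
  simp_rw [h1]
  rw [← RCLike.norm_conj (ym e1 e2 e3 _)]
  exact quad (by rw [RCLike.norm_conj]; exact (big hSQ h hb).1)
    (by rw [RCLike.norm_conj]; exact (big hSQ h hb).2)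

lemma fub (hSQ : St_SQ) (h : Cv e1 e2 e3 Ca) :
    mP = ∫ a in (0 : ℝ)..1, ∫ c in (0 : ℝ)..1, Real.log ‖Pxy (e a) (e c)‖ := by
  have h0 : ∀ a ∈ Icc (0 : ℝ) 1,
      IntegrableOn (fun c : ℝ => Real.log ‖Pxy (e a) (e c)‖) (Icc 0 1) ∧
      0 ≤ ∫ c in Icc (0 : ℝ) 1, Real.log ‖Pxy (e a) (e c)‖ := fun a ha => by
    rw [integral_Icc_eq_integral_Ioc, ← intervalIntegral.integral_of_le zero_le_one,
      ← intervalIntegrable_iff_integrableOn_Icc_of_le zero_le_one]
    rcases le_total a (1 / 2) with h1 | h1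
    · exact ⟨(inner_up hSQ h ⟨ha.1, h1⟩).1, (inner_up hSQ h ⟨ha.1, h1⟩).2 ▸
        Real.log_nonneg (by linarith [(big hSQ h ⟨ha.1, h1⟩).1])⟩
    · exact ⟨(inner_dn hSQ h ⟨h1, ha.2⟩).1, (inner_dn hSQ h ⟨h1, ha.2⟩).2 ▸ Real.log_nonneg
        (by linarith [(big hSQ h (a := 1 - a) ⟨by linarith [ha.2], by linarith⟩).1])⟩
  have hm : Measurable fun p : ℝ × ℝ => Real.log ‖Pxy (e p.1) (e p.2)‖ := by
    have h1 := cont_e.comp (continuous_fst (X := ℝ) (Y := ℝ))
    have h2 := cont_e.comp (continuous_snd (X := ℝ) (Y := ℝ))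
    exact Real.measurable_log.comp (((((h2.pow 2).add ((continuous_const.mul h1).mul h2)).add h2).sub
      (h1.pow 3)).add (h1.pow 2)).norm.measurable
  have hi : Integrable (fun p : ℝ × ℝ => Real.log ‖Pxy (e p.1) (e p.2)‖)
      ((volume.restrict (Icc 0 1)).prod (volume.restrict (Icc 0 1))) := by
    refine (integrable_prod_iff hm.aestronglyMeasurable).mpr
      ⟨(ae_restrict_mem measurableSet_Icc).mono fun a ha => (h0 a ha).1, ?_⟩
    refine (integrable_const (2 * Real.log 8)).mono'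
      hm.aestronglyMeasurable.norm.integral_prod_right'
      ((ae_restrict_mem measurableSet_Icc).mono fun a ha => ?_)
    rw [Real.norm_of_nonneg (integral_nonneg fun _ => norm_nonneg _)]
    have h8 : 0 ≤ Real.log 8 := Real.log_nonneg (by norm_num)
    have h1 := integral_mono (h0 a ha).1.norm ((integrable_const (2 * Real.log 8)).sub (h0 a ha).1)
      fun c => show ‖_‖ ≤ 2 * Real.log 8 - Real.log ‖Pxy (e a) (e c)‖ from
        abs_le.mpr ⟨by linarith, by linarith [log_le a c]⟩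
    simp only [Pi.sub_apply] at h1
    rw [integral_sub (integrable_const _) (h0 a ha).1] at h1
    simp only [integral_const, MeasurableSet.univ, measureReal_restrict_apply, univ_inter,
      Real.volume_real_Icc, sub_zero, smul_eq_mul] at h1
    norm_num at h1 ⊢
    linarith [(h0 a ha).2]
  have h2 := (measurePreserving_finTwoArrow (volume.restrict (Icc (0 : ℝ) 1))).integral_comp'
    fun p : ℝ × ℝ => Real.log ‖Pxy (e p.1) (e p.2)‖
  rw [integral_prod _ hi] at h2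
  simp only [intervalIntegral.integral_of_le zero_le_one, ← integral_Icc_eq_integral_Ioc]
  rw [← h2, mP, ← pi_univ_Icc, volume_pi, Measure.restrict_pi_pi]
  rfl

end JEN

open JEN in
theorem st_JEN (hSQ : St_SQ) : St_JEN := by
  intro e1 e2 e3 h
  have hc : ContinuousOn (fun a : ℝ => Real.log ‖ym e1 e2 e3 (e a)‖) (Icc 0 (1 / 2)) :=
    (cont hSQ h).norm.log fun a ha => by linarith [(big hSQ h ha).1]
  have hi := hc.intervalIntegrable_of_Icc (μ := volume) (by norm_num)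
  have hi' : IntervalIntegrable (fun a : ℝ => Real.log ‖ym e1 e2 e3 (e (1 - a : ℝ))‖) volume
      (1 / 2) 1 := by
    have := (hi.comp_sub_left 1).symm
    norm_num at this ⊢
    exact this
  have u1 : EqOn (fun a : ℝ => Real.log ‖ym e1 e2 e3 (e a)‖)
      (fun a : ℝ => ∫ c in (0 : ℝ)..1, Real.log ‖Pxy (e a) (e c)‖) (uIcc 0 (1 / 2)) := fun a ha =>
    (inner_up hSQ h (by rwa [uIcc_of_le (by norm_num)] at ha)).2.symm
  have u2 : EqOn (fun a : ℝ => Real.log ‖ym e1 e2 e3 (e (1 - a : ℝ))‖)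
      (fun a : ℝ => ∫ c in (0 : ℝ)..1, Real.log ‖Pxy (e a) (e c)‖) (uIcc (1 / 2) 1) := fun a ha =>
    (inner_dn hSQ h (by rwa [uIcc_of_le (by norm_num)] at ha)).2.symm
  have h1 : mP = 2 * ∫ a in (0 : ℝ)..(1 / 2), Real.log ‖ym e1 e2 e3 (e a)‖ := by
    rw [fub hSQ h, ← intervalIntegral.integral_add_adjacent_intervals
      (hi.congr (u1.mono uIoc_subset_uIcc)) (hi'.congr (u2.mono uIoc_subset_uIcc)),
      ← intervalIntegral.integral_congr u1, ← intervalIntegral.integral_congr u2,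
      intervalIntegral.integral_comp_sub_left (fun a : ℝ => Real.log ‖ym e1 e2 e3 (e a)‖) 1]
    norm_num
    ring
  refine ⟨?_, ?_⟩
  · have h2 := intervalIntegral.integral_comp_mul_left (a := 0) (b := 1 / 2)
      (fun θ : ℝ => Real.log ‖ym e1 e2 e3 (cexp (θ * I))‖) Real.two_pi_pos.ne'
    have h3 : ∀ a : ℝ, cexp (((2 * π * a : ℝ) : ℂ) * I) = e a := fun a => by
      unfold e; congr 1; push_cast; ring
    simp only [h3] at h2
    rw [h1, h2, mm, mul_zero, show 2 * π * (1 / 2) = π by ring, smul_eq_mul]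
    generalize (∫ θ in (0 : ℝ)..π, Real.log ‖ym e1 e2 e3 (cexp (θ * I))‖) = J
    field_simp
  · rw [h1]
    exact mul_pos two_pos (intervalIntegral.intervalIntegral_pos_of_pos_on hi
      (fun a ha => Real.log_pos (by linarith [(big hSQ h (Ioo_subset_Icc_self ha)).1]))
      (by norm_num))

end C37
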