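import Pool.Agent.Lib.C37.Kit

/-! Block KEY: the cubic symmetry of the two units. -/

open Complex

namespace C37

namespace KEY

lemma nz2 {v : ℤ × ℤ} (h : NZ v) : NZ ((2 : ℤ) • v) := by
  rintro ⟨h1, h2⟩
  simp only [Prod.smul_fst, Prod.smul_snd, smul_eq_mul] at h1 h2
  exact h ⟨by omega, by omega⟩

lemma shift {F : ℤ × ℤ → ℂ → ℂ} (h : Law 0 F) {a : ℤ} (ha : ¬ (37 : ℤ) ∣ a) (n : ℕ) :
    ∀ (b : ℤ), ∀ τ ∈ UH, F (a, b) (τ + n) = F (a, n * a + b) τ := by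
  induction n with
  | zero => intro b τ _; simp
  | succ n ih =>
    intro b τ hτ
    rw [Nat.cast_succ, ← add_assoc, h.hT (a, b) (fun k => ha k.1) _ (add_mem_UH hτ (by simp)),
      ih _ τ hτ]
    congr 2
    push_cast
    ring

lemma move {F : ℤ × ℤ → ℂ → ℂ} (h : Law 0 F) {τ : ℂ} (hτ : τ ∈ UH) :
    F (1, 0) (3 - 1 / τ) = F ((2 : ℤ) • (2 : ℤ) • (8 : ℤ) ^ 8 • (1, 0)) (τ + 12) := by
  have h1 := shift h (a := 1) (by norm_num) 3 0 _ (inv_mem_UH hτ)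
  have h2 := h.hS (1, 3) (fun k => by simp at k) τ hτ
  have h3 := h.per (3, -1) (0, 1) (fun k => by simp at k) τ hτ
  have h4 := shift h (a := 3) (by norm_num) 12 0 τ hτ
  have h5 := h.per (3, 0) (1813753, 0) (fun k => by simp at k) _
    (add_mem_UH hτ (c := 12) (by simp))
  norm_num at h1 h2 h3 h4 h5 ⊢
  rw [h5, h4, h3, ← h2, ← h1]
  congr 1
  ring

lemma four (hUV : St_UV) {v : ℤ × ℤ} (h : NZ v) {τ : ℂ} (hτ : τ ∈ UH) :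
    UU ((2 : ℤ) • (2 : ℤ) • v) τ = 1 / VV v τ ∧ VV ((2 : ℤ) • (2 : ℤ) • v) τ = UU v τ / VV v τ := by
  obtain ⟨a1, a2, a3, a4⟩ := (hUV.2.2 v h).2.2 τ hτ
  obtain ⟨-, -, b3, b4⟩ := (hUV.2.2 _ (nz2 h)).2.2 τ hτ
  rw [b3, b4, a3, a4]
  constructor <;> field_simp

lemma eight (hUV : St_UV) {v : ℤ × ℤ} (h : NZ v) {τ : ℂ} (hτ : τ ∈ UH) (k : ℕ) :
    NZ ((8 : ℤ) ^ k • v) ∧ UU ((8 : ℤ) ^ k • v) τ = UU v τ ∧ VV ((8 : ℤ) ^ k • v) τ = VV v τ := by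
  induction k with
  | zero => simpa using h
  | succ k ih =>
    obtain ⟨i1, i2, i3⟩ := ih
    have e : (8 : ℤ) ^ (k + 1) • v = (2 : ℤ) • (2 : ℤ) • (2 : ℤ) • (8 : ℤ) ^ k • v := by
      simp only [smul_smul]; congr 1; ring
    obtain ⟨a1, a2, a3, a4⟩ := (hUV.2.2 _ i1).2.2 τ hτ
    obtain ⟨b1, b2⟩ := four hUV (nz2 i1) hτ
    rw [e, b1, b2, a3, a4, ← i2, ← i3]
    refine ⟨nz2 (nz2 (nz2 i1)), ?_, ?_⟩ <;> field_simp

end KEY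

open KEY in
theorem st_KEY (hUV : St_UV) (hGS : St_GS) : St_KEY := by
  intro τ hτ
  have h12 : τ + 12 ∈ UH := add_mem_UH hτ (by simp)
  obtain ⟨a1, a2⟩ := hGS _ (key_mem_UH hτ)
  obtain ⟨b1, b2⟩ := hGS _ h12
  obtain ⟨c1, c2, c3⟩ := eight hUV (v := (1, 0)) (fun k => by simp at k) h12 8
  obtain ⟨d1, d2⟩ := four hUV c1 h12
  rw [← a1, ← a2, move hUV.1 hτ, move hUV.2.1 hτ, d1, d2, c2, c3, b1, b2]
  exact ⟨rfl, rfl⟩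

end C37
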