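import Pool.Agent.Lib.C37.Kit

/-! Block KL: transformation laws of the Klein forms. -/

open Complex Filter Topology Set
open scoped Real

namespace C37

namespace KL

lemma th_int (hTH : St_TH) {τ : ℂ} (h : τ ∈ UH) (z : ℂ) (n : ℤ) :
    Th (z + n) τ = e (n / 2) * Th z τ := by
  have h1 := (hTH τ h).2.1
  induction n using Int.induction_on with
  | zero => simp [e_zero]
  | succ n ih =>
    have e1 : z + ((n + 1 : ℤ) : ℂ) = z + ((n : ℤ) : ℂ) + 1 := by push_cast; ring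
    have e2 : ((n + 1 : ℤ) : ℂ) / 2 = ((n : ℤ) : ℂ) / 2 + 1 / 2 := by push_cast; ring
    rw [e1, h1, ih, e2, e_add, e_half]; ring
  | pred n ih =>
    have e1 : z + ((-(n : ℤ) : ℤ) : ℂ) = z + ((-(n : ℤ) - 1 : ℤ) : ℂ) + 1 := by push_cast; ring
    have e2 : ((-(n : ℤ) : ℤ) : ℂ) / 2 = ((-(n : ℤ) - 1 : ℤ) : ℂ) / 2 + 1 / 2 := by
      push_cast; ring
    rw [e1, h1, e2, e_add, e_half] at ih
    linear_combination -ih

lemma th_tau (hTH : St_TH) {τ : ℂ} (h : τ ∈ UH) (z : ℂ) (m : ℤ) :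
    Th (z + m * τ) τ = e (m / 2 - m ^ 2 * τ / 2 - m * z) * Th z τ := by
  have h1 : ∀ z, Th (z + τ) τ = e (1 / 2 + (-τ / 2 - z)) * Th z τ := fun z => by
    rw [(hTH τ h).2.2.1, e_add, e_half]; ring
  induction m using Int.induction_on with
  | zero => simp [e_zero]
  | succ n ih =>
    have e1 : z + ((n + 1 : ℤ) : ℂ) * τ = z + ((n : ℤ) : ℂ) * τ + τ := by push_cast; ring
    rw [e1, h1, ih, ← mul_assoc, ← e_add]
    congr 2
    push_cast; ring
  | pred n ih =>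
    have e1 : z + ((-(n : ℤ) : ℤ) : ℂ) * τ = z + ((-(n : ℤ) - 1 : ℤ) : ℂ) * τ + τ := by
      push_cast; ring
    rw [e1, h1] at ih
    refine mul_left_cancel₀ (e_ne (1 / 2 + (-τ / 2 - (z + ((-(n : ℤ) - 1 : ℤ) : ℂ) * τ)))) ?_
    rw [ih, ← mul_assoc, ← e_add, ← e_add_int _ (1 : ℤ)]
    have e2 : ((-(n : ℤ) : ℤ) : ℂ) / 2 - ((-(n : ℤ) : ℤ) : ℂ) ^ 2 * τ / 2 - ((-(n : ℤ) : ℤ) : ℂ) * z =
        1 / 2 + (-τ / 2 - (z + ((-(n : ℤ) - 1 : ℤ) : ℂ) * τ)) +
          (((-(n : ℤ) - 1 : ℤ) : ℂ) / 2 - ((-(n : ℤ) - 1 : ℤ) : ℂ) ^ 2 * τ / 2 -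
            ((-(n : ℤ) - 1 : ℤ) : ℂ) * z) := by
      push_cast; ring
    rw [e2, e_add_int]

lemma diff (hPO : St_PO) (v : ℤ × ℤ) : DifferentiableOn ℂ (kk v) UH := by
  have hz : Differentiable ℂ (zv v) := by unfold zv; fun_prop
  have h1 : DifferentiableOn ℂ (fun τ => RV6.poch (e (zv v τ)) (e τ)) UH :=
    hPO UH (fun τ => e (zv v τ)) e isOpen_UH (by fun_prop) (by fun_prop) fun _ h => norm_e_lt h
  have h2 : DifferentiableOn ℂ (fun τ => RV6.poch (e τ / e (zv v τ)) (e τ)) UH := by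
    refine hPO UH (fun τ => e τ / e (zv v τ)) e isOpen_UH ?_ (by fun_prop) fun _ h => norm_e_lt h
    exact DifferentiableOn.div (by fun_prop) (by fun_prop) fun _ _ => e_ne _
  have h3 : DifferentiableOn ℂ (fun τ => e (v.1 * zv v τ / 74)) UH := by fun_prop
  have h4 : DifferentiableOn ℂ (fun τ => e (-zv v τ / 2)) UH := by fun_prop
  exact h3.mul (h4.mul (h1.mul h2))

end KL

theorem st_KL (hPO : St_PO) (hTH : St_TH) (hTHS : St_THS) : St_KL := by
  refine ⟨KL.diff hPO, fun τ h => ⟨fun v u => ?_, fun v => ?_, fun v => ?_, ?_, fun v hv h0 => ?_⟩⟩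
  · have e1 : zv (v + (37 : ℤ) • u) τ = zv v τ + u.1 * τ + u.2 := by
      simp only [zv, Prod.fst_add, Prod.snd_add, Prod.smul_fst, Prod.smul_snd, smul_eq_mul]
      push_cast; ring
    unfold kk
    rw [e1, KL.th_int hTH h, KL.th_tau hTH h, ← mul_assoc, ← mul_assoc, ← mul_assoc, ← e_add,
      ← e_add, ← e_add]
    congr 2
    simp only [zv, Prod.fst_add, Prod.smul_fst, smul_eq_mul]
    push_cast; ring
  · have e1 : zv (-v) τ = -zv v τ := by
      simp only [zv, Prod.fst_neg, Prod.snd_neg]; push_cast; ring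
    unfold kk
    rw [e1, (hTH τ h).2.2.2.1]
    have e2 : (((-v).1 : ℤ) : ℂ) * -zv v τ / 74 = v.1 * zv v τ / 74 := by
      simp only [Prod.fst_neg]; push_cast; ring
    rw [e2]; ring
  · have e1 : zv v (τ + 1) = zv (v.1, v.1 + v.2) τ := by
      simp only [zv]; push_cast; ring
    unfold kk
    rw [e1, (hTH τ h).2.2.2.2.1]
  · obtain ⟨c, hc, hS⟩ := hTHS τ h
    refine ⟨c, hc, fun v => ?_⟩
    have h0 := ne_of_UH h
    have e1 : zv v (-1 / τ) = zv (v.2, -v.1) τ / τ := by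
      simp only [zv]; push_cast; field_simp; ring
    have e2 : e (v.1 * (zv (v.2, -v.1) τ / τ) / 74) * e (zv (v.2, -v.1) τ ^ 2 / (2 * τ)) =
        e (v.2 * zv (v.2, -v.1) τ / 74) := by
      rw [← e_add]
      congr 1
      simp only [zv]; push_cast; field_simp; ring
    unfold kk
    rw [e1, hS, ← e2]
    ring
  · obtain ⟨m, n, hmn⟩ := ((hTH τ h).2.2.2.2.2 _).1 ((mul_eq_zero.1 h0).resolve_left (e_ne _))
    have e1 : ((v.1 - 37 * m : ℤ) : ℂ) * τ = ((37 * n - v.2 : ℤ) : ℂ) := by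
      unfold zv at hmn
      push_cast
      linear_combination 37 * hmn
    have e2 := congrArg Complex.im e1
    have ht : 0 < τ.im := h
    rw [mul_im, intCast_re, intCast_im, intCast_im, zero_mul, add_zero] at e2
    have e3 : v.1 - 37 * m = 0 := by
      have := (mul_eq_zero.1 e2).resolve_right ht.ne'
      exact_mod_cast this
    rw [e3, Int.cast_zero, zero_mul] at e1
    have e4 : 37 * n - v.2 = 0 := by exact_mod_cast e1.symm
    exact hv ⟨⟨m, by omega⟩, ⟨n, by omega⟩⟩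

end C37
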