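import Pool.Agent.Lib.C37.Kit

/-! Local analyticity along a triple and the two differentials of the first kind. -/

open Complex Filter Topology Set MeasureTheory Asymptotics
open scoped Real ComplexConjugate
open Pool.Agent.Lib.MP_15b3df_nt

namespace C37

namespace LA1

variable {x y z P R : ℂ → ℂ} {τ : ℂ}

lemma an_RR (hx : AnalyticAt ℂ x τ) (hy : AnalyticAt ℂ y τ) (hz : AnalyticAt ℂ z τ) :
    AnalyticAt ℂ (fun σ => RR (x σ) (y σ) (z σ)) τ := by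
  unfold RR; fun_prop

lemma an_Aa (hx : AnalyticAt ℂ x τ) (hy : AnalyticAt ℂ y τ) (hz : AnalyticAt ℂ z τ) :
    AnalyticAt ℂ (fun σ => Aa (x σ) (y σ) (z σ)) τ := by
  unfold Aa; fun_prop

lemma an_Ab (hx : AnalyticAt ℂ x τ) (hy : AnalyticAt ℂ y τ) (hz : AnalyticAt ℂ z τ) :
    AnalyticAt ℂ (fun σ => Ab (x σ) (y σ) (z σ)) τ := by
  unfold Ab; fun_prop

lemma an_Fd (hx : AnalyticAt ℂ x τ) (hy : AnalyticAt ℂ y τ) (hz : AnalyticAt ℂ z τ) :
    AnalyticAt ℂ (fun σ => Fd (x σ) (y σ) (z σ)) τ := by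
  unfold Fd; fun_prop

lemma an_Dn (hx : AnalyticAt ℂ x τ) (hy : AnalyticAt ℂ y τ) (hz : AnalyticAt ℂ z τ) :
    AnalyticAt ℂ (fun σ => Dn (x σ) (y σ) (z σ)) τ := by
  have h1 := an_Fd hx hy hz
  have h2 := an_Fd hy hz hx
  have h3 := an_Fd hz hx hy
  unfold Dn
  exact ((hz.mul h2).add (hx.mul h3)).add (hy.mul h1)

lemma an_z0 (hx : AnalyticAt ℂ x τ) (hy : AnalyticAt ℂ y τ) (hz : AnalyticAt ℂ z τ) :
    AnalyticAt ℂ (fun σ => z0 (x σ) (y σ) (z σ)) τ := by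
  have h1 := an_RR hx hy hz
  have h2 := an_RR hy hz hx
  have h3 := an_RR hz hx hy
  unfold z0
  exact (h1.add (analyticAt_const.mul h2)).add (analyticAt_const.mul h3)

lemma an_z1 (hx : AnalyticAt ℂ x τ) (hy : AnalyticAt ℂ y τ) (hz : AnalyticAt ℂ z τ) :
    AnalyticAt ℂ (fun σ => z1 (x σ) (y σ) (z σ)) τ := by
  have h1 := an_Aa hx hy hz
  have h2 := an_Ab hx hy hz
  unfold z1
  exact ((analyticAt_const.mul h2).add (analyticAt_const.mul h1)).div analyticAt_const two_ne_zero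

lemma an_z2 (hx : AnalyticAt ℂ x τ) (hy : AnalyticAt ℂ y τ) (hz : AnalyticAt ℂ z τ) :
    AnalyticAt ℂ (fun σ => z2 (x σ) (y σ) (z σ)) τ := by
  have h1 := an_Aa hx hy hz
  have h2 := an_Ab hx hy hz
  unfold z2
  exact ((analyticAt_const.mul h2).sub (analyticAt_const.mul h1)).div analyticAt_const two_ne_zero

lemma an_xE (hP : AnalyticAt ℂ P τ) (hR : AnalyticAt ℂ R τ) (h : P τ + R τ ≠ 0) :
    AnalyticAt ℂ (fun σ => xE (P σ) (R σ)) τ := by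
  unfold xE
  exact AnalyticAt.div (f := fun σ => -3 * P σ * R σ) (g := fun σ => (P σ + R σ) ^ 2)
    (by fun_prop) (by fun_prop) (pow_ne_zero _ h)

lemma an_yE (hP : AnalyticAt ℂ P τ) (hR : AnalyticAt ℂ R τ) (h : P τ + R τ ≠ 0) :
    AnalyticAt ℂ (fun σ => yE (P σ) (R σ)) τ := by
  unfold yE
  exact AnalyticAt.div
    (f := fun σ => -7 - 3 * w + 3 * P σ ^ 2 * R σ - 6 * P σ * R σ ^ 2 - R σ ^ 3)
    (g := fun σ => (P σ + R σ) ^ 3) (by fun_prop) (by fun_prop) (pow_ne_zero _ h)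

lemma an_LB (i : ℕ) (hP : AnalyticAt ℂ P τ) (hR : AnalyticAt ℂ R τ) :
    AnalyticAt ℂ (fun σ => LB i (P σ) (R σ)) τ := by
  unfold LB; fun_prop

lemma LB_ne {p r : ℂ} (h1 : p ^ 3 ≠ 1) (h2 : r ^ 3 ≠ -1) : LB 2 p r ≠ 0 := by
  unfold LB
  refine mul_ne_zero (fun h => h1 ?_) (fun h => h2 ?_)
  · rw [sub_eq_zero.mp h]
    linear_combination (w ^ 3 + 1) * w_cube
  · rw [eq_neg_of_add_eq_zero_left h]
    linear_combination -(w ^ 3 + 1) * w_cube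

lemma an_XB (hP : AnalyticAt ℂ P τ) (hR : AnalyticAt ℂ R τ) (h : LB 2 (P τ) (R τ) ≠ 0) :
    AnalyticAt ℂ (fun σ => XB (P σ) (R σ)) τ := by
  unfold XB
  exact (analyticAt_const.mul (an_LB 0 hP hR)).div (an_LB 2 hP hR) h

lemma an_yB (hP : AnalyticAt ℂ P τ) (hR : AnalyticAt ℂ R τ) (h : LB 2 (P τ) (R τ) ≠ 0) :
    AnalyticAt ℂ (fun σ => yB (P σ) (R σ)) τ := by
  unfold yB
  exact ((an_LB 0 hP hR).mul (an_LB 1 hP hR)).div ((an_LB 2 hP hR).pow 2) (pow_ne_zero _ h)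

end LA1

open LA1

theorem st_LA1 (hAG1 : St_AG1) (hAG2 : St_AG2) (hAD : St_AD) : St_LA1 := by
  intro x y z Za Zb T τ hτ
  obtain ⟨hU, hD, h0, hPh, hp3, hr3, hg, e0, e1, e2, e3, hSA, hSB⟩ := hτ
  have hUn : UH ∈ 𝓝 τ := isOpen_UH.mem_nhds hU
  have hx : AnalyticAt ℂ x τ := T.dx.analyticAt hUn
  have hy : AnalyticAt ℂ y τ := T.dy.analyticAt hUn
  have hz : AnalyticAt ℂ z τ := T.dz.analyticAt hUn
  have aD := an_Dn hx hy hz
  have a0 := an_z0 hx hy hz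
  have aP : AnalyticAt ℂ (fun σ => pp (x σ) (y σ) (z σ)) τ := (an_z1 hx hy hz).div a0 h0
  have aR : AnalyticAt ℂ (fun σ => rr (x σ) (y σ) (z σ)) τ := (an_z2 hx hy hz).div a0 h0
  have hL := LB_ne hp3 hr3
  have axE := an_xE aP aR hg
  have ayE := an_yE aP aR hg
  have aXB := an_XB aP aR hL
  have ayB := an_yB aP aR hL
  have aXA : AnalyticAt ℂ (fun σ => XA (pp (x σ) (y σ) (z σ)) (rr (x σ) (y σ) (z σ))) τ :=
    axE.sub analyticAt_const
  have aSA : AnalyticAt ℂ (fun σ => SA (pp (x σ) (y σ) (z σ)) (rr (x σ) (y σ) (z σ))) τ :=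
    (analyticAt_const.mul ayE).add analyticAt_const
  have aSB : AnalyticAt ℂ (fun σ => SB (pp (x σ) (y σ) (z σ)) (rr (x σ) (y σ) (z σ))) τ :=
    ((analyticAt_const.mul ayB).add (analyticAt_const.mul aXB)).add analyticAt_const
  have hF : ∀ᶠ σ in 𝓝 τ, Fs (x σ) (y σ) (z σ) = 0 := by
    filter_upwards [hUn] with σ hσ using T.hF σ hσ
  obtain ⟨ν, dP, dR, hA, hB⟩ := hAG2 x y z τ _ _ _ hx.differentiableAt.hasDerivAt
    hy.differentiableAt.hasDerivAt hz.differentiableAt.hasDerivAt hF (T.nz τ hU) hD h0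
  obtain ⟨dA, dB⟩ := (hAD _ _ hPh).2.2 (cp (fun p _ => p) x y z) (cp (fun _ r => r) x y z) τ ν
    rfl rfl dP dR
  have hZa : deriv Za τ = 9 * ν * (pp (x τ) (y τ) (z τ) - rr (x τ) (y τ) (z τ)) :=
    mul_right_cancel₀ hD ((T.ha τ hU).trans hA)
  have hZb : deriv Zb τ = 3 * (1 + 2 * w) * ν * (pp (x τ) (y τ) (z τ) + rr (x τ) (y τ) (z τ)) :=
    mul_right_cancel₀ hD ((T.hb τ hU).trans hB)
  refine ⟨?_, aP, aR, aXA, aSA, aXB, aSB, ?_, ?_⟩
  · filter_upwards [hUn, aD.continuousAt.eventually_ne hD, a0.continuousAt.eventually_ne h0,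
      (aP.pow 3).continuousAt.eventually_ne hp3, (aR.pow 3).continuousAt.eventually_ne hr3,
      (aP.add aR).continuousAt.eventually_ne hg, axE.continuousAt.eventually_ne e0,
      axE.continuousAt.eventually_ne e1, axE.continuousAt.eventually_ne e2,
      axE.continuousAt.eventually_ne e3, aSA.continuousAt.eventually_ne hSA,
      aSB.continuousAt.eventually_ne hSB] with σ k0 k1 k2 k3 k4 k5 k6 k7 k8 k9 k10 k11
    exact ⟨k0, k1, k2, (hAG1 _ _ _ (T.hF σ k0) k2).1, k3, k4, k5, k6, k7, k8, k9, k10, k11⟩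
  · rw [hZa]; exact (dA hg).deriv
  · rw [hZb]; exact (dB hp3 hr3).deriv

end C37
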