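import Pool.Agent.Lib.C37.Kit

/-! Block LA2: the local primitive along a triple. -/

open Complex Filter Topology Set

namespace C37

namespace LA2

lemma cyc_eq {x y z c0 c1 c2 : ℂ → ℂ} {τ : ℂ} (dx : DifferentiableAt ℂ x τ)
    (dy : DifferentiableAt ℂ y τ) (dz : DifferentiableAt ℂ z τ) (d1 : DifferentiableAt ℂ c1 τ)
    (nx : x τ ≠ 0) (ny : y τ ≠ 0) (nz : z τ ≠ 0) (n1 : c1 τ ≠ 0)
    (h0 : ∀ᶠ σ in 𝓝 τ, c1 σ * w * z σ = c0 σ * x σ)
    (h2 : ∀ᶠ σ in 𝓝 τ, c1 σ * w ^ 2 * y σ = c2 σ * x σ) :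
    cyc c0 c1 c2 τ = cyc x y z τ := by
  have hx := dx.continuousAt.eventually_ne nx
  set K : ℂ → ℂ := fun σ => c1 σ / x σ with hK
  have dK : DifferentiableAt ℂ K τ := d1.div dx nx
  have nK : K τ ≠ 0 := div_ne_zero n1 nx
  have e0 : c0 =ᶠ[𝓝 τ] fun σ => w * (K σ * z σ) := by
    filter_upwards [h0, hx] with σ h1 h3
    simp only [hK]; field_simp; linear_combination -h1
  have e1 : c1 =ᶠ[𝓝 τ] fun σ => K σ * x σ := by
    filter_upwards [hx] with σ h3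
    simp only [hK]; field_simp
  have e2 : c2 =ᶠ[𝓝 τ] fun σ => w ^ 2 * (K σ * y σ) := by
    filter_upwards [h2, hx] with σ h1 h3
    simp only [hK]; field_simp; linear_combination -h1
  have l0 : LL c0 τ = LL K τ + LL z τ := by
    rw [LL_congr e0, LL_cmul norm_w, LL_mul dK dz nK nz]
  have l1 : LL c1 τ = LL K τ + LL x τ := by rw [LL_congr e1, LL_mul dK dx nK nx]
  have l2 : LL c2 τ = LL K τ + LL y τ := by
    rw [LL_congr e2, LL_cmul (by rw [norm_pow, norm_w, one_pow]), LL_mul dK dy nK ny]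
  simp only [cyc, eta, l0, l1, l2, wd, Prod.fst_add, Prod.snd_add]
  push_cast; ring

lemma den_ne {p : ℂ} (h : p ^ 3 ≠ 1) : p - w ^ 1 ≠ 0 := fun h0 => h (by
  rw [sub_eq_zero.mp h0, pow_one, w_cube])

lemma num_ne {r : ℂ} (h : r ^ 3 ≠ -1) : r + w ^ (1 + 2) ≠ 0 := fun h0 => h (by
  rw [show 1 + 2 = 3 from rfl, w_cube] at h0
  rw [eq_neg_of_add_eq_zero_left h0]; norm_num)

end LA2

theorem st_LA2 (hLA1 : St_LA1) (hAG1 : St_AG1) (hAD : St_AD) (hAA : St_AA) (hAE : St_AE) :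
    St_LA2 := by
  obtain ⟨ΨA, hA⟩ := hAA
  obtain ⟨ΨE, hE⟩ := hAE
  refine ⟨fun p r => ΨA p r - (2 / 7 : ℝ) * ΨE (xE p r) (yE p r), ?_⟩
  intro x y z Za Zb hT τ hτ
  obtain ⟨hn, aP, aR, aXA, aSA, -, -, -, -⟩ := hLA1 x y z Za Zb hT τ hτ
  set P : ℂ → ℂ := cp (fun p _ => p) x y z with hP
  set R : ℂ → ℂ := cp (fun _ r => r) x y z with hR
  have hG : ∀ σ ∈ GT x y z, Good (P σ) (R σ) := fun σ hσ => hσ.2.2.2
  have hU : UH ∈ 𝓝 τ := isOpen_UH.mem_nhds hτ.1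
  have ax : AnalyticAt ℂ (fun σ => xE (P σ) (R σ)) τ := by
    have : (fun σ => xE (P σ) (R σ)) = fun σ => cp XA x y z σ + 1 := by
      funext σ; simp only [hP, hR, cp, XA]; ring
    rw [this]; exact aXA.add analyticAt_const
  have ay : AnalyticAt ℂ (fun σ => yE (P σ) (R σ)) τ := by
    have : (fun σ => yE (P σ) (R σ)) = fun σ => (1 / 2 : ℂ) * (cp SA x y z σ - 1) := by
      funext σ; simp only [hP, hR, cp, SA]; ring
    rw [this]; exact analyticAt_const.mul (aSA.sub analyticAt_const)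
  obtain ⟨-, g1, g2, -, g4, g5, g6, g7, -, -⟩ := hG τ hτ
  have h1 := hA P R τ aP aR (by filter_upwards [hn] with σ hσ using (hG σ hσ).1) (hG τ hτ)
  have h2 := hE _ _ τ ax ay (by
    filter_upwards [hn] with σ hσ
    exact ((hAD _ _ (hG σ hσ).1).1 (hG σ hσ).2.2.2.1).1) g4 g5 g6 g7
  have hc : cyc (fun σ => cc 0 (P σ) (R σ)) (fun σ => cc 1 (P σ) (R σ))
      (fun σ => cc 2 (P σ) (R σ)) τ = cyc x y z τ := by
    refine LA2.cyc_eq (hT.dx.differentiableAt hU) (hT.dy.differentiableAt hU)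
      (hT.dz.differentiableAt hU) ?_ (hT.nx τ hτ.1) (hT.ny τ hτ.1) (hT.nz τ hτ.1)
      (div_ne_zero (pow_ne_zero _ (LA2.num_ne g2)) (LA2.den_ne g1)) ?_ ?_
    · exact ((aR.differentiableAt.add_const _).pow 2).div (aP.differentiableAt.sub_const _)
        (LA2.den_ne g1)
    · filter_upwards [hn] with σ hσ
      exact ((hAG1 _ _ _ (hT.hF σ hσ.1) hσ.2.2.1).2.2 (hG σ hσ).2.1).1
    · filter_upwards [hn] with σ hσ
      exact ((hAG1 _ _ _ (hT.hF σ hσ.1) hσ.2.2.1).2.2 (hG σ hσ).2.1).2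
  have eA : (fun ρ => yy (cp XA x y z ρ) (cp SA x y z ρ)) =
      fun σ => yE (P σ) (R σ) - 2 * xE (P σ) (R σ) + 2 := by
    funext σ; simp only [hP, hR, cp, XA, SA, yy]; ring
  have eB : (fun ρ => yy (cp XB x y z ρ) (cp SB x y z ρ)) = fun σ => yB (P σ) (R σ) := by
    funext σ; simp only [hP, hR, cp, SB, yy]; ring
  have eX : cp XA x y z = fun σ => xE (P σ) (R σ) - 1 := rfl
  have eY : cp XB x y z = fun σ => XB (P σ) (R σ) := rfl
  refine (h1.sub (h2.cmul (2 / 7))).congr (.refl _ _) ?_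
  rw [eA, eB, eX, eY, hc]
  push_cast; ring

end C37
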