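import Pool.Agent.Lib.C37.Kit

/-! The L-function of a cusp form and its derivative at zero. -/

open Complex Filter Topology Set MeasureTheory
open scoped Real

namespace C37

theorem st_LF : St_LF := by
  intro f F a hF ha
  have hk : (0 : ℤ) < 2 := two_pos
  have hc : ∀ n, a n = (UpperHalfPlane.qExpansion 1 f).coeff n :=
    ModularFormClass.qExpansion_coeff_unique one_pos (by simp) fun τ => by
      rw [hF]
      simpa [e, Function.Periodic.qParam] using ha τ τ.2
  have hL : ModularForm.L hk f = fun s =>
      s * (ModularForm.Λ hk f s * (2 * π) ^ s * (Gamma (s + 1))⁻¹) := by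
    funext s
    rw [ModularForm.L, Gammaℂ_def, mul_assoc, ← div_div, div_self two_ne_zero, one_div, mul_inv,
      cpow_neg, inv_inv, one_div_Gamma_eq_self_mul_one_div_Gamma_add_one]
    ring
  have hG : Differentiable ℂ fun s =>
      ModularForm.Λ hk f s * (2 * π : ℂ) ^ s * (Gamma (s + 1))⁻¹ :=
    ((CuspForm.differentiable_Λ hk f).mul (differentiable_id.const_cpow (.inl (by simp)))).mul
      (differentiable_one_div_Gamma.comp (differentiable_id.add_const 1))
  refine ⟨ModularForm.L hk f, CuspForm.differentiable_L hk f, fun s hs => ?_, by simp [hL], ?_⟩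
  · have h := CuspForm.hasSum_L hk f (s := s) (by norm_num; exact hs)
    rw [CongruenceSubgroup.strictWidthInfty_Gamma0, ofReal_one, one_cpow, one_mul] at h
    refine h.congr_fun fun n => ?_
    rw [LSeries.term_of_ne_zero' (fun e => by norm_num [e] at hs), hc]
  · rw [hL, ((hasDerivAt_id' (0 : ℂ)).fun_mul (hG 0).hasDerivAt).deriv]
    simp only [zero_add, Gamma_one, inv_one, cpow_zero, mul_one, one_mul, zero_mul, add_zero]
    rw [CuspForm.Λ_eq_mellin, mellin]
    refine setIntegral_congr_fun measurableSet_Ioi fun t (ht : 0 < t) => ?_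
    rw [hF, UpperHalfPlane.ofComplex_apply_of_im_pos (by simpa using ht), zero_sub, cpow_neg_one,
      smul_eq_mul, mul_comm, div_eq_mul_inv, mul_comm _ I]

end C37
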