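import Pool.Agent.Lib.C37.Kit

/-! Block LOC: the local primitive of the cyclic symbol and the two local period relations. -/

open Complex Filter Topology Set
open scoped Real

namespace C37

namespace LOC

variable {C X S Z : ℂ → ℂ} {τ : ℂ}

/-- the data of a map to one of the curves, with `dZ = dX / S` near `τ` -/
structure Dat (C X S Z : ℂ → ℂ) (τ : ℂ) : Prop where
  aX : AnalyticAt ℂ X τ
  aS : AnalyticAt ℂ S τ
  eq : ∀ᶠ σ in 𝓝 τ, S σ ^ 2 = (4 * X σ + 1) ^ 2 - 4 * C (X σ)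
  c0 : C (X τ) ≠ 0
  s0 : S τ ≠ 0
  dZ : ∀ᶠ σ in 𝓝 τ, HasDerivAt Z (deriv X σ / S σ) σ

theorem prim {G : ℂ → ℂ → ℝ} {l : ℝ} (h : Dat C X S Z τ) (hG : IsG C 1 l 0 G) :
    DI (fun σ => G (X σ) (S σ) + l * (Z σ).im) (eta X (fun ρ => yy (X ρ) (S ρ)) τ) τ := by
  obtain ⟨L, h1, h2⟩ := hG X S τ h.aX h.aS h.eq h.c0 h.s0
  refine (h1.self_of_nhds.add ((DI.im h.dZ.self_of_nhds).cmul l)).congr ?_ ?_
  · filter_upwards [h2] with σ ⟨n, hn⟩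
    rw [mul_zero, sub_eq_zero] at hn
    rw [hn]
  · push_cast
    ring

theorem per {W : ℂ → ℂ → ℝ} {c : ℝ} (h : Dat C X S Z τ) (hW : IsG C 0 (-1) c W) :
    ∀ᶠ σ in 𝓝 τ, ∃ n : ℤ,
      (W (X σ) (S σ) - (Z σ).im) - (W (X τ) (S τ) - (Z τ).im) = n * c := by
  obtain ⟨L, h1, h2⟩ := hW X S τ h.aX h.aS h.eq h.c0 h.s0
  have h3 : ∀ᶠ σ in 𝓝 τ, DI (fun ρ => L ρ - (Z ρ).im) 0 σ := by
    filter_upwards [h1, h.dZ] with σ a1 a2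
    refine (a1.sub (DI.im a2)).congr (.refl _ _) ?_
    push_cast
    ring
  obtain ⟨r, hr, hb⟩ := Metric.eventually_nhds_iff_ball.1 h3
  obtain ⟨n0, hn0⟩ := h2.self_of_nhds
  filter_upwards [h2, Metric.ball_mem_nhds τ hr] with σ ⟨n, hn⟩ hσ
  have h4 := DI.eq_of_zero Metric.isOpen_ball (convex_ball τ r).isPreconnected hb hσ
    (Metric.mem_ball_self hr)
  refine ⟨n - n0, ?_⟩
  push_cast
  linarith

variable {x y z Za Zb : ℂ → ℂ}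

theorem datA (hLA1 : St_LA1) (hAD : St_AD) (hT : Tri x y z Za Zb) (hτ : τ ∈ GT x y z) :
    Dat Ca (cp XA x y z) (cp SA x y z) Za τ := by
  obtain ⟨hn, -, -, a1, a2, -⟩ := hLA1 x y z Za Zb hT τ hτ
  obtain ⟨-, -, -, -, -, g1, -, g2, g3, -⟩ := hτ.2.2.2
  refine ⟨a1, a2, ?_, ?_, g3, ?_⟩
  · filter_upwards [hn] with σ hσ
    obtain ⟨g0, -, -, g4, -⟩ := hσ.2.2.2
    exact ((hAD _ _ g0).1 g4).2
  · refine mul_ne_zero (pow_ne_zero 2 (sub_ne_zero.2 g1)) fun h => g2 ?_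
    simp only [cp, XA] at h
    linear_combination -h
  · filter_upwards [hn] with σ hσ
    obtain ⟨-, -, -, -, -, -, -, b1, -⟩ := hLA1 x y z Za Zb hT σ hσ
    have b2 : cp SA x y z σ ≠ 0 := hσ.2.2.2.2.2.2.2.2.2.2.2.1
    rw [b1, mul_div_cancel_right₀ _ b2]
    exact (hT.da.differentiableAt (isOpen_UH.mem_nhds hσ.1)).hasDerivAt

theorem datB (hLA1 : St_LA1) (hAD : St_AD) (hT : Tri x y z Za Zb) (hτ : τ ∈ GT x y z) :
    Dat Cb (cp XB x y z) (cp SB x y z) Zb τ := by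
  obtain ⟨hn, -, -, -, -, a1, a2, -⟩ := hLA1 x y z Za Zb hT τ hτ
  obtain ⟨g0, g1, g2, -, -, -, -, -, -, g3⟩ := hτ.2.2.2
  refine ⟨a1, a2, ?_, ?_, g3, ?_⟩
  · filter_upwards [hn] with σ hσ
    obtain ⟨g0, g4, g5, -⟩ := hσ.2.2.2
    exact ((hAD _ _ g0).2.1 g4 g5).1
  · exact neg_ne_zero.2 (pow_ne_zero 3 ((hAD _ _ g0).2.1 g1 g2).2)
  · filter_upwards [hn] with σ hσ
    obtain ⟨-, -, -, -, -, -, -, -, b1⟩ := hLA1 x y z Za Zb hT σ hσ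
    have b2 : cp SB x y z σ ≠ 0 := hσ.2.2.2.2.2.2.2.2.2.2.2.2
    rw [b1, mul_div_cancel_right₀ _ b2]
    exact (hT.db.differentiableAt (isOpen_UH.mem_nhds hσ.1)).hasDerivAt

end LOC

open LOC in
theorem st_LOC (hLA1 : St_LA1) (hLA2 : St_LA2) (hAD : St_AD) (hLP : St_LP) (hCV : St_CV)
    (hJEN : St_JEN) : St_LOC := by
  obtain ⟨⟨e1, e2, e3, hCa, k1, k2⟩, ⟨f1, f2, f3, hCb, k3⟩, ⟨E, hE⟩, hE'⟩ := hCV
  obtain ⟨ha, Ga, Wa, l1, l2, hGa, hWa⟩ := hLP e1 e2 e3 Ca E hCa hE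
  obtain ⟨hb, Gb, Wb, l3, -, hGb, hWb⟩ := hLP f1 f2 f3 Cb _ hCb hE'
  rw [← (hJEN e1 e2 e3 hCa).1] at hGa
  obtain ⟨Ψ, hΨ⟩ := hLA2
  refine ⟨fun p r => Ψ p r + 2 / 7 * Ga (XA p r) (SA p r) + Gb (XB p r) (SB p r),
    fun p r => Wa (XA p r) (SA p r), fun p r => Wb (XB p r) (SB p r), π * mm f1 f2 f3 / hb, ha, hb,
    k1.trans_le l1, l2.trans_lt k2, k3.trans_le l3, fun x y z Za Zb hT τ hτ => ?_⟩
  have dA := datA hLA1 hAD hT hτ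
  have dB := datB hLA1 hAD hT hτ
  refine ⟨(hLA1 x y z Za Zb hT τ hτ).1, ?_, per dA hWa, per dB hWb⟩
  refine (((hΨ x y z Za Zb hT τ hτ).add ((prim dA hGa).cmul (2 / 7))).add (prim dB hGb)).congr
    (.of_forall fun σ => ?_) ?_
  · simp only [cp]
    ring
  · push_cast
    ring

end C37
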