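import Pool.Agent.Lib.C37.Kit

/-! Block LPF: the regulator primitive over the upper half plane. -/

open Complex Filter Topology Set MeasureTheory Asymptotics
open scoped Real ComplexConjugate

namespace C37

namespace LPF

/-- a real function whose differential becomes real on a real segment is constant there -/
lemma const_real {F : ℂ → ℝ} {c : ℂ → ℂ} {a b : ℝ} (hab : a ≤ b) (hF : ContinuousOn F UC)
    (hd : ∀ z ∈ UH, DI F (c z) z)
    (hc : ∀ x ∈ Icc a b, ContinuousWithinAt c UC x ∧ (c x).im = 0) : F b = F a := by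
  have key : ∀ δ : ℝ, 0 < δ → |F b - F a| ≤ δ * (b - a) := by
    intro δ hδ
    have h1 : ∀ᶠ ε : ℝ in 𝓝 0, ∀ t ∈ Icc a b, 0 ≤ ε → |(c (t + ε * I)).im| < δ := by
      refine isCompact_Icc.eventually_forall_of_forall_eventually
        (P := fun ε t : ℝ => 0 ≤ ε → |(c (t + ε * I)).im| < δ) fun t ht => ?_
      have h2 : ∀ᶠ z in 𝓝[UC] (t : ℂ), |(c z).im| < δ := by
        have := (continuous_im.continuousAt.tendsto.comp (hc t ht).1).abs
        exact this.eventually (gt_mem_nhds (by simpa [(hc t ht).2] using hδ))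
      rw [eventually_nhdsWithin_iff] at h2
      have h3 : Tendsto (fun p : ℝ × ℝ => (p.2 : ℂ) + p.1 * I) (𝓝 (0, t)) (𝓝 t) := by
        have : Continuous fun p : ℝ × ℝ => (p.2 : ℂ) + p.1 * I := by fun_prop
        simpa using this.tendsto (0, t)
      filter_upwards [h3.eventually h2] with p hp h0
      exact hp (by simpa [UC] using h0)
    have h4 : ∀ t : ℝ, Tendsto (fun ε : ℝ => F (t + ε * I)) (𝓝[>] 0) (𝓝 (F t)) := fun t => by
      refine (hF t (by simp [UC])).tendsto.comp (tendsto_nhdsWithin_iff.2 ⟨?_, ?_⟩)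
      · have : Continuous fun ε : ℝ => (t : ℂ) + ε * I := by fun_prop
        simpa using (this.tendsto 0).mono_left nhdsWithin_le_nhds
      · filter_upwards [self_mem_nhdsWithin] with ε h
        simpa [UC] using le_of_lt h
    refine le_of_tendsto ((h4 b).sub (h4 a)).abs ?_
    filter_upwards [self_mem_nhdsWithin, nhdsWithin_le_nhds h1] with ε h0 h5
    have h6 : ∀ t ∈ Icc a b, HasDerivWithinAt (fun s : ℝ => F (s + ε * I))
        (c (t + ε * I)).im (Icc a b) t := fun t _ => by
      have := (hd (t + ε * I) (by simpa [UH] using h0)).curve (γ := fun s : ℝ => (s : ℂ) + ε * I)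
        (ofRealCLM.hasDerivAt.add_const _)
      simpa using this.hasDerivWithinAt
    exact norm_image_sub_le_of_norm_deriv_le_segment' h6
      (fun t ht => (h5 t (Ico_subset_Icc_self ht) (le_of_lt h0)).le) b ⟨hab, le_rfl⟩
  have : |F b - F a| ≤ 0 := by
    have h : Tendsto (fun δ : ℝ => δ * (b - a)) (𝓝[>] 0) (𝓝 0) := by
      have : Continuous fun δ : ℝ => δ * (b - a) := by fun_prop
      simpa using (this.tendsto 0).mono_left nhdsWithin_le_nhds
    exact ge_of_tendsto h (eventually_nhdsWithin_of_forall key)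
  exact sub_eq_zero.1 (abs_nonpos_iff.1 this)

/-- growth at most `Im ^ (-n / 4)` on bounded sets -/
def Bd (n : ℕ) (f : ℂ → ℂ) : Prop :=
  ∀ R : ℝ, ∃ K : ℝ, 0 ≤ K ∧ ∀ z ∈ UH, ‖z‖ ≤ R → ‖f z‖ ≤ K * (z.im ^ (-(1 / 4) : ℝ)) ^ n

variable {f g : ℂ → ℂ} {m n : ℕ}

lemma Bd.mul (h1 : Bd m f) (h2 : Bd n g) : Bd (m + n) fun z => f z * g z := fun R => by
  obtain ⟨K, k0, hK⟩ := h1 R
  obtain ⟨L, l0, hL⟩ := h2 R
  refine ⟨K * L, by positivity, fun z hz hR => ?_⟩
  rw [norm_mul, pow_add, mul_mul_mul_comm]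
  exact mul_le_mul (hK z hz hR) (hL z hz hR) (norm_nonneg _) ((norm_nonneg _).trans (hK z hz hR))

lemma Bd.add (h1 : Bd n f) (h2 : Bd n g) : Bd n fun z => f z + g z := fun R => by
  obtain ⟨K, k0, hK⟩ := h1 R
  obtain ⟨L, l0, hL⟩ := h2 R
  refine ⟨K + L, by positivity, fun z hz hR => ?_⟩
  rw [add_mul]
  exact (norm_add_le _ _).trans (add_le_add (hK z hz hR) (hL z hz hR))

lemma Bd.cont (h : ContinuousOn f UC) : Bd 0 f := fun R => by
  have hk : IsCompact (UC ∩ Metric.closedBall 0 R) :=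
    (isCompact_closedBall 0 R).inter_left (isClosed_le continuous_const continuous_im)
  obtain ⟨K, hK⟩ := hk.exists_bound_of_continuousOn (h.mono inter_subset_left)
  refine ⟨max K 0, le_max_right _ _, fun z hz hR => ?_⟩
  simpa using Or.inl (hK z ⟨le_of_lt (a := (0 : ℝ)) (b := z.im) hz, by simpa using hR⟩)

lemma Bd.one : Bd 1 fun _ => 1 := fun R => by
  refine ⟨|R| ^ (1 / 4 : ℝ), by positivity, fun z hz hR => ?_⟩
  have h0 : 0 < z.im := hz
  have h1 : z.im ≤ |R| := (im_le_norm z).trans (hR.trans (le_abs_self R))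
  rw [pow_one, Real.rpow_neg h0.le, ← div_eq_mul_inv, norm_one, one_le_div (by positivity)]
  exact Real.rpow_le_rpow h0.le h1 (by norm_num)

lemma Bd.succ (h : Bd n f) : Bd (n + 1) f := by simpa using h.mul Bd.one

lemma Bd.mono (h : Bd n g) (h1 : ∀ z ∈ UH, ‖f z‖ ≤ ‖g z‖) : Bd n f := fun R => by
  obtain ⟨K, k0, hK⟩ := h R
  exact ⟨K, k0, fun z hz hR => (h1 z hz).trans (hK z hz hR)⟩

lemma Bd.log : Bd 1 Complex.log := by
  have h1 : Bd 1 fun z => ((4 * z.im ^ (-(1 / 4) : ℝ) : ℝ) : ℂ) := fun R =>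
    ⟨4, by norm_num, fun z hz _ => by
      have h0 : 0 < z.im := hz
      rw [norm_real, pow_one, Real.norm_of_nonneg (by positivity)]⟩
  have h2 : Bd 1 fun z => ((‖z‖ + π : ℝ) : ℂ) := (Bd.cont (by fun_prop)).succ
  refine (h1.add h2).mono fun z hz => ?_
  have h0 : 0 < z.im := hz
  have h3 : z.im ≤ ‖z‖ := im_le_norm z
  have h4 : -Real.log z.im ≤ 4 * z.im ^ (-(1 / 4) : ℝ) := by
    have := Real.log_le_rpow_div (inv_nonneg.2 h0.le) (ε := 1 / 4) (by norm_num)
    rw [Real.log_inv, Real.inv_rpow h0.le, ← Real.rpow_neg h0.le] at this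
    linarith
  have h5 := Real.log_le_log h0 h3
  have h6 := Real.log_le_self (norm_nonneg z)
  have h7 : 0 ≤ 4 * z.im ^ (-(1 / 4) : ℝ) := by positivity
  have h8 : |Real.log ‖z‖| ≤ 4 * z.im ^ (-(1 / 4) : ℝ) + ‖z‖ :=
    abs_le.2 ⟨by linarith [norm_nonneg z], by linarith⟩
  rw [← ofReal_add, norm_real, Real.norm_of_nonneg (by positivity)]
  refine (norm_le_abs_re_add_abs_im _).trans ?_
  rw [log_re, log_im]
  linarith [abs_arg_le_pi z]

lemma cont_arg {F : ℂ → ℝ} (hF : ContinuousOn F UC) (h0 : F 0 = 0) :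
    ContinuousOn (fun z => F z * arg z) UC := by
  intro z hz
  by_cases h : z = 0
  · subst h
    have h1 : Tendsto F (𝓝[UC] 0) (𝓝 0) := by simpa [h0] using (hF 0 hz).tendsto
    have := h1.zero_mul_isBoundedUnder_le (g := arg)
      ⟨π, eventually_map.2 (.of_forall fun z => abs_arg_le_pi z)⟩
    simpa [ContinuousWithinAt, h0] using this
  refine (hF z hz).mul ?_
  by_cases h1 : z ∈ slitPlane
  · exact (continuousAt_arg h1).continuousWithinAt
  · rw [mem_slitPlane_iff, not_or, not_not, not_lt] at h1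
    exact continuousWithinAt_arg_of_re_neg_of_im_zero
      (lt_of_le_of_ne h1.1 fun h2 => h (Complex.ext h2 h1.2)) h1.2

end LPF

open LPF

theorem st_LPF (hP : St_PRIM) (hSQ : St_SQ) : St_LPF := by
  intro e1 e2 e3 C hC
  obtain ⟨sc, -, sd, r1, -, r3, -, yn, y0, sb⟩ := hSQ e1 e2 e3 C hC
  set s := s0 e1 e2 e3 with hs
  set y := ym e1 e2 e3 with hy
  have ey : y = fun x => (-s x - (4 * x + 1)) / 2 := rfl
  set q : ℂ → ℂ := fun x => (x - e2) * (x - e3) + (x - e1) * (x - e3) + (x - e1) * (x - e2)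
    with hq
  set y' : ℂ → ℂ := fun x => -q x * (s x)⁻¹ + -2 with hy'
  have hU : ∀ x ∈ UH, x ∈ UC := fun x hx => le_of_lt (a := (0 : ℝ)) (b := x.im) hx
  have yd : ∀ x ∈ UH, HasDerivAt y (y' x) x := fun x hx => by
    have := ((sd x hx).2.neg.sub (((hasDerivAt_id' x).const_mul 4).add_const 1)).div_const 2
    refine HasDerivAt.congr_deriv this ?_
    simp only [hy', hq]; ring
  have yc : ContinuousOn y UC := by
    rw [ey]; exact (sc.neg.sub (by fun_prop)).div_const 2
  have sl : ∀ x ∈ UH, x ∈ slitPlane := fun x hx => Or.inr (ne_of_gt hx)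
  obtain ⟨M, Mc, Md, -⟩ := hP (fun x => Complex.log x * (y' x * (y x)⁻¹)) (fun x hx => by
      have h1 := (sd x hx).2.differentiableAt.inv (sd x hx).1
      have h2 := (yd x hx).differentiableAt.inv (yn x (hU x hx))
      have h3 : DifferentiableAt ℂ q x := by simp only [hq]; fun_prop
      exact ((differentiableAt_log (sl x hx)).mul
        (((h3.neg.mul h1).add_const _).mul h2)).differentiableWithinAt) (fun R => by
      have h1 : Bd 2 fun z => (s z)⁻¹ := fun R => by
        obtain ⟨K, hK⟩ := sb R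
        refine ⟨max K 0, le_max_right _ _, fun z hz hR => (hK z hz hR).trans ?_⟩
        have h0 : 0 < z.im := hz
        rw [← Real.rpow_natCast, ← Real.rpow_mul h0.le]
        norm_num
        exact mul_le_mul_of_nonneg_right (le_max_left _ _) (by positivity)
      have h2 : Bd 0 fun z => -q z := Bd.cont (by simp only [hq]; fun_prop)
      have h3 : Bd 2 fun _ => (-2 : ℂ) := (Bd.cont continuousOn_const).succ.succ
      obtain ⟨K, -, hK⟩ := Bd.log.mul (((h2.mul h1).add h3).mul (Bd.cont (yc.inv₀ yn))) R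
      refine ⟨K, fun z hz hR => (hK z hz hR).trans_eq ?_⟩
      have h0 : 0 < z.im := hz
      rw [← Real.rpow_natCast, ← Real.rpow_mul h0.le]
      norm_num)
  set c : ℂ → ℂ := fun x => Real.log ‖x‖ * (y' x / y x) - Real.log ‖y x‖ * (1 / x) with hc
  have lc : ContinuousOn (fun x => Real.log ‖y x‖) UC :=
    yc.norm.log fun x hx => norm_ne_zero_iff.2 (yn x hx)
  set F : ℂ → ℝ := fun x => (M x).im - Real.log ‖y x‖ * arg x with hF
  have Fc : ContinuousOn F UC :=
    (continuous_im.comp_continuousOn Mc).sub (cont_arg lc (by simp [y0]))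
  have Fd : ∀ x ∈ UH, DI F (c x) x := fun x hx => by
    have h1 := (DI.log (yd x hx) (yn x (hU x hx))).mul (DI.im (hasDerivAt_log (sl x hx)))
    refine ((DI.im (Md x hx)).sub h1).congr (.of_forall fun z => by simp [hF, log_im]) ?_
    simp only [hc, log_im]
    simp only [Complex.log]
    ring
  have cr : ∀ x t : ℝ, x ≠ 0 → s x = t → t ≠ 0 →
      ContinuousWithinAt c UC x ∧ (c x).im = 0 := fun x t x0 h1 t0 => by
    have hx : (x : ℂ) ∈ UC := by simp [UC]
    have x1 : (x : ℂ) ≠ 0 := ofReal_ne_zero.2 x0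
    refine ⟨?_, ?_⟩
    · have h2 : ContinuousWithinAt y' UC x := by
        have h3 : Continuous q := by simp only [hq]; fun_prop
        exact (h3.neg.continuousWithinAt.mul ((sc x hx).inv₀
          (by rw [h1]; exact ofReal_ne_zero.2 t0))).add continuousWithinAt_const
      have h4 : ContinuousAt (fun z : ℂ => ((Real.log ‖z‖ : ℝ) : ℂ)) x :=
        continuous_ofReal.continuousAt.comp (continuous_norm.continuousAt.log (by simpa using x0))
      exact (h4.continuousWithinAt.mul (h2.div (yc x hx) (yn x hx))).sub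
        ((continuous_ofReal.continuousAt.comp_continuousWithinAt (lc x hx)).mul
          (continuousWithinAt_const.div continuousWithinAt_id x1))
    · simp only [hc, hy', hq, ey, h1]
      norm_cast
  have p1 : ∀ x : ℝ, e1 < x → x ≠ 0 → ContinuousWithinAt c UC x ∧ (c x).im = 0 := fun x h x0 => by
    have := hC.h1; have := hC.h2; have := hC.h3
    refine cr x _ x0 (r1 x h) (mul_ne_zero two_ne_zero (Real.sqrt_pos.2 ?_).ne')
    exact mul_pos (mul_pos (by linarith) (by linarith)) (by linarith)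
  have p3 : ∀ x : ℝ, e3 < x → x < e2 → ContinuousWithinAt c UC x ∧ (c x).im = 0 :=
    fun x h h' => by
    have := hC.h1; have := hC.h0
    refine cr x (-(2 * √((e1 - x) * (e2 - x) * (x - e3)))) (by linarith)
      (by rw [r3 x h h']; push_cast; rfl)
      (neg_ne_zero.2 (mul_ne_zero two_ne_zero (Real.sqrt_pos.2 ?_).ne'))
    exact mul_pos (mul_pos (by linarith) (by linarith)) (by linarith)
  have Fr : ContinuousAt (fun t : ℝ => F t) 0 :=
    (Fc.comp_continuous continuous_ofReal fun t => by simp [UC]).continuousAt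
  have z1 : ∀ x : ℝ, e1 < x → F x = F 0 := fun x h => by
    have := hC.h0
    rcases lt_trichotomy x 0 with h0 | rfl | h0
    · refine tendsto_nhds_unique (f := fun t : ℝ => F t) (l := 𝓝[<] 0)
        (tendsto_const_nhds.congr' ?_) (Fr.tendsto.mono_left nhdsWithin_le_nhds)
      filter_upwards [Ioo_mem_nhdsLT h0] with t ht
      exact (const_real ht.1.le Fc Fd fun u hu => p1 u (h.trans_le hu.1)
        (hu.2.trans_lt ht.2).ne).symm
    · rfl
    · refine tendsto_nhds_unique (f := fun t : ℝ => F t) (l := 𝓝[>] 0)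
        (tendsto_const_nhds.congr' ?_) (Fr.tendsto.mono_left nhdsWithin_le_nhds)
      filter_upwards [Ioo_mem_nhdsGT h0] with t ht
      exact const_real ht.2.le Fc Fd fun u hu => p1 u (by linarith [hu.1, ht.1])
        (ht.1.trans_le hu.1).ne'
  have z3 : ∀ x : ℝ, e3 < x → x < e2 → F x = F (-1 : ℝ) := fun x h h' => by
    have := hC.h2; have := hC.h3
    rcases le_total x (-1) with h0 | h0
    · exact (const_real h0 Fc Fd fun u hu => p3 u (by linarith [hu.1]) (by linarith [hu.2])).symm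
    · exact const_real h0 Fc Fd fun u hu => p3 u (by linarith [hu.1]) (by linarith [hu.2])
  have gc : Continuous fun θ : ℝ => cexp (θ * I) := by fun_prop
  have gm : MapsTo (fun θ : ℝ => cexp (θ * I)) (Icc 0 π) UC := fun θ h => by
    simpa [UC, exp_ofReal_mul_I_im] using Real.sin_nonneg_of_mem_Icc h
  have ftc := intervalIntegral.integral_eq_sub_of_hasDerivAt_of_le Real.pi_pos.le
    (f := fun θ : ℝ => F (cexp (θ * I))) (f' := fun θ : ℝ => -Real.log ‖y (cexp (θ * I))‖)
    (Fc.comp gc.continuousOn gm) (fun θ h => by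
      have h1 : cexp (θ * I) ∈ UH := by
        simpa [UH, exp_ofReal_mul_I_im] using Real.sin_pos_of_mem_Ioo h
      have h2 := (Fd _ h1).curve (γ := fun θ : ℝ => cexp (θ * I))
        (ofRealCLM.hasDerivAt.mul_const I).cexp
      refine h2.congr_deriv ?_
      have h3 : c (cexp (θ * I)) * (cexp (ofRealCLM θ * I) * (ofRealCLM 1 * I)) =
          (-Real.log ‖y (cexp (θ * I))‖ : ℝ) * I := by
        simp only [hc, norm_exp_ofReal_mul_I, Real.log_one, ofRealCLM_apply]
        have := exp_ne_zero (θ * I)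
        push_cast; field_simp; ring
      rw [h3]; simp)
    ((lc.comp gc.continuousOn gm).neg.intervalIntegrable_of_Icc Real.pi_pos.le)
  refine ⟨fun x => F x - F 0, Fc.sub continuousOn_const, fun x hx => ?_,
    fun x h => sub_eq_zero.2 (z1 x h), fun x h h' => ?_⟩
  · refine ((Fd x hx).sub (DI.const (F 0) x)).congr (.refl _ _) ?_
    simp [hc, eta, wd, LL, logDeriv_apply, (yd x hx).deriv]
  · have h1 := z1 1 (by linarith [hC.h0])
    simp only [intervalIntegral.integral_neg, exp_pi_mul_I, ofReal_zero, zero_mul,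
      Complex.exp_zero] at ftc
    have := Real.pi_pos
    show F x - F 0 = _
    rw [z3 x h h', mm, mul_div_cancel₀ _ this.ne', ← hy, ftc, ← h1]
    simp

end C37
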