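import Pool.Agent.Lib.C37.Kit

/-! Block LPG: gluing the primitive on the two sheets over the two half planes. -/

open Complex Filter Topology Set MeasureTheory Asymptotics Metric
open scoped Real ComplexConjugate

namespace C37

namespace LPG

/-- the form on the sheet given by a branch `s` -/
noncomputable def om (α l : ℝ) (s : ℂ → ℂ) (z : ℂ) : ℂ :=
  α * eta id (fun y => yy y (s y)) z - l / s z

open Classical in
/-- the primitive over the closed upper half plane -/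
noncomputable def HT (s0 : ℂ → ℂ) (Θ E : ℂ → ℝ) (α : ℝ) (x s : ℂ) : ℝ :=
  if s = -s0 x then Θ x else α * E x - Θ x

/-- a branch of the square root on a disc -/
structure Br (C : ℂ → ℂ) (x0 : ℂ) (r : ℝ) (s : ℂ → ℂ) : Prop where
  hd : DifferentiableOn ℂ s (ball x0 r)
  sq : ∀ z ∈ ball x0 r, s z ^ 2 = (4 * z + 1) ^ 2 - 4 * C z
  ns : ∀ z ∈ ball x0 r, s z ≠ 0
  nC : ∀ z ∈ ball x0 r, C z ≠ 0

variable {e1 e2 e3 : ℝ} {C : ℂ → ℂ}

lemma C_eq (h : Cv e1 e2 e3 C) :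
    C = fun x : ℂ => ((4 * x + 1) ^ 2 - 4 * (x - e1) * (x - e2) * (x - e3)) / 4 := by
  funext x; linear_combination (-1 / 4) * h.eq x

lemma C_diff (h : Cv e1 e2 e3 C) : Differentiable ℂ C := by
  rw [C_eq h]; fun_prop

lemma C_conj (h : Cv e1 e2 e3 C) (x : ℂ) : C (conj x) = conj (C x) := by
  rw [C_eq h]; simp [map_ofNat]

lemma yy_ne {x s : ℂ} (h : s ^ 2 = (4 * x + 1) ^ 2 - 4 * C x) (hC : C x ≠ 0) : yy x s ≠ 0 := by
  intro h0
  apply hC
  have : s = 4 * x + 1 := by unfold yy at h0; linear_combination 2 * h0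
  rw [this] at h
  linear_combination (1 / 4) * h

lemma uc {z : ℂ} (h : z ∈ UH) : z ∈ UC := le_of_lt (show 0 < z.im from h)

lemma ext_const {F : ℂ → ℝ} {x0 : ℂ} {r : ℝ} (hc : ContinuousOn F (ball x0 r ∩ UC))
    (hd : ∀ z ∈ ball x0 r ∩ UH, DI F 0 z) : ∃ c, ∀ z ∈ ball x0 r ∩ UC, F z = c := by
  have hsub : ball x0 r ∩ UH ⊆ ball x0 r ∩ UC := fun z hz => ⟨hz.1, uc hz.2⟩
  have hcl : ball x0 r ∩ UC ⊆ closure (ball x0 r ∩ UH) := fun z hz => by
    refine isOpen_ball.inter_closure ⟨hz.1, ?_⟩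
    have := closure_setOfPred_lt_im 0
    rw [show UH = {z : ℂ | 0 < z.im} from rfl, this]
    exact hz.2
  rcases (ball x0 r ∩ UH).eq_empty_or_nonempty with he | ⟨y, hy⟩
  · refine ⟨0, fun z hz => ?_⟩
    have := hcl hz
    simp [he] at this
  · refine ⟨F y, ?_⟩
    exact Set.EqOn.of_subset_closure (s := ball x0 r ∩ UH) (g := fun _ => F y)
      (fun z hz => DI.eq_of_zero (isOpen_ball.inter isOpen_UH)
        ((convex_ball x0 r).inter convex_UH).isPreconnected hd hz hy) hc continuousOn_const hsub hcl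

lemma half (hSQ : St_SQ) (h : Cv e1 e2 e3 C) {E Θ : ℂ → ℝ} (hE : IsE C E) {α l : ℝ}
    (hΘ : ContinuousOn Θ UC)
    (hD : ∀ x ∈ UH, DI Θ (α * eta id (ym e1 e2 e3) x + l / s0 e1 e2 e3 x) x)
    {x0 : ℂ} {r : ℝ} {s : ℂ → ℂ} (hb : Br C x0 r s) {L : ℂ → ℝ}
    (hL : ∀ z ∈ ball x0 r, DI L (om α l s z) z) :
    ∃ c, ∀ z ∈ ball x0 r ∩ UC, HT (s0 e1 e2 e3) Θ E α z (s z) - L z = c := by
  obtain ⟨q1, q2, q3, -, -, -, -, q8, -⟩ := hSQ e1 e2 e3 C h
  have hLc : ContinuousOn L (ball x0 r ∩ UC) := fun z hz =>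
    (hL z hz.1).continuousAt.continuousWithinAt
  have n0 : ∀ z ∈ ball x0 r, s0 e1 e2 e3 z ≠ 0 := fun z hz h0 => by
    have := q2 z
    rw [h0, ← hb.sq z hz] at this
    exact hb.ns z hz (by simpa using this.symm)
  have z0 : ∀ z ∈ ball x0 r, z ≠ 0 := fun z hz h0 => hb.nC z hz (by rw [h0, h.c0])
  have hop : IsOpen (ball x0 r ∩ UH) := isOpen_ball.inter isOpen_UH
  rcases ((convex_ball x0 r).inter convex_UC).isPreconnected.eq_or_eq_neg_of_sq_eq
    (f := s) (g := s0 e1 e2 e3) (hb.hd.continuousOn.mono inter_subset_left)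
    (q1.mono inter_subset_right) (fun z hz => by simp only [Pi.pow_apply, hb.sq z hz.1, q2 z])
    (fun {z} hz => n0 z hz.1) with hs | hs
  · obtain ⟨c, hc⟩ := ext_const (F := fun z => α * E z - Θ z - L z) (x0 := x0) (r := r)
      (((continuousOn_const.mul fun z hz =>
        (hE.2 z (z0 z hz.1) (hb.nC z hz.1)).continuousAt.continuousWithinAt).sub
        (hΘ.mono inter_subset_right)).sub hLc) (fun z hz => by
      refine ((((hE.2 z (z0 z hz.1) (hb.nC z hz.1)).cmul α).sub (hD z hz.2)).sub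
        (hL z hz.1)).congr (.refl _ _) ?_
      have d0 := (q3 z hz.2).2.differentiableAt
      have dm : DifferentiableAt ℂ (ym e1 e2 e3) z := by unfold ym yy; fun_prop
      have ev : (fun y => yy y (s y)) =ᶠ[𝓝 z] fun y => C y / ym e1 e2 e3 y := by
        filter_upwards [hop.mem_nhds hz] with y hy
        rw [eq_div_iff (q8 y (uc hy.2)), hs ⟨hy.1, uc hy.2⟩]
        unfold ym yy
        linear_combination (-1 / 4) * q2 y
      unfold om eta
      rw [LL_congr ev, LL_div (C_diff h z) dm (hb.nC z hz.1) (q8 z (uc hz.2)),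
        hs ⟨hz.1, uc hz.2⟩]
      simp only [wd, Prod.fst_sub, Prod.snd_sub]; push_cast; ring)
    refine ⟨c, fun z hz => ?_⟩
    rw [← hc z hz, HT, if_neg]
    rw [hs hz]
    intro h0
    exact n0 z hz.1 (by linear_combination (1 / 2) * h0)
  · obtain ⟨c, hc⟩ := ext_const (F := fun z => Θ z - L z) (x0 := x0) (r := r)
      ((hΘ.mono inter_subset_right).sub hLc) (fun z hz => by
      refine ((hD z hz.2).sub (hL z hz.1)).congr (.refl _ _) ?_
      have ev : (fun y => yy y (s y)) =ᶠ[𝓝 z] ym e1 e2 e3 := by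
        filter_upwards [hop.mem_nhds hz] with y hy
        rw [hs ⟨hy.1, uc hy.2⟩]; rfl
      unfold om eta
      rw [LL_congr ev, hs ⟨hz.1, uc hz.2⟩, Pi.neg_apply]
      ring)
    exact ⟨c, fun z hz => by rw [← hc z hz, HT, if_pos (show s z = -s0 e1 e2 e3 z from hs hz)]⟩

lemma LL_conj (f : ℂ → ℂ) (z : ℂ) :
    LL (conj ∘ f ∘ conj) z = ((LL f (conj z)).1, conj (LL f (conj z)).2) := by
  simp [LL, logDeriv_apply]

lemma om_conj (α l : ℝ) (s : ℂ → ℂ) (z : ℂ) :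
    om α l (conj ∘ s ∘ conj) z = conj (om α l s (conj z)) := by
  have e1 : (fun y => yy y ((conj ∘ s ∘ conj) y)) = conj ∘ (fun y => yy y (s y)) ∘ conj := by
    funext y; simp [yy, map_ofNat]
  have e2 : (id : ℂ → ℂ) = conj ∘ id ∘ conj := by funext y; simp
  unfold om eta
  rw [e1, LL_conj]
  conv_lhs => rw [e2, LL_conj]
  simp [wd]

lemma mem_conj {x0 z : ℂ} {r : ℝ} (hz : z ∈ ball (conj x0) r) : conj z ∈ ball x0 r := by
  rw [mem_ball, ← dist_conj_conj, conj_conj]; exact hz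

lemma Br.conj (h : Cv e1 e2 e3 C) {x0 : ℂ} {r : ℝ} {s : ℂ → ℂ} (hb : Br C x0 r s) :
    Br C (conj x0) r (conj ∘ s ∘ conj) where
  hd := fun z hz => (differentiableAt_conj_conj_iff.2
    (hb.hd.differentiableAt (isOpen_ball.mem_nhds (mem_conj hz)))).differentiableWithinAt
  sq := fun z hz => by
    have := congrArg (starRingEnd ℂ) (hb.sq _ (mem_conj hz))
    rw [C_conj h] at this
    simpa [map_ofNat] using this
  ns := fun z hz => by simpa using hb.ns _ (mem_conj hz)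
  nC := fun z hz => by
    have := hb.nC _ (mem_conj hz)
    rw [C_conj h] at this
    simpa using this

lemma exists_br (h : Cv e1 e2 e3 C) {x0 t : ℂ} (ht : t ^ 2 = (4 * x0 + 1) ^ 2 - 4 * C x0)
    (t0 : t ≠ 0) (c0 : C x0 ≠ 0) : ∃ r s, 0 < r ∧ Br C x0 r s ∧ s x0 = t := by
  have dC := C_diff h
  set q : ℂ → ℂ := fun z => ((4 * z + 1) ^ 2 - 4 * C z) / t ^ 2 with hq
  have dq : Differentiable ℂ q := by rw [hq]; fun_prop
  have q1 : q x0 = 1 := by simp only [hq, ← ht]; exact div_self (pow_ne_zero 2 t0)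
  have ev : ∀ᶠ z in 𝓝 x0, q z ∈ slitPlane ∧ C z ≠ 0 :=
    (dq.continuous.continuousAt.eventually (isOpen_slitPlane.mem_nhds (by rw [q1]; simp))).and
      (dC.continuous.continuousAt.eventually_ne c0)
  obtain ⟨r, hr, hb⟩ := Metric.eventually_nhds_iff_ball.1 ev
  have sq : ∀ z, (t * Complex.sqrt (q z)) ^ 2 = (4 * z + 1) ^ 2 - 4 * C z := fun z => by
    have : Complex.sqrt (q z) ^ 2 = q z := by
      unfold Complex.sqrt; exact cpow_ofNat_inv_pow _ 2
    rw [mul_pow, this, hq]; field_simp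
  refine ⟨r, fun z => t * Complex.sqrt (q z), hr, ⟨fun z hz => ?_, fun z _ => sq z, fun z hz => ?_,
    fun z hz => (hb z hz).2⟩, by simp [q1]⟩
  · exact (((differentiableAt_sqrt (hb z hz).1).comp z (dq z)).const_mul t).differentiableWithinAt
  · intro h0
    have := sq z
    rw [show t * Complex.sqrt (q z) = 0 from h0] at this
    apply slitPlane_ne_zero (hb z hz).1
    simp only [hq, ← this]; simp

lemma exists_L (hETA : St_ETA) (h : Cv e1 e2 e3 C) (α l : ℝ) {x0 : ℂ} {r : ℝ} {s : ℂ → ℂ}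
    (hb : Br C x0 r s) : ∃ L : ℂ → ℝ, ∀ z ∈ ball x0 r, DI L (om α l s z) z := by
  have hd := hb.hd
  obtain ⟨L, hL⟩ := hETA (ball x0 r) id (fun y => yy y (s y)) isOpen_ball (convex_ball x0 r)
    differentiableOn_id (by unfold yy; fun_prop)
    (fun z hz h0 => hb.nC z hz (by rw [show z = 0 from h0, h.c0]))
    (fun z hz => yy_ne (hb.sq z hz) (hb.nC z hz))
  obtain ⟨M, hM⟩ := DifferentiableOn.isExactOn_ball (hd.inv hb.ns)
  refine ⟨fun z => α * L z - l * (M z).im, fun z hz => ?_⟩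
  refine (((hL z hz).cmul α).sub ((DI.im (hM z hz)).cmul l)).congr (.refl _ _) ?_
  simp only [om, Pi.inv_apply, div_eq_mul_inv]

lemma real_jump (hSQ : St_SQ) (h : Cv e1 e2 e3 C) {E Θ : ℂ → ℝ} (hE : IsE C E) {α c κ : ℝ} {k : ℤ}
    (h1 : ∀ x : ℝ, e1 < x → Θ x = 0) (h2 : ∀ x : ℝ, e3 < x → x < e2 → Θ x = κ)
    (hk : 2 * κ = k * c) (x : ℝ) {t : ℂ} (ht : t ^ 2 = (4 * x + 1) ^ 2 - 4 * C x) (t0 : t ≠ 0) :
    ∃ n : ℤ, HT (s0 e1 e2 e3) Θ E α x t + HT (s0 e1 e2 e3) Θ E α x (conj t) = n * c := by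
  obtain ⟨-, q2, -, q4, q5, q6, q7, -⟩ := hSQ e1 e2 e3 C h
  have E0 : E x = 0 := by
    have := hE.1 x
    rw [conj_ofReal] at this
    linarith
  have hs : t = s0 e1 e2 e3 x ∨ t = -s0 e1 e2 e3 x := sq_eq_sq_iff_eq_or_eq_neg.1 (by rw [ht, q2])
  have n0 : s0 e1 e2 e3 x ≠ -s0 e1 e2 e3 x := fun h0 => by
    have h3 : s0 e1 e2 e3 x = 0 := by linear_combination (1 / 2) * h0
    rcases hs with hs | hs <;> simp [hs, h3] at t0
  have A : conj (s0 e1 e2 e3 x) = s0 e1 e2 e3 x → ∀ m : ℤ, 2 * Θ x = m * c →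
      ∃ n : ℤ, HT (s0 e1 e2 e3) Θ E α x t + HT (s0 e1 e2 e3) Θ E α x (conj t) = n * c := by
    intro h3 m hm
    rcases hs with hs | hs
    · refine ⟨-m, ?_⟩
      rw [hs, h3, HT, if_neg n0, E0]; push_cast; linarith
    · refine ⟨m, ?_⟩
      rw [hs, map_neg, h3, HT, if_pos rfl]; linarith
  have B : conj (s0 e1 e2 e3 x) = -s0 e1 e2 e3 x →
      ∃ n : ℤ, HT (s0 e1 e2 e3) Θ E α x t + HT (s0 e1 e2 e3) Θ E α x (conj t) = n * c := by
    intro h3
    refine ⟨0, ?_⟩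
    rcases hs with hs | hs
    · rw [hs, h3, HT, HT, if_neg n0, if_pos rfl, E0]; simp
    · rw [hs, map_neg, h3, neg_neg, HT, HT, if_neg n0, if_pos rfl, E0]; simp
  have ne : ∀ e : ℝ, (e = e1 ∨ e = e2 ∨ e = e3) → x ≠ e := by
    intro e he hx
    apply t0
    have := h.eq x
    rw [← ht, hx] at this
    rcases he with he | he | he <;> simpa [he] using this
  rcases lt_or_gt_of_ne (ne e1 (by simp)) with a1 | a1
  · rcases lt_or_gt_of_ne (ne e2 (by simp)) with a2 | a2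
    · rcases lt_or_gt_of_ne (ne e3 (by simp)) with a3 | a3
      · exact B (by rw [q7 x a3, map_mul, map_neg, conj_ofReal, conj_I]; ring)
      · exact A (by rw [q6 x a3 a2, map_neg, conj_ofReal]) k (by rw [h2 x a3 a2, hk])
    · exact B (by rw [q5 x a2 a1, map_mul, conj_ofReal, conj_I]; ring)
  · exact A (by rw [q4 x a1, conj_ofReal]) 0 (by rw [h1 x a1]; simp)

end LPG

open LPG in
theorem st_LPG (hSQ : St_SQ) (hETA : St_ETA) : St_LPG := by
  intro e1 e2 e3 C E h hE Θ α l c κ k hΘ hD h1 h2 hk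
  classical
  refine ⟨fun x s => if 0 ≤ x.im then HT (s0 e1 e2 e3) Θ E α x s
    else -HT (s0 e1 e2 e3) Θ E α (conj x) (conj s), fun x s τ hx hs hq hC hs0 => ?_⟩
  obtain ⟨r, S, hr, hb, hS⟩ := exists_br h hq.self_of_nhds hs0 hC
  obtain ⟨L, hL⟩ := exists_L hETA h α l hb
  obtain ⟨cp, hp⟩ := half hSQ h hE hΘ hD hb hL
  obtain ⟨cm, hm⟩ := half hSQ h hE hΘ hD (hb.conj h) (L := fun z => -L (conj z))
    (fun z hz => (hL _ (mem_conj hz)).conj.congr (.refl _ _) (om_conj α l S z).symm)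
  have hm' : ∀ z ∈ ball (x τ) r, z.im ≤ 0 →
      -HT (s0 e1 e2 e3) Θ E α (conj z) (conj (S z)) - L z = -cm := fun z hz hi => by
    have := hm (conj z) ⟨mem_conj (by simpa using hz), by simpa [UC] using hi⟩
    simp only [Function.comp, conj_conj] at this
    linarith
  have xb : ∀ᶠ σ in 𝓝 τ, x σ ∈ ball (x τ) r := hx.continuousAt.eventually (ball_mem_nhds _ hr)
  have Sc : ContinuousAt (fun σ => S (x σ)) τ :=
    (hb.hd.differentiableAt (ball_mem_nhds _ hr)).continuousAt.comp hx.continuousAt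
  have es : ∀ᶠ σ in 𝓝 τ, s σ = S (x σ) := by
    have : ∀ᶠ σ in 𝓝 τ, s σ + S (x σ) ≠ 0 := (hs.continuousAt.add Sc).eventually_ne (by
      show s τ + S (x τ) ≠ 0
      rw [hS, ← two_mul]; exact mul_ne_zero two_ne_zero hs0)
    filter_upwards [this, xb, hq] with σ a1 a2 a3
    have a4 : (s σ - S (x σ)) * (s σ + S (x σ)) = 0 := by linear_combination a3 - hb.sq _ a2
    exact sub_eq_zero.1 ((mul_eq_zero.1 a4).resolve_right a1)
  have key : ∀ c0 : ℝ, (∀ᶠ σ in 𝓝 τ, ∃ n : ℤ, (if 0 ≤ (x σ).im then cp else -cm) - c0 = n * c) →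
      ∃ L : ℂ → ℝ, (∀ᶠ σ in 𝓝 τ,
        DI L (α * eta x (fun ρ => yy (x ρ) (s ρ)) σ - l * (deriv x σ / s σ)) σ) ∧
      ∀ᶠ σ in 𝓝 τ, ∃ n : ℤ, (if 0 ≤ (x σ).im then HT (s0 e1 e2 e3) Θ E α (x σ) (s σ)
        else -HT (s0 e1 e2 e3) Θ E α (conj (x σ)) (conj (s σ))) - L σ = n * c := by
    intro c0 hc0
    refine ⟨fun σ => L (x σ) + c0, ?_, ?_⟩
    · filter_upwards [xb, es.eventually_nhds, hx.eventually_analyticAt] with σ a1 a2 a3
      refine (((hL _ a1).comp a3.differentiableAt.hasDerivAt).add (DI.const c0 σ)).congr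
        (.refl _ _) ?_
      have dS := hb.hd.differentiableAt (isOpen_ball.mem_nhds a1)
      have ev : (fun ρ => yy (x ρ) (s ρ)) =ᶠ[𝓝 σ] fun ρ => yy (x ρ) (S (x ρ)) := by
        filter_upwards [a2] with ρ hρ
        rw [hρ]
      have e0 := eta_comp (f := id) (g := fun y => yy y (S y)) (h := x) (τ := σ)
        differentiableAt_id (by unfold yy; fun_prop) a3.differentiableAt
      have e3 : eta x (fun ρ => yy (x ρ) (s ρ)) σ = eta x (fun ρ => yy (x ρ) (S (x ρ))) σ := by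
        unfold eta; rw [LL_congr ev]
      rw [e3, a2.self_of_nhds, om, sub_mul, mul_assoc, ← e0]
      simp only [id]; ring
    · filter_upwards [xb, es, hc0] with σ a1 a2 ⟨n, hn⟩
      refine ⟨n, ?_⟩
      rw [a2, ← hn]
      split_ifs with hi
      · linarith [hp _ ⟨a1, hi⟩]
      · linarith [hm' _ a1 (not_le.1 hi).le]
  have ci : ContinuousAt (fun σ => (x σ).im) τ := continuous_im.continuousAt.comp hx.continuousAt
  rcases lt_trichotomy (x τ).im 0 with hi | hi | hi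
  · refine key (-cm) ?_
    filter_upwards [ci.eventually (gt_mem_nhds hi)] with σ a
    exact ⟨0, by rw [if_neg (not_le.2 a)]; simp⟩
  · refine key cp (.of_forall fun σ => ?_)
    have hx0 : x τ = ((x τ).re : ℂ) := Complex.ext rfl (by simpa using hi)
    obtain ⟨n, hn⟩ := real_jump hSQ h hE (α := α) h1 h2 hk (x τ).re (t := s τ)
      (by rw [← hx0]; exact hq.self_of_nhds) hs0
    have b1 := hp _ ⟨mem_ball_self hr, hi.ge⟩
    have b2 := hm' _ (mem_ball_self hr) hi.le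
    rw [hS] at b1 b2
    rw [conj_eq_iff_im.2 hi] at b2
    rw [← hx0] at hn
    split_ifs
    · exact ⟨0, by simp⟩
    · exact ⟨-n, by push_cast; linarith⟩
  · refine key cp ?_
    filter_upwards [ci.eventually (lt_mem_nhds hi)] with σ a
    exact ⟨0, by rw [if_pos a.le]; simp⟩

end C37
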