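import Pool.Agent.Lib.C37.Kit

open Complex Filter Topology Set MeasureTheory Asymptotics
open scoped Real ComplexConjugate

namespace C37

lemma Mod.div {F : ℂ → ℂ} (h : Mod F) (c : ℂ) : Mod fun τ => F τ / c :=
  ⟨h.hol.div_const c, fun a b c' d h1 h2 τ hτ => by rw [h.inv a b c' d h1 h2 τ hτ]; ring,
    by simpa using h.z1.div_const c, by simpa [div_right_comm] using h.z0.div_const c⟩

theorem st_FA (hMI : St_MI) (hMZ : St_MZ) (hQX : St_QX) (hCO1 : St_CO1) (hCO2 : St_CO2)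
    (hCB : St_CB) : St_FA := by
  have y1 : (3 : ZMod 37) * 25 = 1 := by decide
  have y2 : (5 : ZMod 37) * 15 = 1 := by decide
  have m : ∀ y yi : ZMod 37, y * yi = 1 → Mod (FF y yi) := fun y yi h =>
    ⟨(hQX y yi h).1, hMI y yi h, (hQX y yi h).2.1, hMZ y yi h⟩
  have b : ∀ (y yi : ZMod 37) (n : ℕ) (c : ℝ), 16 ≤ c →
      ‖(cf y yi (37 * n) : ℂ) / (c : ℂ)‖ ≤ 6400 * (n : ℝ) ^ 3 := fun y yi n c hc => by
    have h1 : |(cf y yi (37 * n) : ℝ)| ≤ 2 * (37 * n) ^ 3 := by exact_mod_cast hCB y yi (37 * n)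
    rw [norm_div, norm_intCast, norm_real, Real.norm_of_nonneg (by linarith),
      div_le_iff₀ (by linarith)]
    have : (0 : ℝ) ≤ (n : ℝ) ^ 3 := by positivity
    nlinarith
  refine ⟨(m _ _ y1).div 16, (m _ _ y2).div 24, fun τ hτ => ?_, fun τ hτ => ?_, fun n hn => ?_,
    fun n hn => ?_, fun n => by simpa [aa] using b 3 25 n 16 le_rfl,
    fun n => by simpa [ab] using b 5 15 n 24 (by norm_num)⟩
  · exact (((hQX _ _ y1).2.2 τ hτ).div_const 16).congr_fun fun n => by unfold aa; ring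
  · exact (((hQX _ _ y2).2.2 τ hτ).div_const 24).congr_fun fun n => by unfold ab; ring
  · rw [aa, hCO1 n hn]; push_cast; ring
  · rw [ab, hCO2 n hn]; push_cast; ring

theorem st_LP (hW : St_LPW) (hF : St_LPF) (hG : St_LPG) : St_LP := by
  intro e1 e2 e3 C E hC hE
  obtain ⟨W, h, w1, w2, w3, w4, w5, w6⟩ := hW e1 e2 e3 C hC
  obtain ⟨Φ, f1, f2, f3, f4⟩ := hF e1 e2 e3 C hC
  have h0 : 0 < h := lt_of_lt_of_le (by
    have : 0 < √(e1 - e3) := Real.sqrt_pos.mpr (by linarith [hC.h1, hC.h2, hC.h3])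
    have := Real.pi_pos
    positivity) w5
  obtain ⟨G, hG1⟩ := hG e1 e2 e3 C E hC hE (fun x => Φ x + π * mm e1 e2 e3 / h * W x) 1
    (π * mm e1 e2 e3 / h) 0 0 0 (f1.add (continuousOn_const.mul w1))
    (fun x hx => ((f2 x hx).add ((w2 x hx).cmul _)).congr (.refl _ _) (by push_cast; ring))
    (fun x hx => by rw [f3 x hx, w3 x hx]; ring)
    (fun x h1 h2 => by rw [f4 x h1 h2, w4 x h1 h2]; field_simp; ring) (by simp)
  obtain ⟨G', hG2⟩ := hG e1 e2 e3 C E hC hE (fun x => -W x) 0 (-1) (2 * h) (-h) (-1) w1.neg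
    (fun x hx => (w2 x hx).neg.congr (.refl _ _) (by push_cast; ring))
    (fun x hx => by rw [w3 x hx]; ring) (fun x h1 h2 => by rw [w4 x h1 h2]) (by push_cast; ring)
  exact ⟨h, G, G', w5, w6, hG1, hG2⟩

lemma hasDerivAt_uu (hE : St_ELL) {τ : ℂ} (hτ : τ ∈ UH) :
    HasDerivAt uu (2 * π * I / 37 * du τ) τ := by
  refine HasDerivAt.congr_deriv ((hE cu 1).1 τ hτ).cexp.neg ?_
  unfold du uu eld; push_cast; ring

lemma hasDerivAt_vv (hE : St_ELL) {τ : ℂ} (hτ : τ ∈ UH) :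
    HasDerivAt vv (2 * π * I / 37 * dv τ) τ := by
  refine HasDerivAt.congr_deriv ((hE cv 5).1 τ hτ).cexp ?_
  unfold dv vv eld; push_cast; ring

lemma uu_ne (τ : ℂ) : uu τ ≠ 0 := neg_ne_zero.mpr (exp_ne_zero _)
lemma vv_ne (τ : ℂ) : vv τ ≠ 0 := exp_ne_zero _

lemma tri_aux (hK : St_APK) (hS2 : St_S2) {F : ℂ → ℂ} {a : ℕ → ℂ} {l lD : List ℤ} (α β : ℂ)
    (hF : Mod F) (hs : ∀ τ ∈ UH, HasSum (fun n => a n * e τ ^ n) (F τ))
    (h19 : ∀ n < 19, a n = l.getD n 0) (h0 : lD.headD 0 = 1) (hD : Ap 150 Du lD)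
    (hA : Ap 150 (fun τ => (α * Aa (uu τ) (vv τ) 1 + β * Ab (uu τ) (vv τ) 1) * Wu τ)
      (mulT 150 lD l)) :
    (∀ τ ∈ UH, F (τ / 37) * Du τ = (α * Aa (uu τ) (vv τ) 1 + β * Ab (uu τ) (vv τ) 1) * Wu τ) ∧
      ∀ n < 150, a n = l.getD n 0 := by
  have hsQ : ∀ τ ∈ UH, HasSum (fun n => a n * Q τ ^ n) (F (τ / 37)) := fun τ hτ =>
    hs _ (div_mem_UH hτ)
  have refl : ∀ (M : ℕ) (s : List ℤ), eqT M s s = true := by
    intro M s
    induction s generalizing M with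
    | nil => simp [eqT, smL, addL]
    | cons x s ih =>
      cases M with
      | zero => simp [eqT]
      | succ M => simpa [eqT, smL, addL] using ih M
  obtain ⟨-, -, kmul, -, -, -, -, kdiv, kiff, ksum, kuniq⟩ := hK 150
  obtain ⟨-, -, -, -, -, -, -, -, kiff', ksum', -⟩ := hK 19
  have hQ : (fun τ => Q τ ^ 150) =O[cusp] fun τ => Q τ ^ 19 := by
    refine IsBigO.of_bound 1 ?_
    filter_upwards [ev_UH_cusp] with τ hτ
    rw [one_mul, norm_pow, norm_pow]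
    exact pow_le_pow_of_le_one (norm_nonneg _) (norm_Q_lt hτ).le (by norm_num)
  have hid : ∀ τ ∈ UH, F (τ / 37) * Du τ =
      (α * Aa (uu τ) (vv τ) 1 + β * Ab (uu τ) (vv τ) 1) * Wu τ := by
    refine hS2 F α β hF ?_
    have r : ∀ M, Ap M (fun τ => ev l (Q τ)) l := fun M => by
      simpa [Ap] using isBigO_zero (E' := ℂ) (fun τ => Q τ ^ M) cusp
    have h1 : (fun τ => F (τ / 37) - ev l (Q τ)) =O[cusp] fun τ => Q τ ^ 19 := by
      refine ((ksum' _ a hsQ).sub ((kiff' _ l).mp (r 19))).congr_left fun τ => ?_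
      rw [Finset.sum_congr rfl fun n hn => by rw [h19 n (Finset.mem_range.mp hn)]]
      ring
    have h2 : Du =O[cusp] fun _ => (1 : ℂ) := by
      have t1 : Tendsto (fun τ => Du τ - ev lD (Q τ)) cusp (𝓝 0) :=
        IsBigO.trans_tendsto hD (by simpa using tendsto_Q_cusp.pow 150)
      have c1 : Continuous (ev lD) := by
        clear hD hA h0 t1
        induction lD with
        | nil => exact continuous_const
        | cons x s ih => exact continuous_const.add (continuous_id.mul ih)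
      have t2 := t1.add ((c1.tendsto 0).comp tendsto_Q_cusp)
      exact Tendsto.isBigO_one ℂ (by simpa using t2)
    have h3 := (IsBigO.sub (kmul _ _ _ _ hD (r 150)) hA).trans hQ
    refine ((by simpa using h1.mul h2 : (fun τ => (F (τ / 37) - ev l (Q τ)) * Du τ) =O[cusp]
      fun τ => Q τ ^ 19).add h3).congr_left fun τ => ?_
    ring
  refine ⟨hid, fun n hn => ?_⟩
  have h4 : Ap 150 (fun τ => F (τ / 37)) l :=
    kdiv _ _ _ _ _ _ (by norm_num) hA hD (by rw [h0]; exact one_ne_zero)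
      (fun τ hτ => by rw [mul_comm]; exact hid τ hτ) (refl _ _)
  refine sub_eq_zero.mp (kuniq (fun n => a n - l.getD n 0) ?_ n hn)
  refine (((kiff _ l).mp h4).sub (ksum _ a hsQ)).congr_left fun τ => ?_
  simp only [sub_mul, Finset.sum_sub_distrib]; ring

theorem st_TRI (hK : St_APK) (hD : St_APD) (h0 : St_AP0) (hS0 : St_S0) (hS2 : St_S2)
    (hFA : St_FA) (hZ : St_ZF) (hE : St_ELL) : St_TRI := by
  obtain ⟨ma, mb, sa, sb, ca, cb, -, -⟩ := hFA
  obtain ⟨lD, d0, d1, d2, d3⟩ := hD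
  obtain ⟨a1, a2⟩ := tri_aux hK hS2 1 0 ma sa ca d0 d1 (by simpa using d2)
  obtain ⟨b1, b2⟩ := tri_aux hK hS2 0 1 mb sb cb d0 d1 (by simpa using d3)
  have za := (hZ fa aa ma (by rw [ca 0 (by norm_num)]; simp [La]) sa).1
  have zb := (hZ fb ab mb (by rw [cb 0 (by norm_num)]; simp [Lb]) sb).1
  refine ⟨⟨fun τ hτ => (hasDerivAt_uu hE hτ).differentiableAt.differentiableWithinAt,
    fun τ hτ => (hasDerivAt_vv hE hτ).differentiableAt.differentiableWithinAt,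
    differentiableOn_const _, fun τ hτ => (za τ hτ).differentiableAt.differentiableWithinAt,
    fun τ hτ => (zb τ hτ).differentiableAt.differentiableWithinAt, fun τ _ => uu_ne τ,
    fun τ _ => vv_ne τ, fun _ _ => one_ne_zero, hS0, fun τ hτ => ?_, fun τ hτ => ?_, h0.2, ?_⟩,
    a2, b2⟩
  · have := a1 τ hτ
    rw [(za τ hτ).deriv, (hasDerivAt_uu hE hτ).deriv, (hasDerivAt_vv hE hτ).deriv, deriv_const]
    unfold Du Wu Wn at this; unfold Wn
    linear_combination 2 * π * I / 37 * this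
  · have := b1 τ hτ
    rw [(zb τ hτ).deriv, (hasDerivAt_uu hE hτ).deriv, (hasDerivAt_vv hE hτ).deriv, deriv_const]
    unfold Du Wu Wn at this; unfold Wn
    linear_combination 2 * π * I / 37 * this
  · by_contra hc
    push Not at hc
    obtain ⟨-, -, -, -, -, -, -, -, kiff, -, kuniq⟩ := hK 1
    have h1 := (kiff _ _).mp ((hK 1).2.2.2.2.2.2.1 150 _ _ (by norm_num) d1)
    have h2 := kuniq (fun n => -((lD.take 1).getD n 0 : ℤ)) (h1.congr' (by
      filter_upwards [ev_UH_cusp] with τ hτ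
      have : Du τ = 0 := hc τ hτ
      simp [this]) (.refl _ _)) 0 one_pos
    cases lD with
    | nil => simp at d0
    | cons x s => simp at d0 h2; omega

theorem st_MAIN (hFA : St_FA) (hT : St_TRI) (hZ : St_ZF) (hNA : St_NA) (hNB : St_NB)
    (hLOC : St_LOC) (hGL : St_GLOB) (hPER : St_PER) (hEND : St_END) (hRZ : St_RZ)
    (hETA : St_ETA) (hCF : St_CF) (hLF : St_LF) (hFP : St_FP) (hJ : St_JEN) (hCV : St_CV) :
    St_MAIN := by
  obtain ⟨ma, mb, sa, sb, ca, cb, ba, bb⟩ := hFA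
  obtain ⟨tri, a150, b150⟩ := hT
  obtain ⟨Ψ, Wa, Wb, lb, ha, hb, h1, h2, h3, hL⟩ := hLOC
  obtain ⟨P, hP⟩ := hETA UH uu vv isOpen_UH convex_UH tri.dx tri.dy tri.nx tri.ny
  have za := (hZ fa aa ma (by rw [ca 0 (by norm_num)]; simp [La]) sa).2
  have zb := (hZ fb ab mb (by rw [cb 0 (by norm_num)]; simp [Lb]) sb).2
  have hc := hPER Ψ Wa Wb _ lb ha hb (hGL _ _ _ _ _ _ _ hL) h1 h2 h3 _ _ _ _ tri
    (fun τ hτ => congrArg im (za τ hτ)) (fun τ hτ => congrArg im (zb τ hτ))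
    (hNA aa a150 ba).1 (hNA aa a150 ba).2 (hNB ab b150 bb) P hP
  obtain ⟨v, r1, r2⟩ := hRZ
  have hv := hEND P _ _ hP hc r2
  have hm : mP = -(7 / 2) * (v / 16) := by
    have := Real.pi_pos
    field_simp at hv
    linarith
  obtain ⟨f, hf⟩ := hCF fa ma
  obtain ⟨L, l1, l2, l3, l4⟩ := hLF f fa aa hf sa
  have l5 : deriv L 0 = ((v / 16 : ℝ) : ℂ) := by
    rw [l4, ← ((r1.cmul (1 / 16)).congr (fun _ _ => rfl) (by ring : 1 / 16 * v = v / 16)).2,
      ← integral_complex_ofReal]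
    refine setIntegral_congr_fun measurableSet_Ioi fun t ht => ?_
    simp only [fa, hFP 3 25 (by decide) t ht]
    push_cast; ring
  obtain ⟨⟨e1, e2, e3, hC, -⟩, -⟩ := hCV
  have hpos := (hJ e1 e2 e3 hC).2
  refine ⟨f, aa, fun τ => hf τ ▸ sa τ τ.2, ?_, ?_, ?_, ?_, ?_, ?_, L, l1, l2, l3, ?_, ?_⟩
  iterate 6 rw [ca _ (by norm_num)]; simp [La]
  · rw [l5, ofReal_ne_zero]; intro h; rw [h] at hm; linarith
  · rw [l5, hm]; push_cast; ring

end C37
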