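import Pool.Agent.Lib.C37.Kit

/-! Invariance of the products of Eisenstein series under the level 37 group. -/

open Complex Filter Topology Set MeasureTheory Asymptotics
open scoped Real ComplexConjugate

namespace C37

namespace MI

lemma den_ne {a b c d : ℤ} (h : a * d - b * c = 1) {τ : ℂ} (hτ : τ ∈ UH) :
    (c * τ + d : ℂ) ≠ 0 := by
  intro h0
  have h1 : 0 < τ.im := hτ
  have h2 := congrArg Complex.im h0
  have h3 := congrArg Complex.re h0
  simp at h2 h3
  rcases h2 with h2 | h2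
  · subst h2
    simp at h3
    subst h3
    simp at h
  · exact h1.ne' h2

lemma mob_mem {a b c d : ℤ} (h : a * d - b * c = 1) {τ : ℂ} (hτ : τ ∈ UH) :
    ((a * τ + b) / (c * τ + d) : ℂ) ∈ UH := by
  have h1 : 0 < τ.im := hτ
  have h2 := normSq_pos.mpr (den_ne h hτ)
  have h3 : (a : ℝ) * d - b * c = 1 := by exact_mod_cast h
  show 0 < ((a * τ + b) / (c * τ + d) : ℂ).im
  rw [div_im, ← sub_div]
  refine div_pos ?_ h2
  simp
  nlinarith

lemma nz_val {A : ZMod 37} (hA : A ≠ 0) (n : ℤ) : NZ ((A.val : ℤ), n) := by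
  rintro ⟨h, -⟩
  apply hA
  have h1 : (37 : ℕ) ∣ A.val := Int.natCast_dvd_natCast.mp h
  have h2 : ((A.val : ℕ) : ZMod 37) = 0 := (ZMod.natCast_eq_zero_iff _ _).mpr h1
  simpa using h2

lemma red (hL : Law 1 hh) (m n : ℤ) (hm : (m : ZMod 37) ≠ 0) {τ : ℂ} (hτ : τ ∈ UH) :
    hh (m, n) τ = hh (((m : ZMod 37).val : ℤ), ((n : ZMod 37).val : ℤ)) τ := by
  rw [← hL.per _ (m / 37, n / 37) (nz_val hm _) τ hτ]
  congr 1
  ext
  · simp only [ZMod.val_intCast, Prod.fst_add, Prod.smul_fst, smul_eq_mul]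
    push_cast; omega
  · simp only [ZMod.val_intCast, Prod.snd_add, Prod.smul_snd, smul_eq_mul]
    push_cast; omega

lemma es_tr (hEE : St_EE) (hHL : St_HL) (hACT : St_ACT) {a b c d : ℤ} (h : a * d - b * c = 1)
    (hc : (37 : ℤ) ∣ c) {τ : ℂ} (hτ : τ ∈ UH) {A D : ZMod 37} (hA : A ≠ 0) (hD : D ≠ 0) :
    es A D ((a * τ + b) / (c * τ + d)) =
      (c * τ + d) * ψ (a * b * (A * D)) * es (A * a) (D * a) τ := by
  have c0 : (c : ZMod 37) = 0 := (ZMod.intCast_zmod_eq_zero_iff_dvd c 37).mpr hc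
  have had : (a : ZMod 37) * d = 1 := by
    have := congrArg (Int.cast : ℤ → ZMod 37) h
    push_cast at this
    rw [c0] at this
    simpa using this
  have a0 : (a : ZMod 37) ≠ 0 := left_ne_zero_of_mul_eq_one had
  have d0 : (d : ZMod 37) ≠ 0 := right_ne_zero_of_mul_eq_one had
  rw [hEE A D hA hD _ (mob_mem h hτ), hEE _ _ (mul_ne_zero hA a0) (mul_ne_zero hD a0) τ hτ]
  have key : ∀ B : ZMod 37, ψ (-(B * D)) * hh (A.val, B.val) ((a * τ + b) / (c * τ + d)) =
      (c * τ + d) * ψ (a * b * (A * D)) *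
        (ψ (-((B * d + A * b) * (D * a))) * hh ((A * a).val, (B * d + A * b).val) τ) := by
    intro B
    have e1 : (((A.val : ℤ) * a + (B.val : ℤ) * c : ℤ) : ZMod 37) = A * a := by
      push_cast; simp [c0]
    have e2 : (((A.val : ℤ) * b + (B.val : ℤ) * d : ℤ) : ZMod 37) = B * d + A * b := by
      push_cast; simp [add_comm]
    rw [hACT 1 hh hHL.1 a b c d h _ (nz_val hA _) τ hτ,
      red hHL.1 _ _ (by rw [e1]; exact mul_ne_zero hA a0) hτ, e1, e2]
    have e3 : -(B * D) = a * b * (A * D) + -((B * d + A * b) * (D * a)) := by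
      linear_combination (B * D) * had
    rw [e3, psi_add]; ring
  rw [Finset.sum_congr rfl fun B _ => key B, ← Finset.mul_sum,
    ← Equiv.sum_comp ((Equiv.mulRight₀ (d : ZMod 37) d0).trans (Equiv.addRight (A * b)))
      (fun B => ψ (-(B * (D * a))) * hh ((A * a).val, B.val) τ)]
  simp only [Equiv.trans_apply, Equiv.mulRight₀_apply, Equiv.coe_addRight]
  ring

def W (s r : ZMod 37) : ℤ :=
  ((if s = 26 ^ 0 then 1 else 0) - if s = 26 ^ 2 then 1 else 0) *
      ((if r = 26 ^ 1 then 1 else 0) - if r = 26 ^ 2 then 1 else 0) -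
    ((if s = 26 ^ 1 then 1 else 0) - if s = 26 ^ 2 then 1 else 0) *
      ((if r = 26 ^ 0 then 1 else 0) - if r = 26 ^ 2 then 1 else 0)

lemma wt_eq (yi A D : ZMod 37) : wt yi A D = W (A ^ 12) ((D * yi) ^ 12) := rfl

lemma W26 : ∀ s r : ZMod 37, W (s * 26) (r * 26) = W s r := by decide +kernel
lemma W10 : ∀ s r : ZMod 37, W (s * 10) (r * 10) = W s r := by decide +kernel
lemma W0 : ∀ s : ZMod 37, W 0 s = 0 ∧ W s 0 = 0 := by decide +kernel
lemma p12 : ∀ t : ZMod 37, t ≠ 0 → t ^ 12 = 1 ∨ t ^ 12 = 26 ∨ t ^ 12 = 10 := by decide +kernel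

lemma wt_mul (yi A D : ZMod 37) {t : ZMod 37} (ht : t ≠ 0) :
    wt yi (A * t) (D * t) = wt yi A D := by
  rw [wt_eq, wt_eq, mul_right_comm D t yi, mul_pow A, mul_pow (D * yi)]
  rcases p12 t ht with h | h | h <;> rw [h]
  · rw [mul_one, mul_one]
  · exact W26 _ _
  · exact W10 _ _

end MI

open MI in
theorem st_MI (hEE : St_EE) (hHL : St_HL) (hACT : St_ACT) : St_MI := by
  intro y yi hy a b c d h hc τ hτ
  have c0 : (c : ZMod 37) = 0 := (ZMod.intCast_zmod_eq_zero_iff_dvd c 37).mpr hc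
  have had : (a : ZMod 37) * d = 1 := by
    have := congrArg (Int.cast : ℤ → ZMod 37) h
    push_cast at this
    rw [c0] at this
    simpa using this
  have a0 : (a : ZMod 37) ≠ 0 := left_ne_zero_of_mul_eq_one had
  have y0 : y ≠ 0 := left_ne_zero_of_mul_eq_one hy
  have yi0 : yi ≠ 0 := right_ne_zero_of_mul_eq_one hy
  have key : ∀ A D : ZMod 37, (wt yi A D : ℂ) * es A D ((a * τ + b) / (c * τ + d)) *
      es (A * y) (-(D * yi)) ((a * τ + b) / (c * τ + d)) = (c * τ + d) ^ 2 *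
      ((wt yi (A * a) (D * a) : ℂ) * es (A * a) (D * a) τ *
        es (A * a * y) (-(D * a * yi)) τ) := by
    intro A D
    rw [wt_mul yi A D a0]
    by_cases hA : A = 0
    · rw [wt_eq, hA, zero_pow (by norm_num), (W0 _).1]; simp
    by_cases hD : D = 0
    · rw [wt_eq, hD, zero_mul, zero_pow (by norm_num), (W0 _).2]; simp
    rw [es_tr hEE hHL hACT h hc hτ hA hD, es_tr hEE hHL hACT h hc hτ (mul_ne_zero hA y0)
      (neg_ne_zero.mpr (mul_ne_zero hD yi0))]
    have e1 : ψ (a * b * (A * D)) * ψ (a * b * (A * y * -(D * yi))) = 1 := by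
      rw [← psi_add, show (a : ZMod 37) * b * (A * D) + a * b * (A * y * -(D * yi)) = 0 by
        linear_combination (-(a * b * A * D) : ZMod 37) * hy]
      exact AddChar.map_zero_eq_one _
    rw [show A * y * a = A * a * y by ring, show -(D * yi) * a = -(D * a * yi) by ring]
    linear_combination (wt yi A D : ℂ) * (c * τ + d) ^ 2 * es (A * a) (D * a) τ *
      es (A * a * y) (-(D * a * yi)) τ * e1
  unfold FF
  simp only [key, ← Finset.mul_sum]
  rw [← Equiv.sum_comp (Equiv.mulRight₀ (a : ZMod 37) a0)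
    (fun A => ∑ D, (wt yi A D : ℂ) * es A D τ * es (A * y) (-(D * yi)) τ)]
  have e2 : ∀ A : ZMod 37, ∑ D, (wt yi A D : ℂ) * es A D τ * es (A * y) (-(D * yi)) τ =
      ∑ D, (wt yi A (D * a) : ℂ) * es A (D * a) τ * es (A * y) (-(D * a * yi)) τ := fun A =>
    (Equiv.sum_comp (Equiv.mulRight₀ (a : ZMod 37) a0)
      (fun D => (wt yi A D : ℂ) * es A D τ * es (A * y) (-(D * yi)) τ)).symm
  simp only [Equiv.mulRight₀_apply, e2]
  ring

end C37
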