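import Pool.Agent.Lib.C37.Kit

/-! Numerical enclosures of two periods. -/

open Complex Filter Topology Set
open scoped Real

namespace C37.NUM

/-- the complex number with rational coordinates -/
noncomputable def tc (a : ℚ × ℚ) : ℂ := (a.1 : ℝ) + (a.2 : ℝ) * I

/-- Horner evaluation of `∑ i < n, f (k + i) x ^ i` in rational coordinates -/
def hn (f : ℕ → ℚ) (x : ℚ × ℚ) : ℕ → ℕ → ℚ × ℚ
  | 0, _ => (0, 0)
  | n + 1, k =>
    (f k + (x.1 * (hn f x n (k + 1)).1 - x.2 * (hn f x n (k + 1)).2),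
      x.1 * (hn f x n (k + 1)).2 + x.2 * (hn f x n (k + 1)).1)

lemma tc_hn (f : ℕ → ℚ) (x : ℚ × ℚ) (n : ℕ) : ∀ k : ℕ,
    tc (hn f x n k) = ∑ i ∈ Finset.range n, (f (k + i) : ℂ) * tc x ^ i := by
  induction n with
  | zero => intro k; simp [hn, tc]
  | succ n ih =>
    intro k
    have h : tc (hn f x (n + 1) k) = f k + tc x * tc (hn f x n (k + 1)) := by
      simp only [hn, tc]
      push_cast
      linear_combination (-(x.2 : ℂ) * ((hn f x n (k + 1)).2 : ℂ)) * I_mul_I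
    rw [h, ih, Finset.sum_range_succ', Finset.mul_sum, add_comm]
    congr 1
    · exact Finset.sum_congr rfl fun i _ => by rw [show k + 1 + i = k + (i + 1) by ring]; ring
    · simp

lemma tc_im (a : ℚ × ℚ) : (tc a).im = a.2 := by simp [tc]

lemma tc_re (a : ℚ × ℚ) : (tc a).re = a.1 := by simp [tc]

lemma norm_tc_sub (a b : ℚ × ℚ) : ‖tc a - tc b‖ ≤ ((|a.1 - b.1| + |a.2 - b.2| : ℚ) : ℝ) := by
  refine (norm_le_abs_re_add_abs_im _).trans (le_of_eq ?_)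
  rw [sub_re, sub_im, tc_im, tc_im, tc_re, tc_re]; push_cast; rfl

lemma norm_tc_le {a : ℚ × ℚ} (h : a.1 ^ 2 + a.2 ^ 2 ≤ 72 / 100) : ‖tc a‖ ≤ 0.849 := by
  have h1 : ((a.1 : ℝ)) ^ 2 + (a.2 : ℝ) ^ 2 ≤ 72 / 100 := by
    have := (Rat.cast_le (K := ℝ)).mpr h
    push_cast at this; exact this
  refine abs_le_of_sq_le_sq' (a := ‖tc a‖) ?_ (by norm_num) |>.2
  rw [Complex.sq_norm, normSq_apply, tc_re, tc_im]
  nlinarith

lemma pow_sub_le {x y : ℂ} {r : ℝ} (hx : ‖x‖ ≤ r) (hy : ‖y‖ ≤ r) (n : ℕ) :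
    r * ‖x ^ n - y ^ n‖ ≤ n * r ^ n * ‖x - y‖ := by
  have hr : 0 ≤ r := (norm_nonneg _).trans hx
  induction n with
  | zero => simp
  | succ n ih =>
    have h1 : ‖x ^ (n + 1) - y ^ (n + 1)‖ ≤ r * ‖x ^ n - y ^ n‖ + ‖x - y‖ * r ^ n := by
      rw [show x ^ (n + 1) - y ^ (n + 1) = x * (x ^ n - y ^ n) + (x - y) * y ^ n by ring]
      refine (norm_add_le _ _).trans ?_
      rw [norm_mul, norm_mul, norm_pow]
      gcongr
    calc _ ≤ r * (n * r ^ n * ‖x - y‖ + ‖x - y‖ * r ^ n) :=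
          mul_le_mul_of_nonneg_left (h1.trans (by linarith)) hr
      _ = _ := by push_cast; ring

/-- the rational point close to `2 π (-1 + y i) / 37` -/
def zq (y : ℕ) : ℚ × ℚ := (-(2 * (3141592 / 1000000) / 37), 2 * (3141592 / 1000000) * y / 37)

/-- the Taylor value -/
def tq (y : ℕ) : ℚ × ℚ := hn (fun m => ((m.factorial : ℚ))⁻¹) (zq y) 14 0

lemma approx (y : ℕ) (hy : y ≤ 12) (x0 : ℚ × ℚ)
    (h : |(tq y).1 - x0.1| + |(tq y).2 - x0.2| ≤ 1 / 100000) :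
    ‖Q (y + I) - tc x0‖ ≤ 0.00002 := by
  set u : ℂ := 2 * (-1 + y * I) / 37 with hu
  have hy' : (y : ℝ) ≤ 12 := by exact_mod_cast hy
  have nu : ‖u‖ ≤ 26 / 37 := by
    have : ‖(-1 + y * I : ℂ)‖ ≤ 13 := by
      refine (norm_add_le _ _).trans ?_
      rw [norm_neg, norm_one, norm_mul, norm_I, Complex.norm_natCast]; linarith
    rw [hu, norm_div, norm_mul, Complex.norm_ofNat, Complex.norm_ofNat]
    linarith
  have hQ : Q (y + I) = cexp (π * u) := by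
    unfold Q e; congr 1; rw [hu]
    linear_combination (2 * π / 37 : ℂ) * I_mul_I
  have hz : tc (zq y) = ((3.141592 : ℝ) : ℂ) * u := by
    simp only [tc, zq, hu]; push_cast; ring
  have n1 : ‖Q (y + I)‖ ≤ 1 := (norm_Q_lt (show 0 < (y + I : ℂ).im by simp)).le
  have p1 := Real.pi_gt_d6
  have p2 := Real.pi_lt_d6
  have e1 : ‖Q (y + I) - cexp (tc (zq y))‖ ≤ 0.000002 := by
    have hw : ‖(((3.141592 - π : ℝ) : ℂ) * u)‖ ≤ 0.000001 := by
      rw [norm_mul, Complex.norm_real, Real.norm_eq_abs, abs_sub_comm, abs_of_pos (by linarith)]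
      nlinarith [norm_nonneg u]
    have h2 := norm_exp_sub_one_le (hw.trans (by norm_num))
    have h3 : Q (y + I) - cexp (tc (zq y)) =
        -(Q (y + I) * (cexp (((3.141592 - π : ℝ) : ℂ) * u) - 1)) := by
      rw [hz, hQ, mul_sub, ← exp_add]
      push_cast
      rw [show π * u + (3.141592 - π) * u = 3.141592 * u by ring]; ring
    rw [h3, norm_neg, norm_mul]
    nlinarith [norm_nonneg (cexp (((3.141592 - π : ℝ) : ℂ) * u) - 1), norm_nonneg (Q (y + I))]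
  have nz : ‖tc (zq y)‖ ≤ 2.21 := by
    rw [hz, norm_mul, Complex.norm_real, Real.norm_eq_abs, abs_of_pos (by norm_num)]
    linarith
  have e2 : ‖cexp (tc (zq y)) - tc (tq y)‖ ≤ 0.000002 := by
    have h2 := Complex.exp_bound' (x := tc (zq y)) (n := 14) (by
      rw [div_le_iff₀ (by positivity)]; push_cast; linarith)
    have h3 : tc (tq y) = ∑ m ∈ Finset.range 14, tc (zq y) ^ m / m.factorial := by
      rw [tq, tc_hn]
      exact Finset.sum_congr rfl fun i _ => by rw [zero_add]; push_cast; ring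
    rw [h3]
    refine h2.trans ?_
    have h4 : ‖tc (zq y)‖ ^ 14 ≤ 2.21 ^ 14 := by gcongr
    have h5 : ((Nat.factorial 14 : ℕ) : ℝ) = 87178291200 := by norm_num [Nat.factorial]
    rw [h5]
    have h6 : (2.21 : ℝ) ^ 14 ≤ 70000 := by norm_num
    linarith
  have e3 : ‖tc (tq y) - tc x0‖ ≤ 0.00001 := by
    refine (norm_tc_sub _ _).trans (((Rat.cast_le (K := ℝ)).mpr h).trans ?_)
    norm_num
  have e4 := norm_add₃_le (a := Q (y + I) - cexp (tc (zq y))) (b := cexp (tc (zq y)) - tc (tq y))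
    (c := tc (tq y) - tc x0)
  rw [show Q (y + I) - cexp (tc (zq y)) + (cexp (tc (zq y)) - tc (tq y)) + (tc (tq y) - tc x0) =
    Q (y + I) - tc x0 by ring] at e4
  linarith

lemma tail_term {a : ℕ → ℂ} (hb : ∀ n : ℕ, ‖a n‖ ≤ 6400 * (n : ℝ) ^ 3) {x : ℂ} (hx : ‖x‖ ≤ 0.85)
    (k : ℕ) : ‖a (k + 150) / (k + 150 : ℕ) * x ^ (k + 150)‖ ≤ 0.004 * 0.862 ^ k := by
  have hk : (0 : ℝ) ≤ k := Nat.cast_nonneg k
  have h0 : (0 : ℝ) < ((k + 150 : ℕ) : ℝ) := by positivity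
  have h1 : ‖a (k + 150) / (k + 150 : ℕ)‖ ≤ 6400 * ((k + 150 : ℕ) : ℝ) ^ 2 := by
    rw [norm_div, Complex.norm_natCast, div_le_iff₀ h0]
    refine (hb _).trans (le_of_eq ?_); ring
  have h2 : ((k + 150 : ℕ) : ℝ) ≤ 150 * (1 + 1 / 150) ^ k := by
    have := one_add_mul_le_pow (a := (1 / 150 : ℝ)) (by norm_num) k
    push_cast; linarith
  have h3 : (0.85 : ℝ) ^ 150 ≤ 26 / 1000000000000 := by norm_num
  have h4 : ((1 + 1 / 150 : ℝ) ^ 2 * 0.85) ^ k ≤ 0.862 ^ k := by gcongr; norm_num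
  rw [norm_mul, norm_pow]
  calc _ ≤ 6400 * (150 * (1 + 1 / 150) ^ k) ^ 2 * (0.85 : ℝ) ^ (k + 150) := by
        refine mul_le_mul (h1.trans ?_) (by gcongr) (by positivity) (by positivity)
        gcongr
    _ = 6400 * 150 ^ 2 * 0.85 ^ 150 * ((1 + 1 / 150 : ℝ) ^ 2 * 0.85) ^ k := by
        rw [mul_pow, mul_pow, pow_add, ← pow_mul, ← pow_mul, mul_comm k 2]; ring
    _ ≤ 0.004 * 0.862 ^ k := mul_le_mul (by linarith) h4 (by positivity) (by norm_num)

lemma key (L : List ℤ) (hL : ∀ n < 150, |L.getD n 0| ≤ 30) {a : ℕ → ℂ}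
    (ha : ∀ n < 150, a n = L.getD n 0) (hb : ∀ n : ℕ, ‖a n‖ ≤ 6400 * (n : ℝ) ^ 3) {x : ℂ}
    (x0 : ℚ × ℚ) (h1 : ‖x - tc x0‖ ≤ 0.00002) (h2 : ‖tc x0‖ ≤ 0.849) :
    |(∑' n : ℕ, a n / n * x ^ n).im - (hn (fun n => (L.getD n 0 : ℚ) / n) x0 150 0).2| ≤ 0.04 := by
  have hx : ‖x‖ ≤ 0.85 := by
    have := norm_add_le (x - tc x0) (tc x0)
    rw [sub_add_cancel] at this; linarith
  have hy : ‖tc x0‖ ≤ 0.85 := by linarith
  have g1 : HasSum (fun k : ℕ => 0.004 * (0.862 : ℝ) ^ k) (0.004 * (1 - 0.862)⁻¹) :=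
    (hasSum_geometric_of_lt_one (by norm_num) (by norm_num)).mul_left _
  have s1 : Summable fun k : ℕ => a (k + 150) / (k + 150 : ℕ) * x ^ (k + 150) :=
    Summable.of_norm_bounded g1.summable (tail_term hb hx)
  have s2 : Summable fun n : ℕ => a n / n * x ^ n := (summable_nat_add_iff 150).mp s1
  have t1 := tsum_of_norm_bounded g1 (tail_term hb hx)
  have t2 : ‖∑ n ∈ Finset.range 150, a n / n * x ^ n -
      tc (hn (fun n => (L.getD n 0 : ℚ) / n) x0 150 0)‖ ≤ 0.005 := by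
    rw [tc_hn, ← Finset.sum_sub_distrib]
    have b1 : ∀ n ∈ Finset.range 150, ‖a n / n * x ^ n -
        (((L.getD (0 + n) 0 : ℚ) / (0 + n : ℕ) : ℚ) : ℂ) * tc x0 ^ n‖ ≤ 0.00071 * 0.85 ^ n := by
      intro n hn
      have hn' := Finset.mem_range.mp hn
      rw [zero_add, ha n hn']
      push_cast
      rw [← mul_sub, norm_mul, norm_div, Complex.norm_natCast, Complex.norm_intCast]
      rcases Nat.eq_zero_or_pos n with rfl | h0
      · simp; norm_num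
      have h3 : (0 : ℝ) < n := by exact_mod_cast h0
      have h4 : |((L.getD n 0 : ℤ) : ℝ)| ≤ 30 := by exact_mod_cast hL n hn'
      have h5 := pow_sub_le hx hy n
      have h6 : (0 : ℝ) < 0.85 ^ n := by positivity
      have h7 : (n : ℝ) * 0.85 ^ n * ‖x - tc x0‖ ≤ n * 0.85 ^ n * 0.00002 := by gcongr
      have h8 : (0 : ℝ) < n * 0.85 ^ n := by positivity
      rw [div_mul_eq_mul_div, div_le_iff₀ h3]
      have h9 : |((L.getD n 0 : ℤ) : ℝ)| * ‖x ^ n - tc x0 ^ n‖ ≤ 30 * ‖x ^ n - tc x0 ^ n‖ := by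
        gcongr
      nlinarith
    refine (norm_sum_le_of_le _ b1).trans ?_
    have g2 : HasSum (fun k : ℕ => 0.00071 * (0.85 : ℝ) ^ k) (0.00071 * (1 - 0.85)⁻¹) :=
      (hasSum_geometric_of_lt_one (by norm_num) (by norm_num)).mul_left _
    refine (sum_le_hasSum _ (fun _ _ => by positivity) g2).trans ?_
    norm_num
  rw [← tc_im, ← sub_im, ← s2.sum_add_tsum_nat_add 150]
  refine (abs_im_le_norm _).trans ?_
  rw [add_sub_right_comm]
  refine (norm_add_le _ _).trans ?_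
  have t3 : (0.004 * (1 - 0.862)⁻¹ : ℝ) ≤ 0.03 := by norm_num
  linarith

def x3 : ℚ × ℚ := (736667 / 1000000, 411527 / 1000000)
def x12 : ℚ × ℚ := (-379891 / 1000000, 753469 / 1000000)

lemma a3 : ‖Q (3 + I) - tc x3‖ ≤ 0.00002 := by
  simpa using approx 3 (by norm_num) x3 (by decide +kernel)
lemma a12 : ‖Q (12 + I) - tc x12‖ ≤ 0.00002 := by
  simpa using approx 12 (by norm_num) x12 (by decide +kernel)

/-- the exact head value -/
def hd (L : List ℤ) : ℚ :=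
  (hn (fun n => (L.getD n 0 : ℚ) / n) x3 150 0).2 - (hn (fun n => (L.getD n 0 : ℚ) / n) x12 150 0).2

lemma both (L : List ℤ) (hL : ∀ n < 150, |L.getD n 0| ≤ 30) {a : ℕ → ℂ}
    (ha : ∀ n < 150, a n = L.getD n 0) (hb : ∀ n : ℕ, ‖a n‖ ≤ 6400 * (n : ℝ) ^ 3) :
    |(ZZ a (3 + I) - ZZ a (12 + I)).im - hd L| ≤ 0.08 := by
  have h1 := abs_le.mp (key L hL ha hb x3 a3 (norm_tc_le (by decide +kernel)))
  have h2 := abs_le.mp (key L hL ha hb x12 a12 (norm_tc_le (by decide +kernel)))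
  rw [sub_im, hd, Rat.cast_sub, abs_le]
  unfold ZZ
  constructor <;> linarith [h1.1, h1.2, h2.1, h2.2]

lemma hdA : -5 / 2 < hd La ∧ hd La < -12 / 5 := by decide +kernel
lemma hdB : -1 / 10 < hd Lb ∧ hd Lb < 1 / 10 := by decide +kernel

end C37.NUM

theorem C37.st_NA : C37.St_NA := by
  intro a ha hb
  have h := abs_le.mp (C37.NUM.both C37.La (by decide +kernel) ha hb)
  have h1 := (Rat.cast_lt (K := ℝ)).mpr C37.NUM.hdA.1
  have h2 := (Rat.cast_lt (K := ℝ)).mpr C37.NUM.hdA.2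
  push_cast at h1 h2
  constructor <;> linarith [h.1, h.2]

theorem C37.st_NB : C37.St_NB := by
  intro a ha hb
  have h := abs_le.mp (C37.NUM.both C37.Lb (by decide +kernel) ha hb)
  have h1 := (Rat.cast_lt (K := ℝ)).mpr C37.NUM.hdB.1
  have h2 := (Rat.cast_lt (K := ℝ)).mpr C37.NUM.hdB.2
  push_cast at h1 h2
  rw [abs_lt]
  constructor <;> linarith [h.1, h.2]
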