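import Pool.Agent.Lib.C37.Kit

/-! Block PER: the period of the primitive of `eta uu vv`. -/

open Complex Filter Topology Set
open scoped Real

namespace C37

lemma PER.per_tr (hROT : St_ROT) {x y z x' y' z' : ℂ → ℂ} {s t c : ℂ} (hc : c ≠ 0) (hs : s ∈ UH)
    (h1 : x s = c * x' t) (h2 : y s = c * y' t) (h3 : z s = c * z' t) (ht : t ∈ GT x' y' z') :
    s ∈ GT x y z ∧ ∀ F : ℂ → ℂ → ℝ, cp F x y z s = cp F x' y' z' t := by
  obtain ⟨k1, k2, k3⟩ := hROT.2 c (x' t) (y' t) (z' t) hc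
  refine ⟨⟨hs, ?_⟩, fun F => ?_⟩
  · rw [h1, h2, h3]; exact k3 ht.2
  · unfold cp; rw [h1, h2, h3, k1, k2]

lemma PER.per_one (f : ℂ → ℂ) (τ : ℂ) : eta f (fun _ => 1) τ = 0 ∧ eta (fun _ => 1) f τ = 0 := by
  unfold eta
  rw [LL_const norm_one]
  simp [wd]

theorem st_PER (hKEY : St_KEY) (hROT : St_ROT) (hCNT : St_CNT) : St_PER := by
  intro Ψ Wa Wb la lb ha hb hG a1 a2 b1 Za Zb Sa Sb T0 hA hB s1 s2 s3 P hP
  have T1 := hROT.1 _ _ _ _ _ T0
  have T2 := hROT.1 _ _ _ _ _ T1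
  have G0 := hG _ _ _ _ _ T0 P fun τ h => by
    simpa only [cyc, (PER.per_one _ _).1, (PER.per_one _ _).2, add_zero] using hP τ h
  have G1 := hG _ _ _ _ _ T1 P fun τ h => by
    simpa only [cyc, (PER.per_one _ _).1, (PER.per_one _ _).2, add_zero, zero_add] using hP τ h
  have G2 := hG _ _ _ _ _ T2 P fun τ h => by
    simpa only [cyc, (PER.per_one _ _).1, (PER.per_one _ _).2, add_zero, zero_add] using hP τ h
  have hS := (((hCNT _ _ _ _ _ T0).union (hCNT _ _ _ _ _ T1)).union (hCNT _ _ _ _ _ T2)).preimage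
    (add_left_injective (12 : ℂ))
  have u12 : ∀ τ ∈ UH, τ + 12 ∈ UH := fun τ h => add_mem_UH h (by simp)
  intro τ hτ
  have hf := mem_closure_iff_frequently.1
    ((hS.dense_compl ℝ).open_subset_closure_inter isOpen_UH hτ)
  have hc : ContinuousAt (fun σ => P (3 - 1 / σ) - P (σ + 12)) τ :=
    (ContinuousAt.comp (f := fun σ : ℂ => 3 - 1 / σ) (hP _ (key_mem_UH hτ)).continuousAt
      (continuousAt_const.sub (continuousAt_const.div continuousAt_id (ne_of_UH hτ)))).sub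
    (ContinuousAt.comp (f := fun σ : ℂ => σ + 12) (hP _ (u12 τ hτ)).continuousAt (by fun_prop))
  refine tendsto_nhds_unique_of_frequently_eq hc tendsto_const_nhds (hf.mono fun σ ⟨h, h'⟩ => ?_)
  have h2 := u12 σ h
  have h1 := key_mem_UH h
  simp only [mem_compl_iff, mem_preimage, mem_union, Set.mem_sdiff, h2, true_and, not_or, not_not] at h'
  obtain ⟨⟨g0, g1⟩, g2⟩ := h'
  have v0 := T0.ny _ h2
  have hc := one_div_ne_zero v0
  have e1 : uu (3 - 1 / σ) = 1 / vv (σ + 12) * 1 := by rw [(hKEY σ h).1, mul_one]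
  have e2 : vv (3 - 1 / σ) = 1 / vv (σ + 12) * uu (σ + 12) := by
    rw [(hKEY σ h).2, one_div_mul_eq_div]
  have e3 : (1 : ℂ) = 1 / vv (σ + 12) * vv (σ + 12) := (one_div_mul_cancel v0).symm
  obtain ⟨m0, r0⟩ := PER.per_tr hROT (z := fun _ => 1) hc h1 e1 e2 e3 g2
  obtain ⟨m1, r1⟩ := PER.per_tr hROT (y := fun _ => 1) hc h1 e2 e3 e1 g0
  obtain ⟨m2, r2⟩ := PER.per_tr hROT (x := fun _ => 1) hc h1 e3 e1 e2 g1
  obtain ⟨p0, ⟨n0, q0⟩, k0, t0⟩ := G0 _ g0 _ m0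
  obtain ⟨p1, ⟨n1, q1⟩, k1, t1⟩ := G1 _ g1 _ m1
  obtain ⟨p2, ⟨n2, q2⟩, k2, t2⟩ := G2 _ g2 _ m2
  rw [r0] at p0 q0 t0
  rw [r1] at p1 q1 t1
  rw [r2] at p2 q2 t2
  rw [hA σ h] at p0 p1 p2 q0 q1 q2
  rw [hB σ h] at p0 p1 p2 t0 t1 t2
  obtain ⟨n, q⟩ : ∃ n : ℤ, -(3 * Sa) = n * (2 * ha) := ⟨n0 + n1 + n2, by push_cast; linarith⟩
  obtain ⟨k, t⟩ : ∃ k : ℤ, -(3 * Sb) = k * (2 * hb) := ⟨k0 + k1 + k2, by push_cast; linarith⟩
  obtain ⟨s4, s5⟩ := abs_lt.1 s3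
  have n3 : n = 3 := by
    have u1 : (2 : ℝ) < n := by by_contra hn; nlinarith [not_lt.1 hn]
    have u2 : (n : ℝ) < 4 := by by_contra hn; nlinarith [not_lt.1 hn]
    have u3 : 2 < n := by exact_mod_cast u1
    have u4 : n < 4 := by exact_mod_cast u2
    omega
  have k3 : k = 0 := by
    have u1 : (-1 : ℝ) < k := by by_contra hn; nlinarith [not_lt.1 hn]
    have u2 : (k : ℝ) < 1 := by by_contra hn; nlinarith [not_lt.1 hn]
    have u3 : -1 < k := by exact_mod_cast u1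
    have u4 : k < 1 := by exact_mod_cast u2
    omega
  subst n3 k3
  push_cast at q t
  have e4 : Sa = -(2 * ha) := by linarith
  have e5 : Sb = 0 := by linarith
  rw [e4, e5] at p0 p1 p2
  linarith

end C37
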