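import Pool.Agent.Lib.C37.Kit

/-! Primitives on the upper half plane which are continuous up to the boundary. -/

open Complex Filter Topology Set MeasureTheory Asymptotics
open scoped Real ComplexConjugate

namespace C37

namespace PRIM

/-- the segment from `z` to `I` -/
noncomputable def seg (z : ℂ) (s : ℝ) : ℂ := z + s * (I - z)

/-- the primitive -/
noncomputable def prim (φ : ℂ → ℂ) (z : ℂ) : ℂ := ∫ s in (0 : ℝ)..1, φ (seg z s) * (z - I)

lemma seg_im {z : ℂ} (hz : z ∈ UC) {s : ℝ} (h1 : s ≤ 1) : s ≤ (seg z s).im := by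
  have : 0 ≤ z.im := hz
  simp only [seg, add_im, mul_im, ofReal_re, ofReal_im, sub_im, I_im, zero_mul, add_zero]
  nlinarith

lemma seg_mem {z : ℂ} (hz : z ∈ UC) {s : ℝ} (hs : s ∈ Ioc (0 : ℝ) 1) : seg z s ∈ UH :=
  hs.1.trans_le (seg_im hz hs.2)

lemma seg_norm (z : ℂ) {s : ℝ} (hs : s ∈ Ioc (0 : ℝ) 1) : ‖seg z s‖ ≤ 2 * ‖z‖ + 1 := by
  have h1 : ‖I - z‖ ≤ 1 + ‖z‖ := (norm_sub_le _ _).trans (by rw [norm_I])
  have h2 : ‖(s : ℂ) * (I - z)‖ ≤ 1 + ‖z‖ := by
    rw [norm_mul, norm_real, Real.norm_eq_abs, abs_of_pos hs.1]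
    exact (mul_le_of_le_one_left (norm_nonneg _) hs.2).trans h1
  exact (norm_add_le _ _).trans (by linarith)

lemma cont {φ : ℂ → ℂ} (hφ : DifferentiableOn ℂ φ UH)
    (hb : ∀ R : ℝ, ∃ K : ℝ, ∀ z ∈ UH, ‖z‖ ≤ R → ‖φ z‖ ≤ K * z.im ^ (-(3 / 4) : ℝ)) :
    ContinuousOn (prim φ) UC := by
  intro z₀ hz₀
  obtain ⟨K, hK⟩ := hb (2 * (‖z₀‖ + 1) + 1)
  have hI : Set.uIoc (0 : ℝ) 1 = Ioc 0 1 := uIoc_of_le zero_le_one
  refine intervalIntegral.continuousWithinAt_of_dominated_interval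
    (bound := fun s => |K| * s ^ (-(3 / 4) : ℝ) * (‖z₀‖ + 2)) ?_ ?_ ?_ ?_
  · filter_upwards [self_mem_nhdsWithin] with z hz
    rw [hI]
    refine ContinuousOn.aestronglyMeasurable ?_ measurableSet_Ioc
    refine (hφ.continuousOn.comp (f := seg z) ?_ fun s hs => seg_mem hz hs).mul continuousOn_const
    unfold seg
    fun_prop
  · have h1 : ∀ᶠ z in 𝓝[UC] z₀, ‖z‖ < ‖z₀‖ + 1 :=
      (continuous_norm.continuousAt.eventually (gt_mem_nhds (lt_add_one _))).filter_mono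
        nhdsWithin_le_nhds
    filter_upwards [self_mem_nhdsWithin, h1] with z hz hz1
    refine Eventually.of_forall fun s hs => ?_
    rw [hI] at hs
    have h2 := hK _ (seg_mem hz hs) ((seg_norm z hs).trans (by linarith))
    have h3 : (seg z s).im ^ (-(3 / 4) : ℝ) ≤ s ^ (-(3 / 4) : ℝ) :=
      Real.rpow_le_rpow_of_nonpos hs.1 (seg_im hz hs.2) (by norm_num)
    have h4 : ‖z - I‖ ≤ ‖z₀‖ + 2 := (norm_sub_le _ _).trans (by rw [norm_I]; linarith)
    have h5 : 0 ≤ (seg z s).im ^ (-(3 / 4) : ℝ) := Real.rpow_nonneg (le_of_lt (seg_mem hz hs)) _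
    rw [norm_mul]
    refine mul_le_mul (h2.trans ?_) h4 (norm_nonneg _) (mul_nonneg (abs_nonneg _) (h5.trans h3))
    exact mul_le_mul (le_abs_self K) h3 h5 (abs_nonneg _)
  · exact ((intervalIntegral.intervalIntegrable_rpow' (by norm_num)).const_mul _).mul_const _
  · refine Eventually.of_forall fun s hs => ?_
    rw [hI] at hs
    have h1 : ContinuousAt φ (seg z₀ s) :=
      hφ.continuousOn.continuousAt (isOpen_UH.mem_nhds (seg_mem hz₀ hs))
    have h2 : ContinuousAt (fun z => seg z s) z₀ := by unfold seg; fun_prop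
    exact ((ContinuousAt.comp (f := fun z => seg z s) h1 h2).mul (by fun_prop)).continuousWithinAt

lemma mem_ball_iff {z : ℂ} {R : ℝ} (hR : 0 < R) :
    z ∈ Metric.ball (R * I) R ↔ z.re ^ 2 + z.im ^ 2 < 2 * R * z.im := by
  rw [Metric.mem_ball, dist_eq_norm, ← sq_lt_sq₀ (norm_nonneg _) hR.le, ← normSq_eq_norm_sq,
    normSq_apply]
  simp only [sub_re, mul_re, ofReal_re, I_re, ofReal_im, I_im, sub_im, mul_im]
  constructor <;> intro h <;> nlinarith

lemma der {φ : ℂ → ℂ} (hφ : DifferentiableOn ℂ φ UH) {z : ℂ} (hz : z ∈ UH) :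
    HasDerivAt (prim φ) (φ z) z := by
  have z0 : 0 < z.im := hz
  obtain ⟨R, R1, hR⟩ : ∃ R : ℝ, 1 ≤ R ∧ z.re ^ 2 + z.im ^ 2 < 2 * R * z.im := by
    have h : 0 ≤ (z.re ^ 2 + z.im ^ 2) / z.im := by positivity
    refine ⟨(z.re ^ 2 + z.im ^ 2) / z.im + 1, by linarith, ?_⟩
    have := div_mul_cancel₀ (z.re ^ 2 + z.im ^ 2) z0.ne'
    nlinarith [sq_nonneg z.re, sq_nonneg z.im]
  have R0 : 0 < R := by linarith
  have hB : Metric.ball (R * I) R ⊆ UH := fun v hv => by
    have := (mem_ball_iff R0).1 hv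
    show 0 < v.im
    by_contra h
    nlinarith [sq_nonneg v.re, sq_nonneg v.im, mul_nonneg R0.le (neg_nonneg.2 (not_lt.1 h))]
  obtain ⟨M, hM⟩ := (hφ.mono hB).isExactOn_ball
  have hzB := (mem_ball_iff R0).2 hR
  have hIB : I ∈ Metric.ball (R * I) R := (mem_ball_iff R0).2 (by simp; linarith)
  refine ((hM z hzB).sub_const (M I)).congr_of_eventuallyEq ?_
  filter_upwards [Metric.isOpen_ball.mem_nhds hzB] with v hv
  have hs : ∀ s ∈ uIcc (0 : ℝ) 1, seg v s ∈ Metric.ball (R * I) R := fun s hs => by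
    rw [uIcc_of_le zero_le_one] at hs
    exact (convex_ball _ _).add_smul_sub_mem hv hIB hs
  have hd : ∀ s ∈ uIcc (0 : ℝ) 1, HasDerivAt (fun s : ℝ => -M (seg v s))
      (φ (seg v s) * (v - I)) s := fun s h => by
    have h1 : HasDerivAt (fun u : ℂ => v + u * (I - v)) (1 * (I - v)) s :=
      ((hasDerivAt_id (s : ℂ)).mul_const _).const_add v
    have h2 := (HasDerivAt.comp (s : ℂ) (hM _ (hs s h)) h1).comp_ofReal.fun_neg
    exact h2.congr_deriv (by unfold seg; ring)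
  rw [prim, intervalIntegral.integral_eq_sub_of_hasDerivAt hd]
  · simp only [seg, ofReal_one, ofReal_zero, zero_mul, add_zero, one_mul, add_sub_cancel]
    ring
  · refine ContinuousOn.intervalIntegrable ?_
    refine (hφ.continuousOn.comp (f := seg v) ?_ fun s h => hB (hs s h)).mul continuousOn_const
    unfold seg
    fun_prop

lemma bdry {φ M : ℂ → ℂ} (hc : ContinuousOn M UC) (hd : ∀ z ∈ UH, HasDerivAt M (φ z) z) (x : ℝ)
    (hx : ContinuousWithinAt φ UC x) : HasDerivAt (fun t : ℝ => M t) (φ x) x := by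
  rw [hasDerivAt_iff_isLittleO, isLittleO_iff]
  intro ε ε0
  obtain ⟨δ, δ0, hδ⟩ := Metric.continuousWithinAt_iff.1 hx ε ε0
  have hD : Convex ℝ (Metric.ball (x : ℂ) δ ∩ UH) := (convex_ball _ _).inter convex_UH
  have hl : ∀ t : ℝ, Tendsto (fun η : ℝ => M (t + η * I)) (𝓝[>] 0) (𝓝 (M t)) := fun t => by
    refine (hc t (by simp [UC])).tendsto.comp (tendsto_nhdsWithin_iff.2 ⟨?_, ?_⟩)
    · have : Continuous fun η : ℝ => (t : ℂ) + η * I := by fun_prop
      simpa using (this.tendsto 0).mono_left nhdsWithin_le_nhds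
    · filter_upwards [self_mem_nhdsWithin] with η hη
      simpa [UC] using le_of_lt hη
  filter_upwards [Metric.ball_mem_nhds x (half_pos δ0)] with t ht
  refine le_of_tendsto (((hl t).sub (hl x)).sub_const ((t - x) • φ x)).norm ?_
  filter_upwards [Ioo_mem_nhdsGT (half_pos δ0)] with η hη
  have hm : ∀ u : ℝ, dist u x < δ / 2 → (u : ℂ) + η * I ∈ Metric.ball (x : ℂ) δ ∩ UH :=
    fun u hu => by
      refine ⟨?_, by simpa [UH] using hη.1⟩
      rw [Metric.mem_ball, dist_eq_norm, show (u : ℂ) + η * I - x = ((u - x : ℝ) : ℂ) + η * I by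
        push_cast; ring]
      refine (norm_add_le _ _).trans_lt ?_
      rw [norm_mul, norm_I, norm_real, norm_real, Real.norm_eq_abs, Real.norm_eq_abs,
        abs_of_pos hη.1]
      rw [Real.dist_eq] at hu
      linarith [hη.2]
  have := hD.norm_image_sub_le_of_norm_hasDerivWithin_le (𝕜 := ℂ) (f := fun z => M z - z * φ x)
    (f' := fun z => φ z - 1 * φ x) (C := ε)
    (fun z hz => ((hd z hz.2).sub ((hasDerivAt_id z).mul_const _)).hasDerivWithinAt)
    (fun z hz => by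
      rw [one_mul, ← dist_eq_norm]
      exact (hδ (show 0 ≤ z.im from le_of_lt hz.2) hz.1).le)
    (hm x (by simpa using δ0)) (hm t ht)
  rw [show (t : ℂ) + η * I - (x + η * I) = ((t - x : ℝ) : ℂ) by push_cast; ring, norm_real] at this
  refine le_of_eq_of_le ?_ this
  rw [real_smul]
  congr 1
  push_cast
  ring

end PRIM

theorem st_PRIM : St_PRIM := fun φ hφ hb =>
  ⟨PRIM.prim φ, PRIM.cont hφ hb, fun _ hz => PRIM.der hφ hz,
    PRIM.bdry (PRIM.cont hφ hb) fun _ hz => PRIM.der hφ hz⟩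

end C37
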