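import Pool.Agent.Lib.C37.Kit

/-! The expansions of the weight two forms at infinity. -/

open Complex Filter Topology Set MeasureTheory Asymptotics
open scoped Real ComplexConjugate

namespace C37

namespace QX

lemma iv_abs (a b : ZMod 37) : iv a b = 0 ∨ iv a b = 1 := by
  unfold iv; split_ifs <;> simp

lemma ea_abs (a d : ZMod 37) (m n : ℕ) : |ea a d m n| ≤ 1 := by
  unfold ea
  rcases iv_abs m a with h1 | h1 <;> rcases iv_abs n d with h2 | h2 <;>
    rcases iv_abs m (-a) with h3 | h3 <;> rcases iv_abs n (-d) with h4 | h4 <;>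
    simp [h1, h2, h3, h4]

lemma pb (a d : ZMod 37) : PBd (fun m n => (ea a d m n : ℂ)) := by
  refine ⟨1, 0, fun m n _ _ => ?_⟩
  rw [pow_zero, mul_one, Complex.norm_intCast]
  exact_mod_cast ea_abs a d m n

lemma ea_ne {a d : ZMod 37} {m n : ℕ} (h : ea a d m n ≠ 0) : ((m * n : ℕ) : ZMod 37) = a * d := by
  unfold ea iv at h
  push_cast
  by_cases h1 : (m : ZMod 37) = a ∧ (n : ZMod 37) = d
  · rw [h1.1, h1.2]
  · by_cases h2 : (m : ZMod 37) = -a ∧ (n : ZMod 37) = -d
    · rw [h2.1, h2.2]; ring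
    · exfalso
      apply h
      have e1 : (if (m : ZMod 37) = a then (1 : ℤ) else 0) * (if (n : ZMod 37) = d then 1 else 0)
          = 0 := by
        split_ifs with p q
        · exact absurd ⟨p, q⟩ h1
        all_goals simp
      have e2 : (if (m : ZMod 37) = -a then (1 : ℤ) else 0) * (if (n : ZMod 37) = -d then 1 else 0)
          = 0 := by
        split_ifs with p q
        · exact absurd ⟨p, q⟩ h2
        all_goals simp
      rw [e1, e2, sub_zero]

lemma ec_ne {a d : ZMod 37} {j : ℕ} (h : ec a d j ≠ 0) : (j : ZMod 37) = a * d := by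
  unfold ec at h
  obtain ⟨x, hx, h0⟩ := Finset.exists_ne_zero_of_sum_ne_zero h
  rw [← (Nat.mem_divisorsAntidiagonal.mp hx).1]
  exact ea_ne h0

lemma cf_zero {y yi : ZMod 37} (hy : y * yi = 1) {k : ℕ} (hk : ¬37 ∣ k) : cf y yi k = 0 := by
  unfold cf
  rw [Finset.sum_eq_zero, mul_zero]
  intro a _
  refine Finset.sum_eq_zero fun d _ => ?_
  rw [Finset.sum_eq_zero, mul_zero]
  intro j hj
  by_contra h
  have h1 := ec_ne (left_ne_zero_of_mul h)
  have h2 := ec_ne (right_ne_zero_of_mul h)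
  have hjk : j ≤ k := Nat.lt_succ_iff.mp (Finset.mem_range.mp hj)
  apply hk
  rw [← ZMod.natCast_eq_zero_iff, ← Nat.add_sub_cancel' hjk, Nat.cast_add, h1, h2]
  linear_combination (-(a * d)) * hy

lemma hes (hSS : St_SS) (a d : ZMod 37) {τ : ℂ} (hτ : τ ∈ UH) :
    HasSum (fun k : ℕ => (ec a d k : ℂ) * Q τ ^ k) (es a d τ) := by
  have := (hSS _ (pb a d)).2.1 τ hτ
  unfold ec es
  push_cast
  exact this

lemma hprod (hSS : St_SS) (a d a' d' : ZMod 37) {τ : ℂ} (hτ : τ ∈ UH) :
    HasSum (fun k : ℕ => ((∑ j ∈ Finset.range (k + 1), ec a d j * ec a' d' (k - j) : ℤ) : ℂ)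
      * Q τ ^ k) (es a d τ * es a' d' τ) := by
  have h1 := hes hSS a d hτ
  have h2 := hes hSS a' d' hτ
  have n1 := summable_norm_iff.mpr h1.summable
  have n2 := summable_norm_iff.mpr h2.summable
  have h3 := (summable_norm_sum_mul_range_of_summable_norm n1 n2).of_norm.hasSum
  rw [← tsum_mul_tsum_eq_tsum_sum_range_of_summable_norm n1 n2, h1.tsum_eq, h2.tsum_eq] at h3
  refine h3.congr_fun fun k => ?_
  push_cast
  rw [Finset.sum_mul]
  refine Finset.sum_congr rfl fun j hj => ?_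
  have hjk : j ≤ k := Nat.lt_succ_iff.mp (Finset.mem_range.mp hj)
  have : Q τ ^ k = Q τ ^ j * Q τ ^ (k - j) := by rw [← pow_add, Nat.add_sub_cancel' hjk]
  rw [this]; ring

lemma hFF (hSS : St_SS) (y yi : ZMod 37) {τ : ℂ} (hτ : τ ∈ UH) :
    HasSum (fun k : ℕ => (cf y yi k : ℂ) * Q τ ^ k) (FF y yi τ) := by
  have h := (hasSum_sum (s := Finset.univ) fun (a : ZMod 37) _ =>
    hasSum_sum (s := Finset.univ) fun (d : ZMod 37) _ =>
      (hprod hSS a d (a * y) (-(d * yi)) hτ).mul_left (wt yi a d : ℂ)).mul_left (-2 : ℂ)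
  have e2 : FF y yi τ = -2 * ∑ a, ∑ d, (wt yi a d : ℂ) * (es a d τ * es (a * y) (-(d * yi)) τ) := by
    unfold FF
    simp only [mul_assoc]
  rw [e2]
  refine h.congr_fun fun k => ?_
  unfold cf
  rw [Int.cast_mul, Int.cast_sum, mul_assoc, Finset.sum_mul]
  congr 1
  · norm_num
  refine Finset.sum_congr rfl fun a _ => ?_
  rw [Int.cast_sum, Finset.sum_mul]
  refine Finset.sum_congr rfl fun d _ => ?_
  rw [Int.cast_mul, mul_assoc]

end QX

open QX in
theorem st_QX (hSS : St_SS) : St_QX := by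
  intro y yi hy
  have hd : ∀ a d : ZMod 37, DifferentiableOn ℂ (es a d) UH := fun a d τ hτ =>
    ((hSS _ (pb a d)).2.2.1 τ hτ).differentiableAt.differentiableWithinAt
  have ht : ∀ a d : ZMod 37, Tendsto (es a d) cusp (𝓝 0) := fun a d =>
    ((hSS _ (pb a d)).2.2.2).trans_tendsto tendsto_Q_cusp
  refine ⟨?_, ?_, fun τ hτ => ?_⟩
  · unfold FF
    refine DifferentiableOn.const_mul ?_ _
    refine DifferentiableOn.fun_sum fun a _ => DifferentiableOn.fun_sum fun d _ => ?_
    exact ((hd a d).const_mul _).mul (hd _ _)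
  · have h := (tendsto_finset_sum (Finset.univ : Finset (ZMod 37)) fun a _ =>
      tendsto_finset_sum (Finset.univ : Finset (ZMod 37)) fun d _ =>
        ((ht a d).const_mul (wt yi a d : ℂ)).mul (ht (a * y) (-(d * yi)))).const_mul (-2 : ℂ)
    simp only [mul_zero, Finset.sum_const_zero] at h
    exact h
  · have h := hFF hSS y yi hτ
    have hi : Function.Injective fun n : ℕ => 37 * n := fun a b hab => by
      simpa using hab
    rw [← hi.hasSum_iff] at h
    · convert h using 2 with n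
      simp only [Function.comp, pow_mul, Q_pow]
    · intro k hk
      rw [cf_zero hy, Int.cast_zero, zero_mul]
      rintro ⟨n, rfl⟩
      exact hk ⟨n, rfl⟩

end C37
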