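import Pool.Agent.Lib.C37.Kit

/-! Cyclic symmetry and homogeneity of the sextic model. -/

open Complex

namespace C37

namespace ROT

lemma Fs_rot (x y z : ℂ) : Fs y z x = Fs x y z := by unfold Fs; ring
lemma Dn_rot (x y z : ℂ) : Dn y z x = Dn x y z := by unfold Dn; ring
lemma Aa_rot (x y z : ℂ) : Aa y z x = Aa x y z := by unfold Aa; ring
lemma Ab_rot (x y z : ℂ) : Ab y z x = Ab x y z := by unfold Ab; ring
lemma Wn_rot (x y z a b c : ℂ) : Wn y z x b c a = Wn x y z a b c := by unfold Wn; ring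
lemma Dn_hom (c x y z : ℂ) : Dn (c * x) (c * y) (c * z) = c ^ 6 * Dn x y z := by
  unfold Dn Fd; ring
lemma z0_hom (c x y z : ℂ) : z0 (c * x) (c * y) (c * z) = c ^ 3 * z0 x y z := by
  unfold z0 RR; ring
lemma z1_hom (c x y z : ℂ) : z1 (c * x) (c * y) (c * z) = c ^ 3 * z1 x y z := by
  unfold z1 Aa Ab; ring
lemma z2_hom (c x y z : ℂ) : z2 (c * x) (c * y) (c * z) = c ^ 3 * z2 x y z := by
  unfold z2 Aa Ab; ring

end ROT

open ROT in
theorem st_ROT : St_ROT := by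
  refine ⟨fun x y z Za Zb h => ⟨h.dy, h.dz, h.dx, h.da, h.db, h.ny, h.nz, h.nx,
    fun τ hτ => (Fs_rot _ _ _).trans (h.hF τ hτ), fun τ hτ => ?_, fun τ hτ => ?_,
    fun α β c0 c1 c2 hc hl => ?_, ?_⟩, fun c x y z hc => ?_⟩
  · rw [Dn_rot (x τ), Aa_rot (x τ), Wn_rot (x τ)]; exact h.ha τ hτ
  · rw [Dn_rot (x τ), Ab_rot (x τ), Wn_rot (x τ)]; exact h.hb τ hτ
  · obtain ⟨h1, h2, h3, h4, h5⟩ := h.li α β c2 c0 c1 (by linear_combination hc) fun τ hτ => by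
      have := hl τ hτ
      rw [Aa_rot (x τ), Ab_rot (x τ)] at this
      linear_combination this
    exact ⟨h1, h2, h4, h5, h3⟩
  · obtain ⟨τ, hτ, h1⟩ := h.dn
    exact ⟨τ, hτ, by rwa [Dn_rot (x τ)]⟩
  · have h3 : c ^ 3 ≠ 0 := pow_ne_zero _ hc
    have hp : pp (c * x) (c * y) (c * z) = pp x y z := by
      rw [pp, pp, z1_hom, z0_hom, mul_div_mul_left _ _ h3]
    have hr : rr (c * x) (c * y) (c * z) = rr x y z := by
      rw [rr, rr, z2_hom, z0_hom, mul_div_mul_left _ _ h3]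
    refine ⟨hp, hr, fun hg => ⟨?_, ?_, ?_⟩⟩
    · rw [Dn_hom]; exact mul_ne_zero (pow_ne_zero _ hc) hg.1
    · rw [z0_hom]; exact mul_ne_zero h3 hg.2.1
    · rw [hp, hr]; exact hg.2.2

end C37
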