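import Pool.Agent.Lib.C37.Kit

/-! Assembly of the Rogers-Zudilin computation. -/

open Complex Filter Topology Set MeasureTheory Asymptotics
open scoped Real ComplexConjugate

namespace C37

namespace RZ

def ka (a d : ZMod 37) : ℤ := -cv a * cv d - (cu a - cv a) * cu d

lemma cu0 : cu 0 = 0 := by decide +kernel
lemma cv0 : cv 0 = 0 := by decide +kernel
lemma cu3 : ∀ a : ZMod 37, cu (a * 3) = cv a - cu a := by decide +kernel
lemma cv3 : ∀ a : ZMod 37, cv (a * 3) = -cu a := by decide +kernel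
lemma su : ∑ a : ZMod 37, cu a = 0 := by decide +kernel
lemma sv : ∑ a : ZMod 37, cv a = 0 := by decide +kernel
lemma su2 : ∑ a : ZMod 37, cu a * ((a.val : ℤ) ^ 2 - 37 * a.val) = -148 := by decide +kernel
lemma sv2 : ∑ a : ZMod 37, cv a * ((a.val : ℤ) ^ 2 - 37 * a.val) = -740 := by decide +kernel
lemma m1 : ∀ a : ZMod 37, a * 3 * 12 = -a := by decide +kernel
lemma m2 : ∀ a : ZMod 37, a * 25 * 3 = a := by decide +kernel
lemma n12 : ∀ a : ZMod 37, a ≠ 0 → a * 12 ≠ 0 := by decide +kernel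
lemma n3 : ∀ a : ZMod 37, a ≠ 0 → a * 3 ≠ 0 := by decide +kernel
lemma b3 : Function.Bijective fun a : ZMod 37 => a * 3 := by decide +kernel
lemma b25 : Function.Bijective fun a : ZMod 37 => a * 25 := by decide +kernel

lemma ka_zero {a d : ZMod 37} (h : a = 0 ∨ d = 0) : ka a d = 0 := by
  rcases h with rfl | rfl <;> simp [ka, cu0, cv0]

lemma ka_wt (a d : ZMod 37) : ka (a * 3) (d * 25) = wt 25 a d := by
  simp only [ka, wt, cu3, cv3]; ring

lemma PP_neg (a d : ZMod 37) (t : ℝ) : PP (-a) d t = PP a d t := by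
  simp only [PP, neg_neg, add_comm]

lemma sum_ka (d : ZMod 37) : ∑ a, (ka a d : ℝ) = 0 := by
  have : ∑ a, ka a d = 0 := by
    have e : ∀ a, ka a d = (cu d - cv d) * cv a - cu d * cu a := fun a => by unfold ka; ring
    simp only [e, Finset.sum_sub_distrib, ← Finset.mul_sum, su, sv]; ring
  exact_mod_cast this

lemma sum_B (c : ZMod 37 → ℤ) (k : ℤ) (h0 : ∑ a, c a = 0)
    (h : ∑ a : ZMod 37, c a * ((a.val : ℤ) ^ 2 - 37 * a.val) = k) :
    ∑ a, (c a : ℝ) * B2 a = k / 37 ^ 2 := by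
  have h0' : ∑ a, (c a : ℝ) = 0 := by exact_mod_cast h0
  have h' : ∑ a : ZMod 37, (c a : ℝ) * ((a.val : ℝ) ^ 2 - 37 * a.val) = (k : ℝ) := by
    rw [← h]; push_cast; rfl
  have e : ∀ a : ZMod 37, (c a : ℝ) * B2 a =
      (c a : ℝ) * ((a.val : ℝ) ^ 2 - 37 * a.val) / 37 ^ 2 + (c a : ℝ) / 6 := fun a => by
    unfold B2; ring
  simp only [e, Finset.sum_add_distrib, ← Finset.sum_div, h0', h']; ring

lemma sum_kaB (d : ZMod 37) : ∑ a, (ka a d : ℝ) * B2 a = 4 / 37 * (5 * cv d - 4 * cu d) := by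
  have e : ∀ a, (ka a d : ℝ) * B2 a =
      ((cu d : ℝ) - cv d) * (cv a * B2 a) - cu d * (cu a * B2 a) := fun a => by
    unfold ka; push_cast; ring
  simp only [e, Finset.sum_sub_distrib, ← Finset.mul_sum, sum_B cu _ su su2, sum_B cv _ sv sv2]
  push_cast; ring

lemma FP_eq (t : ℝ) :
    FP 3 25 t = ∑ a, ∑ d, (ka a d : ℝ) * PP a d t * PP (a * 12) (d * 3) t := by
  rw [← b3.sum_comp]
  refine Finset.sum_congr rfl fun a _ => ?_
  rw [← b25.sum_comp fun d => (ka (a * 3) d : ℝ) * PP (a * 3) d t * PP (a * 3 * 12) (d * 3) t]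
  refine Finset.sum_congr rfl fun d _ => ?_
  rw [ka_wt, m1, m2, PP_neg]; ring

lemma term (hINV : St_INV) (a d : ZMod 37) {t : ℝ} (ht : 0 < t) :
    (ka a d : ℝ) * PP a d t * PP (a * 12) (d * 3) t / t =
      16 / 37 * (ka a d * PP a d t * HH (a * 12) (d * 3) (1 / t) / (4 * t ^ 2) +
        1 / 148 * (ka a d * ct (d * 3) * (HH a d (1 / t) / t ^ 3)) +
        (ka a d : ℝ) * (ct (d * 3) * ct d / (592 * t ^ 3))) := by
  by_cases h : a = 0 ∨ d = 0
  · simp [ka_zero h]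
  push Not at h
  have h1 := hINV _ _ (n12 a h.1) (n3 d h.2) t ht
  have h2 := hINV _ _ h.1 h.2 t ht
  rw [eq_sub_of_add_eq h1, eq_sub_of_add_eq h2]
  field_simp
  ring

end RZ

open RZ in
theorem st_RZ (hRZS : St_RZS) (hRZM : St_RZM) (hRZ1 : St_RZ1) (hRZ2 : St_RZ2) (hINV : St_INV)
    (hEXT : St_EXT) : St_RZ := by
  obtain ⟨v2, hA, hB⟩ := hRZ2
  set S : ℝ := ∑ d : ZMod 37, (5 * cv d - 4 * cu d) * ct (d * 3) * Cl d with hS
  have hE : HI (fun t => ∑ a, ∑ d, (ka a d : ℝ) * ct (d * 3) * (HH a d (1 / t) / t ^ 3))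
      (37 * S) := by
    refine (HI.sum Finset.univ fun a _ => HI.sum Finset.univ fun d _ =>
      (hEXT a d).cmul ((ka a d : ℝ) * ct (d * 3))).congr (fun _ _ => rfl) ?_
    rw [Finset.sum_comm, hS, Finset.mul_sum]
    refine Finset.sum_congr rfl fun d _ => ?_
    have e : ∀ a, (ka a d : ℝ) * ct (d * 3) * (37 ^ 2 / 4 * B2 a * Cl d) =
        37 ^ 2 / 4 * ct (d * 3) * Cl d * (ka a d * B2 a) := fun a => by ring
    simp only [e, ← Finset.mul_sum, sum_kaB]; ring
  refine ⟨16 / 37 * (v2 + 1 / 148 * (37 * S)), ?_, ?_⟩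
  · refine ((hB.add (hE.cmul (1 / 148))).cmul (16 / 37)).congr (fun t ht => ?_) rfl
    have h0 : ∑ a, ∑ d, (ka a d : ℝ) * (ct (d * 3) * ct d / (592 * t ^ 3)) = 0 := by
      rw [Finset.sum_comm]
      simp only [← Finset.sum_mul, sum_ka, zero_mul, Finset.sum_const_zero]
    rw [FP_eq]
    simp only [Finset.sum_div, term hINV _ _ ht, ← Finset.mul_sum, Finset.sum_add_distrib, h0,
      add_zero]
    rfl
  · refine (((hRZ1.cmul (2 * π / 37)).add hA).cmul (-(2 * π / 37))).congr (fun t ht => ?_) ?_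
    · obtain ⟨r1, r2, -, -, r5⟩ := hRZM t ht
      have ht' : 0 < 1 / t := by positivity
      have a1 := (hRZS cu 1 12 (1 / t) ht').1
      have a2 := (hRZS cv 5 12 (1 / t) ht').1
      have a3 := (hRZS cu 1 3 t ht).2
      have a4 := (hRZS cv 5 3 t ht).2
      simp only [Nat.cast_ofNat] at a1 a2 a3 a4
      rw [r5, r1, r2, a1, a2, a3, a4]
      push_cast
      field_simp
      ring
    · rw [← hS]
      have := Real.pi_pos
      field_simp
      ring

end C37
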