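import Pool.Agent.Lib.C37.Kit

/-! Block RZ1: the polynomial terms of the interchange. -/

open Complex Filter Topology Set MeasureTheory Asymptotics
open scoped Real ComplexConjugate

namespace C37

namespace RZ1

lemma sn_neg (b : ZMod 37) (n : ℕ+) : sn (-b) n = -sn b n := by
  unfold sn
  by_cases hb : b = 0
  · subst hb; simp
  · rw [ZMod.neg_val, if_neg hb, Nat.cast_sub (ZMod.val_lt b).le, ← Real.sin_neg,
      ← Real.sin_add_nat_mul_two_pi (-(2 * π * b.val * (n : ℕ) / 37)) n]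
    congr 1
    push_cast
    ring

lemma Cl_neg (b : ZMod 37) : Cl (-b) = -Cl b := by
  unfold Cl
  rw [← tsum_neg]
  exact tsum_congr fun n => by rw [sn_neg, neg_div]

lemma pb_ir (d : ZMod 37) : RV6.PB (ir d) :=
  RV6.PB.of_le 1 fun m => by
    unfold ir iv
    split_ifs <;> simp

lemma pb_sn (d : ZMod 37) : RV6.PB (sn d) :=
  RV6.PB.of_le 1 fun _ => Real.abs_sin_le_one _

lemma split (d b : ZMod 37) {y : ℝ} (hy : 0 < y) :
    RV6.DS (fun m => (m : ℕ) * (ir d m - ir (-d) m)) (sn b) y =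
      RV6.DS (fun m => (m : ℕ) * ir d m) (sn b) y +
        RV6.DS (fun m => (m : ℕ) * ir (-d) m) (sn (-b)) y := by
  have h1 := RV6.DS_hasSum (RV6.PB.id.mul (pb_ir d)) (pb_sn b) hy
  have h2 := RV6.DS_hasSum (RV6.PB.id.mul (pb_ir (-d))) (pb_sn (-b)) hy
  rw [← (h1.add h2).tsum_eq]
  unfold RV6.DS
  refine tsum_congr fun p => ?_
  rw [sn_neg]
  ring

lemma RD_sym (c : ZMod 37 → ℤ) (hc : ∀ d, c (-d) = c d) (y : ZMod 37) {t : ℝ} (ht : 0 < t) :
    2 * RD c y t = ∑ d, c d *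
      RV6.DS (fun m => (m : ℕ) * (ir d m - ir (-d) m)) (sn (d * y)) (2 * t / 37) := by
  have hy : 0 < 2 * t / 37 := by positivity
  simp only [split _ _ hy, mul_add, Finset.sum_add_distrib]
  rw [two_mul]
  unfold RD
  congr 1
  refine Fintype.sum_equiv (Equiv.neg _) _ _ fun d => ?_
  simp only [Equiv.neg_apply, hc, neg_neg, neg_mul]

lemma HI_RD (hT0 : St_T0) (c : ZMod 37 → ℤ) (hc : ∀ d, c (-d) = c d) (h0 : c 0 = 0)
    (y : ZMod 37) :
    HI (fun s => s * RD c y s) (37 / (8 * π) * ∑ d, c d * ct d * Cl (d * y)) := by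
  have h : ∀ d ∈ (Finset.univ : Finset (ZMod 37)), HI (fun s => c d * (s *
      RV6.DS (fun m => (m : ℕ) * (ir d m - ir (-d) m)) (sn (d * y)) (2 * s / 37)))
      (c d * (37 / (4 * π) * ct d * Cl (d * y))) := by
    intro d _
    by_cases hd : d = 0
    · subst hd
      simp only [h0, Int.cast_zero, zero_mul]
      exact ⟨integrableOn_zero, by simp⟩
    · exact (hT0 d (d * y) hd).cmul _
  refine ((HI.sum _ h).cmul (1 / 2)).congr (fun s hs => ?_) ?_
  · have := RD_sym c hc y hs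
    rw [show s * RD c y s = 1 / 2 * (s * (2 * RD c y s)) by ring, this, Finset.mul_sum,
      Finset.mul_sum, Finset.mul_sum]
    exact Finset.sum_congr rfl fun d _ => by ring
  · rw [Finset.mul_sum, Finset.mul_sum]
    refine Finset.sum_congr rfl fun d _ => ?_
    field_simp
    ring

lemma cu_neg : ∀ d : ZMod 37, cu (-d) = cu d := by decide +kernel
lemma cv_neg : ∀ d : ZMod 37, cv (-d) = cv d := by decide +kernel
lemma cu_zero : cu 0 = 0 := by decide +kernel
lemma cv_zero : cv 0 = 0 := by decide +kernel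
lemma cu_three : ∀ d : ZMod 37, cu (d * 3) = cv d - cu d := by decide +kernel
lemma cv_three : ∀ d : ZMod 37, cv (d * 3) = -cu d := by decide +kernel
lemma mul_36 : ∀ d : ZMod 37, d * 3 * 12 = -d := by decide +kernel

lemma reindex (c : ZMod 37 → ℤ) :
    ∑ d, (c d : ℝ) * ct d * Cl (d * 12) = -∑ d, (c (d * 3) : ℝ) * ct (d * 3) * Cl d := by
  rw [← Finset.sum_neg_distrib]
  refine (Fintype.sum_equiv (Equiv.mulRight₀ (3 : ZMod 37) (by decide)) _ _ fun d => ?_).symm
  simp only [Equiv.mulRight₀_apply, mul_36, Cl_neg]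
  ring

end RZ1

open RZ1 in
theorem st_RZ1 (hRZS : St_RZS) (hRZM : St_RZM) (hT0 : St_T0) : St_RZ1 := by
  have h1 := HI_RD hT0 cu cu_neg cu_zero 12
  have h2 := HI_RD hT0 cv cv_neg cv_zero 12
  refine (h2.sub (h1.cmul 5)).inv.congr (fun t ht => ?_) ?_
  · obtain ⟨-, -, m3, m4, -⟩ := hRZM t ht
    have ht' : 0 < 1 / t := by positivity
    have a1 := (hRZS cu 1 3 t ht).2
    have a2 := (hRZS cv 5 3 t ht).2
    have a3 := (hRZS cu 1 12 (1 / t) ht').2
    have a4 := (hRZS cv 5 12 (1 / t) ht').2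
    simp only [Nat.cast_ofNat] at a1 a2 a3 a4
    rw [a1, a4] at m3
    rw [a2, a3, a4] at m4
    have hp : -(2 * π / 37) ≠ 0 := neg_ne_zero.mpr (by positivity)
    have e3 : RD cu 3 t = RD cv 12 (1 / t) / t ^ 2 :=
      mul_left_cancel₀ hp (by rw [m3]; ring)
    have e4 : RD cv 3 t = (RD cv 12 (1 / t) - RD cu 12 (1 / t)) / t ^ 2 :=
      mul_left_cancel₀ hp (by rw [m4]; ring)
    rw [e3, e4]
    ring
  · rw [reindex, reindex]
    simp only [cu_three, cv_three]
    rw [← sub_eq_zero]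
    simp only [Finset.mul_sum, mul_neg, ← Finset.sum_neg_distrib, ← Finset.sum_sub_distrib]
    refine Finset.sum_eq_zero fun d _ => ?_
    push_cast
    ring

end C37
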