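import Pool.Agent.Lib.C37.Kit

/-! The main terms after the interchange of the inner indices. -/

open Complex Filter Topology Set MeasureTheory Asymptotics
open scoped Real ComplexConjugate
open Pool.Agent.Lib.MP_15b3df_nt

namespace C37

namespace RZ2

lemma ang (b : ZMod 37) (n : ℕ+) : ∃ k : ℕ,
    2 * π * ((-b).val : ℝ) * (n : ℕ) / 37 = k * (2 * π) - 2 * π * (b.val : ℝ) * (n : ℕ) / 37 := by
  by_cases hb : b = 0
  · exact ⟨0, by simp [hb]⟩
  · refine ⟨n, ?_⟩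
    rw [ZMod.neg_val, if_neg hb, Nat.cast_sub (ZMod.val_lt b).le]
    push_cast; ring

lemma cs_neg (b : ZMod 37) (n : ℕ+) : cs (-b) n = cs b n := by
  obtain ⟨k, hk⟩ := ang b n
  unfold cs; rw [hk, Real.cos_nat_mul_two_pi_sub]

lemma sn_neg (b : ZMod 37) (n : ℕ+) : sn (-b) n = -sn b n := by
  obtain ⟨k, hk⟩ := ang b n
  unfold sn; rw [hk, Real.sin_nat_mul_two_pi_sub]

lemma HH_l (b c : ZMod 37) (s : ℝ) : HH (-b) c s = HH b c s :=
  RV6.DS_congr (cs_neg b) (fun _ => rfl) _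

lemma HH_r (b c : ZMod 37) (s : ℝ) : HH b (-c) s = -HH b c s := by
  have h := RV6.DS_smul_right (cs b) (sn c) (-1) (2 * s / 37)
  unfold HH
  rw [neg_eq_neg_one_mul (RV6.DS _ _ _), ← h]
  exact RV6.DS_congr (fun _ => rfl) (fun n => by rw [sn_neg]; ring) _

lemma chi_neg (j : ℕ) (a : ZMod 37) : chi j (-a) = chi j a := by
  unfold chi; rw [Even.neg_pow (by decide)]

def ka (a d : ZMod 37) : ℤ := -cv a * cv d - (cu a - cv a) * cu d

lemma ka_l (a d : ZMod 37) : ka (-a) d = ka a d := by simp only [ka, cu, cv, chi_neg]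
lemma ka_r (a d : ZMod 37) : ka a (-d) = ka a d := by simp only [ka, cu, cv, chi_neg]

lemma ir_le (a : ZMod 37) (m : ℕ+) : |ir a m| ≤ 1 := by
  unfold ir iv; split_ifs <;> simp

lemma ir_pb (a : ZMod 37) : RV6.PB (ir a) := RV6.PB.of_le 1 (ir_le a)

lemma PP_eq (a d : ZMod 37) {t : ℝ} (ht : 0 < t) : PP a d t =
    RV6.DS (ir a) (ir d) (2 * t / 37) - RV6.DS (ir a) (ir (-d)) (2 * t / 37) +
      (RV6.DS (ir (-a)) (ir d) (2 * t / 37) - RV6.DS (ir (-a)) (ir (-d)) (2 * t / 37)) := by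
  have hy : 0 < 2 * t / 37 := by positivity
  have h := fun a d => RV6.DS_hasSum (ir_pb a) (ir_pb d) hy
  have h2 := (((h a d).sub (h a (-d))).add ((h (-a) d).sub (h (-a) (-d)))).tsum_eq
  rw [← h2]
  exact tsum_congr fun p => by ring

lemma sym (K D : ZMod 37 → ZMod 37 → ℝ) (hl : ∀ a d, K (-a) d = K a d)
    (hr : ∀ a d, K a (-d) = -K a d) :
    ∑ a, ∑ d, K a d * (D a d - D a (-d) + (D (-a) d - D (-a) (-d))) =
      4 * ∑ a, ∑ d, K a d * D a d := by
  have h1 : ∀ D : ZMod 37 → ZMod 37 → ℝ,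
      ∑ a, ∑ d, K a d * D a (-d) = -∑ a, ∑ d, K a d * D a d := fun D => by
    rw [← Finset.sum_neg_distrib]
    refine Finset.sum_congr rfl fun a _ => ?_
    rw [← Finset.sum_neg_distrib, ← Equiv.sum_comp (Equiv.neg (ZMod 37))]
    exact Finset.sum_congr rfl fun d _ => by simp [hr]
  have h2 : ∑ a, ∑ d, K a d * D (-a) d = ∑ a, ∑ d, K a d * D a d := by
    rw [← Equiv.sum_comp (Equiv.neg (ZMod 37))]
    exact Finset.sum_congr rfl fun a _ => by simp [hl]
  have h3 := h1 fun a d => D (-a) d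
  simp only [mul_add, mul_sub, Finset.sum_add_distrib, Finset.sum_sub_distrib]
  rw [h3, h1 D, h2]; ring

lemma expand (X Y : ZMod 37 → ℝ) :
    -(∑ a, (cv a : ℝ) * X a) * (∑ d, (cv d : ℝ) * Y d) -
      ((∑ a, (cu a : ℝ) * X a) - ∑ a, (cv a : ℝ) * X a) * ∑ d, (cu d : ℝ) * Y d =
    ∑ a, ∑ d, (ka a d : ℝ) * (X a * Y d) := by
  rw [← Finset.sum_sub_distrib, ← Finset.sum_neg_distrib, Finset.sum_mul_sum, Finset.sum_mul_sum,
    ← Finset.sum_sub_distrib]
  refine Finset.sum_congr rfl fun a _ => ?_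
  rw [← Finset.sum_sub_distrib]
  refine Finset.sum_congr rfl fun d _ => ?_
  unfold ka; push_cast; ring

end RZ2

open RZ2 in
theorem st_RZ2 (hSW : St_SW) : St_RZ2 := by
  choose v h1 h2 using fun a d : ZMod 37 => hSW (ir a) (cs (a * 12)) (ir d) (sn (d * 3)) 1
    (ir_le a) (fun _ => Real.abs_cos_le_one _) (ir_le d) (fun _ => Real.abs_sin_le_one _)
  refine ⟨∑ a, ∑ d, (ka a d : ℝ) * v a d, ?_, ?_⟩
  · refine (HI.sum _ fun a _ => HI.sum _ fun d _ => (h1 a d).cmul (ka a d)).congr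
      (fun t _ => ?_) rfl
    unfold RA RD
    exact (expand _ _).symm
  · refine (HI.sum _ fun a _ => HI.sum _ fun d _ => (h2 a d).cmul (ka a d)).congr
      (fun t ht => ?_) rfl
    have h := sym (fun a d => (ka a d : ℝ) * HH (a * 12) (d * 3) (1 / t))
      (fun a d => RV6.DS (ir a) (ir d) (2 * t / 37))
      (fun a d => by rw [ka_l, neg_mul, HH_l]) (fun a d => by rw [ka_r, neg_mul, HH_r]; ring)
    have h3 : ∑ a : ZMod 37, ∑ d : ZMod 37, ((-cv a * cv d - (cu a - cv a) * cu d : ℤ) : ℝ) *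
        PP a d t * HH (a * 12) (d * 3) (1 / t) = _ := Eq.trans
      (Finset.sum_congr rfl fun a _ => Finset.sum_congr rfl fun d _ => by
        rw [PP_eq a d ht]; unfold ka; ring) h
    rw [h3, mul_div_mul_left _ _ (by norm_num : (4 : ℝ) ≠ 0), Finset.sum_div]
    refine Finset.sum_congr rfl fun a _ => ?_
    rw [Finset.sum_div]
    refine Finset.sum_congr rfl fun d _ => ?_
    unfold HH; ring

end C37
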