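import Pool.Agent.Lib.C37.Kit

/-! Block RZM: the modular relation between the two units, on logarithms. -/

open Complex Filter Topology Set MeasureTheory Asymptotics
open scoped Real ComplexConjugate

namespace C37

namespace RZM

lemma cmp {f g : ℂ → ℂ} {a b τ : ℂ} (hτ : τ ∈ UH) (hf : HasDerivAt f a τ) (hg : HasDerivAt g b τ)
    (h : ∀ σ ∈ UH, cexp (f σ) = -cexp (g σ)) : (f τ).re = (g τ).re ∧ a = b := by
  constructor
  · have := congrArg norm (h τ hτ)
    rwa [norm_neg, norm_exp, norm_exp, Real.exp_eq_exp] at this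
  · have h1 : (fun σ => cexp (f σ)) =ᶠ[𝓝 τ] fun σ => -cexp (g σ) := by
      filter_upwards [isOpen_UH.mem_nhds hτ] with σ hσ using h σ hσ
    have h2 := hf.cexp.unique (hg.cexp.neg.congr_of_eventuallyEq h1)
    rw [h τ hτ, neg_mul, neg_inj] at h2
    exact mul_left_cancel₀ (exp_ne_zero _) h2

lemma LL_exp {f : ℂ → ℂ} {a τ : ℂ} (hf : HasDerivAt f a τ) :
    LL (fun σ => cexp (f σ)) τ = ((f τ).re, a) := by
  simp only [LL, norm_exp, Real.log_exp, logDeriv_apply, hf.cexp.deriv]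
  rw [mul_div_cancel_left₀ _ (exp_ne_zero _)]

lemma re_div {a b : ℂ} {t : ℝ} (ht : 0 < t) (h : a * -(t : ℂ) ^ 2 = -b) : a.re = b.re / t ^ 2 := by
  have h1 : b = ((t ^ 2 : ℝ) : ℂ) * a := by push_cast; linear_combination h
  rw [h1, re_ofReal_mul]; field_simp

end RZM

open RZM in
theorem st_RZM (hKEY : St_KEY) (hELL : St_ELL) : St_RZM := by
  intro t ht
  have ht0 : (t : ℂ) ≠ 0 := by exact_mod_cast ht.ne'
  set τ : ℂ := (1 / t : ℝ) * I with hτ
  have hU : τ ∈ UH := by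
    show 0 < τ.im
    rw [hτ, mul_I_im, ofReal_re]; positivity
  have e1 : 3 - 1 / τ = 3 + t * I := by
    rw [hτ]; push_cast; field_simp; linear_combination (-t : ℂ) * I_sq
  have e2 : τ + 12 = 12 + τ := add_comm _ _
  have e3 : (τ ^ 2)⁻¹ = -(t : ℂ) ^ 2 := by
    rw [hτ, mul_pow, I_sq]; push_cast; field_simp
  have h1 := key_mem_UH hU
  have h2 : τ + 12 ∈ UH := add_mem_UH hU (by simp)
  have d1 : HasDerivAt (fun σ : ℂ => 3 - 1 / σ) (-(t : ℂ) ^ 2) τ := by
    simp only [one_div]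
    exact ((hasDerivAt_inv (ne_of_UH hU)).const_sub 3).congr_deriv (by rw [neg_neg, e3])
  have d2 : HasDerivAt (fun σ : ℂ => σ + 12) 1 τ := (hasDerivAt_id' τ).add_const 12
  have a1 := ((hELL cu 1).1 _ h1).comp τ d1
  have b1 := ((hELL cv 5).1 _ h1).comp τ d1
  have a2 := ((hELL cu 1).1 _ h2).comp τ d2
  have b2 := ((hELL cv 5).1 _ h2).comp τ d2
  obtain ⟨p1, p2⟩ := cmp hU a1 b2.neg fun σ hσ => by
    have := (hKEY σ hσ).1
    simp only [uu, vv] at this
    simp only [Function.comp, Pi.neg_apply, exp_neg]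
    rw [← one_div, ← this, neg_neg]
  obtain ⟨q1, q2⟩ := cmp hU b1 (a2.sub b2) fun σ hσ => by
    have := (hKEY σ hσ).2
    simp only [uu, vv] at this
    simp only [Function.comp, Pi.sub_apply, exp_sub]
    rw [this, neg_div]
  simp only [Function.comp, Pi.neg_apply, Pi.sub_apply, neg_re, sub_re, mul_one, e1, e2]
    at p1 p2 q1 q2
  refine ⟨p1, q1, re_div ht p2, ?_, ?_⟩
  · rw [← sub_re]
    exact re_div ht (by rw [q2]; ring)
  · rw [e1] at h1
    have l1 : LL uu (3 + t * I) = _ := LL_neg.trans (LL_exp ((hELL cu 1).1 _ h1))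
    have l2 : LL vv (3 + t * I) = _ := LL_exp ((hELL cv 5).1 _ h1)
    simp only [JJ, eta, wd, l1, l2, sub_re, re_ofReal_mul]

end C37
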