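import Pool.Agent.Lib.C37.Kit

/-! Real parts of the logarithmic series on vertical lines through integers. -/

open Complex Filter Topology Set
open scoped Real

namespace C37.RZS

lemma psi_mul (b : ZMod 37) (n : ℕ) : ψ (b * n) = e (((b.val * n : ℝ) / 37 : ℝ) : ℂ) := by
  have h : b * n = ((b.val * n : ℕ) : ZMod 37) := by push_cast; rw [ZMod.natCast_zmod_val]
  rw [h, psi_nat]; congr 1; push_cast; ring

lemma e_re (x : ℝ) : (e x).re = Real.cos (2 * π * x) := by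
  unfold e
  rw [show 2 * π * I * (x : ℂ) = ((2 * π * x : ℝ) : ℂ) * I by push_cast; ring, exp_ofReal_mul_I_re]

lemma e_im (x : ℝ) : (e x).im = Real.sin (2 * π * x) := by
  unfold e
  rw [show 2 * π * I * (x : ℂ) = ((2 * π * x : ℝ) : ℂ) * I by push_cast; ring, exp_ofReal_mul_I_im]

lemma psi_re (b : ZMod 37) (n : ℕ+) : (ψ (b * (n : ℕ))).re = cs b n := by
  rw [psi_mul, e_re, cs]; congr 1; ring

lemma psi_im (b : ZMod 37) (n : ℕ+) : (ψ (b * (n : ℕ))).im = sn b n := by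
  rw [psi_mul, e_im, sn]; congr 1; ring

lemma Q_eq (y : ℕ) (t : ℝ) (p : ℕ+ × ℕ+) :
    Q (y + t * I) ^ ((p.1 : ℕ) * (p.2 : ℕ)) =
      ψ (((p.1 : ℕ) : ZMod 37) * y * (p.2 : ℕ)) * (RV6.ew (2 * t / 37) p : ℝ) := by
  have h : ((p.1 : ℕ) : ZMod 37) * y * (p.2 : ℕ) = (((p.1 : ℕ) * y * (p.2 : ℕ) : ℕ) : ZMod 37) := by
    push_cast; rfl
  rw [h, psi_nat]
  unfold Q RV6.ew
  rw [e_pow, ofReal_exp]
  unfold e
  rw [← exp_add]
  congr 1
  push_cast
  linear_combination (2 * π * (p.1 : ℕ) * (p.2 : ℕ) * t / 37 : ℂ) * I_mul_I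

lemma c_le (c : ZMod 37 → ℤ) (a : ZMod 37) : ‖(c a : ℂ)‖ ≤ ∑ b, ‖(c b : ℂ)‖ :=
  Finset.single_le_sum (f := fun b => ‖(c b : ℂ)‖) (fun _ _ => norm_nonneg _) (Finset.mem_univ a)

lemma pb_g (c : ZMod 37 → ℤ) : PBd fun m n => (c m : ℂ) / n := by
  refine ⟨∑ b, ‖(c b : ℂ)‖, 0, fun m n _ hn => ?_⟩
  have h1 : (1 : ℝ) ≤ n := by exact_mod_cast hn
  rw [norm_div, pow_zero, mul_one, Complex.norm_natCast]
  exact (div_le_self (norm_nonneg _) h1).trans (c_le c _)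

lemma pb_d (c : ZMod 37 → ℤ) : PBd fun m _ => (c m : ℂ) * m := by
  refine ⟨∑ b, ‖(c b : ℂ)‖, 1, fun m n _ hn => ?_⟩
  have h1 : (1 : ℝ) ≤ n := by exact_mod_cast hn
  have h2 : (0 : ℝ) ≤ m := Nat.cast_nonneg m
  rw [norm_mul, pow_one, Complex.norm_natCast]
  exact mul_le_mul (c_le c _) (le_mul_of_one_le_right h2 h1) h2
    (Finset.sum_nonneg fun _ _ => norm_nonneg _)

lemma pb_ir (a : ZMod 37) : RV6.PB (ir a) :=
  RV6.PB.of_le 1 fun m => by unfold ir iv; split_ifs <;> simp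

/-- splitting a double series by the class of the first index -/
lemma split (c : ZMod 37 → ℤ) (A B : ZMod 37 → ℕ+ → ℝ) (W : ℕ+ → ℝ)
    (hA : ∀ a m, A a m = W m * ir a m) (hW : RV6.PB W) (hB : ∀ a, RV6.PB (B a)) {s : ℝ}
    (hs : 0 < s) :
    HasSum (fun p : ℕ+ × ℕ+ => (c (p.1 : ℕ) : ℝ) * W p.1 * B (p.1 : ℕ) p.2 * RV6.ew s p)
      (∑ a, c a * RV6.DS (A a) (B a) s) := by
  have h1 : ∀ a, RV6.PB (A a) := fun a => by
    rw [show A a = fun m => W m * ir a m from funext (hA a)]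
    exact hW.mul (pb_ir a)
  have h2 := hasSum_sum (s := Finset.univ) fun a _ =>
    (RV6.DS_hasSum (h1 a) (hB a) hs).mul_left (c a : ℝ)
  refine HasSum.congr_fun h2 ?_
  intro p
  rw [Finset.sum_eq_single ((p.1 : ℕ) : ZMod 37)]
  · rw [hA]; simp only [ir, iv, if_true, Int.cast_one]; ring
  · intro b _ hb
    rw [hA]; simp only [ir, iv, if_neg hb.symm, Int.cast_zero]; ring
  · intro h; exact absurd (Finset.mem_univ _) h

lemma mem (y : ℕ) {t : ℝ} (ht : 0 < t) : (y + t * I : ℂ) ∈ UH := by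
  show 0 < (y + t * I : ℂ).im
  simpa using ht

lemma sg_re (hSS : St_SS) (c : ZMod 37 → ℤ) (y : ℕ) {t : ℝ} (ht : 0 < t) :
    (sg c (y + t * I)).re = RA c y t := by
  have h1 := hasSum_re ((hSS _ (pb_g c)).1 _ (mem y ht))
  have h2 := split c ir (fun a n => cs (a * y) n / (n : ℕ)) (fun _ => 1) (fun _ _ => (one_mul _).symm)
    (RV6.PB.const 1)
    (fun a => RV6.PB.div1 (RV6.PB.of_le 1 fun m => Real.abs_cos_le_one _))
    (s := 2 * t / 37) (by positivity)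
  refine h1.unique (HasSum.congr_fun h2 fun p => ?_)
  rw [Q_eq, ← psi_re]
  have : ((c (p.1 : ℕ) : ℂ) / ((p.2 : ℕ) : ℂ)) = (((c (p.1 : ℕ) : ℝ) / ((p.2 : ℕ) : ℝ) : ℝ) : ℂ) := by
    push_cast; rfl
  rw [this, re_ofReal_mul, re_mul_ofReal]
  ring

lemma sd_im (hSS : St_SS) (c : ZMod 37 → ℤ) (y : ℕ) {t : ℝ} (ht : 0 < t) :
    (sd c (y + t * I)).im = RD c y t := by
  have h1 := hasSum_im ((hSS _ (pb_d c)).1 _ (mem y ht))
  have h2 := split c (fun d m => (m : ℕ) * ir d m) (fun d => sn (d * y)) (fun m => (m : ℕ))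
    (fun _ _ => rfl) RV6.PB.id (fun a => RV6.PB.of_le 1 fun m => Real.abs_sin_le_one _)
    (s := 2 * t / 37) (by positivity)
  refine h1.unique (HasSum.congr_fun h2 fun p => ?_)
  rw [Q_eq, ← psi_im]
  have : ((c (p.1 : ℕ) : ℂ) * ((p.1 : ℕ) : ℂ)) = (((c (p.1 : ℕ) : ℝ) * ((p.1 : ℕ) : ℝ) : ℝ) : ℂ) := by
    push_cast; rfl
  rw [this, im_ofReal_mul, im_mul_ofReal]
  ring

end C37.RZS

theorem C37.st_RZS (hSS : C37.St_SS) : C37.St_RZS := by
  intro c o y t ht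
  refine ⟨?_, ?_⟩
  · unfold C37.ell
    rw [add_re, C37.RZS.sg_re hSS c y ht]
    have : (2 * π * I * o * (y + t * I) / 37 : ℂ) =
        ((-(2 * π * o * t / 37) : ℝ) : ℂ) + ((2 * π * o * y / 37 : ℝ) : ℂ) * I := by
      push_cast
      linear_combination (2 * π * o * t / 37 : ℂ) * I_mul_I
    rw [this, add_re, ofReal_re, re_ofReal_mul, I_re, mul_zero, add_zero]
  · unfold C37.eld
    rw [← C37.RZS.sd_im hSS c y ht]
    have : (2 * π * I / 37 : ℂ) = ((2 * π / 37 : ℝ) : ℂ) * I := by push_cast; ring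
    rw [this, mul_assoc, re_ofReal_mul, I_mul_re, add_im, intCast_im, zero_add]
    ring
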