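import Pool.Agent.Lib.C37.Kit

/-! The sextic relation between the two modular units. -/

open Complex Filter Topology Set Asymptotics
open scoped Real

namespace C37

namespace S0

noncomputable def gg (x y : ℂ) : ℂ := Fs x y 1 / (x * y) ^ 2

lemma gg_sc {x y : ℂ} (hx : x ≠ 0) (hy : y ≠ 0) : gg (y / x) (1 / x) = gg x y := by
  unfold gg Fs; field_simp; ring

lemma fam (hUV : St_UV) : Fam 0 fun v τ => gg (UU v τ) (VV v τ) := by
  obtain ⟨hU, hV, h⟩ := hUV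
  refine ⟨⟨fun v u hv τ ht => ?_, fun v hv τ ht => ?_, fun v hv τ ht => ?_⟩, fun v hv => ?_,
    fun v hv τ ht => ?_⟩
  · rw [hU.per v u hv τ ht, hV.per v u hv τ ht]
  · rw [hU.hT v hv τ ht, hV.hT v hv τ ht]
  · rw [hU.hS v hv τ ht, hV.hS v hv τ ht, pow_zero, one_mul, one_mul, one_mul]
  · obtain ⟨d1, d2, h3⟩ := h v hv
    unfold gg Fs
    refine DifferentiableOn.div (by fun_prop) (by fun_prop) fun τ ht => ?_
    exact pow_ne_zero _ (mul_ne_zero (h3 τ ht).1 (h3 τ ht).2.1)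
  · obtain ⟨h1, h2, h3, h4⟩ := (h v hv).2.2 τ ht
    rw [h3, h4, gg_sc h1 h2]

lemma uv_eq (τ : ℂ) : (uu τ * vv τ) ^ 2 = Q τ ^ 12 * cexp (2 * (sg cu τ + sg cv τ)) := by
  unfold uu vv Q
  rw [e_pow, neg_mul, neg_sq, ← exp_add, ← exp_nat_mul]
  unfold e ell
  rw [← exp_add]; congr 1; push_cast; ring

lemma at_inf (hAP0 : St_AP0) (hELL : St_ELL) :
    (fun τ => gg (uu τ) (vv τ)) =O[cusp] fun τ => Q τ ^ 1 := by
  have h1 := ((hELL cu 0).2.2.1).trans_tendsto tendsto_Q_cusp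
  have h2 := ((hELL cv 0).2.2.1).trans_tendsto tendsto_Q_cusp
  have h3 := (((h1.add h2).const_mul 2).neg.cexp).isBigO_one ℂ
  refine ((hAP0.1.mul h3).mul (isBigO_refl (fun τ => (Q τ ^ 12)⁻¹) cusp)).congr
    (fun τ => ?_) fun τ => ?_
  · unfold gg
    rw [uv_eq, exp_neg]
    have := Q_ne τ
    have := exp_ne_zero (2 * (sg cu τ + sg cv τ))
    field_simp
  · have := Q_ne τ
    field_simp

lemma at_zero (hG : St_G01) :
    (fun τ => gg (UU (0, 1) τ) (VV (0, 1) τ)) =O[cusp] fun _ => (1 : ℂ) := by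
  obtain ⟨A, B, dA, dB, a0, b0, h⟩ := hG
  have hb : Metric.ball (0 : ℂ) 1 ∈ 𝓝 (0 : ℂ) := Metric.ball_mem_nhds _ one_pos
  have cA := (dA.differentiableAt hb).continuousAt
  have cB := (dB.differentiableAt hb).continuousAt
  have c : ContinuousAt (fun q => gg (A q) (B q)) 0 := by
    unfold gg Fs
    exact ContinuousAt.div (by fun_prop) (by fun_prop) (pow_ne_zero _ (mul_ne_zero a0 b0))
  refine ((c.tendsto.comp tendsto_e_cusp).isBigO_one ℂ).congr' ?_ (.refl _ _)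
  filter_upwards [ev_UH_cusp] with τ ht
  rw [(h τ ht).1, (h τ ht).2]; rfl

end S0

theorem st_S0 (hUV : St_UV) (hGS : St_GS) (hG01 : St_G01) (hSTURM : St_STURM) (hAP0 : St_AP0)
    (hELL : St_ELL) : St_S0 := by
  intro τ ht
  have h1 : (fun τ => S0.gg (UU (1, 0) τ) (VV (1, 0) τ)) =O[cusp] fun τ => Q τ ^ 1 := by
    refine (S0.at_inf hAP0 hELL).congr' ?_ (.refl _ _)
    filter_upwards [ev_UH_cusp] with τ ht
    rw [(hGS τ ht).1, (hGS τ ht).2]
  have h2 := hSTURM 0 1 _ (S0.fam hUV) (by norm_num) h1 (S0.at_zero hG01) τ ht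
  simp only [(hGS τ ht).1, (hGS τ ht).2, S0.gg] at h2
  refine (div_eq_zero_iff.mp h2).resolve_right ?_
  rw [S0.uv_eq]
  exact mul_ne_zero (pow_ne_zero _ (Q_ne τ)) (exp_ne_zero _)

end C37
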