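import Pool.Agent.Lib.C37.Kit

/-! The weight two Sturm argument. -/

open Complex Filter Topology Set MeasureTheory Asymptotics
open scoped Real ComplexConjugate

namespace C37

namespace S2

noncomputable def NN (α β g x y x' y' : ℂ) : ℂ :=
  (2 * π * I / 37 * g * Dn x y 1 - (α * Aa x y 1 + β * Ab x y 1) * Wn x y 1 x' y' 0) / (x * y) ^ 2

lemma NN_sc (α β g : ℂ) {x y : ℂ} (x' y' : ℂ) (hx : x ≠ 0) (hy : y ≠ 0) :
    NN α β g (y / x) (1 / x) ((y' * x - y * x') / x ^ 2) ((0 * x - 1 * x') / x ^ 2) =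
      NN α β g x y x' y' := by
  unfold NN Dn Fd Aa Ab Wn
  field_simp
  ring

lemma NN_mul (α β g x y x' y' t : ℂ) :
    NN α β (t * g) x y (t * x') (t * y') = t * NN α β g x y x' y' := by
  unfold NN Wn
  ring

lemma ev_of {f g : ℂ → ℂ} (h : ∀ τ ∈ UH, f τ = g τ) {τ : ℂ} (hτ : τ ∈ UH) : f =ᶠ[𝓝 τ] g :=
  eventually_of_mem (isOpen_UH.mem_nhds hτ) h

lemma law_deriv {F : ℤ × ℤ → ℂ → ℂ} (h : Law 0 F)
    (hd : ∀ v, NZ v → DifferentiableOn ℂ (F v) UH) : Law 2 fun v => deriv (F v) where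
  per v u hv τ hτ := (ev_of (h.per v u hv) hτ).deriv_eq
  hT v hv τ hτ := by
    rw [← (ev_of (h.hT v hv) hτ).deriv_eq, deriv_comp_add_const]
  hS v hv τ hτ := by
    have h0 := ne_of_UH hτ
    have h1 : (fun σ => F v (-1 / σ)) =ᶠ[𝓝 τ] F (v.2, -v.1) :=
      ev_of (fun σ hσ => by simpa using h.hS v hv σ hσ) hτ
    have h2 : HasDerivAt (fun σ : ℂ => -1 / σ) ((0 * τ - -1 * 1) / τ ^ 2) τ :=
      (hasDerivAt_const τ (-1 : ℂ)).div (hasDerivAt_id' τ) h0
    have h3 := (((hd v hv).differentiableAt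
      (isOpen_UH.mem_nhds (inv_mem_UH hτ))).hasDerivAt.comp τ h2).deriv
    rw [← h1.deriv_eq]
    erw [h3]
    field_simp
    ring

lemma lim_A {U A : ℂ → ℂ} (hA : DifferentiableOn ℂ A (Metric.ball 0 1))
    (h : ∀ τ ∈ UH, U τ = A (e τ)) :
    Tendsto U cusp (𝓝 (A 0)) ∧ Tendsto (deriv U) cusp (𝓝 (deriv A 0 * (2 * π * I * 0))) := by
  have hb : Metric.ball (0 : ℂ) 1 ∈ 𝓝 (0 : ℂ) := Metric.ball_mem_nhds _ one_pos
  constructor
  · refine ((hA.differentiableAt hb).continuousAt.tendsto.comp tendsto_e_cusp).congr' ?_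
    filter_upwards [ev_UH_cusp] with τ hτ using (h τ hτ).symm
  · refine ((((hA.deriv Metric.isOpen_ball).differentiableAt hb).continuousAt.tendsto.comp
      tendsto_e_cusp).mul (tendsto_e_cusp.const_mul (2 * π * I))).congr' ?_
    filter_upwards [ev_UH_cusp] with τ hτ
    have h1 : e τ ∈ Metric.ball (0 : ℂ) 1 := by simpa using norm_e_lt hτ
    rw [(ev_of h hτ).deriv_eq]
    exact ((hA.differentiableAt (Metric.isOpen_ball.mem_nhds h1)).hasDerivAt.comp τ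
      (hasDerivAt_e τ)).deriv.symm

lemma uv_eq (τ : ℂ) : (uu τ * vv τ) ^ 2 = Q τ ^ 12 / cexp (-(2 * (sg cu τ + sg cv τ))) := by
  rw [exp_neg, div_inv_eq_mul]
  unfold uu vv ell Q e
  rw [neg_mul, neg_sq, ← exp_add, ← exp_nat_mul, ← exp_nat_mul, ← exp_add]
  congr 1
  push_cast
  ring

end S2

open S2

theorem st_S2 (hUV : St_UV) (hGS : St_GS) (hG01 : St_G01) (hSTURM : St_STURM) (hFAM : St_FAM)
    (hELL : St_ELL) : St_S2 := by
  intro F α β hF hO
  obtain ⟨G, hG, hG1, hG0⟩ := hFAM F hF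
  obtain ⟨lU, lV, hv⟩ := hUV
  have lU' := law_deriv lU fun v h => (hv v h).1
  have lV' := law_deriv lV fun v h => (hv v h).2.1
  have hc : (2 * π * I / 37 : ℂ) ≠ 0 := by simp [Real.pi_ne_zero]
  set N : ℤ × ℤ → ℂ → ℂ := fun v τ =>
    NN α β (G v τ) (UU v τ) (VV v τ) (deriv (UU v) τ) (deriv (VV v) τ) with hN
  have hfam : Fam 2 N := by
    refine ⟨⟨fun v u h τ hτ => ?_, fun v h τ hτ => ?_, fun v h τ hτ => ?_⟩, fun v h => ?_,
      fun v h τ hτ => ?_⟩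
    · simp only [hN]
      rw [hG.law.per v u h τ hτ, lU.per v u h τ hτ, lV.per v u h τ hτ, lU'.per v u h τ hτ,
        lV'.per v u h τ hτ]
    · simp only [hN]
      rw [hG.law.hT v h τ hτ, lU.hT v h τ hτ, lV.hT v h τ hτ, lU'.hT v h τ hτ, lV'.hT v h τ hτ]
    · simp only [hN]
      rw [hG.law.hS v h τ hτ, lU.hS v h τ hτ, lV.hS v h τ hτ, lU'.hS v h τ hτ, lV'.hS v h τ hτ,
        pow_zero, one_mul, one_mul, NN_mul]
    · obtain ⟨d1, d2, h3⟩ := hv v h
      have d3 := d1.deriv isOpen_UH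
      have d4 := d2.deriv isOpen_UH
      have d5 := hG.hol v h
      simp only [hN, NN, Dn, Fd, Aa, Ab, Wn]
      refine DifferentiableOn.div (by fun_prop) (by fun_prop) fun τ hτ => ?_
      exact pow_ne_zero _ (mul_ne_zero (h3 τ hτ).1 (h3 τ hτ).2.1)
    · obtain ⟨d1, d2, h3⟩ := hv v h
      have e1 := (d1.differentiableAt (isOpen_UH.mem_nhds hτ)).hasDerivAt
      have e2 := (d2.differentiableAt (isOpen_UH.mem_nhds hτ)).hasDerivAt
      have n1 := (h3 τ hτ).1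
      simp only [hN]
      rw [hG.sc v h τ hτ, (h3 τ hτ).2.2.1, (h3 τ hτ).2.2.2,
        (ev_of (fun σ hσ => (h3 σ hσ).2.2.1) hτ).deriv_eq,
        (ev_of (fun σ hσ => (h3 σ hσ).2.2.2) hτ).deriv_eq,
        (HasDerivAt.fun_div e2 e1 n1).deriv,
        (HasDerivAt.fun_div (hasDerivAt_const τ (1 : ℂ)) e1 n1).deriv,
        NN_sc _ _ _ _ _ n1 (h3 τ hτ).2.1]
  have key : ∀ τ ∈ UH, N (1, 0) τ = 2 * π * I / 37 *
      (F (τ / 37) * Du τ - (α * Aa (uu τ) (vv τ) 1 + β * Ab (uu τ) (vv τ) 1) * Wu τ) *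
        cexp (-(2 * (sg cu τ + sg cv τ))) * (Q τ ^ 12)⁻¹ := by
    intro τ hτ
    have e1 : deriv uu τ = 2 * π * I / 37 * du τ := by
      have := ((hELL cu 1).1 τ hτ).cexp.neg.deriv
      erw [this]
      simp only [du, uu, eld]
      push_cast
      ring
    have e2 : deriv vv τ = 2 * π * I / 37 * dv τ := by
      have := ((hELL cv 5).1 τ hτ).cexp.deriv
      erw [this]
      simp only [dv, vv, eld]
      push_cast
      ring
    simp only [hN]
    rw [hG1 τ hτ, (hGS τ hτ).1, (hGS τ hτ).2, (ev_of (fun σ hσ => (hGS σ hσ).1) hτ).deriv_eq,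
      (ev_of (fun σ hσ => (hGS σ hσ).2) hτ).deriv_eq, e1, e2, NN, uv_eq, div_div_eq_mul_div]
    simp only [Du, Wu, Wn]
    ring
  have b1 : N (1, 0) =O[cusp] fun τ => Q τ ^ 7 := by
    have t1 := (hELL cu 1).2.2.1.trans_tendsto tendsto_Q_cusp
    have t2 := (hELL cv 5).2.2.1.trans_tendsto tendsto_Q_cusp
    have t3 := (((t1.add t2).const_mul 2).neg.cexp).isBigO_one ℂ
    have t4 := ((hO.const_mul_left (2 * π * I / 37)).mul t3).mul
      (isBigO_refl (fun τ => (Q τ ^ 12)⁻¹) cusp)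
    refine t4.congr' ?_ (Eventually.of_forall fun τ => ?_)
    · filter_upwards [ev_UH_cusp] with τ hτ using (key τ hτ).symm
    · have := Q_ne τ
      field_simp
  have b0 : N (0, 1) =O[cusp] fun _ => (1 : ℂ) := by
    obtain ⟨A, B, dA, dB, nA, nB, hAB⟩ := hG01
    obtain ⟨a1, a2⟩ := lim_A dA fun τ hτ => (hAB τ hτ).1
    obtain ⟨a3, a4⟩ := lim_A dB fun τ hτ => (hAB τ hτ).2
    have n0 : (A 0 * B 0) ^ 2 ≠ 0 := pow_ne_zero _ (mul_ne_zero nA nB)
    have a5 := (a1.prodMk_nhds a3).prodMk_nhds (a2.prodMk_nhds a4)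
    have c1 : ContinuousAt (fun p : (ℂ × ℂ) × ℂ × ℂ => NN α β 0 p.1.1 p.1.2 p.2.1 p.2.2)
        ((A 0, B 0), deriv A 0 * (2 * π * I * 0), deriv B 0 * (2 * π * I * 0)) := by
      simp only [NN, Dn, Fd, Aa, Ab, Wn]
      exact ContinuousAt.div (by fun_prop) (by fun_prop) n0
    have c2 : ContinuousAt (fun p : (ℂ × ℂ) × ℂ × ℂ => NN α β 1 p.1.1 p.1.2 0 0)
        ((A 0, B 0), deriv A 0 * (2 * π * I * 0), deriv B 0 * (2 * π * I * 0)) := by
      simp only [NN, Dn, Fd, Aa, Ab, Wn]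
      exact ContinuousAt.div (by fun_prop) (by fun_prop) n0
    have t1 := (c1.tendsto.comp a5).isBigO_one ℂ
    have t2 := hG0.mul ((c2.tendsto.comp a5).isBigO_one ℂ)
    simp only [mul_one] at t2
    refine (t1.add t2).congr_left fun τ => ?_
    simp only [hN, NN, Wn, Function.comp]
    ring
  intro τ hτ
  have h0 := hSTURM 2 7 N hfam (by norm_num) b1 b0 τ hτ
  rw [key τ hτ] at h0
  simpa only [mul_eq_zero, hc, exp_ne_zero, inv_eq_zero, pow_ne_zero _ (Q_ne τ), false_or,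
    or_false, sub_eq_zero] using h0

end C37
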