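import Pool.Agent.Lib.C37.Kit

/-! Block SQ: the branch of the square root of the discriminant on the closed upper half plane. -/

open Complex Filter Topology Set MeasureTheory Asymptotics
open scoped Real ComplexConjugate

namespace C37

namespace SQ

theorem sq_sqrt (z : ℂ) : Complex.sqrt z ^ 2 = z := cpow_ofNat_inv_pow z 2

theorem cont (a : ℝ) : ContinuousOn (fun x : ℂ => Complex.sqrt (x - a)) UC := by
  refine ContinuousOn.congr (f := fun x : ℂ => ((√((‖x - a‖ + (x - a).re) / 2) : ℝ) : ℂ) +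
    (√((‖x - a‖ - (x - a).re) / 2) : ℝ) * I) (by fun_prop) fun x hx => ?_
  have h : 0 ≤ (x - a).im := by simpa [UC] using hx
  simp only [Complex.sqrt_eq_real_add_ite, if_pos h, one_mul]

theorem pos {a x : ℝ} (h : a ≤ x) : Complex.sqrt (x - a) = (√(x - a) : ℝ) := by
  rw [← ofReal_sub, Complex.sqrt_of_nonneg (by exact_mod_cast sub_nonneg.2 h), ofReal_re]

theorem neg {a x : ℝ} (h : x ≤ a) : Complex.sqrt (x - a) = I * (√(a - x) : ℝ) := by
  rw [← neg_sub, Complex.sqrt_neg_of_nonneg (by exact_mod_cast sub_nonneg.2 h), pos h]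

theorem sq (e1 e2 e3 : ℝ) (x : ℂ) : s0 e1 e2 e3 x ^ 2 = 4 * (x - e1) * (x - e2) * (x - e3) := by
  simp only [s0, mul_pow, sq_sqrt]
  ring

theorem im_le {x : ℂ} (a : ℝ) : x.im ≤ ‖x - a‖ := by
  simpa using im_le_norm (x - a)

theorem ne {e1 e2 e3 : ℝ} {x : ℂ} (hx : x ∈ UH) : s0 e1 e2 e3 x ≠ 0 := by
  have h : ∀ a : ℝ, x - a ≠ 0 := fun a => norm_pos_iff.1 (lt_of_lt_of_le hx (im_le a))
  refine fun h0 => mul_ne_zero (mul_ne_zero (mul_ne_zero (show (4 : ℂ) ≠ 0 by norm_num) (h e1))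
    (h e2)) (h e3) ?_
  rw [← sq, h0, zero_pow two_ne_zero]

theorem der {e1 e2 e3 : ℝ} {x : ℂ} (hx : x ∈ UH) : HasDerivAt (s0 e1 e2 e3)
    (2 * ((x - e2) * (x - e3) + (x - e1) * (x - e3) + (x - e1) * (x - e2)) / s0 e1 e2 e3 x) x := by
  have h : ∀ a : ℝ, DifferentiableAt ℂ (fun y : ℂ => Complex.sqrt (y - a)) x := fun a =>
    (differentiableAt_sqrt (Or.inr (by simpa using (show 0 < x.im from hx).ne'))).comp x
      (differentiableAt_id.sub_const _)
  have h1 : HasDerivAt (s0 e1 e2 e3) (deriv (s0 e1 e2 e3) x) x :=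
    ((((h e1).const_mul 2).mul (h e2)).mul (h e3)).hasDerivAt
  have h2 := h1.fun_pow 2
  simp only [sq] at h2
  have g : ∀ a : ℝ, HasDerivAt (fun y : ℂ => y - a) 1 x := fun a => (hasDerivAt_id x).sub_const _
  have h3 := h2.unique ((((g e1).const_mul 4).fun_mul (g e2)).fun_mul (g e3))
  refine h1.congr_deriv ?_
  rw [eq_div_iff (ne hx)]
  norm_num at h3
  linear_combination h3 / 2

theorem prod3 {a b c y d : ℝ} (hy : 0 < y) (hd : 0 < d) (ha : y ≤ a) (hb : y ≤ b) (hc : y ≤ c)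
    (h1 : 2 * d ≤ a + b) (h2 : 2 * d ≤ b + c) (h3 : 2 * d ≤ a + c) : d * d * y ≤ a * b * c := by
  have k : ∀ {p q r : ℝ}, d ≤ p → d ≤ q → y ≤ r → d * d * y ≤ p * q * r := fun h4 h5 h6 =>
    mul_le_mul (mul_le_mul h4 h5 hd.le (by linarith)) h6 hy.le
      (mul_nonneg (by linarith) (by linarith))
  rcases le_total d a with h4 | h4
  · rcases le_total d b with h5 | h5
    · exact k h4 h5 hc
    · linarith [k h4 (show d ≤ c by linarith) hb]
  · linarith [k (show d ≤ b by linarith) (show d ≤ c by linarith) ha]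

theorem gap (z : ℂ) (a b : ℝ) : a - b ≤ ‖z - a‖ + ‖z - b‖ := by
  have h1 := (abs_le.1 (abs_re_le_norm (z - a))).1
  have h2 := re_le_norm (z - b)
  simp only [sub_re, ofReal_re] at h1 h2
  linarith

theorem bound {e1 e2 e3 : ℝ} (h1 : e2 < e1) (h2 : e3 < e2) : ∃ K : ℝ, ∀ z ∈ UH,
    ‖(s0 e1 e2 e3 z)⁻¹‖ ≤ K * z.im ^ (-(1 / 2) : ℝ) := by
  obtain ⟨d, hd, d1, d2⟩ : ∃ d : ℝ, 0 < d ∧ 2 * d ≤ e1 - e2 ∧ 2 * d ≤ e2 - e3 :=
    ⟨min (e1 - e2) (e2 - e3) / 2, by have := lt_min (sub_pos.2 h1) (sub_pos.2 h2); linarith,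
      by linarith [min_le_left (e1 - e2) (e2 - e3)], by linarith [min_le_right (e1 - e2) (e2 - e3)]⟩
  refine ⟨(2 * d)⁻¹, fun z hz => ?_⟩
  have hy : 0 < z.im := hz
  have h3 := prod3 hy hd (im_le e1) (im_le e2) (im_le e3) (d1.trans (gap z _ _))
    (d2.trans (gap z _ _)) (by linarith [gap z e1 e3])
  have h4 : ‖s0 e1 e2 e3 z‖ ^ 2 = 4 * ‖z - e1‖ * ‖z - e2‖ * ‖z - e3‖ := by
    rw [← norm_pow, sq]
    simp
  rw [norm_inv, Real.rpow_neg hy.le, ← Real.sqrt_eq_rpow, ← mul_inv]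
  refine inv_anti₀ (by positivity) (abs_le_of_sq_le_sq' ?_ (norm_nonneg _)).2
  rw [h4, mul_pow, Real.sq_sqrt hy.le]
  linarith

theorem r0 {e1 e2 e3 x : ℝ} (h2 : e2 < e1) (h3 : e3 < e2) (h : e1 < x) :
    s0 e1 e2 e3 x = (2 * √((x - e1) * (x - e2) * (x - e3)) : ℝ) := by
  rw [s0, pos h.le, pos (by linarith), pos (by linarith), Real.sqrt_mul' _ (by linarith),
    Real.sqrt_mul' _ (by linarith)]
  push_cast
  ring

end SQ

open SQ in
theorem st_SQ : St_SQ := by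
  intro e1 e2 e3 C h
  have h32 : e3 < e2 := h.h3.trans h.h2
  have h21 := h.h1
  have hs : ∀ x, s0 e1 e2 e3 x ^ 2 = (4 * x + 1) ^ 2 - 4 * C x := fun x => by rw [sq, h.eq]
  refine ⟨(((cont e1).const_mul 2).mul (cont e2)).mul (cont e3), hs, fun x hx => ⟨ne hx, der hx⟩,
    fun x => r0 h21 h32, fun x a b => ?_, fun x a b => ?_, fun x a => ?_, fun x _ h0 => ?_, ?_,
    fun _ => (bound h21 h32).imp fun _ hK z hz _ => hK z hz⟩
  · rw [s0, neg b.le, pos a.le, pos (by linarith), Real.sqrt_mul' _ (by linarith),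
      Real.sqrt_mul' _ (by linarith)]
    push_cast
    ring
  · rw [s0, neg (by linarith), neg b.le, pos a.le, Real.sqrt_mul' _ (by linarith),
      Real.sqrt_mul' _ (by linarith)]
    push_cast
    linear_combination (2 * (√(e1 - x) : ℝ) * (√(e2 - x) : ℝ) * (√(x - e3) : ℝ) : ℂ) * I_sq
  · rw [s0, neg (by linarith), neg (by linarith), neg a.le, Real.sqrt_mul' _ (by linarith),
      Real.sqrt_mul' _ (by linarith)]
    push_cast
    linear_combination (2 * (√(e1 - x) : ℝ) * (√(e2 - x) : ℝ) * (√(e3 - x) : ℝ) * I : ℂ) * I_sq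
  · have h1 : s0 e1 e2 e3 x = -(4 * x + 1) := by
      rw [ym, yy] at h0
      linear_combination -2 * h0
    obtain ⟨h2, h3⟩ := h.rt x (by
      have h4 := hs x
      rw [h1] at h4
      linear_combination h4 / 4)
    obtain ⟨t, rfl⟩ : ∃ t : ℝ, x = t := ⟨x.re, Complex.ext rfl (by simpa using h2)⟩
    rw [ofReal_re] at h3
    rw [r0 h21 h32 (h.h0.trans_le h3)] at h1
    have h5 : 2 * √((t - e1) * (t - e2) * (t - e3)) = -(4 * t + 1) := by exact_mod_cast h1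
    linarith [Real.sqrt_nonneg ((t - e1) * (t - e2) * (t - e3))]
  · have h1 := r0 h21 h32 h.h0
    have h2 := hs 0
    rw [ofReal_zero] at h1
    rw [h1, h.c0] at h2
    have h3 : (2 * √((0 - e1) * (0 - e2) * (0 - e3))) ^ 2 = 1 ^ 2 := by
      have : (((2 * √((0 - e1) * (0 - e2) * (0 - e3))) ^ 2 : ℝ) : ℂ) = (1 ^ 2 : ℝ) := by
        rw [ofReal_pow, h2]
        norm_num
      exact_mod_cast this
    rw [ym, yy, h1, (pow_left_inj₀ (by positivity) zero_le_one two_ne_zero).1 h3]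
    norm_num

end C37
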