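import Pool.Agent.Lib.C37.Kit

/-! Double series in `Q`: convergence, regrouping, derivative, decay. -/

open Complex Filter Topology Set MeasureTheory Asymptotics
open scoped Real ComplexConjugate

namespace C37

namespace BSS

lemma maj (r : ℕ) {ρ : ℝ} (h0 : 0 < ρ) (h1 : ρ < 1) : Summable fun p : ℕ+ × ℕ+ =>
    (((p.1 : ℕ) : ℝ) * (p.2 : ℕ)) ^ r * ρ ^ ((p.1 : ℕ) * (p.2 : ℕ)) := by
  have hs : 0 < √ρ := Real.sqrt_pos.mpr h0
  have hs1 : √ρ < 1 := (Real.sqrt_lt' one_pos).mpr (by rwa [one_pow])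
  have hn : ‖√ρ‖ < 1 := by rwa [Real.norm_of_nonneg hs.le]
  obtain ⟨K, hK⟩ := (tendsto_pow_const_mul_const_pow_of_abs_lt_one r
    (show |√ρ| < 1 from hn)).bddAbove_range
  refine Summable.of_nonneg_of_le (fun p => by positivity) (fun p => ?_)
    ((summable_prod_mul_pow 0 hn).mul_left K)
  have := hK ⟨(p.1 : ℕ) * (p.2 : ℕ), rfl⟩
  simp only [Nat.cast_mul] at this
  rw [pow_zero, one_mul]
  nth_rewrite 1 [← Real.mul_self_sqrt h0.le]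
  rw [mul_pow √ρ, ← mul_assoc]
  exact mul_le_mul_of_nonneg_right this (by positivity)

lemma bd {α : ℕ → ℕ → ℂ} {C : ℝ} {r : ℕ}
    (h : ∀ m n : ℕ, 0 < m → 0 < n → ‖α m n‖ ≤ C * ((m : ℝ) * n) ^ r) {x : ℂ} {ρ : ℝ}
    (hx : ‖x‖ ≤ ρ) (p : ℕ+ × ℕ+) : ‖α p.1 p.2 * x ^ ((p.1 : ℕ) * (p.2 : ℕ))‖ ≤
      C * ((((p.1 : ℕ) : ℝ) * (p.2 : ℕ)) ^ r * ρ ^ ((p.1 : ℕ) * (p.2 : ℕ))) := by
  have := h p.1 p.2 p.1.2 p.2.2
  rw [norm_mul, norm_pow, ← mul_assoc]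
  exact mul_le_mul this (pow_le_pow_left₀ (norm_nonneg _) hx _) (by positivity)
    ((norm_nonneg _).trans this)

lemma norm_Q_pos (τ : ℂ) : 0 < ‖Q τ‖ := norm_pos_iff.mpr (Q_ne τ)

lemma norm_Q_le {τ σ : ℂ} (h : σ.im ≤ τ.im) : ‖Q τ‖ ≤ ‖Q σ‖ := by
  rw [norm_Q, norm_Q, Real.exp_le_exp]
  have := Real.pi_pos
  nlinarith

lemma summ {α : ℕ → ℕ → ℂ} (h : PBd α) {τ : ℂ} (hτ : τ ∈ UH) :
    Summable fun p : ℕ+ × ℕ+ => α p.1 p.2 * Q τ ^ ((p.1 : ℕ) * (p.2 : ℕ)) := by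
  obtain ⟨C, r, h⟩ := h
  exact .of_norm_bounded ((maj r (norm_Q_pos τ) (norm_Q_lt hτ)).mul_left C) (bd h le_rfl)

lemma pbd_mul {α : ℕ → ℕ → ℂ} (h : PBd α) : PBd fun m n => m * n * α m n := by
  obtain ⟨C, r, h⟩ := h
  refine ⟨C, r + 1, fun m n hm hn => ?_⟩
  rw [norm_mul, norm_mul, norm_natCast, norm_natCast, pow_succ, ← mul_assoc, mul_comm]
  exact mul_le_mul_of_nonneg_right (h m n hm hn) (by positivity)

lemma regroup {α : ℕ → ℕ → ℂ} {x s : ℂ}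
    (h : HasSum (fun p : ℕ+ × ℕ+ => α p.1 p.2 * x ^ ((p.1 : ℕ) * (p.2 : ℕ))) s) :
    HasSum (fun k : ℕ => (∑ y ∈ k.divisorsAntidiagonal, α y.1 y.2) * x ^ k) s := by
  have h1 := (sigmaAntidiagonalEquivProd.hasSum_iff.mpr h).sigma fun n => hasSum_fintype _
  have h2 : HasSum (fun k : ℕ+ => (∑ y ∈ (k : ℕ).divisorsAntidiagonal, α y.1 y.2) * x ^ (k : ℕ))
      s := by
    refine h1.congr_fun fun k => ?_
    rw [Finset.sum_mul, ← Finset.sum_coe_sort]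
    refine Finset.sum_congr rfl fun y _ => ?_
    have := (Nat.mem_divisorsAntidiagonal.mp y.2).1
    change α y.1.1 y.1.2 * x ^ (k : ℕ) = α y.1.1 y.1.2 * x ^ (y.1.1 * y.1.2)
    rw [this]
  refine (PNat.coe_injective.hasSum_iff fun k hk => ?_).mp h2
  have : k = 0 := by
    by_contra h0
    exact hk ⟨⟨k, Nat.pos_of_ne_zero h0⟩, rfl⟩
  simp [this]

lemma der {α : ℕ → ℕ → ℂ} (h : PBd α) {τ : ℂ} (hτ : τ ∈ UH) :
    HasDerivAt (SS α) (2 * π * I / 37 * SS (fun m n => m * n * α m n) τ) τ := by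
  have h0 : 0 < τ.im := hτ
  obtain ⟨C, r, hb⟩ := pbd_mul h
  have hσ : ((τ.im / 2 : ℝ) * I : ℂ) ∈ UH := by
    simpa [UH] using h0
  have ht : τ ∈ {z : ℂ | τ.im / 2 < z.im} := half_lt_self h0
  have := hasDerivAt_tsum_of_isPreconnected (t := {z : ℂ | τ.im / 2 < z.im})
    (g := fun (p : ℕ+ × ℕ+) z => α p.1 p.2 * Q z ^ ((p.1 : ℕ) * (p.2 : ℕ)))
    (g' := fun (p : ℕ+ × ℕ+) z => 2 * π * I / 37 *
      (((p.1 : ℕ) * (p.2 : ℕ) * α p.1 p.2) * Q z ^ ((p.1 : ℕ) * (p.2 : ℕ))))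
    (((maj r (norm_Q_pos _) (norm_Q_lt hσ)).mul_left C).mul_left ‖(2 * π * I / 37 : ℂ)‖)
    (isOpen_lt continuous_const continuous_im) (convex_halfSpace_im_gt _).isPreconnected
    (fun p z _ => ?_) (fun p z hz => ?_) ht (summ h hτ) ht
  · rw [tsum_mul_left] at this
    exact this
  · refine (((hasDerivAt_Q z).fun_pow _).const_mul _).congr_deriv ?_
    have hp : 1 ≤ (p.1 : ℕ) * (p.2 : ℕ) := mul_pos p.1.2 p.2.2
    nth_rewrite 3 [← Nat.sub_add_cancel hp]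
    push_cast
    ring
  · rw [norm_mul]
    refine mul_le_mul_of_nonneg_left (bd hb (norm_Q_le ?_) p) (norm_nonneg _)
    simpa using (show τ.im / 2 < z.im from hz).le

lemma bigO {α : ℕ → ℕ → ℂ} (h : PBd α) : SS α =O[cusp] Q := by
  obtain ⟨C, r, hb⟩ := h
  have hI : I ∈ UH := by simp [UH]
  have hs := (maj r (norm_Q_pos I) (norm_Q_lt hI)).mul_left C
  refine IsBigO.of_bound ((∑' p : ℕ+ × ℕ+, C * ((((p.1 : ℕ) : ℝ) * (p.2 : ℕ)) ^ r *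
    ‖Q I‖ ^ ((p.1 : ℕ) * (p.2 : ℕ)))) / ‖Q I‖) ?_
  filter_upwards [ev_im_cusp 1] with τ hτ
  have h1 : ‖Q τ‖ ≤ ‖Q I‖ := norm_Q_le (by simpa using hτ.le)
  rw [div_mul_eq_mul_div, mul_div_assoc]
  refine tsum_of_norm_bounded (hs.hasSum.mul_right _) fun p => ?_
  have hp : 1 ≤ (p.1 : ℕ) * (p.2 : ℕ) := mul_pos p.1.2 p.2.2
  have h2 := hb p.1 p.2 p.1.2 p.2.2
  have h3 := (norm_Q_pos I).ne'
  rw [norm_mul, norm_pow, ← mul_assoc, mul_assoc (C * _)]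
  refine mul_le_mul h2 ?_ (by positivity) ((norm_nonneg _).trans h2)
  obtain ⟨k, hk⟩ := Nat.exists_eq_add_of_le' hp
  rw [hk, pow_succ, pow_succ, mul_assoc, mul_div_cancel₀ _ h3]
  gcongr

lemma cbd (c : ZMod 37 → ℤ) : ∃ C : ℝ, ∀ a, ‖(c a : ℂ)‖ ≤ C :=
  ⟨∑ a, ‖(c a : ℂ)‖, fun a =>
    Finset.single_le_sum (f := fun a => ‖(c a : ℂ)‖) (fun _ _ => norm_nonneg _) (Finset.mem_univ a)⟩

lemma pbd_sg (c : ZMod 37 → ℤ) : PBd fun m n => (c m : ℂ) / n := by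
  obtain ⟨C, hC⟩ := cbd c
  refine ⟨C, 0, fun m n _ hn => ?_⟩
  rw [pow_zero, mul_one, norm_div, norm_natCast]
  exact (div_le_self (norm_nonneg _) (by exact_mod_cast hn)).trans (hC _)

lemma pbd_sd (c : ZMod 37 → ℤ) : PBd fun m _ => (c m : ℂ) * m := by
  obtain ⟨C, hC⟩ := cbd c
  refine ⟨C, 1, fun m n _ hn => ?_⟩
  rw [pow_one, norm_mul, norm_natCast]
  exact mul_le_mul (hC _) (le_mul_of_one_le_right (by positivity) (by exact_mod_cast hn))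
    (by positivity) ((norm_nonneg _).trans (hC 0))

end BSS

open BSS

theorem st_SS : St_SS := fun _ h =>
  ⟨fun _ hτ => (summ h hτ).hasSum, fun _ hτ => regroup (summ h hτ).hasSum, fun _ hτ => der h hτ,
    bigO h⟩

theorem st_ELL : St_ELL := by
  refine fun c o => ⟨fun τ hτ => ?_,
    fun τ hτ => (der (pbd_sd c) hτ).differentiableAt.differentiableWithinAt, bigO (pbd_sg c),
    bigO (pbd_sd c)⟩
  have h1 : SS (fun m n => m * n * ((c m : ℂ) / n)) τ = sd c τ := tsum_congr fun p => by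
    have : ((p.2 : ℕ) : ℂ) ≠ 0 := by exact_mod_cast p.2.2.ne'
    field_simp
  have h2 := der (pbd_sg c) hτ
  rw [h1] at h2
  refine ((((hasDerivAt_id' τ).const_mul (2 * π * I * o)).div_const 37).add h2).congr_deriv ?_
  unfold eld
  ring

end C37
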