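import Pool.Agent.Lib.C37.Kit

/-! The Sturm argument: the norm down to level one vanishes. -/

open Complex Filter Topology Set Asymptotics
open scoped Real MatrixGroups ModularForm Manifold

namespace C37

namespace STURM

open UpperHalfPlane ModularForm in
lemma level_one {K N : ℕ} {P : ℂ → ℂ} (hol : DifferentiableOn ℂ P UH)
    (hT : ∀ τ ∈ UH, P (τ + 1) = P τ) (hS : ∀ τ ∈ UH, P (-1 / τ) = τ ^ K * P τ) (hK : K < 12 * N)
    (hO : P =O[cusp] fun τ => e τ ^ N) : ∀ τ ∈ UH, P τ = 0 := by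
  let f : ℍ → ℂ := fun z => P z / discriminant z ^ N
  have inv : ∀ γ : SL(2, ℤ), f ∣[(K : ℤ) - 12 * N] γ = f := by
    refine SlashInvariantForm.slash_action_generators_SL2Z (funext fun z => ?_) (funext fun z => ?_)
    · have h1 := (slash_action_eq'_iff _ _ _ z).1 (congrFun discriminant_S_invariant z)
      have h2 : ((ModularGroup.S • z : ℍ) : ℂ) = -1 / z := by
        rw [modular_S_smul]
        simp [neg_div, inv_neg]
      have h3 := discriminant_ne_zero z
      have h4 := z.ne_zero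
      rw [slash_action_eq'_iff]
      simp only [f, h1, h2, hS z z.2]
      simp only [ModularGroup.S, Matrix.SpecialLinearGroup.coe_mk, Matrix.of_apply,
        Matrix.cons_val', Matrix.cons_val_zero, Matrix.cons_val_one, Matrix.cons_val_fin_one,
        Int.cast_one, Int.cast_zero, one_mul, add_zero]
      rw [zpow_sub₀ h4, zpow_mul, zpow_natCast, zpow_natCast, mul_pow]
      field_simp
    · have h1 := (slash_action_eq'_iff _ _ _ z).1 (congrFun discriminant_T_invariant z)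
      have h2 : ((ModularGroup.T • z : ℍ) : ℂ) = z + 1 := by
        rw [modular_T_smul]
        simp [add_comm]
      rw [slash_action_eq'_iff]
      simp only [f, h1, h2, hT z z.2]
      simp [ModularGroup.T]
  have hP : MDiff fun z : ℍ => P z := mdifferentiable_iff.2 (hol.congr fun z hz => by
    simp [ofComplex_apply_of_im_pos hz])
  have hc : Tendsto ((↑) : ℍ → ℂ) atImInfty cusp := tendsto_comap_iff.2 tendsto_comap
  have hb : (fun z : ℍ => P z) =O[atImInfty] fun z => discriminant z ^ N := by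
    refine (hO.comp_tendsto hc).trans (IsBigO.pow (f := fun z : ℍ => e z) ?_ N)
    refine IsBigO.trans (IsBigO.of_bound' (Eventually.of_forall fun z => ?_))
      exp_isBigO_discriminant
    rw [norm_e, Real.norm_of_nonneg (Real.exp_pos _).le]
    simp
  let g : ModularForm 𝒮ℒ ((K : ℤ) - 12 * N) :=
    { toFun := f
      slash_action_eq' := fun _ ⟨γ, hγ⟩ => hγ ▸ inv γ
      holo' := hP.div (CuspForm.discriminant.holo'.pow N) fun z =>
        pow_ne_zero _ (discriminant_ne_zero z)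
      bdd_at_cusps' := fun {c} hc => by
        rw [Subgroup.IsArithmetic.isCusp_iff_isCusp_SL2Z] at hc
        rw [OnePoint.isBoundedAt_iff_forall_SL2Z hc]
        intro γ _
        rw [inv γ, IsBoundedAtImInfty, BoundedAtFilter]
        exact (div_isBoundedUnder_of_isBigO hb).isBigO_one ℝ }
  intro τ hτ
  have h0 := congrFun (ModularFormClass.levelOne_neg_weight_eq_zero (by omega) g) ⟨τ, hτ⟩
  exact (div_eq_zero_iff.1 h0).resolve_right (pow_ne_zero _ (discriminant_ne_zero _))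

lemma prod_zero {ι : Type} {f : ι → ℂ → ℂ} (s : Finset ι)
    (h : ∀ i ∈ s, DifferentiableOn ℂ (f i) UH) (h0 : ∀ τ ∈ UH, ∏ i ∈ s, f i τ = 0) :
    ∃ i ∈ s, ∀ τ ∈ UH, f i τ = 0 := by
  classical
  induction s using Finset.induction_on with
  | empty => simpa using h0 I (by simp [UH])
  | insert a s ha ih =>
    have h1 : ∀ i ∈ s, DifferentiableOn ℂ (f i) UH := fun i hi => h i (Finset.mem_insert_of_mem hi)
    rcases AnalyticOnNhd.eq_zero_or_eq_zero_of_mul_eq_zero
      ((h a (Finset.mem_insert_self a s)).analyticOnNhd isOpen_UH)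
      ((DifferentiableOn.fun_finsetProd h1).analyticOnNhd isOpen_UH)
      (fun z hz => by rw [← h0 z hz, Finset.prod_insert ha]) convex_UH.isPreconnected with k | k
    · exact ⟨a, Finset.mem_insert_self a s, k⟩
    · obtain ⟨i, hi, k⟩ := ih h1 k
      exact ⟨i, Finset.mem_insert_of_mem hi, k⟩

/-- the lift of a residue vector -/
def lf (v : ZMod 37 × ZMod 37) : ℤ × ℤ := (v.1.val, v.2.val)

lemma nz_iff {u : ℤ × ℤ} : NZ u ↔ ((u.1, u.2) : ZMod 37 × ZMod 37) ≠ 0 := by
  simp only [NZ, ne_eq, Prod.mk_eq_zero, ZMod.intCast_zmod_eq_zero_iff_dvd, Nat.cast_ofNat]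

lemma nz_lf {v : ZMod 37 × ZMod 37} (h : v ≠ 0) : NZ (lf v) := by
  simpa [nz_iff, lf] using h

variable {k : ℕ} {F : ℤ × ℤ → ℂ → ℂ}

lemma red (h : Fam k F) {u : ℤ × ℤ} {v : ZMod 37 × ZMod 37} (hv : v ≠ 0) (h1 : (u.1 : ZMod 37) = v.1)
    (h2 : (u.2 : ZMod 37) = v.2) {τ : ℂ} (hτ : τ ∈ UH) : F u τ = F (lf v) τ := by
  rw [← h.law.per (lf v) (u.1 / 37, u.2 / 37) (nz_lf hv) τ hτ]
  congr 1
  ext
  · simp only [lf, ← h1, ZMod.val_intCast, Prod.fst_add, Prod.smul_fst, smul_eq_mul]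
    omega
  · simp only [lf, ← h2, ZMod.val_intCast, Prod.snd_add, Prod.smul_snd, smul_eq_mul]
    omega

lemma lawT (h : Fam k F) {v : ZMod 37 × ZMod 37} (hv : v ≠ 0) {τ : ℂ} (hτ : τ ∈ UH) :
    F (lf v) (τ + 1) = F (lf (v.1, v.1 + v.2)) τ := by
  rw [h.law.hT _ (nz_lf hv) τ hτ]
  refine red h (fun e => hv ?_) (by simp [lf]) (by simp [lf]) hτ
  obtain ⟨e1, e2⟩ := Prod.mk_eq_zero.1 e
  exact Prod.ext e1 (by simpa [e1] using e2)

lemma lawS (h : Fam k F) {v : ZMod 37 × ZMod 37} (hv : v ≠ 0) {τ : ℂ} (hτ : τ ∈ UH) :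
    F (lf v) (-1 / τ) = τ ^ k * F (lf (v.2, -v.1)) τ := by
  rw [h.law.hS _ (nz_lf hv) τ hτ]
  congr 1
  refine red h (fun e => hv ?_) (by simp [lf]) (by simp [lf]) hτ
  obtain ⟨e1, e2⟩ := Prod.mk_eq_zero.1 e
  exact Prod.ext (neg_eq_zero.1 e2) e1

lemma scal (h : Fam k F) {v : ZMod 37 × ZMod 37} (hv : v ≠ 0) {t : ZMod 37} (ht : t ≠ 0) {τ : ℂ}
    (hτ : τ ∈ UH) : F (lf (t • v)) τ = F (lf v) τ := by
  obtain ⟨j, -, rfl⟩ : ∃ j < 36, t = 2 ^ j := by revert t; decide +kernel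
  induction j with
  | zero => simp
  | succ j ih =>
    have h2 : (2 : ZMod 37) ^ j ≠ 0 := left_ne_zero_of_mul (pow_succ (2 : ZMod 37) j ▸ ht)
    rw [← ih h2, ← h.sc _ (nz_lf (smul_ne_zero h2 hv)) τ hτ]
    exact (red h (smul_ne_zero ht hv) (by simp [lf, pow_succ', mul_assoc])
      (by simp [lf, pow_succ', mul_assoc]) hτ).symm

lemma shift (h : Fam k F) (j : ℕ) {τ : ℂ} (hτ : τ ∈ UH) :
    F (lf (1, j)) τ = F (1, 0) (τ + j) := by
  induction j generalizing τ with
  | zero => simpa using (red h (u := (1, 0)) (v := (1, 0)) (by simp) (by simp) (by simp) hτ).symm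
  | succ j ih =>
    rw [Nat.cast_succ, Nat.cast_succ, add_comm (j : ℂ), ← add_assoc,
      ← ih (add_mem_UH hτ (by simp)), lawT h (by simp) hτ, add_comm]

lemma big (h : Fam k F) {v : ZMod 37 × ZMod 37} (hv : v.1 ≠ 0) :
    ∃ j : ℕ, ∀ τ ∈ UH, F (lf v) τ = F (1, 0) (τ + j) := by
  refine ⟨(v.2 / v.1).val, fun τ hτ => ?_⟩
  rw [← shift h _ hτ, ZMod.natCast_zmod_val, ← scal h (v := (1, v.2 / v.1)) (by simp) hv hτ]
  simp [mul_div_cancel₀ _ hv]

lemma small (h : Fam k F) {v : ZMod 37 × ZMod 37} (hv : v ≠ 0) (h1 : v.1 = 0) {τ : ℂ}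
    (hτ : τ ∈ UH) : F (lf v) τ = F (0, 1) τ := by
  have h2 : v.2 ≠ 0 := fun e => hv (Prod.ext h1 e)
  rw [red h (u := (0, 1)) (v := (0, 1)) (by simp) (by simp) (by simp) hτ,
    ← scal h (v := (0, 1)) (by simp) h2 hτ]
  congr 2
  exact Prod.ext (by simpa using h1) (by simp)

lemma shift_O {f : ℂ → ℂ} {a : ℕ} (h : f =O[cusp] fun τ => Q τ ^ a) (j : ℕ) :
    (fun τ => f (τ + j)) =O[cusp] fun τ => Q τ ^ a := by
  have h1 : Tendsto (fun τ : ℂ => τ + j) cusp cusp :=
    tendsto_comap_iff.2 (tendsto_im_cusp.congr fun τ => by simp)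
  refine (h.comp_tendsto h1).trans (IsBigO.of_bound' (Eventually.of_forall fun τ => ?_))
  simp [norm_Q]

end STURM

open STURM in
theorem st_STURM : St_STURM := by
  classical
  intro k a F h hk h1 h2
  let V : Finset (ZMod 37 × ZMod 37) := Finset.univ.erase 0
  have hV : ∀ v, v ∈ V ↔ v ≠ 0 := fun v => by simp [V]
  have hol : ∀ v ∈ V, DifferentiableOn ℂ (F (lf v)) UH := fun v hv => h.hol _ (nz_lf ((hV v).1 hv))
  have c1 : V.card = 1368 := by simp [V, ZMod.card]
  have c2 : (V.filter fun v => v.1 ≠ 0).card = 37 * 36 := by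
    have : (V.filter fun v => v.1 ≠ 0) = (Finset.univ.erase 0) ×ˢ Finset.univ := by
      ext v
      simp only [Finset.mem_filter, hV, Finset.mem_product, Finset.mem_erase, Finset.mem_univ,
        and_true, and_iff_right_iff_imp]
      exact fun k e => k (congrArg Prod.fst e)
    rw [this]
    simp [ZMod.card]
  have key := level_one (K := k * 1368) (N := 36 * a) (P := fun τ => ∏ v ∈ V, F (lf v) τ)
    (DifferentiableOn.fun_finsetProd hol) (fun τ hτ => ?_) (fun τ hτ => ?_) (by omega) ?_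
  · obtain ⟨v, hv, h0⟩ := prod_zero V hol key
    intro τ hτ
    by_cases e : v.1 = 0
    · have h3 := h.law.hS (0, 1) (by simp [NZ]) τ hτ
      rw [← small h ((hV v).1 hv) e (inv_mem_UH hτ), h0 _ (inv_mem_UH hτ)] at h3
      simpa [ne_of_UH hτ] using h3
    · obtain ⟨j, hj⟩ := big h e
      have h3 : τ + -(j : ℂ) ∈ UH := add_mem_UH hτ (by simp)
      simpa [h0 _ h3] using (hj _ h3).symm
  · rw [Finset.prod_congr rfl fun v hv => lawT h ((hV v).1 hv) hτ]
    refine Finset.prod_nbij' (fun v => (v.1, v.1 + v.2)) (fun v => (v.1, v.2 - v.1)) ?_ ?_ ?_ ?_ ?_ <;>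
      simp +contextual [hV, Prod.ext_iff]
  · rw [Finset.prod_congr rfl fun v hv => lawS h ((hV v).1 hv) hτ, Finset.prod_mul_distrib,
      Finset.prod_const, c1, pow_mul]
    congr 1
    refine Finset.prod_nbij' (fun v => (v.2, -v.1)) (fun v => (-v.2, v.1)) ?_ ?_ ?_ ?_ ?_ <;>
      simp +contextual [hV, Prod.ext_iff, and_comm]
  · refine (IsBigO.finsetProd (g := fun v τ => if v.1 ≠ 0 then Q τ ^ a else 1)
      fun v hv => ?_).congr_right fun τ => ?_
    · by_cases e : v.1 = 0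
      · simp only [e, ne_eq, not_true, if_false]
        exact h2.congr' (ev_UH_cusp.mono fun τ hτ => (small h ((hV v).1 hv) e hτ).symm) (.refl _ _)
      · obtain ⟨j, hj⟩ := big h e
        simp only [e, ne_eq, not_false_eq_true, if_true]
        exact (shift_O h1 j).congr' (ev_UH_cusp.mono fun τ hτ => (hj τ hτ).symm) (.refl _ _)
    · rw [← Finset.prod_filter, Finset.prod_const, c2, ← Q_pow, ← pow_mul, ← pow_mul]
      ring

end C37
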