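import Pool.Agent.Lib.C37.Kit

/-! Block SW: the Rogers-Zudilin interchange in weight two. -/

open Real Filter Topology Set MeasureTheory

namespace C37

namespace SW

open RV6

lemma zeta {k : ℕ} (hk : 1 < k) : Summable fun n : ℕ+ => 1 / ((n : ℕ) : ℝ) ^ k :=
  (summable_pnat_iff_summable_nat (f := fun j : ℕ => 1 / (j : ℝ) ^ k)).mpr
    (summable_one_div_nat_pow.mpr hk)

noncomputable def kr (a b y : ℝ) : ℝ := exp (-(a / y)) * exp (-(b * y))

noncomputable def KB (a b : ℝ) : ℝ := ∫ y in Ioi 0, kr a b y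

lemma kr_nonneg (a b y : ℝ) : 0 ≤ kr a b y := by unfold kr; positivity

lemma kr_le {a b y : ℝ} (ha : 0 < a) (hy : 0 < y) :
    kr a b y ≤ 2 / a ^ 2 * (exp (-(b * y)) * y ^ 2) := by
  have h := pow_div_factorial_le_exp (a / y) (by positivity) 2
  have h1 : (a / y) ^ 2 * exp (-(a / y)) ≤ 2 := by
    rw [exp_neg, mul_inv_le_iff₀ (exp_pos _)]
    norm_num [Nat.factorial] at h
    linarith
  have : kr a b y = (a / y) ^ 2 * exp (-(a / y)) / a ^ 2 * (exp (-(b * y)) * y ^ 2) := by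
    unfold kr; field_simp
  rw [this]
  gcongr

lemma HI_kr {a b : ℝ} (ha : 0 < a) (hb : 0 < b) :
    HI (kr a b) (KB a b) ∧ KB a b ≤ 4 / (a ^ 2 * b ^ 3) := by
  have h := (HI_exp 2 hb).cmul (2 / a ^ 2)
  have hc : ContinuousOn (kr a b) (Ioi 0) := by
    unfold kr
    fun_prop (disch := exact fun y hy => ne_of_gt hy)
  have hi : IntegrableOn (kr a b) (Ioi 0) := by
    refine h.1.mono' (hc.aestronglyMeasurable measurableSet_Ioi) ?_
    filter_upwards [ae_restrict_mem measurableSet_Ioi] with y hy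
    rw [Real.norm_of_nonneg (kr_nonneg _ _ _)]
    exact kr_le ha hy
  refine ⟨⟨hi, rfl⟩, (setIntegral_mono_on hi h.1 measurableSet_Ioi fun y hy => kr_le ha hy).trans
    (le_of_eq ?_)⟩
  rw [h.2]
  simp only [Nat.factorial]
  field_simp
  norm_num [mul_comm]

lemma KB_nonneg (a b : ℝ) : 0 ≤ KB a b := integral_nonneg fun _ => kr_nonneg _ _ _

lemma KB_scale {a b l : ℝ} (ha : 0 < a) (hb : 0 < b) (hl : 0 < l) :
    KB (a / l) (b * l) = KB a b / l :=
  (HI_kr (by positivity) (by positivity)).1.unique (((HI_kr ha hb).1.scale hl).congr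
    (fun y _ => by simp only [kr, div_div, mul_assoc]) rfl)

lemma HI_KS {α β γ δ : ℕ+ → ℝ} (hα : PB α) (hβ : PB β) (hγ : PB γ) (hδ : PB δ) {c : ℝ}
    (hc : 0 < c) (hs : Summable fun i : (ℕ+ × ℕ+) × ℕ+ × ℕ+ =>
      |α i.1.1 * β i.1.2 * (γ i.2.1 * δ i.2.2)| *
        KB (π * c * ((i.1.1 : ℕ) * (i.1.2 : ℕ))) (π * c * ((i.2.1 : ℕ) * (i.2.2 : ℕ)))) :
    HI (fun y => DS α β (c / y) * DS γ δ (c * y)) (∑' i : (ℕ+ × ℕ+) × ℕ+ × ℕ+,
      α i.1.1 * β i.1.2 * (γ i.2.1 * δ i.2.2) *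
        KB (π * c * ((i.1.1 : ℕ) * (i.1.2 : ℕ))) (π * c * ((i.2.1 : ℕ) * (i.2.2 : ℕ)))) := by
  refine HI_tsum_pos (fun i => (HI_kr (mul_pos (mul_pos pi_pos hc) (mul_pos (c_pos _) (c_pos _)))
    (mul_pos (mul_pos pi_pos hc) (mul_pos (c_pos _) (c_pos _)))).1)
    (fun _ _ _ => kr_nonneg _ _ _) hs fun y hy => ?_
  have h1 := DS_hasSum hα hβ (div_pos hc hy)
  have h2 := DS_hasSum hγ hδ (mul_pos hc hy)
  refine (h1.mul h2
    (summable_mul_of_summable_norm h1.summable.norm h2.summable.norm)).congr_fun fun i => ?_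
  simp only [kr, ew]
  ring_nf

end SW

open SW RV6

theorem st_SW : St_SW := by
  intro A B C E M hA hB hC hE
  have pA := PB.of_le M hA
  have pB := PB.of_le M hB
  have pC := PB.of_le M hC
  have pE := PB.of_le M hE
  have hM : 0 ≤ M := (abs_nonneg _).trans (hA 1)
  obtain ⟨c, hc2⟩ : ∃ c : ℝ, c = 2 / 37 := ⟨_, rfl⟩
  have hc : 0 < c := by rw [hc2]; norm_num
  have := pi_pos
  let e : (ℕ+ × ℕ+) × ℕ+ × ℕ+ ≃ (ℕ+ × ℕ+) × ℕ+ × ℕ+ :=
    ⟨fun i => ((i.1.1, i.2.1), (i.1.2, i.2.2)), fun i => ((i.1.1, i.2.1), (i.1.2, i.2.2)),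
      fun _ => rfl, fun _ => rfl⟩
  have hK : ∀ a b a' b' : ℕ+,
      KB (π * c * ((a : ℕ) * (b : ℕ))) (π * c * ((a' : ℕ) * (b' : ℕ))) =
      KB (π * c * ((a : ℕ) * (a' : ℕ))) (π * c * ((b : ℕ) * (b' : ℕ))) /
        (((a' : ℕ) : ℝ) / (b : ℕ)) := by
    intro a b a' b'
    have := c_pos a
    have := c_pos b
    have := c_pos a'
    have := c_pos b'
    rw [← KB_scale (by positivity) (by positivity) (by positivity)]
    congr 1 <;> field_simp
  have hs : Summable fun i : (ℕ+ × ℕ+) × ℕ+ × ℕ+ =>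
      |A i.1.1 * (B i.1.2 / (i.1.2 : ℕ)) * ((i.2.1 : ℕ) * C i.2.1 * E i.2.2)| *
        KB (π * c * ((i.1.1 : ℕ) * (i.1.2 : ℕ))) (π * c * ((i.2.1 : ℕ) * (i.2.2 : ℕ))) := by
    have n0 : ∀ (k : ℕ) (n : ℕ+), 0 ≤ 1 / ((n : ℕ) : ℝ) ^ k := fun k n => by positivity
    have s1 := (zeta (k := 2) (by norm_num)).mul_of_nonneg
      (zeta (k := 3) (by norm_num)) (n0 _) (n0 _)
    refine Summable.of_nonneg_of_le (fun i => mul_nonneg (abs_nonneg _) (KB_nonneg _ _))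
      (fun i => ?_) ((s1.mul_of_nonneg s1 (fun _ => mul_nonneg (n0 _ _) (n0 _ _))
        (fun _ => mul_nonneg (n0 _ _) (n0 _ _))).mul_left (M ^ 4 * 4 / (π * c) ^ 5))
    obtain ⟨⟨a, b⟩, a', b'⟩ := i
    have := c_pos a
    have := c_pos b
    have := c_pos a'
    have := c_pos b'
    simp only [abs_mul, abs_div, Nat.abs_cast]
    calc _ ≤ M * (M / (b : ℕ)) * ((a' : ℕ) * M * M) * (4 / ((π * c * ((a : ℕ) * (b : ℕ))) ^ 2 *
          (π * c * ((a' : ℕ) * (b' : ℕ))) ^ 3)) := by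
          gcongr
          exacts [KB_nonneg _ _, hA _, hB _, hC _, hE _, (HI_kr (by positivity) (by positivity)).2]
      _ = _ := by field_simp
  have h1 := HI_KS pA pB.div1 (PB.id.mul pC) pE hc hs
  have h2 := HI_KS pA pC pB pE hc ((e.summable_iff.mpr hs).congr fun i => by
    obtain ⟨⟨a, b⟩, a', b'⟩ := i
    have := c_pos b
    have := c_pos a'
    simp only [e, Function.comp, Equiv.coe_fn_mk, hK a b a' b', abs_mul, abs_div, Nat.abs_cast]
    field_simp)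
  refine ⟨_, h1.congr (fun y _ => by rw [hc2]; ring_nf) rfl,
    h2.inv.congr (fun y hy => by rw [hc2, div_div_eq_mul_div, div_one]; ring_nf) ?_⟩
  rw [← e.tsum_eq]
  refine tsum_congr fun i => ?_
  obtain ⟨⟨a, b⟩, a', b'⟩ := i
  have := c_pos b
  have := c_pos a'
  simp only [e, Equiv.coe_fn_mk, hK a a' b b']
  field_simp

end C37
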