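import Pool.Agent.Lib.C37.Kit

/-! Block T0: the Mellin transform of the odd weight two Eisenstein type series. -/

open Filter Topology Set MeasureTheory Real

namespace C37

namespace T0

/-- the cotangent series, regrouped -/
lemma cot_lim {x : ℝ} (h0 : 0 < x) (h1 : x < 1) :
    Tendsto (fun N : ℕ => ∑ k ∈ Finset.range N, (1 / (x + k) - 1 / (1 - x + k))) atTop
      (𝓝 (π * (cos (π * x) / sin (π * x)))) := by
  have hx : (x : ℂ) ∈ Complex.integerComplement := by
    rintro ⟨n, hn⟩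
    have hn' : (n : ℝ) = x := by exact_mod_cast hn
    rw [← hn'] at h0 h1
    have a1 : 0 < n := by exact_mod_cast h0
    have a2 : n < 1 := by exact_mod_cast h1
    omega
  have t1 := tendsto_logDeriv_euler_cot_sub hx
  have t2 : Tendsto (fun N : ℕ => ((1 / (x + N) : ℝ) : ℂ)) atTop (𝓝 0) := by
    rw [← Complex.ofReal_zero, tendsto_ofReal_iff]
    simp only [one_div]
    exact tendsto_inv_atTop_zero.comp
      (tendsto_atTop_add_const_left _ _ tendsto_natCast_atTop_atTop)
  have t3 := (t1.add_const (1 / (x : ℂ))).sub t2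
  rw [← tendsto_ofReal_iff]
  convert t3 using 2 with N
  · induction N with
    | zero => simp
    | succ N ih =>
      rw [Finset.sum_range_succ, Finset.sum_range_succ, Complex.ofReal_add, ih]
      simp only [cotTerm]
      push_cast
      rw [show (1 - (x : ℂ) + N) = -(x - (N + 1)) by ring, one_div_neg_eq_neg_one_div]
      ring
  · rw [Complex.cot_eq_cos_div_sin]; push_cast; ring

/-- the positive integers in a nonzero class -/
def pm (a : ZMod 37) (ha : a ≠ 0) (k : ℕ) : ℕ+ :=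
  ⟨37 * k + a.val, by have := ZMod.val_pos.mpr ha; omega⟩

lemma pm_val (a : ZMod 37) (ha : a ≠ 0) (k : ℕ) :
    ((pm a ha k : ℕ) : ℝ) = 37 * k + a.val := by
  show ((37 * k + a.val : ℕ) : ℝ) = _
  push_cast; ring

lemma hs_res {a : ZMod 37} (ha : a ≠ 0) {g : ℕ+ × ℕ+ → ℝ} {S : ℝ}
    (h : HasSum (fun p : ℕ+ × ℕ+ => ir a p.1 * g p) S) :
    HasSum (fun q : ℕ × ℕ+ => g (pm a ha q.1, q.2)) S := by
  have hi : Function.Injective fun q : ℕ × ℕ+ => (pm a ha q.1, q.2) := by
    rintro ⟨k, n⟩ ⟨k', n'⟩ h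
    simp only [Prod.mk.injEq] at h ⊢
    have : 37 * k + a.val = 37 * k' + a.val := congrArg Subtype.val h.1
    exact ⟨by omega, h.2⟩
  rw [← hi.hasSum_iff] at h
  · convert h using 2 with q
    have : (((pm a ha q.1 : ℕ+) : ℕ) : ZMod 37) = a := by
      show ((37 * q.1 + a.val : ℕ) : ZMod 37) = a
      rw [Nat.cast_add, Nat.cast_mul, ZMod.natCast_zmod_val,
        show ((37 : ℕ) : ZMod 37) = 0 from rfl, zero_mul, zero_add]
    simp [ir, iv, this]
  · rintro ⟨m, n⟩ hp
    have : ((m : ℕ) : ZMod 37) ≠ a := fun h => hp ⟨((m : ℕ) / 37, n), by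
      simp only [Prod.mk.injEq, and_true]
      apply Subtype.ext
      show 37 * ((m : ℕ) / 37) + a.val = (m : ℕ)
      rw [← h, ZMod.val_natCast]; omega⟩
    simp [ir, iv, this]

lemma abs_ir (a : ZMod 37) (m : ℕ+) : |ir a m| ≤ 1 := by
  unfold ir iv; split_ifs <;> simp

lemma PB_ir (a : ZMod 37) : RV6.PB fun m => (m : ℕ) * ir a m :=
  ⟨1, 1, fun _ m => by
    rw [abs_mul, abs_of_pos (RV6.c_pos m), one_mul, pow_one]
    exact mul_le_of_le_one_right (RV6.c_pos m).le (abs_ir a m)⟩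

lemma PB_sn (b : ZMod 37) : RV6.PB (sn b) := RV6.PB.of_le 1 fun _ => abs_sin_le_one _

lemma HI_one {c : ℝ} (hc : 0 < c) : HI (fun s => s * exp (-(c * s))) (1 / c ^ 2) :=
  (HI_exp 1 hc).congr (fun y _ => by ring) (by norm_num)

lemma HI_pair {l m m' : ℝ} (hl : 0 < l) (hm : 0 < m) (hm' : 0 < m') :
    HI (fun s => s * (m * exp (-(l * m * s)) - m' * exp (-(l * m' * s))))
      ((1 / m - 1 / m') / l ^ 2) :=
  (((HI_one (mul_pos hl hm)).cmul m).sub ((HI_one (mul_pos hl hm')).cmul m')).congr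
    (fun y _ => by ring) (by field_simp)

lemma pair_bound {l m m' K : ℝ} (hl : 0 < l) (hK : 0 < K) (hm : K ≤ m) (hm' : K ≤ m')
    (h1 : 1 ≤ |m' - m|) (h2 : |m' - m| ≤ 37) (h3 : m + m' ≤ 74 * K) {c : ℝ} (hc : |c| ≤ 1) :
    ∫ s in Ioi 0, ‖c * (s * (m * exp (-(l * m * s)) - m' * exp (-(l * m' * s))))‖ ≤
      (37 + 37 ^ 2 * 74) / K ^ 2 / l ^ 2 := by
  have pm : 0 < m := hK.trans_le hm
  have pm' : 0 < m' := hK.trans_le hm'
  have hG := ((HI_one (mul_pos hl pm)).cmul 37).add
    (((HI_one (mul_pos hl pm)).sub (HI_one (mul_pos hl pm'))).cmul (m' * (m' - m)))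
  refine le_trans (setIntegral_mono_on ((HI_pair hl pm pm').cmul c).1.norm hG.1
    measurableSet_Ioi fun s hs => ?_) ?_
  · have hs : 0 < s := hs
    set A := exp (-(l * m * s))
    set B := exp (-(l * m' * s))
    have hA : 0 < A := exp_pos _
    have hAB : 0 ≤ (m' - m) * (A - B) := by
      rcases le_total m m' with h | h
      · refine mul_nonneg (sub_nonneg.mpr h) (sub_nonneg.mpr (exp_le_exp.mpr ?_))
        have := mul_le_mul_of_nonneg_right (mul_le_mul_of_nonneg_left h hl.le) hs.le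
        linarith
      · refine mul_nonneg_of_nonpos_of_nonpos (sub_nonpos.mpr h)
          (sub_nonpos.mpr (exp_le_exp.mpr ?_))
        have := mul_le_mul_of_nonneg_right (mul_le_mul_of_nonneg_left h hl.le) hs.le
        linarith
    have e1 : |A - B| ≤ (m' - m) * (A - B) := by
      rw [← abs_of_nonneg hAB, abs_mul]
      exact le_mul_of_one_le_left (abs_nonneg _) h1
    have e2 : |m * A - m' * B| ≤ 37 * A + m' * ((m' - m) * (A - B)) := by
      rw [show m * A - m' * B = -((m' - m) * A) + m' * (A - B) by ring]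
      refine (abs_add_le _ _).trans (add_le_add ?_ ?_)
      · rw [abs_neg, abs_mul, abs_of_pos hA]; exact mul_le_mul_of_nonneg_right h2 hA.le
      · rw [abs_mul, abs_of_pos pm']; exact mul_le_mul_of_nonneg_left e1 pm'.le
    rw [Real.norm_eq_abs, abs_mul, abs_mul, abs_of_pos hs]
    calc _ ≤ 1 * (s * (37 * A + m' * ((m' - m) * (A - B)))) :=
          mul_le_mul hc (mul_le_mul_of_nonneg_left e2 hs.le) (by positivity) zero_le_one
      _ = _ := by ring
  · rw [hG.2, le_div_iff₀ (by positivity)]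
    have e1 : (37 * (1 / (l * m) ^ 2) + m' * (m' - m) * (1 / (l * m) ^ 2 - 1 / (l * m') ^ 2)) *
        l ^ 2 = (37 + (m' - m) ^ 2 * ((m + m') / m')) / m ^ 2 := by field_simp; ring
    rw [e1]
    have e2 : (m + m') / m' ≤ 74 := by rw [div_le_iff₀ pm']; linarith
    have e3 : (m' - m) ^ 2 ≤ 37 ^ 2 := by
      rw [← sq_abs]; exact pow_le_pow_left₀ (abs_nonneg _) h2 2
    gcongr

lemma sum_k : Summable fun k : ℕ => 1 / ((k : ℝ) + 1) ^ 2 := by
  have := (summable_nat_add_iff 1).mpr (summable_one_div_nat_pow.mpr (by norm_num : 1 < 2))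
  simpa using this

lemma sum_n : Summable fun n : ℕ+ => 1 / ((n : ℕ) : ℝ) ^ 2 :=
  (summable_pnat_iff_summable_nat (f := fun n : ℕ => 1 / (n : ℝ) ^ 2)).mpr
    (summable_one_div_nat_pow.mpr (by norm_num : 1 < 2))

end T0

open T0 in
theorem st_T0 : St_T0 := by
  intro d b hd
  have hd' : -d ≠ 0 := neg_ne_zero.mpr hd
  have r1 : 0 < d.val := ZMod.val_pos.mpr hd
  have r2 : d.val < 37 := ZMod.val_lt d
  have r3 : (-d).val = 37 - d.val := by rw [ZMod.neg_val, if_neg hd]
  have r4 : ((-d).val : ℝ) = 37 - d.val := by rw [r3, Nat.cast_sub r2.le]; norm_num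
  have s1 : (1 : ℝ) ≤ d.val := by exact_mod_cast r1
  have s2 : (d.val : ℝ) ≤ 36 := by exact_mod_cast (by omega : d.val ≤ 36)
  have s3 : (1 : ℝ) ≤ |37 - 2 * (d.val : ℝ)| := by
    have : (1 : ℤ) ≤ |37 - 2 * (d.val : ℤ)| := Int.one_le_abs (by omega)
    exact_mod_cast this
  set r : ℝ := (d.val : ℝ) with hr
  have hl : ∀ n : ℕ+, 0 < 2 * π * ((n : ℕ) : ℝ) / 37 := fun n => by
    have := RV6.c_pos n; positivity
  have hk : ∀ k : ℕ, (0 : ℝ) ≤ k := fun k => Nat.cast_nonneg k
  have key := HI_tsum (ι := ℕ × ℕ+)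
    (f := fun s => s * RV6.DS (fun m => (m : ℕ) * (ir d m - ir (-d) m)) (sn b) (2 * s / 37))
    (F := fun q s => sn b q.2 * (s * ((37 * q.1 + r) *
      exp (-(2 * π * ((q.2 : ℕ) : ℝ) / 37 * (37 * q.1 + r) * s)) - (37 * q.1 + (37 - r)) *
      exp (-(2 * π * ((q.2 : ℕ) : ℝ) / 37 * (37 * q.1 + (37 - r)) * s)))))
    (fun q => (HI_pair (hl q.2) (by linarith [hk q.1]) (by linarith [hk q.1])).cmul (sn b q.2))
    ?_ ?_
  · refine key.congr (fun _ _ => rfl) ?_
    have a1 : Summable fun k : ℕ => ‖1 / (37 * k + r) - 1 / (37 * k + (37 - r))‖ := by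
      refine Summable.of_nonneg_of_le (fun _ => norm_nonneg _) (fun k => ?_) (sum_k.mul_left 37)
      have k0 := hk k
      have p1 : 0 < 37 * (k : ℝ) + r := by linarith
      have p2 : 0 < 37 * (k : ℝ) + (37 - r) := by linarith
      rw [div_sub_div _ _ p1.ne' p2.ne', Real.norm_eq_abs, abs_div, abs_of_pos (mul_pos p1 p2),
        mul_one_div, sq]
      refine div_le_div₀ (by norm_num) (abs_le.mpr ⟨by linarith, by linarith⟩) (by positivity) ?_
      exact mul_le_mul (by linarith) (by linarith) (by positivity) p1.le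
    have a2 : Summable fun n : ℕ+ => ‖sn b n / ((n : ℕ) : ℝ) ^ 2‖ := by
      refine Summable.of_nonneg_of_le (fun _ => norm_nonneg _) (fun n => ?_) sum_n
      rw [Real.norm_eq_abs, abs_div, abs_of_pos (pow_pos (RV6.c_pos n) 2)]
      exact div_le_div_of_nonneg_right (abs_sin_le_one _) (by positivity)
    have a3 : ∑' k : ℕ, (1 / (37 * k + r) - 1 / (37 * k + (37 - r))) = π / 37 * ct d := by
      have t := (cot_lim (x := r / 37) (by linarith) (by linarith)).const_mul (1 / 37)
      refine tendsto_nhds_unique a1.of_norm.hasSum.tendsto_sum_nat ?_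
      convert t using 2 with N
      · rw [Finset.mul_sum]
        refine Finset.sum_congr rfl fun k _ => ?_
        have k0 := hk k
        have p1 : 0 < 37 * (k : ℝ) + r := by linarith
        have p2 : 0 < 37 * (k : ℝ) + (37 - r) := by linarith
        rw [show r / 37 + k = (37 * k + r) / 37 by ring,
          show 1 - r / 37 + k = (37 * k + (37 - r)) / 37 by ring]
        field_simp
      · unfold ct; rw [← hr, mul_div_assoc π r 37]; ring
    have a4 := tsum_mul_tsum_of_summable_norm a1 a2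
    rw [a3] at a4
    rw [show 37 / (4 * π) * ct d * Cl b = 37 ^ 2 / (4 * π ^ 2) * (π / 37 * ct d * Cl b) by
      field_simp, Cl, a4, ← tsum_mul_left]
    refine tsum_congr fun q => ?_
    have := RV6.c_pos q.2
    field_simp
    ring
  · refine Summable.of_nonneg_of_le (fun _ => integral_nonneg fun _ => norm_nonneg _)
      (fun q => ?_) ((sum_k.mul_of_nonneg sum_n (fun _ => by positivity)
        (fun _ => by positivity)).mul_left ((37 + 37 ^ 2 * 74) * (37 / (2 * π)) ^ 2))
    have k0 := hk q.1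
    refine (pair_bound (K := q.1 + 1) (hl q.2) (by positivity) (by linarith) (by linarith) ?_ ?_
      (by linarith) (abs_sin_le_one _)).trans (le_of_eq ?_)
    · convert s3 using 2; ring
    · exact abs_le.mpr ⟨by linarith, by linarith⟩
    · have := RV6.c_pos q.2
      field_simp
  · intro s hs
    have hy : 0 < 2 * s / 37 := by positivity
    have h1 := RV6.DS_hasSum (PB_ir d) (PB_sn b) hy
    have h2 := RV6.DS_hasSum (PB_ir (-d)) (PB_sn b) hy
    have h3 : RV6.DS (fun m => (m : ℕ) * (ir d m - ir (-d) m)) (sn b) (2 * s / 37) = _ :=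
      Eq.trans (tsum_congr fun p => by ring) (h1.sub h2).tsum_eq
    have h4 := hs_res hd (g := fun p => (p.1 : ℕ) * sn b p.2 * RV6.ew (2 * s / 37) p)
      (by convert h1 using 2 with p; ring)
    have h5 := hs_res hd' (g := fun p => (p.1 : ℕ) * sn b p.2 * RV6.ew (2 * s / 37) p)
      (by convert h2 using 2 with p; ring)
    rw [h3]
    refine (congrArg (HasSum · _) (funext fun q => ?_)).mp ((h4.sub h5).mul_left s)
    simp only [RV6.ew, pm_val, r4, ← hr]
    rw [show π * (2 * s / 37) * ((37 * q.1 + r) * ((q.2 : ℕ) : ℝ)) =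
        2 * π * ((q.2 : ℕ) : ℝ) / 37 * (37 * q.1 + r) * s by ring,
      show π * (2 * s / 37) * ((37 * q.1 + (37 - r)) * ((q.2 : ℕ) : ℝ)) =
        2 * π * ((q.2 : ℕ) : ℝ) / 37 * (37 * q.1 + (37 - r)) * s by ring]
    ring

end C37
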