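import Pool.Agent.Lib.C37.Kit

/-! Block TH: basic laws of the odd theta function. -/

open Complex Filter Topology Set MeasureTheory Asymptotics
open scoped Real ComplexConjugate

namespace C37

namespace TH

lemma e_zpow (a : ℂ) (n : ℤ) : e a ^ n = e (n * a) := by
  unfold e; rw [← exp_int_mul]; ring_nf

lemma e_eq {a b : ℂ} (h : e a = e b) : ∃ n : ℤ, a = b + n := by
  obtain ⟨n, hn⟩ := exp_eq_exp_iff_exists_int.mp h
  refine ⟨n, mul_left_cancel₀ two_pi_I_ne_zero ?_⟩
  rw [hn]; ring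

lemma e_mhalf : e (-(1 / 2)) = -1 := by rw [e_neg, e_half]; norm_num

end TH

open TH in
theorem st_TH : St_TH := by
  intro τ hτ
  have hp := norm_e_lt hτ
  have hp0 := e_ne τ
  refine ⟨fun z => ?_, fun z => ?_, fun z => ?_, fun z => ?_, fun z => ?_, fun z => ⟨?_, ?_⟩⟩
  · unfold Th
    refine DifferentiableAt.mul (by fun_prop) ?_
    exact (RV6.differentiableAt_th hp (e_ne z)).comp z (differentiable_e z)
  · unfold Th
    rw [e_add z, e_one, mul_one, show -(z + 1) / 2 = -z / 2 + -(1 / 2) by ring, e_add, e_mhalf]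
    ring
  · unfold Th
    rw [e_add z, mul_comm (e z), RV6.th_mul hp hp0 (e_ne z), ← e_neg,
      show -(z + τ) / 2 = -τ / 2 + -z / 2 by ring, sub_eq_add_neg, e_add, e_add]
    ring
  · unfold Th
    have h1 : e (-z / 2) = e (- -z / 2) * e (-z) := by rw [← e_add]; congr 1; ring
    rw [h1, e_neg z, RV6.th_inv hp hp0 (e_ne z)]
    ring
  · unfold Th
    rw [e_add, e_one, mul_one]
  · intro h
    obtain ⟨m, hm⟩ := RV6.th_eq_zero hp hp0 (e_ne z) ((mul_eq_zero.mp h).resolve_left (e_ne _))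
    rw [e_zpow] at hm
    obtain ⟨n, hn⟩ := e_eq hm
    exact ⟨m, n, hn⟩
  · rintro ⟨m, n, rfl⟩
    have h1 := RV6.zpow_induct hp0 (Q := fun w => RV6.th (e τ) w = 0)
      (fun w hw => by rw [RV6.th_mul hp hp0 hw]; simp [hw]) one_ne_zero (RV6.th_one hp) m
    unfold Th
    rw [e_add_int, ← e_zpow, ← mul_one (e τ ^ m), h1, mul_zero]

end C37
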