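import Pool.Agent.Lib.C37.Kit

/-! Block THS: the modular transformation of the theta function. -/

open Complex Filter Topology Set
open scoped Real

namespace C37

namespace THS

lemma tp_ne : (2 * π * I : ℂ) ≠ 0 := two_pi_I_ne_zero

lemma e_div (a : ℂ) : e (a / (2 * π * I)) = cexp a := by
  unfold e
  rw [mul_div_cancel₀ _ tp_ne]

/-- a periodic entire function is a holomorphic function of `e z` -/
lemma descend {L : ℂ → ℂ} (hd : Differentiable ℂ L) (hp : ∀ z, L (z + 1) = L z) :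
    ∃ F : ℂ → ℂ, DifferentiableOn ℂ F {0}ᶜ ∧ ∀ z, F (e z) = L z := by
  have h1 : ∀ z, L (log (e z) / (2 * π * I)) = L z := fun z => by
    obtain ⟨n, hn⟩ := exp_eq_exp_iff_exists_int.1 (exp_log (e_ne z))
    have := Function.Periodic.int_mul (f := L) (c := 1) hp n z
    rw [← this, e, hn]
    congr 1
    have := tp_ne
    field_simp
  refine ⟨fun w => L (log w / (2 * π * I)), fun w hw => ?_, h1⟩
  have hw0 : w ≠ 0 := hw
  have h2 : DifferentiableAt ℂ (fun v => L ((log (v / w) + log w) / (2 * π * I))) w := by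
    refine (hd _).comp w (((DifferentiableAt.clog (differentiableAt_id.div_const w) ?_).add_const
      _).div_const _)
    simp [hw0]
  refine (h2.congr_of_eventuallyEq ?_).differentiableWithinAt
  filter_upwards [eventually_ne_nhds hw0] with v hv
  rw [← h1 ((log (v / w) + log w) / (2 * π * I)), e_div, exp_add, exp_log hw0,
    exp_log (div_ne_zero hv hw0), div_mul_cancel₀ _ hw0]

lemma e_surj {w : ℂ} (hw : w ≠ 0) : ∃ z, e z = w := ⟨log w / (2 * π * I), by rw [e_div, exp_log hw]⟩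

lemma half_ne {τ : ℂ} (h : τ ∈ UH) (m n : ℤ) : (1 / 2 : ℂ) ≠ m * τ + n := fun h0 => by
  have h1 : 0 < τ.im := h
  have h2 := congrArg Complex.im h0
  have h3 : m = 0 := by
    have : (m : ℝ) * τ.im = 0 := by simpa using h2.symm
    exact_mod_cast (mul_eq_zero.1 this).resolve_right h1.ne'
  have h4 : ((2 * n : ℤ) : ℂ) = (1 : ℤ) := by
    rw [h3] at h0
    push_cast at h0 ⊢
    linear_combination -2 * h0
  have h5 : 2 * n = 1 := by exact_mod_cast h4
  omega

end THS

open THS in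
theorem st_THS (hTH : St_TH) : St_THS := by
  intro τ hτ
  have h0 := ne_of_UH hτ
  obtain ⟨hd, h1, h2, -, -, hz⟩ := hTH _ (inv_mem_UH hτ)
  obtain ⟨-, -, -, -, -, hz'⟩ := hTH _ hτ
  have hp := norm_e_lt hτ
  obtain ⟨F, hF, hFL⟩ := descend
    (L := fun z => Th (z / τ) (-1 / τ) * e (-z ^ 2 / (2 * τ) + z / 2))
    ((hd.comp (differentiable_id.div_const τ)).mul (by fun_prop)) (fun z => by
      have := h2 ((z + 1) / τ)
      rw [show (z + 1) / τ + -1 / τ = z / τ by ring] at this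
      rw [this, show -(z + 1) ^ 2 / (2 * τ) + (z + 1) / 2 = (-(-1 / τ) / 2 - (z + 1) / τ) +
        (-z ^ 2 / (2 * τ) + z / 2) + 1 / 2 by field_simp; ring, e_add, e_add, e_half]
      ring)
  obtain ⟨c, hc⟩ := RV6.theta_div hp (e_ne τ) (F := F) (G := RV6.th (e τ)) (m := fun w => -w⁻¹) hF
    (RV6.differentiableOn_th hp) (fun w hw => by simpa using hw) (fun w hw => by
      obtain ⟨z, rfl⟩ := e_surj hw
      rw [← e_add, hFL, hFL, show (τ + z) / τ = z / τ + 1 by field_simp; ring, h1,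
        show -(τ + z) ^ 2 / (2 * τ) + (τ + z) / 2 = -z + (-z ^ 2 / (2 * τ) + z / 2) by
          field_simp; ring, e_add, e_neg]
      ring) (fun w hw => RV6.th_mul hp (e_ne τ) hw) (fun w hw h => by
      refine ⟨?_, RV6.deriv_th_ne hp (e_ne τ) hw h⟩
      obtain ⟨z, rfl⟩ := e_surj hw
      obtain ⟨m, n, rfl⟩ := (hz' z).1 (by rw [Th, h, mul_zero])
      rw [hFL, (hz _).2 ⟨-n, m, by push_cast; field_simp; ring⟩, zero_mul])
  have key : ∀ z, Th (z / τ) (-1 / τ) = c * e (z ^ 2 / (2 * τ)) * Th z τ := fun z => by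
    have h3 := hc _ (e_ne z)
    rw [hFL] at h3
    have h4 : e (-z ^ 2 / (2 * τ) + z / 2) * (e (z ^ 2 / (2 * τ)) * e (-z / 2)) = 1 := by
      rw [← e_add, ← e_add, ← e_zero]
      congr 1
      ring
    rw [Th.eq_1 z τ]
    linear_combination e (z ^ 2 / (2 * τ)) * e (-z / 2) * h3 - Th (z / τ) (-1 / τ) * h4
  refine ⟨c, fun hc0 => ?_, key⟩
  have h5 := key (τ / 2)
  rw [hc0, zero_mul, zero_mul, show τ / 2 / τ = 1 / 2 by field_simp] at h5
  obtain ⟨m, n, h6⟩ := (hz _).1 h5
  exact half_ne (inv_mem_UH hτ) m n h6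

end C37
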