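import Pool.Agent.Lib.C37.Kit

/-! Transformation laws of the two unit families. -/

open Complex Filter Topology Set MeasureTheory Asymptotics
open scoped Real ComplexConjugate

namespace C37

namespace XUV

variable {τ : ℂ} {v : ℤ × ℤ}

lemma nz (hv : NZ v) {a : ℤ} (ha : ¬(37 : ℤ) ∣ a) : NZ (a • v) := fun h =>
  have hp : Prime (37 : ℤ) := Int.prime_iff_natAbs_prime.mpr (by norm_num)
  hv ⟨(hp.dvd_or_dvd h.1).resolve_left ha, (hp.dvd_or_dvd h.2).resolve_left ha⟩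

lemma smul_per (a : ℤ) (v u : ℤ × ℤ) :
    a • (v + (37 : ℤ) • u) = a • v + (37 : ℤ) • a • u := by rw [smul_add, smul_comm]

lemma smul_T (a : ℤ) (v : ℤ × ℤ) :
    a • (v.1, v.1 + v.2) = ((a • v).1, (a • v).1 + (a • v).2) := by simp [mul_add]

lemma smul_S (a : ℤ) (v : ℤ × ℤ) : a • (v.2, -v.1) = ((a • v).2, -(a • v).1) := by simp

lemma KK_per (h : St_KL) (hτ : τ ∈ UH) (v u : ℤ × ℤ) : KK (v + (37 : ℤ) • u) τ = KK v τ := by
  have key : ∀ a b c d f g x y z s t r : ℂ, e (a + b + c + d + f + g) = 1 →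
      e a * x * (e b * y) * (e c * z) * (e d * s) * (e f * t) * (e g * r) =
        x * y * z * s * t * r := fun a b c d f g x y z s t r h1 => by
    simp only [e_add] at h1
    linear_combination x * y * z * s * t * r * h1
  simp only [KK, smul_per, (h.2 τ hτ).1]
  refine key _ _ _ _ _ _ _ _ _ _ _ _ ?_
  rw [← e_int (32 * (v.1 * u.2 - v.2 * u.1) + 50 * (u.1 + u.2) + 1184 * (u.1 * u.2))]
  congr 1
  simp only [Prod.smul_fst, Prod.smul_snd, smul_eq_mul]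
  push_cast
  ring

lemma KK_T (h : St_KL) (hτ : τ ∈ UH) (v : ℤ × ℤ) : KK v (τ + 1) = KK (v.1, v.1 + v.2) τ := by
  simp only [KK, smul_T, (h.2 τ hτ).2.2.1]

lemma KK_S (h : St_KL) (hτ : τ ∈ UH) :
    ∃ c : ℂ, c ≠ 0 ∧ ∀ v, KK v (-1 / τ) = c * KK (v.2, -v.1) τ := by
  obtain ⟨c, h1, h2⟩ := (h.2 τ hτ).2.2.2.1
  refine ⟨c ^ 6, pow_ne_zero _ h1, fun v => ?_⟩
  simp only [KK, smul_S, h2]
  ring

lemma shift (h : St_KL) (hτ : τ ∈ UH) (a k : ℤ) (v : ℤ × ℤ) :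
    kk ((a + 74 * k) • v) τ = kk (a • v) τ := by
  rw [show (a + 74 * k) • v = a • v + (37 : ℤ) • (2 * k) • v by
    rw [smul_smul, ← add_smul]; congr 1; ring, (h.2 τ hτ).1]
  refine (congrArg (· * _) ?_).trans (one_mul _)
  rw [← e_int (k * v.1 + k * v.2 + 2 * k ^ 2 * (v.1 * v.2))]
  congr 1
  simp only [Prod.smul_fst, Prod.smul_snd, smul_eq_mul]
  push_cast
  ring

lemma shift' (h : St_KL) (hτ : τ ∈ UH) (a k : ℤ) (v : ℤ × ℤ) :
    kk ((-a + 74 * k) • v) τ = -kk (a • v) τ := by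
  rw [shift h hτ, neg_smul, (h.2 τ hτ).2.1]

lemma KK_8 (h : St_KL) (hτ : τ ∈ UH) (v : ℤ × ℤ) : KK ((8 : ℤ) • v) τ = -KK v τ := by
  have h1 := shift' h hτ 26 1 v
  have h2 := shift' h hτ 10 1 v
  have h3 := shift h hτ 6 1 v
  have h4 := shift' h hτ 36 2 v
  have h5 := shift' h hτ 14 3 v
  have h6 := shift' h hτ 8 4 v
  simp only [KK, smul_smul]
  norm_num only at h1 h2 h3 h4 h5 h6 ⊢
  rw [h1, h2, h3, h4, h5, h6]
  ring

lemma KK_ne (h : St_KL) (hτ : τ ∈ UH) (hv : NZ v) : KK v τ ≠ 0 := by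
  have h1 := fun (a : ℤ) (ha : ¬(37 : ℤ) ∣ a) => (h.2 τ hτ).2.2.2.2 _ (nz hv ha)
  exact mul_ne_zero (mul_ne_zero (mul_ne_zero (mul_ne_zero (mul_ne_zero (h1 6 (by norm_num))
    (h1 8 (by norm_num))) (h1 10 (by norm_num))) (h1 14 (by norm_num))) (h1 26 (by norm_num)))
    (h1 36 (by norm_num))

lemma KK_diff (h : St_KL) (v : ℤ × ℤ) : DifferentiableOn ℂ (KK v) UH :=
  (((((h.1 _).mul (h.1 _)).mul (h.1 _)).mul (h.1 _)).mul (h.1 _)).mul (h.1 _)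

end XUV

open XUV in
theorem st_UV (hKL : St_KL) : St_UV := by
  refine ⟨⟨fun v u _ τ hτ => ?_, fun v _ τ hτ => ?_, fun v _ τ hτ => ?_⟩,
    ⟨fun v u _ τ hτ => ?_, fun v _ τ hτ => ?_, fun v _ τ hτ => ?_⟩, fun v hv => ?_⟩
  · simp only [UU, smul_per, KK_per hKL hτ]
  · simp only [UU, smul_T, KK_T hKL hτ]
  · obtain ⟨c, h1, h2⟩ := KK_S hKL hτ
    simp only [UU, smul_S, h2, mul_div_mul_left _ _ h1, pow_zero, one_mul]
  · simp only [VV, smul_per, KK_per hKL hτ]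
  · simp only [VV, smul_T, KK_T hKL hτ]
  · obtain ⟨c, h1, h2⟩ := KK_S hKL hτ
    simp only [VV, smul_S, h2, ← mul_neg, mul_div_mul_left _ _ h1, pow_zero, one_mul]
  have h2 := nz hv (a := 2) (by norm_num)
  have h4 := nz hv (a := 4) (by norm_num)
  refine ⟨(KK_diff hKL _).div (KK_diff hKL _) fun τ hτ => KK_ne hKL hτ hv,
    (KK_diff hKL _).neg.div (KK_diff hKL _) fun τ hτ => KK_ne hKL hτ h2, fun τ hτ => ?_⟩
  have n1 := KK_ne hKL hτ hv
  have n2 := KK_ne hKL hτ h2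
  have n4 := KK_ne hKL hτ h4
  have h8 := KK_8 hKL hτ v
  refine ⟨div_ne_zero n4 n1, div_ne_zero (neg_ne_zero.mpr n4) n2, ?_, ?_⟩
  · simp only [UU, VV, smul_smul]
    norm_num only
    rw [h8]
    field_simp
  · simp only [UU, VV, smul_smul]
    norm_num only
    rw [h8]
    field_simp

end C37
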