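import Pool.Agent.Lib.C37.Kit

/-! The primitive of a weight two form. -/

open Complex Filter Topology Set MeasureTheory Asymptotics
open scoped Real ComplexConjugate

namespace C37

theorem ZF.der {F : ℂ → ℂ} {a : ℕ → ℂ} (h0 : a 0 = 0)
    (hs : ∀ τ ∈ UH, HasSum (fun n => a n * e τ ^ n) (F τ)) {τ : ℂ} (hτ : τ ∈ UH) :
    HasDerivAt (ZZ a) (2 * π * I / 37 * F (τ / 37)) τ := by
  have hp : 0 < τ.im := hτ
  have sQ : ∀ σ ∈ UH, Summable fun n => ‖a n * Q σ ^ n‖ := fun σ h =>
    summable_norm_iff.2 (hs _ (div_mem_UH h)).summable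
  have hm : ((τ.im / 2 : ℝ) * I : ℂ) ∈ UH := by
    simpa [UH] using hp
  have := hasDerivAt_tsum_of_isPreconnected (t := {σ : ℂ | τ.im / 2 < σ.im})
    (g := fun n σ => a n / n * Q σ ^ n) (g' := fun n σ => 2 * π * I / 37 * (a n * Q σ ^ n))
    ((sQ _ hm).mul_left ‖2 * π * I / 37‖) (isOpen_lt continuous_const continuous_im)
    (convex_halfSpace_im_gt _).isPreconnected (fun n σ _ => ?_) (fun n σ hσ => ?_)
    (y₀ := τ) (half_lt_self hp) (.of_norm_bounded (sQ τ hτ) fun n => ?_) (y := τ) (half_lt_self hp)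
  · rwa [tsum_mul_left, show ∑' n, a n * Q τ ^ n = _ from (hs _ (div_mem_UH hτ)).tsum_eq] at this
  · refine (((hasDerivAt_Q σ).fun_pow n).const_mul _).congr_deriv ?_
    rcases n with _ | n
    · simp [h0]
    · have : ((n + 1 : ℕ) : ℂ) ≠ 0 := Nat.cast_ne_zero.2 n.succ_ne_zero
      rw [Nat.add_sub_cancel, pow_succ]
      field_simp
  · have : ‖Q σ‖ ≤ ‖Q ((τ.im / 2 : ℝ) * I)‖ := by
      have h1 : τ.im / 2 < σ.im := hσ
      have := Real.pi_pos
      rw [norm_Q, norm_Q, Real.exp_le_exp, mul_I_im, ofReal_re]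
      nlinarith
    simp only [norm_mul, norm_pow]
    gcongr
  · rcases n with _ | n
    · simp [h0]
    · rw [norm_mul, norm_mul, norm_div, Complex.norm_natCast]
      gcongr
      exact div_le_self (norm_nonneg _) (by simp)

theorem st_ZF : St_ZF := fun F a hF h0 hs => by
  refine ⟨fun τ => ZF.der h0 hs, fun τ hτ => ?_⟩
  have key : ∀ σ ∈ UH, HasDerivAt (fun σ => ZZ a (3 - 1 / σ) - ZZ a (σ + 12)) 0 σ := fun σ h => by
    have n0 := ne_of_UH h
    have m2 : σ + 12 ∈ UH := add_mem_UH h (by simp)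
    have d1 : HasDerivAt (fun σ : ℂ => 3 - 1 / σ) (1 / σ ^ 2) σ := by
      simpa [neg_div] using (hasDerivAt_inv n0).const_sub 3
    have i := hF.inv 3 (-1) 37 (-12) (by norm_num) dvd_rfl _ (div_mem_UH m2)
    push_cast at i
    rw [show 37 * ((σ + 12) / 37) + -12 = σ by ring,
      show (3 * ((σ + 12) / 37) + -1) / σ = (3 - 1 / σ) / 37 by field_simp; ring] at i
    refine (((ZF.der h0 hs (key_mem_UH h)).comp σ d1).fun_sub
      ((ZF.der h0 hs m2).comp σ ((hasDerivAt_id' σ).add_const 12))).congr_deriv ?_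
    rw [i]
    field_simp
    ring
  have := isOpen_UH.is_const_of_deriv_eq_zero convex_UH.isPreconnected
    (fun σ h => (key σ h).differentiableAt.differentiableWithinAt) (fun σ h => (key σ h).deriv) hτ
    (show I ∈ UH by simp [UH])
  rw [this, add_comm I, one_div, inv_I, sub_neg_eq_add]

end C37
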