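import Pool.Agent.Lib.C37.B_PO
import Pool.Agent.Lib.C37.B_TH
import Pool.Agent.Lib.C37.B_THS
import Pool.Agent.Lib.C37.B_KL
import Pool.Agent.Lib.C37.B_UV
import Pool.Agent.Lib.C37.B_GS
import Pool.Agent.Lib.C37.B_G01
import Pool.Agent.Lib.C37.B_KEY
import Pool.Agent.Lib.C37.B_HL
import Pool.Agent.Lib.C37.B_HX
import Pool.Agent.Lib.C37.B_ACT
import Pool.Agent.Lib.C37.B_SS
import Pool.Agent.Lib.C37.B_EE
import Pool.Agent.Lib.C37.B_MI
import Pool.Agent.Lib.C37.B_MZ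
import Pool.Agent.Lib.C37.B_QX
import Pool.Agent.Lib.C37.B_FP
import Pool.Agent.Lib.C37.B_CO
import Pool.Agent.Lib.C37.B_CB
import Pool.Agent.Lib.C37.B_CF
import Pool.Agent.Lib.C37.B_LF
import Pool.Agent.Lib.C37.B_ZF
import Pool.Agent.Lib.C37.B_NUM
import Pool.Agent.Lib.C37.B_APK
import Pool.Agent.Lib.C37.B_APG
import Pool.Agent.Lib.C37.B_APU
import Pool.Agent.Lib.C37.B_APD
import Pool.Agent.Lib.C37.B_AP0
import Pool.Agent.Lib.C37.B_STURM
import Pool.Agent.Lib.C37.B_FAM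
import Pool.Agent.Lib.C37.B_S0
import Pool.Agent.Lib.C37.B_S2
import Pool.Agent.Lib.C37.B_RZS
import Pool.Agent.Lib.C37.B_RZM
import Pool.Agent.Lib.C37.B_SW
import Pool.Agent.Lib.C37.B_INV
import Pool.Agent.Lib.C37.B_T0
import Pool.Agent.Lib.C37.B_EXT
import Pool.Agent.Lib.C37.B_RZ1
import Pool.Agent.Lib.C37.B_RZ2
import Pool.Agent.Lib.C37.B_RZ
import Pool.Agent.Lib.C37.B_ETA
import Pool.Agent.Lib.C37.B_PRIM
import Pool.Agent.Lib.C37.B_SQ
import Pool.Agent.Lib.C37.B_LPW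
import Pool.Agent.Lib.C37.B_LPF
import Pool.Agent.Lib.C37.B_LPG
import Pool.Agent.Lib.C37.B_JEN
import Pool.Agent.Lib.C37.B_CV
import Pool.Agent.Lib.C37.B_AE
import Pool.Agent.Lib.C37.B_AA
import Pool.Agent.Lib.C37.B_AD
import Pool.Agent.Lib.C37.B_AG1
import Pool.Agent.Lib.C37.B_AG2
import Pool.Agent.Lib.C37.B_LA1
import Pool.Agent.Lib.C37.B_LA2
import Pool.Agent.Lib.C37.B_ROT
import Pool.Agent.Lib.C37.B_HYP
import Pool.Agent.Lib.C37.B_CNT
import Pool.Agent.Lib.C37.B_CONN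
import Pool.Agent.Lib.C37.B_LOC
import Pool.Agent.Lib.C37.B_GLOB
import Pool.Agent.Lib.C37.B_PER
import Pool.Agent.Lib.C37.B_END
import Pool.Agent.Lib.C37.B_MAIN

namespace C37

theorem main : St_MAIN :=
  have hTH : St_TH := st_TH
  have hSS : St_SS := st_SS
  have hHX : St_HX := st_HX hTH hSS
  have hEE : St_EE := st_EE hHX hSS
  have hTHS : St_THS := st_THS hTH
  have hHL : St_HL := st_HL hTH hTHS
  have hACT : St_ACT := st_ACT
  have hMI : St_MI := st_MI hEE hHL hACT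
  have hMZ : St_MZ := st_MZ hEE hHL hHX hSS
  have hQX : St_QX := st_QX hSS
  have hCO1 : St_CO1 := st_CO1
  have hCO2 : St_CO2 := st_CO2
  have hCB : St_CB := st_CB
  have hFA : St_FA := st_FA hMI hMZ hQX hCO1 hCO2 hCB
  have hAPK : St_APK := st_APK
  have hAPG : St_APG := st_APG hAPK hSS
  have hAPU : St_APU := st_APU hAPK hAPG hSS
  have hAPD : St_APD := st_APD hAPK hAPU
  have hAP0 : St_AP0 := st_AP0 hAPK hAPU
  have hPO : St_PO := st_PO
  have hKL : St_KL := st_KL hPO hTH hTHS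
  have hUV : St_UV := st_UV hKL
  have hGS : St_GS := st_GS hKL hSS
  have hG01 : St_G01 := st_G01 hPO
  have hSTURM : St_STURM := st_STURM
  have hELL : St_ELL := st_ELL
  have hS0 : St_S0 := st_S0 hUV hGS hG01 hSTURM hAP0 hELL
  have hFAM : St_FAM := st_FAM
  have hS2 : St_S2 := st_S2 hUV hGS hG01 hSTURM hFAM hELL
  have hZF : St_ZF := st_ZF
  have hTRI : St_TRI := st_TRI hAPK hAPD hAP0 hS0 hS2 hFA hZF hELL
  have hNA : St_NA := st_NA
  have hNB : St_NB := st_NB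
  have hAG1 : St_AG1 := st_AG1
  have hAG2 : St_AG2 := st_AG2 hAG1
  have hAD : St_AD := st_AD
  have hLA1 : St_LA1 := st_LA1 hAG1 hAG2 hAD
  have hAA : St_AA := st_AA
  have hAE : St_AE := st_AE
  have hLA2 : St_LA2 := st_LA2 hLA1 hAG1 hAD hAA hAE
  have hPRIM : St_PRIM := st_PRIM
  have hSQ : St_SQ := st_SQ
  have hLPW : St_LPW := st_LPW hPRIM hSQ
  have hLPF : St_LPF := st_LPF hPRIM hSQ
  have hETA : St_ETA := st_ETA
  have hLPG : St_LPG := st_LPG hSQ hETA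
  have hLP : St_LP := st_LP hLPW hLPF hLPG
  have hCV : St_CV := st_CV
  have hJEN : St_JEN := st_JEN hSQ
  have hLOC : St_LOC := st_LOC hLA1 hLA2 hAD hLP hCV hJEN
  have hHYP : St_HYP := st_HYP
  have hCNT : St_CNT := st_CNT hHYP hAG1 hAD
  have hCONN : St_CONN := st_CONN
  have hGLOB : St_GLOB := st_GLOB hCNT hCONN
  have hKEY : St_KEY := st_KEY hUV hGS
  have hROT : St_ROT := st_ROT
  have hPER : St_PER := st_PER hKEY hROT hCNT
  have hEND : St_END := st_END hELL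
  have hRZS : St_RZS := st_RZS hSS
  have hRZM : St_RZM := st_RZM hKEY hELL
  have hT0 : St_T0 := st_T0
  have hRZ1 : St_RZ1 := st_RZ1 hRZS hRZM hT0
  have hSW : St_SW := st_SW
  have hRZ2 : St_RZ2 := st_RZ2 hSW
  have hINV : St_INV := st_INV hHL hHX hEE hSS
  have hEXT : St_EXT := st_EXT
  have hRZ : St_RZ := st_RZ hRZS hRZM hRZ1 hRZ2 hINV hEXT
  have hCF : St_CF := st_CF
  have hLF : St_LF := st_LF
  have hFP : St_FP := st_FP hSS
  st_MAIN hFA hTRI hZF hNA hNB hLOC hGLOB hPER hEND hRZ hETA hCF hLF hFP hJEN hCV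

end C37
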