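import Pool.Agent.Lib.C37.Kit

/-! Connectedness lemmas. -/

open Complex Filter Topology Set MeasureTheory Asymptotics
open scoped Real ComplexConjugate

namespace C37

namespace CONN

/-- A continuous bijection of the plane onto the upper half plane. -/
noncomputable def φ (z : ℂ) : ℂ := z.re + Real.exp z.im * I

lemma φ_cont : Continuous φ := by unfold φ; fun_prop

lemma φ_re (z : ℂ) : (φ z).re = z.re := by simp [φ, -ofReal_exp]

lemma φ_im (z : ℂ) : (φ z).im = Real.exp z.im := by simp [φ, -ofReal_exp]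

lemma φ_inj : Function.Injective φ := fun z u h => Complex.ext
  (by rw [← φ_re, h, φ_re]) (Real.exp_injective (by rw [← φ_im, h, φ_im]))

lemma φ_image (S : Set ℂ) : φ '' (φ ⁻¹' S)ᶜ = UH \ S := by
  ext τ
  constructor
  · rintro ⟨z, hz, rfl⟩
    exact ⟨show 0 < (φ z).im by rw [φ_im]; exact Real.exp_pos _, hz⟩
  · rintro ⟨h, h'⟩
    have e : φ ⟨τ.re, Real.log τ.im⟩ = τ :=
      Complex.ext (φ_re _) (by rw [φ_im]; exact Real.exp_log h)
    exact ⟨_, fun h2 => h' (e ▸ h2), e⟩

end CONN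

open CONN in
theorem st_CONN : St_CONN := by
  refine ⟨fun S hS => ?_, fun A δ c hA h τ hτ σ hσ => ?_⟩
  · rw [← φ_image]
    exact ((hS.preimage_of_injOn φ_inj.injOn).isConnected_compl_of_one_lt_rank
      (by simp)).isPreconnected.image φ φ_cont.continuousOn
  · refine hA.induction₂' (fun x y => ∃ n : ℤ, δ y - δ x = n * c) (fun x hx => ?_)
      (fun x y z _ _ _ ⟨n, hn⟩ ⟨k, hk⟩ => ⟨n + k, by push_cast; linarith⟩) hτ hσ
    filter_upwards [mem_nhdsWithin_of_mem_nhds (h x hx)] with y ⟨n, hn⟩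
    exact ⟨⟨n, hn⟩, -n, by push_cast; linarith⟩

end C37
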