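import Pool.Agent.Lib.C37.Kit

/-! The family of the 38 conjugates of a weight two form of level 37. -/

open Complex Filter Topology Set Asymptotics

namespace C37

namespace FAM

noncomputable def G0 (F : ℂ → ℂ) (a b : ZMod 37) (τ : ℂ) : ℂ :=
  if a = 0 then F (-1 / (37 * τ)) / τ ^ 2 else F ((τ + ((b / a).val : ℕ)) / 37)

variable {F : ℂ → ℂ} {τ : ℂ}

lemma mul_UH (h : τ ∈ UH) : 37 * τ ∈ UH := by
  have : 0 < τ.im := h
  show 0 < (37 * τ).im
  rw [show (37 : ℂ) = ((37 : ℝ) : ℂ) by norm_num, im_ofReal_mul]; positivity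

lemma per (hF : Mod F) (m : ℤ) (h : τ ∈ UH) : F (τ + m) = F τ := by
  have := hF.inv 1 m 0 1 (by ring) (dvd_zero _) τ h
  simpa using this

lemma val_int (x : ZMod 37) (n : ℤ) (hx : (n : ZMod 37) = x) :
    ∃ m : ℤ, ((x.val : ℕ) : ℤ) = n + 37 * m := by
  have h1 : (((x.val : ℕ) : ℤ) : ZMod 37) = (n : ZMod 37) := by
    rw [hx, Int.cast_natCast, ZMod.natCast_zmod_val]
  obtain ⟨m, hm⟩ := ((ZMod.intCast_eq_intCast_iff_dvd_sub _ _ 37).mp h1.symm)
  exact ⟨m, by push_cast at hm; linarith⟩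

lemma shift (hF : Mod F) (x : ZMod 37) (n : ℤ) (hx : (n : ZMod 37) = x) (h : τ ∈ UH) :
    F ((τ + (x.val : ℕ)) / 37) = F ((τ + n) / 37) := by
  obtain ⟨m, hm⟩ := val_int x n hx
  have h2 : ((x.val : ℕ) : ℂ) = n + 37 * m := by exact_mod_cast hm
  rw [h2, ← per hF m (div_mem_UH (add_mem_UH h (c := n) (by simp)))]
  congr 1; ring

lemma lawT (hF : Mod F) (a b : ZMod 37) (h : τ ∈ UH) :
    G0 F a b (τ + 1) = G0 F a (a + b) τ := by
  have h0 := ne_of_UH h
  have h1 := ne_of_UH (add_mem_UH h (c := 1) (by simp))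
  unfold G0
  split_ifs with ha
  · have := hF.inv 1 0 (-37) 1 (by ring) ⟨-1, by ring⟩ _ (inv_mem_UH (mul_UH h))
    have e1 : (((-37 : ℤ) : ℂ) * (-1 / (37 * τ)) + ((1 : ℤ) : ℂ)) = (τ + 1) / τ := by
      push_cast; field_simp; ring
    have e2 : (((1 : ℤ) : ℂ) * (-1 / (37 * τ)) + ((0 : ℤ) : ℂ)) / ((τ + 1) / τ) =
        -1 / (37 * (τ + 1)) := by
      push_cast; field_simp; ring
    rw [e1, e2] at this
    rw [this]; field_simp
  · rw [shift hF ((a + b) / a) (((b / a).val : ℕ) + 1) (by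
      push_cast; rw [ZMod.natCast_zmod_val]; field_simp; ring) h]
    congr 1; push_cast; ring

lemma lawS (hF : Mod F) (a b : ZMod 37) (hab : ¬(a = 0 ∧ b = 0)) (h : τ ∈ UH) :
    G0 F a b (-1 / τ) = τ ^ 2 * G0 F b (-a) τ := by
  have h0 := ne_of_UH h
  unfold G0
  by_cases ha : a = 0
  · have hb : b ≠ 0 := fun hb => hab ⟨ha, hb⟩
    rw [if_pos ha, if_neg hb, ha, neg_zero, zero_div, ZMod.val_zero,
      show -1 / (37 * (-1 / τ)) = (τ + ((0 : ℕ) : ℂ)) / 37 by push_cast; field_simp; ring]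
    field_simp
  · by_cases hb : b = 0
    · rw [if_neg ha, if_pos hb, hb, zero_div, ZMod.val_zero,
        show (-1 / τ + ((0 : ℕ) : ℂ)) / 37 = -1 / (37 * τ) by push_cast; field_simp; ring]
      field_simp
    · rw [if_neg ha, if_neg hb]
      set k : ℕ := (b / a).val with hk
      set l : ℕ := (-a / b).val with hl
      have h1 : (((k : ℤ) * l + 1 : ℤ) : ZMod 37) = 0 := by
        push_cast
        rw [hk, hl, ZMod.natCast_zmod_val, ZMod.natCast_zmod_val]; field_simp; ring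
      obtain ⟨m, hm⟩ := (ZMod.intCast_zmod_eq_zero_iff_dvd _ 37).mp h1
      have hm' : (k : ℂ) * l + 1 = 37 * m := by exact_mod_cast hm
      have := hF.inv k (-m) 37 (-l) (by push_cast at hm; linarith) dvd_rfl _
        (div_mem_UH (add_mem_UH h (c := l) (by simp)))
      have e1 : (((37 : ℤ) : ℂ) * ((τ + l) / 37) + ((-l : ℤ) : ℂ)) = τ := by
        push_cast; ring
      have e2 : (((k : ℤ) : ℂ) * ((τ + l) / 37) + ((-m : ℤ) : ℂ)) / τ = (-1 / τ + k) / 37 := by
        push_cast; field_simp; linear_combination hm'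
      rw [e1, e2] at this
      exact this

lemma hol (hF : Mod F) (a b : ZMod 37) : DifferentiableOn ℂ (G0 F a b) UH := by
  unfold G0
  split_ifs with ha
  · refine DifferentiableOn.div (hF.hol.comp ?_ fun τ h => inv_mem_UH (mul_UH h)) (by fun_prop)
      fun τ h => pow_ne_zero _ (ne_of_UH h)
    exact DifferentiableOn.div (by fun_prop) (by fun_prop) fun τ h => ne_of_UH (mul_UH h)
  · exact hF.hol.comp (by fun_prop) fun τ h => div_mem_UH (add_mem_UH h (natCast_im _))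

lemma sc (a b : ZMod 37) : G0 F (2 * a) (2 * b) τ = G0 F a b τ := by
  have h2 : (2 : ZMod 37) ≠ 0 := by decide
  unfold G0
  by_cases ha : a = 0
  · rw [if_pos ha, if_pos (by rw [ha, mul_zero])]
  · rw [if_neg ha, if_neg (mul_ne_zero h2 ha), mul_div_mul_left _ _ h2]

lemma bd (hF : Mod F) (b : ZMod 37) : G0 F 0 b =O[cusp] fun _ => (1 : ℂ) := by
  have h1 : Tendsto (fun τ : ℂ => 37 * τ) cusp cusp := by
    refine tendsto_comap_iff.mpr ?_
    refine (tendsto_im_cusp.const_mul_atTop (r := 37) (by norm_num)).congr fun τ => ?_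
    simp
  have h2 := ((hF.z0.comp h1).const_mul (37 ^ 2)).isBigO_one ℂ
  refine h2.congr' ?_ (.refl _ _)
  filter_upwards [ev_UH_cusp] with τ h
  have h0 := ne_of_UH h
  simp only [G0, if_true, Function.comp]
  field_simp

end FAM

theorem st_FAM : St_FAM := by
  intro F hF
  have h37 : ((37 : ℤ) : ZMod 37) = 0 := by decide
  refine ⟨fun v => FAM.G0 F v.1 v.2, ⟨⟨?_, ?_, ?_⟩, fun v _ => FAM.hol hF _ _, ?_⟩, ?_, ?_⟩
  · intro v u _ τ _
    simp only [Prod.fst_add, Prod.snd_add, Prod.smul_fst, Prod.smul_snd, smul_eq_mul, Int.cast_add,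
      Int.cast_mul, h37, zero_mul, add_zero]
  · intro v _ τ h
    simpa using FAM.lawT hF v.1 v.2 h
  · intro v hv τ h
    have := FAM.lawS hF v.1 v.2 (fun hh => hv
      ⟨(ZMod.intCast_zmod_eq_zero_iff_dvd _ 37).mp hh.1,
        (ZMod.intCast_zmod_eq_zero_iff_dvd _ 37).mp hh.2⟩) h
    simpa using this
  · intro v _ τ _
    simpa using FAM.sc (F := F) (τ := τ) v.1 v.2
  · intro τ _
    have h1 : (1 : ZMod 37) ≠ 0 := one_ne_zero
    simp [FAM.G0, h1]
  · simpa using FAM.bd hF 1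

end C37
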