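import Pool.Agent.Lib.C37.Kit

/-! The imaginary part of the elliptic integral and its jump across the cut. -/

open Complex Filter Topology Set
open scoped Real

namespace C37.LPW

lemma mono {f : ℝ → ℝ} {a b : ℝ} (hab : a ≤ b) (hc : Continuous f)
    (hd : ∀ x, a < x → x < b → ∃ d, 0 ≤ d ∧ HasDerivAt f d x) : f a ≤ f b := by
  refine monotoneOn_of_deriv_nonneg (convex_Icc a b) hc.continuousOn ?_ ?_
    (left_mem_Icc.mpr hab) (right_mem_Icc.mpr hab) hab
  · intro x hx
    rw [interior_Icc] at hx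
    obtain ⟨d, -, h⟩ := hd x hx.1 hx.2
    exact h.differentiableAt.differentiableWithinAt
  · intro x hx
    rw [interior_Icc] at hx
    obtain ⟨d, h0, h⟩ := hd x hx.1 hx.2
    rwa [h.deriv]

lemma anti {f : ℝ → ℝ} {a b : ℝ} (hab : a ≤ b) (hc : Continuous f)
    (hd : ∀ x, a < x → x < b → ∃ d, d ≤ 0 ∧ HasDerivAt f d x) : f b ≤ f a := by
  have := mono (f := fun x => -f x) hab hc.neg fun x h1 h2 => by
    obtain ⟨d, h0, h⟩ := hd x h1 h2
    exact ⟨-d, by linarith, h.neg⟩
  linarith

lemma const {f : ℝ → ℝ} {a b : ℝ} (hab : a ≤ b) (hc : Continuous f)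
    (hd : ∀ x, a < x → x < b → HasDerivAt f 0 x) : f a = f b :=
  le_antisymm (mono hab hc fun x h1 h2 => ⟨0, le_rfl, hd x h1 h2⟩)
    (anti hab hc fun x h1 h2 => ⟨0, le_rfl, hd x h1 h2⟩)

noncomputable def A (a b x : ℝ) : ℝ := Real.arcsin ((2 * x - a - b) / (b - a))

lemma A_cont (a b : ℝ) : Continuous (A a b) := by
  unfold A; exact Real.continuous_arcsin.comp (by fun_prop)

lemma A_left {a b : ℝ} (h : a < b) : A a b a = -(π / 2) := by
  have : b - a ≠ 0 := by linarith
  unfold A
  rw [show (2 * a - a - b) / (b - a) = -1 by field_simp; ring, Real.arcsin_neg_one]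

lemma A_right {a b : ℝ} (h : a < b) : A a b b = π / 2 := by
  have : b - a ≠ 0 := by linarith
  unfold A
  rw [show (2 * b - a - b) / (b - a) = 1 by field_simp; ring, Real.arcsin_one]

lemma A_der {a b x : ℝ} (h1 : a < x) (h2 : x < b) :
    HasDerivAt (A a b) (1 / √((b - x) * (x - a))) x := by
  have hb : 0 < b - a := by linarith
  have hp : 0 < (b - x) * (x - a) := mul_pos (by linarith) (by linarith)
  have hs : 0 < √((b - x) * (x - a)) := Real.sqrt_pos.mpr hp
  have n1 : (2 * x - a - b) / (b - a) ≠ -1 := by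
    rw [Ne, div_eq_iff hb.ne']; intro h; linarith
  have n2 : (2 * x - a - b) / (b - a) ≠ 1 := by
    rw [Ne, div_eq_iff hb.ne']; intro h; linarith
  have d1 : HasDerivAt (fun x : ℝ => (2 * x - a - b) / (b - a)) (2 / (b - a)) x := by
    simpa using ((((hasDerivAt_id' x).const_mul 2).sub_const a).sub_const b).div_const (b - a)
  refine ((Real.hasDerivAt_arcsin n1 n2).comp x d1).congr_deriv ?_
  have e1 : √(1 - ((2 * x - a - b) / (b - a)) ^ 2) = 2 * √((b - x) * (x - a)) / (b - a) := by
    rw [Real.sqrt_eq_iff_mul_self_eq_of_pos (by positivity), div_mul_div_comm,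
      show 2 * √((b - x) * (x - a)) * (2 * √((b - x) * (x - a))) =
        4 * (√((b - x) * (x - a)) * √((b - x) * (x - a))) by ring, Real.mul_self_sqrt hp.le]
    field_simp; ring
  rw [e1]; field_simp

/-- the comparison of the elliptic integral with the arcsine -/
lemma jump {g : ℝ → ℝ} {a b c : ℝ} (hca : c < a) (hab : a < b) (hc : Continuous g)
    (hd : ∀ x, a < x → x < b → HasDerivAt g (-(1 / (2 * √((b - x) * (x - a) * (x - c))))) x) :
    π / (2 * √(b - c)) ≤ g a - g b ∧ g a - g b ≤ π / (2 * √(a - c)) := by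
  have key : ∀ r x, a < x → x < b → HasDerivAt (fun x => g x + A a b x / (2 * √r))
      (1 / √((b - x) * (x - a)) / 2 * (1 / √r - 1 / √(x - c))) x := by
    intro r x h1 h2
    refine ((hd x h1 h2).add ((A_der h1 h2).div_const (2 * √r))).congr_deriv ?_
    rw [Real.sqrt_mul (mul_pos (by linarith) (by linarith)).le]
    ring
  have hco : ∀ r, Continuous fun x => g x + A a b x / (2 * √r) :=
    fun r => hc.add ((A_cont a b).div_const _)
  constructor
  · have := anti hab.le (hco (b - c)) fun x h1 h2 => ⟨_, ?_, key (b - c) x h1 h2⟩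
    · rw [A_left hab, A_right hab] at this
      have e : π / (2 * √(b - c)) = π / 2 / (2 * √(b - c)) - -(π / 2) / (2 * √(b - c)) := by ring
      linarith
    · refine mul_nonpos_of_nonneg_of_nonpos (by positivity) (sub_nonpos.mpr ?_)
      exact one_div_le_one_div_of_le (Real.sqrt_pos.mpr (by linarith))
        (Real.sqrt_le_sqrt (by linarith))
  · have := mono hab.le (hco (a - c)) fun x h1 h2 => ⟨_, ?_, key (a - c) x h1 h2⟩
    · rw [A_left hab, A_right hab] at this
      have e : π / (2 * √(a - c)) = π / 2 / (2 * √(a - c)) - -(π / 2) / (2 * √(a - c)) := by ring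
      linarith
    · refine mul_nonneg (by positivity) (sub_nonneg.mpr ?_)
      exact one_div_le_one_div_of_le (Real.sqrt_pos.mpr (by linarith))
        (Real.sqrt_le_sqrt (by linarith))

end C37.LPW

namespace C37

open LPW

theorem st_LPW (hPRIM : St_PRIM) (hSQ : St_SQ) : St_LPW := by
  intro e1 e2 e3 C hC
  obtain ⟨sc, -, sd, r1, r2, r3, -, -, -, sb⟩ := hSQ e1 e2 e3 C hC
  have h21 := hC.h1
  have h32 : e3 < e2 := hC.h3.trans hC.h2
  obtain ⟨M, Mc, Md, Mr⟩ := hPRIM (fun z => 1 / s0 e1 e2 e3 z)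
    (fun z hz => ((differentiableAt_const 1).div (sd z hz).2.differentiableAt
      (sd z hz).1).differentiableWithinAt)
    (fun R => by
      obtain ⟨K, hK⟩ := sb R
      refine ⟨|K| * R ^ (1 / 4 : ℝ), fun z hz hR => ?_⟩
      have h0 : 0 < z.im := hz
      have h1 : z.im ≤ R := ((le_abs_self _).trans (abs_im_le_norm z)).trans hR
      rw [one_div]
      refine (hK z hz hR).trans ?_
      rw [show (-(1 / 2) : ℝ) = 1 / 4 + -(3 / 4) by norm_num, Real.rpow_add h0, ← mul_assoc]
      refine mul_le_mul_of_nonneg_right ?_ (by positivity)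
      exact mul_le_mul (le_abs_self K) (Real.rpow_le_rpow h0.le h1 (by norm_num)) (by positivity)
        (abs_nonneg K))
  have hU : ∀ t : ℝ, (t : ℂ) ∈ UC := fun t => by simp [UC]
  have gc : Continuous fun t : ℝ => (M t).im :=
    continuous_im.comp (Mc.comp_continuous continuous_ofReal hU)
  have gd : ∀ x : ℝ, s0 e1 e2 e3 x ≠ 0 →
      HasDerivAt (fun t : ℝ => (M t).im) (1 / s0 e1 e2 e3 x).im x := fun x hx =>
    imCLM.hasFDerivAt.comp_hasDerivAt x (Mr x (continuousWithinAt_const.div (sc x (hU x)) hx))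
  have gr : ∀ x r : ℝ, r ≠ 0 → s0 e1 e2 e3 x = r → HasDerivAt (fun t : ℝ => (M t).im) 0 x := by
    intro x r hr hx
    refine (gd x (by rw [hx]; exact ofReal_ne_zero.mpr hr)).congr_deriv ?_
    rw [hx, ← ofReal_one, ← ofReal_div, ofReal_im]
  have hj := jump h32 h21 gc fun x h1 h2 => by
    have hp : 0 < 2 * √((e1 - x) * (x - e2) * (x - e3)) :=
      mul_pos two_pos (Real.sqrt_pos.mpr
        (mul_pos (mul_pos (by linarith) (by linarith)) (by linarith)))
    have hx := r2 x h1 h2
    generalize 2 * √((e1 - x) * (x - e2) * (x - e3)) = r at hp hx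
    refine (gd x (by rw [hx]; exact mul_ne_zero (ofReal_ne_zero.mpr hp.ne') I_ne_zero)).congr_deriv ?_
    have : (1 : ℂ) / (r * I) = ((-(1 / r) : ℝ) : ℂ) * I := by
      have := ofReal_ne_zero.mpr hp.ne'
      push_cast; field_simp; simp
    rw [hx, this]; simp
  refine ⟨fun z => (M z).im - (M e1).im, (M e2).im - (M e1).im,
    (continuous_im.comp_continuousOn Mc).sub continuousOn_const, fun x hx => ?_, fun x hx => ?_,
    fun x h1 h2 => ?_, hj.1, hj.2⟩
  · exact ((DI.im (Md x hx)).sub (DI.const _ x)).congr (.refl _ _) (sub_zero _)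
  · have := const hx.le gc fun y h1 _ => gr y _ (mul_pos two_pos (Real.sqrt_pos.mpr
      (mul_pos (mul_pos (by linarith) (by linarith)) (by linarith)))).ne' (r1 y h1)
    show (M x).im - (M e1).im = 0
    linarith
  · have := const h2.le gc fun y h3 h4 => gr y _ (neg_ne_zero.mpr (mul_pos two_pos
      (Real.sqrt_pos.mpr (mul_pos (mul_pos (by linarith) (by linarith)) (by linarith)))).ne')
      ((r3 y (by linarith) h4).trans (ofReal_neg _).symm)
    show (M x).im - (M e1).im = _
    linarith

end C37
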