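import Pool.Agent.Lib.C37.Kit

/-! Block MZ: vanishing at the cusp zero. -/

open Complex Filter Topology Set MeasureTheory Asymptotics
open scoped Real ComplexConjugate

namespace C37

namespace MZ

lemma alg (c c' G G' B B' : ZMod 37 → ℂ) (h1 : ∑ a, c a = 0) (h2 : ∑ d, c' d = 0)
    (h3 : ∑ a, c a * G a = 0) (h4 : ∑ a, c a * G' a = 0) :
    ∑ a, ∑ d, c a * c' d * (G a + B d) * (G' a + B' d) = 0 := by
  have : ∑ a, ∑ d, c a * c' d * (G a + B d) * (G' a + B' d) =
      (∑ a, c a * G a * G' a) * (∑ d, c' d) + (∑ a, c a * G a) * (∑ d, c' d * B' d) +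
        (∑ a, c a * G' a) * (∑ d, c' d * B d) + (∑ a, c a) * ∑ d, c' d * B d * B' d := by
    simp only [Finset.sum_mul_sum, ← Finset.sum_add_distrib]
    exact Finset.sum_congr rfl fun a _ => Finset.sum_congr rfl fun d _ => by ring
  rw [this, h1, h2, h3, h4]
  simp

lemma hc_odd {a : ZMod 37} (ha : a ≠ 0) : hc 0 (-a) = -hc 0 a := by
  have h1 : ψ a * ψ (-a) = 1 := by rw [← psi_add, add_neg_cancel]; exact AddChar.map_zero_eq_one _
  have h2 : ∀ b : ZMod 37, b ≠ 0 → 1 - ψ b ≠ 0 := fun b hb h => hb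
    (ZMod.injective_stdAddChar ((sub_eq_zero.1 h).symm.trans (AddChar.map_zero_eq_one _).symm))
  have h3 := h2 a ha
  have h4 := h2 _ (neg_ne_zero.2 ha)
  simp only [hc, if_true]
  field_simp
  linear_combination 2 * h1

lemma odd_sum {c : ZMod 37 → ℤ} (h0 : c 0 = 0) (he : ∀ a, c (-a) = c a) {y : ZMod 37}
    (hy : y ≠ 0) : ∑ a, (c a : ℂ) * hc 0 (-(a * y)) = 0 := by
  refine Finset.sum_involution (fun a _ => -a) (fun a _ => ?_) (fun a _ h e => h ?_)
    (fun _ _ => Finset.mem_univ _) fun a _ => neg_neg a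
  · by_cases ha : a = 0
    · simp [ha, h0]
    · rw [he, neg_mul, neg_neg, hc_odd (mul_ne_zero ha hy)]
      ring
  · have h2 : (2 : ZMod 37) ≠ 0 := by decide
    have : a = 0 := (mul_eq_zero.1 (by linear_combination -e : 2 * a = 0)).resolve_left h2
    simp [this, h0]

lemma chi_neg (j : ℕ) (a : ZMod 37) : chi j (-a) = chi j a := by
  rw [chi, chi, Even.neg_pow (by decide)]

lemma sum_shift {c : ZMod 37 → ℤ} (h : ∑ a, c a = 0) {y : ZMod 37} (hy : y ≠ 0) :
    ∑ a, (c (a * y) : ℂ) = 0 := by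
  rw [← Int.cast_sum, show ∑ a, c (a * y) = ∑ a, c a from Equiv.sum_comp (Equiv.mulRight₀ y hy) c, h,
    Int.cast_zero]

lemma su : ∑ a, cu a = 0 := by decide +kernel
lemma sv : ∑ a, cv a = 0 := by decide +kernel
lemma u0 : cu 0 = 0 := by decide +kernel
lemma v0 : cv 0 = 0 := by decide +kernel

/-- the part of the constant term that depends on `d` -/
noncomputable def be (d : ZMod 37) : ℂ :=
  ∑ b ∈ Finset.univ.erase 0, ψ (-(b * d)) * ((b.val : ℂ) / 37 - 1 / 2)

lemma lim (hEE : St_EE) (hHL : St_HL) (hHX : St_HX) (hSS : St_SS) {a d : ZMod 37} (ha : a ≠ 0)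
    (hd : d ≠ 0) : Tendsto (fun τ => es a d (-1 / τ) / τ) cusp
      (𝓝 (-(1 / 37) * (hc 0 (-a) + be d))) := by
  have hs0 : ∀ b c, Tendsto (hs b c) cusp (𝓝 0) := fun b c =>
    (hSS _ ⟨2, 0, fun m n _ _ => (norm_sub_le _ _).trans (by
      simp only [norm_mul, norm_psi, iv]
      split_ifs <;> norm_num)⟩).2.2.2.trans_tendsto tendsto_Q_cusp
  have hn : ¬ (37 : ℤ) ∣ (a.val : ℤ) := fun h =>
    ha (by simpa using (ZMod.intCast_zmod_eq_zero_iff_dvd _ 37).2 h)
  have e1 : ∑ b : ZMod 37, ψ (-(b * d)) * (hc b (-a) - 0) = hc 0 (-a) + be d := by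
    rw [← Finset.add_sum_erase _ _ (Finset.mem_univ 0), be]
    congr 1
    · simp [ψ]
    · exact Finset.sum_congr rfl fun b hb => by simp [hc, (Finset.mem_erase.1 hb).1]
  rw [← e1]
  refine ((tendsto_finsetSum _ fun b _ => (tendsto_const_nhds.sub (hs0 b (-a))).const_mul
    _).const_mul _).congr' ?_
  filter_upwards [ev_UH_cusp] with τ hτ
  rw [hEE a d ha hd _ (inv_mem_UH hτ), mul_div_assoc, Finset.sum_div]
  refine congrArg _ (Finset.sum_congr rfl fun b _ => ?_)
  have e2 : ((b.val : ℤ), ((-a).val : ℤ)) = ((b.val : ℤ), -(a.val : ℤ)) + (37 : ℤ) • (0, 1) := by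
    have := ZMod.val_lt a
    simp only [ZMod.neg_val, if_neg ha, Prod.smul_mk, Prod.mk_add_mk, smul_eq_mul, Prod.mk.injEq]
    omega
  rw [hHL.1.hS _ (fun h => hn h.1) τ hτ, ← hHX b (-a) (fun h => ha (neg_eq_zero.1 h.2)) τ hτ, e2,
    hHL.1.per _ _ (fun h => hn (dvd_neg.1 h.2)) τ hτ, pow_one, mul_div_assoc,
    mul_div_cancel_left₀ _ (ne_of_UH hτ)]

end MZ

open MZ in
theorem st_MZ (hEE : St_EE) (hHL : St_HL) (hHX : St_HX) (hSS : St_SS) : St_MZ := by
  intro y yi h
  have hy : y ≠ 0 := left_ne_zero_of_mul_eq_one h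
  have hyi : yi ≠ 0 := right_ne_zero_of_mul_eq_one h
  have eu : ∀ a, cu (-a) = cu a := fun a => by simp only [cu, chi_neg]
  have ev : ∀ a, cv (-a) = cv a := fun a => by simp only [cv, chi_neg]
  have key : -2 * ∑ a, ∑ d, (wt yi a d : ℂ) * (-(1 / 37) * (hc 0 (-a) + be d)) *
      (-(1 / 37) * (hc 0 (-(a * y)) + be (-(d * yi)))) = 0 := by
    have a1 := alg (fun a => cu a) (fun d => cv (d * yi)) (fun a => hc 0 (-a))
      (fun a => hc 0 (-(a * y))) be (fun d => be (-(d * yi))) (by exact_mod_cast su)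
      (sum_shift sv hyi) (by simpa using odd_sum u0 eu one_ne_zero) (odd_sum u0 eu hy)
    have a2 := alg (fun a => cv a) (fun d => cu (d * yi)) (fun a => hc 0 (-a))
      (fun a => hc 0 (-(a * y))) be (fun d => be (-(d * yi))) (by exact_mod_cast sv)
      (sum_shift su hyi) (by simpa using odd_sum v0 ev one_ne_zero) (odd_sum v0 ev hy)
    have a3 := congrArg (fun x => (1 / 37) ^ 2 * x) (congrArg₂ (· - ·) a1 a2)
    simp only [← Finset.sum_sub_distrib, Finset.mul_sum, sub_zero, mul_zero] at a3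
    refine mul_eq_zero_of_right _ (Eq.trans ?_ a3)
    refine Finset.sum_congr rfl fun a _ => Finset.sum_congr rfl fun d _ => ?_
    simp only [wt]
    push_cast
    ring
  rw [← key]
  refine ((tendsto_finsetSum _ fun a _ => tendsto_finsetSum _ fun d _ =>
    (?_ : Tendsto (fun τ => (wt yi a d : ℂ) * (es a d (-1 / τ) / τ) *
      (es (a * y) (-(d * yi)) (-1 / τ) / τ)) cusp _)).const_mul _).congr fun τ => ?_
  · by_cases ha : a = 0
    · simp [ha, wt, u0, v0]
    by_cases hd : d = 0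
    · simp [hd, wt, u0, v0]
    exact ((lim hEE hHL hHX hSS ha hd).const_mul _).mul (lim hEE hHL hHX hSS (mul_ne_zero ha hy)
      (neg_ne_zero.2 (mul_ne_zero hd hyi)))
  · rw [FF, mul_div_assoc]
    simp only [Finset.sum_div]
    refine congrArg _ (Finset.sum_congr rfl fun a _ => Finset.sum_congr rfl fun d _ => ?_)
    ring

end C37
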