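import Pool.Agent.Lib.C37.Kit

/-! Block PO: the infinite product is holomorphic in both variables. -/

open Complex Filter Topology Set
open Pool.Agent.Lib.MP_15b3df_nt

namespace C37

theorem st_PO : St_PO := fun U x p hU hx hp h1 => by
  have h : HasProdLocallyUniformlyOn (fun (n : ℕ) (τ : ℂ) => 1 - x τ * p τ ^ n)
      (fun τ => RV6.poch (x τ) (p τ)) U := by
    simp_rw [RV6.poch, sub_eq_add_neg]
    apply hasProdLocallyUniformlyOn_of_forall_compact hU
    intro K hK hcK
    have cx := hx.continuousOn.mono hK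
    have cp := hp.continuousOn.mono hK
    obtain ⟨R, hR⟩ := hcK.exists_bound_of_continuousOn cx
    obtain ⟨ρ, h0, hρ, h2⟩ : ∃ ρ : ℝ, 0 ≤ ρ ∧ ρ < 1 ∧ ∀ τ ∈ K, ‖p τ‖ ≤ ρ := by
      rcases K.eq_empty_or_nonempty with rfl | hne
      · exact ⟨0, le_rfl, one_pos, fun _ h => h.elim⟩
      · obtain ⟨σ, hσ, h3⟩ := hcK.exists_isMaxOn hne cp.norm
        exact ⟨_, norm_nonneg _, h1 σ (hK hσ), fun τ hτ => h3 hτ⟩
    refine ((summable_geometric_of_lt_one h0 hρ).mul_left R).hasProdUniformlyOn_nat_one_add hcK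
      (.of_forall fun n τ hτ => ?_) fun n => (cx.mul (cp.pow n)).neg
    rw [norm_neg, norm_mul, norm_pow]
    exact mul_le_mul (hR τ hτ) (pow_le_pow_left₀ (norm_nonneg _) (h2 τ hτ) n) (by positivity)
      ((norm_nonneg _).trans (hR τ hτ))
  exact h.differentiableOn (.of_forall fun _ => by
    simpa [Finset.prod_fn] using DifferentiableOn.finsetProd fun n _ =>
      (differentiableOn_const 1).sub (hx.mul (hp.pow n))) hU

end C37
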