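import Pool.Agent.Lib.C37.Defs
import Pool.Agent.Lib.C37.Data

/-! Block statements for the conductor 37 identity.
Proofs on paper: team store file c37_PAPER.md. -/

open Complex Filter Topology Set MeasureTheory Asymptotics
open scoped Real ComplexConjugate

namespace C37

/-! ### A. theta functions -/

def St_PO : Prop := ∀ (U : Set ℂ) (x p : ℂ → ℂ), IsOpen U → DifferentiableOn ℂ x U →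
  DifferentiableOn ℂ p U → (∀ τ ∈ U, ‖p τ‖ < 1) →
  DifferentiableOn ℂ (fun τ => RV6.poch (x τ) (p τ)) U

def St_TH : Prop := ∀ τ ∈ UH, Differentiable ℂ (fun z => Th z τ) ∧
  (∀ z, Th (z + 1) τ = -Th z τ) ∧ (∀ z, Th (z + τ) τ = -e (-τ / 2 - z) * Th z τ) ∧
  (∀ z, Th (-z) τ = -Th z τ) ∧ (∀ z, Th z (τ + 1) = Th z τ) ∧
  (∀ z, Th z τ = 0 ↔ ∃ m n : ℤ, z = m * τ + n)

def St_THS : Prop := ∀ τ ∈ UH, ∃ c : ℂ, c ≠ 0 ∧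
  ∀ z, Th (z / τ) (-1 / τ) = c * e (z ^ 2 / (2 * τ)) * Th z τ

def St_KL : Prop := (∀ v, DifferentiableOn ℂ (kk v) UH) ∧ ∀ τ ∈ UH,
  (∀ v u : ℤ × ℤ, kk (v + (37 : ℤ) • u) τ =
    e ((v.1 * u.2 - v.2 * u.1 + 37 * (u.1 + u.2 + u.1 * u.2)) / 74) * kk v τ) ∧
  (∀ v, kk (-v) τ = -kk v τ) ∧ (∀ v, kk v (τ + 1) = kk (v.1, v.1 + v.2) τ) ∧
  (∃ c : ℂ, c ≠ 0 ∧ ∀ v, kk v (-1 / τ) = c * kk (v.2, -v.1) τ) ∧ ∀ v, NZ v → kk v τ ≠ 0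

def St_UV : Prop := Law 0 UU ∧ Law 0 VV ∧ ∀ v, NZ v →
  DifferentiableOn ℂ (UU v) UH ∧ DifferentiableOn ℂ (VV v) UH ∧ ∀ τ ∈ UH,
    UU v τ ≠ 0 ∧ VV v τ ≠ 0 ∧ UU ((2 : ℤ) • v) τ = VV v τ / UU v τ ∧
      VV ((2 : ℤ) • v) τ = 1 / UU v τ

def St_GS : Prop := ∀ τ ∈ UH, UU (1, 0) τ = uu τ ∧ VV (1, 0) τ = vv τ

def St_G01 : Prop := ∃ A B : ℂ → ℂ, DifferentiableOn ℂ A (Metric.ball 0 1) ∧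
  DifferentiableOn ℂ B (Metric.ball 0 1) ∧ A 0 ≠ 0 ∧ B 0 ≠ 0 ∧
  ∀ τ ∈ UH, UU (0, 1) τ = A (e τ) ∧ VV (0, 1) τ = B (e τ)

def St_KEY : Prop := ∀ τ ∈ UH,
  uu (3 - 1 / τ) = 1 / vv (τ + 12) ∧ vv (3 - 1 / τ) = uu (τ + 12) / vv (τ + 12)

def St_HL : Prop := Law 1 hh ∧ ∀ v, NZ v → ∀ τ ∈ UH, hh (-v) τ = -hh v τ

def St_HX : Prop := ∀ a b : ZMod 37, ¬(a = 0 ∧ b = 0) → ∀ τ ∈ UH,
  hh (a.val, b.val) τ = hc a b - hs a b τ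

def St_ACT : Prop := ∀ (k : ℕ) (F : ℤ × ℤ → ℂ → ℂ), Law k F → ∀ a b c d : ℤ, a * d - b * c = 1 →
  ∀ v, NZ v → ∀ τ ∈ UH, F v ((a * τ + b) / (c * τ + d)) =
    (c * τ + d) ^ k * F (v.1 * a + v.2 * c, v.1 * b + v.2 * d) τ

/-! ### B. double series, Eisenstein series, the two cusp forms -/

def St_SS : Prop := ∀ α, PBd α →
  (∀ τ ∈ UH, HasSum (fun p : ℕ+ × ℕ+ => α p.1 p.2 * Q τ ^ ((p.1 : ℕ) * (p.2 : ℕ))) (SS α τ)) ∧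
  (∀ τ ∈ UH, HasSum (fun k : ℕ => (∑ x ∈ k.divisorsAntidiagonal, α x.1 x.2) * Q τ ^ k) (SS α τ)) ∧
  (∀ τ ∈ UH, HasDerivAt (SS α) (2 * π * I / 37 * SS (fun m n => m * n * α m n) τ) τ) ∧
  SS α =O[cusp] Q

def St_ELL : Prop := ∀ (c : ZMod 37 → ℤ) (o : ℤ), (∀ τ ∈ UH, HasDerivAt (ell c o) (eld c o τ) τ) ∧
  DifferentiableOn ℂ (sd c) UH ∧ sg c =O[cusp] Q ∧ sd c =O[cusp] Q

def St_EE : Prop := ∀ a d : ZMod 37, a ≠ 0 → d ≠ 0 → ∀ τ ∈ UH,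
  es a d τ = -(1 / 37) * ∑ b : ZMod 37, ψ (-(b * d)) * hh (a.val, b.val) τ

def St_MI : Prop := ∀ y yi : ZMod 37, y * yi = 1 → ∀ a b c d : ℤ, a * d - b * c = 1 →
  (37 : ℤ) ∣ c → ∀ τ ∈ UH, FF y yi ((a * τ + b) / (c * τ + d)) = (c * τ + d) ^ 2 * FF y yi τ

def St_MZ : Prop := ∀ y yi : ZMod 37, y * yi = 1 →
  Tendsto (fun τ => FF y yi (-1 / τ) / τ ^ 2) cusp (𝓝 0)

def St_QX : Prop := ∀ y yi : ZMod 37, y * yi = 1 → DifferentiableOn ℂ (FF y yi) UH ∧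
  Tendsto (FF y yi) cusp (𝓝 0) ∧
  ∀ τ ∈ UH, HasSum (fun n : ℕ => (cf y yi (37 * n) : ℂ) * e τ ^ n) (FF y yi τ)

def St_FP : Prop := ∀ y yi : ZMod 37, y * yi = 1 → ∀ t : ℝ, 0 < t → FF y yi (t * I) = FP y yi t

def St_CO1 : Prop := ∀ n < 19, cf 3 25 (37 * n) = 16 * La.getD n 0
def St_CO2 : Prop := ∀ n < 19, cf 5 15 (37 * n) = 24 * Lb.getD n 0
def St_CB : Prop := ∀ (y yi : ZMod 37) (k : ℕ), |cf y yi k| ≤ 2 * k ^ 3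

def St_CF : Prop := ∀ F, Mod F →
  ∃ f : CuspForm (CongruenceSubgroup.Gamma0 37) 2, ∀ τ : UpperHalfPlane, f τ = F τ

def St_LF : Prop := ∀ (f : CuspForm (CongruenceSubgroup.Gamma0 37) 2) (F : ℂ → ℂ) (a : ℕ → ℂ),
  (∀ τ : UpperHalfPlane, f τ = F τ) → (∀ τ ∈ UH, HasSum (fun n => a n * e τ ^ n) (F τ)) →
  ∃ L : ℂ → ℂ, Differentiable ℂ L ∧ (∀ s : ℂ, 2 < s.re → LSeriesHasSum a s (L s)) ∧ L 0 = 0 ∧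
    deriv L 0 = ∫ t in Ioi (0 : ℝ), F (t * I) / t

def St_ZF : Prop := ∀ (F : ℂ → ℂ) (a : ℕ → ℂ), Mod F → a 0 = 0 →
  (∀ τ ∈ UH, HasSum (fun n => a n * e τ ^ n) (F τ)) →
  (∀ τ ∈ UH, HasDerivAt (ZZ a) (2 * π * I / 37 * F (τ / 37)) τ) ∧
  ∀ τ ∈ UH, ZZ a (3 - 1 / τ) - ZZ a (τ + 12) = ZZ a (3 + I) - ZZ a (12 + I)

def St_NA : Prop := ∀ a : ℕ → ℂ, (∀ n < 150, a n = La.getD n 0) →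
  (∀ n : ℕ, ‖a n‖ ≤ 6400 * (n : ℝ) ^ 3) →
  -2.6 < (ZZ a (3 + I) - ZZ a (12 + I)).im ∧ (ZZ a (3 + I) - ZZ a (12 + I)).im < -2.3

def St_NB : Prop := ∀ a : ℕ → ℂ, (∀ n < 150, a n = Lb.getD n 0) →
  (∀ n : ℕ, ‖a n‖ ≤ 6400 * (n : ℝ) ^ 3) → |(ZZ a (3 + I) - ZZ a (12 + I)).im| < 0.5

/-! ### C. truncated expansions and the Sturm argument -/

def St_APK : Prop := ∀ M : ℕ,
  (∀ f g l l', Ap M f l → Ap M g l' → Ap M (fun τ => f τ + g τ) (addL l l')) ∧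
  (∀ (c : ℤ) f l, Ap M f l → Ap M (fun τ => c * f τ) (smL c l)) ∧
  (∀ f g l l', Ap M f l → Ap M g l' → Ap M (fun τ => f τ * g τ) (mulT M l l')) ∧
  (∀ c : ℤ, Ap M (fun _ => c) [c]) ∧ Ap M Q [0, 1] ∧
  (∀ f g l l', Ap M f l → (∀ τ ∈ UH, f τ = g τ) → eqT M l l' = true → Ap M g l') ∧
  (∀ M' f l, M ≤ M' → Ap M' f l → Ap M f (l.take M)) ∧
  (∀ a b c la lb lc, 0 < M → Ap M a la → Ap M b lb → lb.headD 0 ≠ 0 →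
    (∀ τ ∈ UH, b τ * c τ = a τ) → eqT M (mulT M lb lc) la = true → Ap M c lc) ∧
  (∀ f l, Ap M f l ↔ (fun τ => f τ - ∑ n ∈ Finset.range M, (l.getD n 0 : ℂ) * Q τ ^ n) =O[cusp]
    fun τ => Q τ ^ M) ∧
  (∀ (f : ℂ → ℂ) (a : ℕ → ℂ), (∀ τ ∈ UH, HasSum (fun n => a n * Q τ ^ n) (f τ)) →
    (fun τ => f τ - ∑ n ∈ Finset.range M, a n * Q τ ^ n) =O[cusp] fun τ => Q τ ^ M) ∧
  ∀ a : ℕ → ℂ, ((fun τ => ∑ n ∈ Finset.range M, a n * Q τ ^ n) =O[cusp] fun τ => Q τ ^ M) →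
    ∀ n < M, a n = 0

def St_APG : Prop := ∀ M : ℕ, 0 < M → (∀ j, Ap M (fun τ => cexp (-sg (chi j) τ)) (PL j M)) ∧
  ∀ c, Ap M (sd c) (SL c M)

def St_APU : Prop := Ap 150 uu Lu ∧ Ap 150 vv Lv ∧ Ap 150 du Ldu ∧ Ap 150 dv Ldv

def St_APD : Prop := ∃ lD : List ℤ, lD.headD 0 = 1 ∧ Ap 150 Du lD ∧
  Ap 150 (fun τ => Aa (uu τ) (vv τ) 1 * Wu τ) (mulT 150 lD La) ∧
  Ap 150 (fun τ => Ab (uu τ) (vv τ) 1 * Wu τ) (mulT 150 lD Lb)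

def St_AP0 : Prop := ((fun τ => Fs (uu τ) (vv τ) 1) =O[cusp] fun τ => Q τ ^ 13) ∧
  ∀ α β c0 c1 c2 : ℂ, c0 + c1 + c2 = 0 →
    (∀ τ ∈ UH, α * Aa (uu τ) (vv τ) 1 + β * Ab (uu τ) (vv τ) 1 + c0 * RR (uu τ) (vv τ) 1 +
      c1 * RR (vv τ) 1 (uu τ) + c2 * RR 1 (uu τ) (vv τ) = 0) →
    α = 0 ∧ β = 0 ∧ c0 = 0 ∧ c1 = 0 ∧ c2 = 0

def St_STURM : Prop := ∀ (k a : ℕ) (F : ℤ × ℤ → ℂ → ℂ), Fam k F → 19 * k < 6 * a →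
  (F (1, 0) =O[cusp] fun τ => Q τ ^ a) → (F (0, 1) =O[cusp] fun _ => (1 : ℂ)) →
  ∀ τ ∈ UH, F (1, 0) τ = 0

def St_FAM : Prop := ∀ F, Mod F → ∃ G, Fam 2 G ∧ (∀ τ ∈ UH, G (1, 0) τ = F (τ / 37)) ∧
  G (0, 1) =O[cusp] fun _ => (1 : ℂ)

def St_S0 : Prop := ∀ τ ∈ UH, Fs (uu τ) (vv τ) 1 = 0

def St_S2 : Prop := ∀ (F : ℂ → ℂ) (α β : ℂ), Mod F →
  ((fun τ => F (τ / 37) * Du τ - (α * Aa (uu τ) (vv τ) 1 + β * Ab (uu τ) (vv τ) 1) * Wu τ)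
    =O[cusp] fun τ => Q τ ^ 19) →
  ∀ τ ∈ UH, F (τ / 37) * Du τ = (α * Aa (uu τ) (vv τ) 1 + β * Ab (uu τ) (vv τ) 1) * Wu τ

def St_FA : Prop := Mod fa ∧ Mod fb ∧
  (∀ τ ∈ UH, HasSum (fun n => aa n * e τ ^ n) (fa τ)) ∧
  (∀ τ ∈ UH, HasSum (fun n => ab n * e τ ^ n) (fb τ)) ∧
  (∀ n < 19, aa n = La.getD n 0) ∧ (∀ n < 19, ab n = Lb.getD n 0) ∧
  (∀ n : ℕ, ‖aa n‖ ≤ 6400 * (n : ℝ) ^ 3) ∧ ∀ n : ℕ, ‖ab n‖ ≤ 6400 * (n : ℝ) ^ 3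

def St_TRI : Prop := Tri uu vv (fun _ => 1) (ZZ aa) (ZZ ab) ∧
  (∀ n < 150, aa n = La.getD n 0) ∧ ∀ n < 150, ab n = Lb.getD n 0

/-! ### D. the Rogers-Zudilin interchange -/

def St_RZS : Prop := ∀ (c : ZMod 37 → ℤ) (o : ℤ) (y : ℕ) (t : ℝ), 0 < t →
  (ell c o (y + t * I)).re = -(2 * π * o * t / 37) + RA c y t ∧
  (eld c o (y + t * I)).re = -(2 * π / 37) * RD c y t

def St_RZM : Prop := ∀ t : ℝ, 0 < t →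
  (ell cu 1 (3 + t * I)).re = -(ell cv 5 (12 + (1 / t : ℝ) * I)).re ∧
  (ell cv 5 (3 + t * I)).re =
    (ell cu 1 (12 + (1 / t : ℝ) * I)).re - (ell cv 5 (12 + (1 / t : ℝ) * I)).re ∧
  (eld cu 1 (3 + t * I)).re = (eld cv 5 (12 + (1 / t : ℝ) * I)).re / t ^ 2 ∧
  (eld cv 5 (3 + t * I)).re =
    ((eld cv 5 (12 + (1 / t : ℝ) * I)).re - (eld cu 1 (12 + (1 / t : ℝ) * I)).re) / t ^ 2 ∧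
  JJ t = (ell cu 1 (3 + t * I)).re * (eld cv 5 (3 + t * I)).re -
    (ell cv 5 (3 + t * I)).re * (eld cu 1 (3 + t * I)).re

def St_SW : Prop := ∀ (A B C E : ℕ+ → ℝ) (M : ℝ), (∀ n, |A n| ≤ M) → (∀ n, |B n| ≤ M) →
  (∀ n, |C n| ≤ M) → (∀ n, |E n| ≤ M) → ∃ v : ℝ,
  HI (fun t => RV6.DS A (fun n => B n / (n : ℕ)) (2 * (1 / t) / 37) *
    RV6.DS (fun m => (m : ℕ) * C m) E (2 * t / 37)) v ∧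
  HI (fun t => RV6.DS A C (2 * t / 37) * RV6.DS B E (2 * (1 / t) / 37) / t ^ 2) v

def St_INV : Prop := ∀ b c : ZMod 37, b ≠ 0 → c ≠ 0 → ∀ t : ℝ, 0 < t →
  HH b c (1 / t) + ct c / 4 = 37 / 4 * t * PP b c t

def St_T0 : Prop := ∀ d b : ZMod 37, d ≠ 0 →
  HI (fun s => s * RV6.DS (fun m => (m : ℕ) * (ir d m - ir (-d) m)) (sn b) (2 * s / 37))
    (37 / (4 * π) * ct d * Cl b)

def St_EXT : Prop := ∀ a d : ZMod 37,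
  HI (fun t => HH a d (1 / t) / t ^ 3) (37 ^ 2 / 4 * B2 a * Cl d)

/-- the polynomial terms -/
def St_RZ1 : Prop := HI (fun t => (5 * RD cv 3 t - 4 * RD cu 3 t) / t)
  (37 / (8 * π) * ∑ d : ZMod 37, (5 * cv d - 4 * cu d) * ct (d * 3) * Cl d)

/-- the main terms after the interchange -/
def St_RZ2 : Prop := ∃ v : ℝ,
  HI (fun t => -RA cv 12 (1 / t) * RD cv 3 t - (RA cu 12 (1 / t) - RA cv 12 (1 / t)) * RD cu 3 t) v ∧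
  HI (fun t => (∑ a : ZMod 37, ∑ d : ZMod 37, ((-cv a * cv d - (cu a - cv a) * cu d : ℤ) : ℝ) *
    PP a d t * HH (a * 12) (d * 3) (1 / t)) / (4 * t ^ 2)) v

def St_RZ : Prop := ∃ v : ℝ, HI (fun t => FP 3 25 t / t) v ∧ HI JJ (-(π / 8) * v)

/-! ### E. primitives on the two elliptic curves -/

def St_ETA : Prop := ∀ (U : Set ℂ) (f g : ℂ → ℂ), IsOpen U → Convex ℝ U →
  DifferentiableOn ℂ f U → DifferentiableOn ℂ g U → (∀ z ∈ U, f z ≠ 0) → (∀ z ∈ U, g z ≠ 0) →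
  ∃ L : ℂ → ℝ, ∀ z ∈ U, DI L (eta f g z) z

def St_PRIM : Prop := ∀ φ : ℂ → ℂ, DifferentiableOn ℂ φ UH →
  (∀ R : ℝ, ∃ K : ℝ, ∀ z ∈ UH, ‖z‖ ≤ R → ‖φ z‖ ≤ K * z.im ^ (-(3 / 4) : ℝ)) →
  ∃ M : ℂ → ℂ, ContinuousOn M UC ∧ (∀ z ∈ UH, HasDerivAt M (φ z) z) ∧
    ∀ x : ℝ, ContinuousWithinAt φ UC x → HasDerivAt (fun t : ℝ => M t) (φ x) x

def St_SQ : Prop := ∀ e1 e2 e3 C, Cv e1 e2 e3 C → ContinuousOn (s0 e1 e2 e3) UC ∧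
  (∀ x, s0 e1 e2 e3 x ^ 2 = (4 * x + 1) ^ 2 - 4 * C x) ∧
  (∀ x ∈ UH, s0 e1 e2 e3 x ≠ 0 ∧ HasDerivAt (s0 e1 e2 e3)
    (2 * ((x - e2) * (x - e3) + (x - e1) * (x - e3) + (x - e1) * (x - e2)) / s0 e1 e2 e3 x) x) ∧
  (∀ x : ℝ, e1 < x → s0 e1 e2 e3 x = (2 * √((x - e1) * (x - e2) * (x - e3)) : ℝ)) ∧
  (∀ x : ℝ, e2 < x → x < e1 → s0 e1 e2 e3 x = (2 * √((e1 - x) * (x - e2) * (x - e3)) : ℝ) * I) ∧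
  (∀ x : ℝ, e3 < x → x < e2 → s0 e1 e2 e3 x = -(2 * √((e1 - x) * (e2 - x) * (x - e3)) : ℝ)) ∧
  (∀ x : ℝ, x < e3 → s0 e1 e2 e3 x = -(2 * √((e1 - x) * (e2 - x) * (e3 - x)) : ℝ) * I) ∧
  (∀ x ∈ UC, ym e1 e2 e3 x ≠ 0) ∧ ym e1 e2 e3 0 = -1 ∧
  ∀ R : ℝ, ∃ K : ℝ, ∀ z ∈ UH, ‖z‖ ≤ R → ‖(s0 e1 e2 e3 z)⁻¹‖ ≤ K * z.im ^ (-(1 / 2) : ℝ)

def St_LPW : Prop := ∀ e1 e2 e3 C, Cv e1 e2 e3 C → ∃ (W : ℂ → ℝ) (h : ℝ), ContinuousOn W UC ∧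
  (∀ x ∈ UH, DI W (1 / s0 e1 e2 e3 x) x) ∧ (∀ x : ℝ, e1 < x → W x = 0) ∧
  (∀ x : ℝ, e3 < x → x < e2 → W x = h) ∧ π / (2 * √(e1 - e3)) ≤ h ∧ h ≤ π / (2 * √(e2 - e3))

def St_LPF : Prop := ∀ e1 e2 e3 C, Cv e1 e2 e3 C → ∃ Φ : ℂ → ℝ, ContinuousOn Φ UC ∧
  (∀ x ∈ UH, DI Φ (eta id (ym e1 e2 e3) x) x) ∧ (∀ x : ℝ, e1 < x → Φ x = 0) ∧
  ∀ x : ℝ, e3 < x → x < e2 → Φ x = -(π * mm e1 e2 e3)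

def St_LPG : Prop := ∀ e1 e2 e3 C E, Cv e1 e2 e3 C → IsE C E →
  ∀ (Θ : ℂ → ℝ) (α l c κ : ℝ) (k : ℤ), ContinuousOn Θ UC →
  (∀ x ∈ UH, DI Θ (α * eta id (ym e1 e2 e3) x + l / s0 e1 e2 e3 x) x) →
  (∀ x : ℝ, e1 < x → Θ x = 0) → (∀ x : ℝ, e3 < x → x < e2 → Θ x = κ) → 2 * κ = k * c →
  ∃ G, IsG C α l c G

def St_LP : Prop := ∀ e1 e2 e3 C E, Cv e1 e2 e3 C → IsE C E → ∃ (h : ℝ) (G W : ℂ → ℂ → ℝ),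
  π / (2 * √(e1 - e3)) ≤ h ∧ h ≤ π / (2 * √(e2 - e3)) ∧
  IsG C 1 (π * mm e1 e2 e3 / h) 0 G ∧ IsG C 0 (-1) (2 * h) W

def St_JEN : Prop := ∀ e1 e2 e3, Cv e1 e2 e3 Ca → mP = mm e1 e2 e3 ∧ 0 < mP

def St_CV : Prop :=
  (∃ e1 e2 e3, Cv e1 e2 e3 Ca ∧ 1 < π / (2 * √(e1 - e3)) ∧ π / (2 * √(e2 - e3)) < 1.7) ∧
  (∃ e1 e2 e3, Cv e1 e2 e3 Cb ∧ 0.8 < π / (2 * √(e1 - e3))) ∧ (∃ E, IsE Ca E) ∧ IsE Cb fun _ => 0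

/-! ### F. algebra on the genus four curve -/

def St_AE : Prop := ∃ Ψ : ℂ → ℂ → ℝ, ∀ (x y : ℂ → ℂ) (τ : ℂ), AnalyticAt ℂ x τ → AnalyticAt ℂ y τ →
  (∀ᶠ σ in 𝓝 τ, y σ ^ 2 + y σ = x σ ^ 3 - x σ) → x τ ≠ 0 → x τ ≠ 1 → x τ ≠ -1 → x τ ≠ 2 →
  DI (fun σ => Ψ (x σ) (y σ))
    (eta (fun σ => x σ - 1) (fun σ => y σ - 2 * x σ + 2) τ + 7 / 4 * xi x y τ) τ

def St_AA : Prop := ∃ Ψ : ℂ → ℂ → ℝ, ∀ (p r : ℂ → ℂ) (τ : ℂ), AnalyticAt ℂ p τ → AnalyticAt ℂ r τ →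
  (∀ᶠ σ in 𝓝 τ, Ph (p σ) (r σ) = 0) → Good (p τ) (r τ) →
  DI (fun σ => Ψ (p σ) (r σ))
    (cyc (fun σ => cc 0 (p σ) (r σ)) (fun σ => cc 1 (p σ) (r σ)) (fun σ => cc 2 (p σ) (r σ)) τ -
      eta (fun σ => XB (p σ) (r σ)) (fun σ => yB (p σ) (r σ)) τ +
      xi (fun σ => xE (p σ) (r σ)) (fun σ => yE (p σ) (r σ)) τ / 2) τ

def St_AD : Prop := ∀ p r : ℂ, Ph p r = 0 →
  (p + r ≠ 0 → yE p r ^ 2 + yE p r = xE p r ^ 3 - xE p r ∧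
    SA p r ^ 2 = (4 * XA p r + 1) ^ 2 - 4 * Ca (XA p r)) ∧
  (p ^ 3 ≠ 1 → r ^ 3 ≠ -1 → SB p r ^ 2 = (4 * XB p r + 1) ^ 2 - 4 * Cb (XB p r) ∧ XB p r ≠ 0) ∧
  ∀ (P R : ℂ → ℂ) (τ ν : ℂ), P τ = p → R τ = r → HasDerivAt P (ν * Phr p r) τ →
    HasDerivAt R (-(ν * Php p r)) τ →
    (p + r ≠ 0 → HasDerivAt (fun σ => XA (P σ) (R σ)) (9 * ν * (p - r) * SA p r) τ) ∧
    (p ^ 3 ≠ 1 → r ^ 3 ≠ -1 →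
      HasDerivAt (fun σ => XB (P σ) (R σ)) (3 * (1 + 2 * w) * ν * (p + r) * SB p r) τ)

def St_AG1 : Prop := ∀ x y z : ℂ, Fs x y z = 0 → z0 x y z ≠ 0 →
  Ph (pp x y z) (rr x y z) = 0 ∧ pp x y z * rr x y z * z0 x y z = z3 x y z ∧
  (pp x y z ^ 3 ≠ 1 → cc 1 (pp x y z) (rr x y z) * w * z = cc 0 (pp x y z) (rr x y z) * x ∧
    cc 1 (pp x y z) (rr x y z) * w ^ 2 * y = cc 2 (pp x y z) (rr x y z) * x)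

def St_AG2 : Prop := ∀ (x y z : ℂ → ℂ) (τ x' y' z' : ℂ), HasDerivAt x x' τ → HasDerivAt y y' τ →
  HasDerivAt z z' τ → (∀ᶠ σ in 𝓝 τ, Fs (x σ) (y σ) (z σ) = 0) → z τ ≠ 0 →
  Dn (x τ) (y τ) (z τ) ≠ 0 → z0 (x τ) (y τ) (z τ) ≠ 0 → ∃ ν : ℂ,
  HasDerivAt (cp (fun p _ => p) x y z) (ν * cp Phr x y z τ) τ ∧
  HasDerivAt (cp (fun _ r => r) x y z) (-(ν * cp Php x y z τ)) τ ∧
  Aa (x τ) (y τ) (z τ) * Wn (x τ) (y τ) (z τ) x' y' z' =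
    9 * ν * cp (fun p r => p - r) x y z τ * Dn (x τ) (y τ) (z τ) ∧
  Ab (x τ) (y τ) (z τ) * Wn (x τ) (y τ) (z τ) x' y' z' =
    3 * (1 + 2 * w) * ν * cp (fun p r => p + r) x y z τ * Dn (x τ) (y τ) (z τ)

def St_LA1 : Prop := ∀ x y z Za Zb, Tri x y z Za Zb → ∀ τ ∈ GT x y z, GT x y z ∈ 𝓝 τ ∧
  AnalyticAt ℂ (cp (fun p _ => p) x y z) τ ∧ AnalyticAt ℂ (cp (fun _ r => r) x y z) τ ∧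
  AnalyticAt ℂ (cp XA x y z) τ ∧ AnalyticAt ℂ (cp SA x y z) τ ∧
  AnalyticAt ℂ (cp XB x y z) τ ∧ AnalyticAt ℂ (cp SB x y z) τ ∧
  deriv (cp XA x y z) τ = deriv Za τ * cp SA x y z τ ∧
  deriv (cp XB x y z) τ = deriv Zb τ * cp SB x y z τ

def St_LA2 : Prop := ∃ Ψ : ℂ → ℂ → ℝ, ∀ x y z Za Zb, Tri x y z Za Zb → ∀ τ ∈ GT x y z,
  DI (cp Ψ x y z) (cyc x y z τ -
    2 / 7 * eta (cp XA x y z) (fun ρ => yy (cp XA x y z ρ) (cp SA x y z ρ)) τ -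
    eta (cp XB x y z) (fun ρ => yy (cp XB x y z ρ) (cp SB x y z ρ)) τ) τ

/-! ### G. gluing -/

def St_ROT : Prop := (∀ x y z Za Zb, Tri x y z Za Zb → Tri y z x Za Zb) ∧
  ∀ c x y z : ℂ, c ≠ 0 → pp (c * x) (c * y) (c * z) = pp x y z ∧
    rr (c * x) (c * y) (c * z) = rr x y z ∧ (GoodG x y z → GoodG (c * x) (c * y) (c * z))

def St_HYP : Prop := ∀ x y z Za Zb, Tri x y z Za Zb →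
  {τ | τ ∈ UH ∧ Dn (x τ) (y τ) (z τ) = 0}.Countable ∧
  ∀ a0 a1 a2 a3 : ℂ, ¬(a0 = 0 ∧ a1 = 0 ∧ a2 = 0 ∧ a3 = 0) →
    {τ | τ ∈ UH ∧ a0 * z0 (x τ) (y τ) (z τ) + a1 * z1 (x τ) (y τ) (z τ) +
      a2 * z2 (x τ) (y τ) (z τ) + a3 * z3 (x τ) (y τ) (z τ) = 0}.Countable

def St_CNT : Prop := ∀ x y z Za Zb, Tri x y z Za Zb → (UH \ GT x y z).Countable

def St_CONN : Prop := (∀ S : Set ℂ, S.Countable → IsPreconnected (UH \ S)) ∧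
  ∀ (A : Set ℂ) (δ : ℂ → ℝ) (c : ℝ), IsPreconnected A →
    (∀ τ ∈ A, ∀ᶠ σ in 𝓝 τ, ∃ n : ℤ, δ σ - δ τ = n * c) →
    ∀ τ ∈ A, ∀ σ ∈ A, ∃ n : ℤ, δ σ - δ τ = n * c

def St_LOC : Prop := ∃ (Ψ Wa Wb : ℂ → ℂ → ℝ) (lb ha hb : ℝ), 1 < ha ∧ ha < 1.7 ∧ 0.8 < hb ∧
  Loc Ψ Wa Wb (2 / 7 * (π * mP / ha)) lb ha hb

def St_GLOB : Prop := ∀ Ψ Wa Wb la lb ha hb, Loc Ψ Wa Wb la lb ha hb → Glob Ψ Wa Wb la lb ha hb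

def St_PER : Prop := ∀ Ψ Wa Wb (la lb ha hb : ℝ), Glob Ψ Wa Wb la lb ha hb → 1 < ha →
  ha < 1.7 → 0.8 < hb → ∀ (Za Zb : ℂ → ℂ) (Sa Sb : ℝ), Tri uu vv (fun _ => 1) Za Zb →
  (∀ τ ∈ UH, (Za (3 - 1 / τ) - Za (τ + 12)).im = Sa) →
  (∀ τ ∈ UH, (Zb (3 - 1 / τ) - Zb (τ + 12)).im = Sb) → -2.6 < Sa → Sa < -2.3 → |Sb| < 0.5 →
  ∀ P : ℂ → ℝ, (∀ τ ∈ UH, DI P (eta uu vv τ) τ) →
  ∀ τ ∈ UH, P (3 - 1 / τ) - P (τ + 12) = -(2 * ha * la)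

def St_END : Prop := ∀ (P : ℂ → ℝ) (c v : ℝ), (∀ τ ∈ UH, DI P (eta uu vv τ) τ) →
  (∀ τ ∈ UH, P (3 - 1 / τ) - P (τ + 12) = c) → HI JJ v → v = -c

def St_MAIN : Prop := ∃ (f : CuspForm (CongruenceSubgroup.Gamma0 37) 2) (a : ℕ → ℂ),
  (∀ τ : UpperHalfPlane, HasSum (fun n : ℕ => a n * e τ ^ n) (f τ)) ∧
  a 1 = 1 ∧ a 2 = -2 ∧ a 3 = -3 ∧ a 4 = 2 ∧ a 5 = -2 ∧ a 6 = 6 ∧
  ∃ L : ℂ → ℂ, Differentiable ℂ L ∧ (∀ s : ℂ, 2 < s.re → LSeriesHasSum a s (L s)) ∧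
    L 0 = 0 ∧ deriv L 0 ≠ 0 ∧ (mP : ℂ) = -(7 / 2) * deriv L 0

end C37
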