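import Pool.Agent.Lib.MP_15b3df_nt.RV01
import Pool.Agent.Lib.MP_15b3df_nt.RV02
import Pool.Agent.Lib.MP_15b3df_nt.Dilog

/-! Definitions for the conductor 37 Mahler measure identity. -/

open Complex Filter Topology Set MeasureTheory Asymptotics
open scoped Real ComplexConjugate

namespace C37

noncomputable section

def e (z : ℂ) : ℂ := cexp (2 * π * I * z)
def Q (τ : ℂ) : ℂ := e (τ / 37)
def UH : Set ℂ := {z | 0 < z.im}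
def UC : Set ℂ := {z | 0 ≤ z.im}
def cusp : Filter ℂ := Filter.comap Complex.im atTop

/-- integrable on the positive half-line with a given integral -/
def HI (f : ℝ → ℝ) (v : ℝ) : Prop := IntegrableOn f (Ioi 0) ∧ ∫ y in Ioi 0, f y = v

/-- the real function `F` has differential `v ↦ Im (c v)` at `τ` -/
def DI (F : ℂ → ℝ) (c τ : ℂ) : Prop := HasFDerivAt F (Pool.Agent.Lib.MP_15b3df_nt.imMul c) τ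

def LL (f : ℂ → ℂ) (τ : ℂ) : ℝ × ℂ := (Real.log ‖f τ‖, logDeriv f τ)
def wd (a b : ℝ × ℂ) : ℂ := a.1 * b.2 - b.1 * a.2
def eta (f g : ℂ → ℂ) (τ : ℂ) : ℂ := wd (LL f τ) (LL g τ)
def cyc (f g h : ℂ → ℂ) (τ : ℂ) : ℂ := eta f g τ + eta g h τ + eta h f τ

/-- the Mahler measure of `y² + 4xy + y - x³ + x²` -/
def mP : ℝ := ∫ θ in Icc (0 : Fin 2 → ℝ) 1,
  Real.log ‖e (θ 1) ^ 2 + 4 * e (θ 0) * e (θ 1) + e (θ 1) - e (θ 0) ^ 3 + e (θ 0) ^ 2‖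

/-! ### theta functions -/

def Th (z τ : ℂ) : ℂ := e (-z / 2) * RV6.th (e τ) (e z)
def zv (v : ℤ × ℤ) (τ : ℂ) : ℂ := (v.1 * τ + v.2) / 37
def kk (v : ℤ × ℤ) (τ : ℂ) : ℂ := e (v.1 * zv v τ / 74) * Th (zv v τ) τ
def KK (v : ℤ × ℤ) (τ : ℂ) : ℂ :=
  kk ((6 : ℤ) • v) τ * kk ((8 : ℤ) • v) τ * kk ((10 : ℤ) • v) τ * kk ((14 : ℤ) • v) τ *
    kk ((26 : ℤ) • v) τ * kk ((36 : ℤ) • v) τ
def UU (v : ℤ × ℤ) (τ : ℂ) : ℂ := KK ((4 : ℤ) • v) τ / KK v τ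
def VV (v : ℤ × ℤ) (τ : ℂ) : ℂ := -KK ((4 : ℤ) • v) τ / KK ((2 : ℤ) • v) τ
def hh (v : ℤ × ℤ) (τ : ℂ) : ℂ :=
  v.1 / 37 + logDeriv (fun z => Th z τ) (zv v τ) / (2 * π * I)
def NZ (v : ℤ × ℤ) : Prop := ¬((37 : ℤ) ∣ v.1 ∧ (37 : ℤ) ∣ v.2)

/-- transformation laws of weight `k` for a family indexed by nonzero vectors modulo 37 -/
structure Law (k : ℕ) (F : ℤ × ℤ → ℂ → ℂ) : Prop where
  per : ∀ v u, NZ v → ∀ τ ∈ UH, F (v + (37 : ℤ) • u) τ = F v τ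
  hT : ∀ v, NZ v → ∀ τ ∈ UH, F v (τ + 1) = F (v.1, v.1 + v.2) τ
  hS : ∀ v, NZ v → ∀ τ ∈ UH, F v (-1 / τ) = τ ^ k * F (v.2, -v.1) τ

/-- a holomorphic family, invariant under scalars -/
structure Fam (k : ℕ) (F : ℤ × ℤ → ℂ → ℂ) : Prop where
  law : Law k F
  hol : ∀ v, NZ v → DifferentiableOn ℂ (F v) UH
  sc : ∀ v, NZ v → ∀ τ ∈ UH, F ((2 : ℤ) • v) τ = F v τ

/-- weight two cusp forms of level 37 as functions on the complex plane -/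
structure Mod (F : ℂ → ℂ) : Prop where
  hol : DifferentiableOn ℂ F UH
  inv : ∀ a b c d : ℤ, a * d - b * c = 1 → (37 : ℤ) ∣ c → ∀ τ ∈ UH,
    F ((a * τ + b) / (c * τ + d)) = (c * τ + d) ^ 2 * F τ
  z1 : Tendsto F cusp (𝓝 0)
  z0 : Tendsto (fun τ => F (-1 / τ) / τ ^ 2) cusp (𝓝 0)

/-! ### double series in `Q` -/

def ψ (a : ZMod 37) : ℂ := ZMod.stdAddChar a
def chi (j : ℕ) (a : ZMod 37) : ℤ := if a ^ 12 = 26 ^ j then 1 else 0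
def cu (a : ZMod 37) : ℤ := chi 0 a - chi 2 a
def cv (a : ZMod 37) : ℤ := chi 1 a - chi 2 a
def iv (a b : ZMod 37) : ℤ := if a = b then 1 else 0

def SS (α : ℕ → ℕ → ℂ) (τ : ℂ) : ℂ :=
  ∑' p : ℕ+ × ℕ+, α p.1 p.2 * Q τ ^ ((p.1 : ℕ) * (p.2 : ℕ))
def PBd (α : ℕ → ℕ → ℂ) : Prop :=
  ∃ (C : ℝ) (r : ℕ), ∀ m n : ℕ, 0 < m → 0 < n → ‖α m n‖ ≤ C * ((m : ℝ) * n) ^ r

def sg (c : ZMod 37 → ℤ) (τ : ℂ) : ℂ := SS (fun m n => (c m : ℂ) / n) τ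
def sd (c : ZMod 37 → ℤ) (τ : ℂ) : ℂ := SS (fun m _ => (c m : ℂ) * m) τ
def ell (c : ZMod 37 → ℤ) (o : ℤ) (τ : ℂ) : ℂ := 2 * π * I * o * τ / 37 + sg c τ
def eld (c : ZMod 37 → ℤ) (o : ℤ) (τ : ℂ) : ℂ := 2 * π * I / 37 * (o + sd c τ)
def uu (τ : ℂ) : ℂ := -cexp (ell cu 1 τ)
def vv (τ : ℂ) : ℂ := cexp (ell cv 5 τ)
def du (τ : ℂ) : ℂ := uu τ * (1 + sd cu τ)
def dv (τ : ℂ) : ℂ := vv τ * (5 + sd cv τ)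

def hs (a b : ZMod 37) (τ : ℂ) : ℂ :=
  SS (fun m n => (iv m a : ℂ) * ψ (b * n) - (iv m (-a) : ℂ) * ψ (-(b * n))) τ
def hc (a b : ZMod 37) : ℂ := if a = 0 then -1 / 2 - ψ b / (1 - ψ b) else a.val / 37 - 1 / 2
def ea (a d : ZMod 37) (m n : ℕ) : ℤ := iv m a * iv n d - iv m (-a) * iv n (-d)
def es (a d : ZMod 37) (τ : ℂ) : ℂ := SS (fun m n => (ea a d m n : ℂ)) τ
def wt (yi a d : ZMod 37) : ℤ := cu a * cv (d * yi) - cv a * cu (d * yi)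
def FF (y yi : ZMod 37) (τ : ℂ) : ℂ :=
  -2 * ∑ a, ∑ d, (wt yi a d : ℂ) * es a d τ * es (a * y) (-(d * yi)) τ
def ec (a d : ZMod 37) (j : ℕ) : ℤ := ∑ x ∈ j.divisorsAntidiagonal, ea a d x.1 x.2
def cf (y yi : ZMod 37) (k : ℕ) : ℤ :=
  -2 * ∑ a, ∑ d, wt yi a d *
    ∑ j ∈ Finset.range (k + 1), ec a d j * ec (a * y) (-(d * yi)) (k - j)
def fa (τ : ℂ) : ℂ := FF 3 25 τ / 16
def fb (τ : ℂ) : ℂ := FF 5 15 τ / 24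
def aa (n : ℕ) : ℂ := (cf 3 25 (37 * n) : ℂ) / 16
def ab (n : ℕ) : ℂ := (cf 5 15 (37 * n) : ℂ) / 24
def ZZ (a : ℕ → ℂ) (τ : ℂ) : ℂ := ∑' n : ℕ, a n / n * Q τ ^ n

/-! ### real double series for the Rogers-Zudilin interchange -/

def ir (a : ZMod 37) (m : ℕ+) : ℝ := iv (m : ℕ) a
def cs (b : ZMod 37) (n : ℕ+) : ℝ := Real.cos (2 * π * b.val * (n : ℕ) / 37)
def sn (b : ZMod 37) (n : ℕ+) : ℝ := Real.sin (2 * π * b.val * (n : ℕ) / 37)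
def ct (c : ZMod 37) : ℝ := Real.cos (π * c.val / 37) / Real.sin (π * c.val / 37)
def Cl (d : ZMod 37) : ℝ := ∑' n : ℕ+, sn d n / ((n : ℕ) : ℝ) ^ 2
def B2 (a : ZMod 37) : ℝ := ((a.val : ℝ) / 37) ^ 2 - a.val / 37 + 1 / 6
def PP (a d : ZMod 37) (t : ℝ) : ℝ :=
  RV6.DS (fun m => ir a m + ir (-a) m) (fun n => ir d n - ir (-d) n) (2 * t / 37)
def HH (b c : ZMod 37) (s : ℝ) : ℝ := RV6.DS (cs b) (sn c) (2 * s / 37)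
def FP (y yi : ZMod 37) (t : ℝ) : ℝ := ∑ a, ∑ d, wt yi a d * PP a d t * PP (a * y) (d * yi) t
def RA (c : ZMod 37 → ℤ) (y : ZMod 37) (t : ℝ) : ℝ :=
  ∑ a, c a * RV6.DS (ir a) (fun n => cs (a * y) n / (n : ℕ)) (2 * t / 37)
def RD (c : ZMod 37 → ℤ) (y : ZMod 37) (t : ℝ) : ℝ :=
  ∑ d, c d * RV6.DS (fun m => (m : ℕ) * ir d m) (sn (d * y)) (2 * t / 37)
def JJ (t : ℝ) : ℝ := (eta uu vv (3 + t * I)).re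

/-! ### truncated expansions -/

def ev (l : List ℤ) (x : ℂ) : ℂ := l.foldr (fun a s => a + x * s) 0
def Ap (M : ℕ) (f : ℂ → ℂ) (l : List ℤ) : Prop :=
  (fun τ => f τ - ev l (Q τ)) =O[cusp] fun τ => Q τ ^ M

end

def addL : List ℤ → List ℤ → List ℤ
  | [], l => l
  | a :: s, [] => a :: s
  | a :: s, b :: t => (a + b) :: addL s t
def smL (c : ℤ) (l : List ℤ) : List ℤ := l.map (c * ·)
def mulT : ℕ → List ℤ → List ℤ → List ℤ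
  | 0, _, _ => []
  | _ + 1, [], _ => []
  | M + 1, a :: s, l => addL (smL a (l.take (M + 1))) (0 :: mulT M s l)
def eqT (M : ℕ) (l l' : List ℤ) : Bool := ((addL l (smL (-1) l')).take M).all (· == 0)
/-- the product of `1 - x ^ m` over `m < M` in the class `j`, truncated -/
def PL (j M : ℕ) : List ℤ :=
  (List.range M).foldr
    (fun (m : ℕ) l =>
      if chi j m = 1 then (addL l (List.replicate m 0 ++ smL (-1) l)).take M else l) [1]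
/-- the coefficients of `sd c` -/
def SL (c : ZMod 37 → ℤ) (M : ℕ) : List ℤ :=
  (List.range M).map fun k : ℕ => ((List.range (k + 1)).map fun m : ℕ =>
    if 0 < k ∧ m ∣ k then c m * m else 0).sum

noncomputable section

/-! ### the plane sextic, the canonical model and the two elliptic quotients -/

def w : ℂ := cexp (2 * π * I / 3)

def Fs (x y z : ℂ) : ℂ :=
  x ^ 5 * z - 5 * x ^ 4 * y * z + 9 * x ^ 3 * y ^ 2 * z - 3 * x ^ 3 * y * z ^ 2 -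
    3 * x ^ 2 * y ^ 3 * z + 2 * x ^ 2 * y ^ 2 * z ^ 2 + 9 * x ^ 2 * y * z ^ 3 + x * y ^ 5 -
    5 * x * y ^ 4 * z + 9 * x * y ^ 3 * z ^ 2 - 3 * x * y ^ 2 * z ^ 3 - 5 * x * y * z ^ 4 + y * z ^ 5
/-- the derivative of `Fs` in the first variable; the other two are `Fd y z x` and `Fd z x y` -/
def Fd (x y z : ℂ) : ℂ :=
  5 * x ^ 4 * z - 20 * x ^ 3 * y * z + 27 * x ^ 2 * y ^ 2 * z - 9 * x ^ 2 * y * z ^ 2 -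
    6 * x * y ^ 3 * z + 4 * x * y ^ 2 * z ^ 2 + 18 * x * y * z ^ 3 + y ^ 5 - 5 * y ^ 4 * z +
    9 * y ^ 3 * z ^ 2 - 3 * y ^ 2 * z ^ 3 - 5 * y * z ^ 4
def Dn (x y z : ℂ) : ℂ := z * Fd y z x + x * Fd z x y + y * Fd x y z
def Wn (x y z x' y' z' : ℂ) : ℂ :=
  z * (z * x' - x * z') + x * (x * y' - y * x') + y * (y * z' - z * y')
def Aa (x y z : ℂ) : ℂ :=
  -x ^ 3 - y ^ 3 - z ^ 3 + (x ^ 2 * y + y ^ 2 * z + z ^ 2 * x) +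
    5 * (x ^ 2 * z + y ^ 2 * x + z ^ 2 * y) - 3 * x * y * z
def Ab (x y z : ℂ) : ℂ :=
  -x ^ 3 - y ^ 3 - z ^ 3 + 3 * (x ^ 2 * y + y ^ 2 * z + z ^ 2 * x) -
    3 * (x ^ 2 * z + y ^ 2 * x + z ^ 2 * y) + 7 * x * y * z
def RR (x y z : ℂ) : ℂ := x ^ 2 * y + y ^ 3 - 2 * y ^ 2 * z - 2 * y ^ 2 * x
def z0 (x y z : ℂ) : ℂ := RR x y z + w ^ 2 * RR y z x + w * RR z x y
def z1 (x y z : ℂ) : ℂ := ((2 + w) * Ab x y z + w * Aa x y z) / 2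
def z2 (x y z : ℂ) : ℂ := ((2 + w) * Ab x y z - w * Aa x y z) / 2
def z3 (x y z : ℂ) : ℂ := -w ^ 2 * (RR x y z + w * RR y z x + w ^ 2 * RR z x y)
def Du (τ : ℂ) : ℂ := Dn (uu τ) (vv τ) 1
def Wu (τ : ℂ) : ℂ := Wn (uu τ) (vv τ) 1 (du τ) (dv τ) 0
def pp (x y z : ℂ) : ℂ := z1 x y z / z0 x y z
def rr (x y z : ℂ) : ℂ := z2 x y z / z0 x y z

def Ph (p r : ℂ) : ℂ :=
  (-4 + 3 * w) * p ^ 3 * r ^ 3 - (-7 - 3 * w) - (p - r) * (p ^ 2 + 10 * p * r + r ^ 2)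
def Php (p r : ℂ) : ℂ := 3 * (-4 + 3 * w) * p ^ 2 * r ^ 3 - (3 * p ^ 2 + 18 * p * r - 9 * r ^ 2)
def Phr (p r : ℂ) : ℂ := 3 * (-4 + 3 * w) * p ^ 3 * r ^ 2 - (9 * p ^ 2 - 18 * p * r - 3 * r ^ 2)
def xE (p r : ℂ) : ℂ := -3 * p * r / (p + r) ^ 2
def yE (p r : ℂ) : ℂ := (-7 - 3 * w + 3 * p ^ 2 * r - 6 * p * r ^ 2 - r ^ 3) / (p + r) ^ 3
def XA (p r : ℂ) : ℂ := xE p r - 1
def SA (p r : ℂ) : ℂ := 2 * yE p r + 1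
def LB (i : ℕ) (p r : ℂ) : ℂ := (p - w ^ i) * (r + w ^ i)
def XB (p r : ℂ) : ℂ := -w ^ 2 * LB 0 p r / LB 2 p r
def yB (p r : ℂ) : ℂ := LB 0 p r * LB 1 p r / LB 2 p r ^ 2
def SB (p r : ℂ) : ℂ := 2 * yB p r + 4 * XB p r + 1
def cc (i : ℕ) (p r : ℂ) : ℂ := (r + w ^ (i + 2)) ^ 2 / (p - w ^ i)
def hp (x y : ℂ) : ℂ := y + x + x ^ 2
def hm (x y : ℂ) : ℂ := -1 - y + x + x ^ 2
def xi (x y : ℂ → ℂ) (τ : ℂ) : ℂ :=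
  wd (LL (fun σ => hp (x σ) (y σ)) τ - LL (fun σ => hm (x σ) (y σ)) τ) (LL (fun σ => x σ + 1) τ)
def Ca (x : ℂ) : ℂ := x ^ 2 * (1 - x)
def Cb (x : ℂ) : ℂ := -x ^ 3
def yy (x s : ℂ) : ℂ := (s - (4 * x + 1)) / 2

def Good (p r : ℂ) : Prop :=
  Ph p r = 0 ∧ p ^ 3 ≠ 1 ∧ r ^ 3 ≠ -1 ∧ p + r ≠ 0 ∧ xE p r ≠ 0 ∧ xE p r ≠ 1 ∧ xE p r ≠ -1 ∧
    xE p r ≠ 2 ∧ SA p r ≠ 0 ∧ SB p r ≠ 0
def GoodG (x y z : ℂ) : Prop := Dn x y z ≠ 0 ∧ z0 x y z ≠ 0 ∧ Good (pp x y z) (rr x y z)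

/-- a parametrisation of the sextic by the upper half plane, with the two periods -/
structure Tri (x y z Za Zb : ℂ → ℂ) : Prop where
  dx : DifferentiableOn ℂ x UH
  dy : DifferentiableOn ℂ y UH
  dz : DifferentiableOn ℂ z UH
  da : DifferentiableOn ℂ Za UH
  db : DifferentiableOn ℂ Zb UH
  nx : ∀ τ ∈ UH, x τ ≠ 0
  ny : ∀ τ ∈ UH, y τ ≠ 0
  nz : ∀ τ ∈ UH, z τ ≠ 0
  hF : ∀ τ ∈ UH, Fs (x τ) (y τ) (z τ) = 0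
  ha : ∀ τ ∈ UH, deriv Za τ * Dn (x τ) (y τ) (z τ) =
    Aa (x τ) (y τ) (z τ) * Wn (x τ) (y τ) (z τ) (deriv x τ) (deriv y τ) (deriv z τ)
  hb : ∀ τ ∈ UH, deriv Zb τ * Dn (x τ) (y τ) (z τ) =
    Ab (x τ) (y τ) (z τ) * Wn (x τ) (y τ) (z τ) (deriv x τ) (deriv y τ) (deriv z τ)
  li : ∀ α β c0 c1 c2 : ℂ, c0 + c1 + c2 = 0 →
    (∀ τ ∈ UH, α * Aa (x τ) (y τ) (z τ) + β * Ab (x τ) (y τ) (z τ) + c0 * RR (x τ) (y τ) (z τ) +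
      c1 * RR (y τ) (z τ) (x τ) + c2 * RR (z τ) (x τ) (y τ) = 0) →
    α = 0 ∧ β = 0 ∧ c0 = 0 ∧ c1 = 0 ∧ c2 = 0
  dn : ∃ τ ∈ UH, Dn (x τ) (y τ) (z τ) ≠ 0

/-- a function of `(p, r)` along a triple -/
def cp {β : Type} (F : ℂ → ℂ → β) (x y z : ℂ → ℂ) (σ : ℂ) : β :=
  F (pp (x σ) (y σ) (z σ)) (rr (x σ) (y σ) (z σ))
def GT (x y z : ℂ → ℂ) : Set ℂ := {τ | τ ∈ UH ∧ GoodG (x τ) (y τ) (z τ)}

def Loc (Ψ Wa Wb : ℂ → ℂ → ℝ) (la lb ha hb : ℝ) : Prop :=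
  ∀ x y z Za Zb, Tri x y z Za Zb → ∀ τ ∈ GT x y z, GT x y z ∈ 𝓝 τ ∧
    DI (fun σ => cp Ψ x y z σ + la * (Za σ).im + lb * (Zb σ).im) (cyc x y z τ) τ ∧
    (∀ᶠ σ in 𝓝 τ, ∃ n : ℤ,
      (cp Wa x y z σ - (Za σ).im) - (cp Wa x y z τ - (Za τ).im) = n * (2 * ha)) ∧
    ∀ᶠ σ in 𝓝 τ, ∃ n : ℤ,
      (cp Wb x y z σ - (Zb σ).im) - (cp Wb x y z τ - (Zb τ).im) = n * (2 * hb)

def Glob (Ψ Wa Wb : ℂ → ℂ → ℝ) (la lb ha hb : ℝ) : Prop :=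
  ∀ x y z Za Zb, Tri x y z Za Zb → ∀ P : ℂ → ℝ, (∀ τ ∈ UH, DI P (cyc x y z τ) τ) →
    ∀ τ ∈ GT x y z, ∀ σ ∈ GT x y z,
    P σ - P τ = cp Ψ x y z σ - cp Ψ x y z τ + la * (Za σ - Za τ).im + lb * (Zb σ - Zb τ).im ∧
    (∃ n : ℤ, cp Wa x y z σ - cp Wa x y z τ - (Za σ - Za τ).im = n * (2 * ha)) ∧
    ∃ n : ℤ, cp Wb x y z σ - cp Wb x y z τ - (Zb σ - Zb τ).im = n * (2 * hb)

/-! ### the curves `y² + (4x+1) y + C(x) = 0` over the upper half `x`-plane -/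

structure Cv (e1 e2 e3 : ℝ) (C : ℂ → ℂ) : Prop where
  h3 : e3 < -1
  h2 : -1 < e2
  h1 : e2 < e1
  h0 : e1 < 0
  eq : ∀ x : ℂ, (4 * x + 1) ^ 2 - 4 * C x = 4 * (x - e1) * (x - e2) * (x - e3)
  c0 : C 0 = 0
  rt : ∀ x : ℂ, C x = 0 → x.im = 0 ∧ 0 ≤ x.re

def s0 (e1 e2 e3 : ℝ) (x : ℂ) : ℂ :=
  2 * Complex.sqrt (x - e1) * Complex.sqrt (x - e2) * Complex.sqrt (x - e3)
def ym (e1 e2 e3 : ℝ) (x : ℂ) : ℂ := yy x (-s0 e1 e2 e3 x)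
def mm (e1 e2 e3 : ℝ) : ℝ :=
  (∫ θ in (0 : ℝ)..π, Real.log ‖ym e1 e2 e3 (cexp (θ * I))‖) / π

/-- `E` is an odd primitive of the form attached to the symbol `{x, C x}` -/
def IsE (C : ℂ → ℂ) (E : ℂ → ℝ) : Prop :=
  (∀ x, E (conj x) = -E x) ∧ ∀ x, x ≠ 0 → C x ≠ 0 → DI E (eta id C x) x

/-- `G` is, modulo `c ℤ`, a primitive on the curve of `α η(x,y) - l Im (dx / s)` -/
def IsG (C : ℂ → ℂ) (α l c : ℝ) (G : ℂ → ℂ → ℝ) : Prop :=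
  ∀ (x s : ℂ → ℂ) (τ : ℂ), AnalyticAt ℂ x τ → AnalyticAt ℂ s τ →
    (∀ᶠ σ in 𝓝 τ, s σ ^ 2 = (4 * x σ + 1) ^ 2 - 4 * C (x σ)) → C (x τ) ≠ 0 → s τ ≠ 0 →
    ∃ L : ℂ → ℝ,
      (∀ᶠ σ in 𝓝 τ, DI L (α * eta x (fun ρ => yy (x ρ) (s ρ)) σ - l * (deriv x σ / s σ)) σ) ∧
      ∀ᶠ σ in 𝓝 τ, ∃ n : ℤ, G (x σ) (s σ) - L σ = n * c

end

end C37
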