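import Pool.Agent.Lib.C37.Blue

/-! Shared small lemmas. -/

open Complex Filter Topology Set MeasureTheory Asymptotics
open scoped Real ComplexConjugate
open Pool.Agent.Lib.MP_15b3df_nt

namespace C37

/-! ### exponentials -/

lemma e_add (a b : ℂ) : e (a + b) = e a * e b := by unfold e; rw [← exp_add]; ring_nf
lemma e_ne (a : ℂ) : e a ≠ 0 := exp_ne_zero _
lemma e_zero : e 0 = 1 := by simp [e]
lemma e_neg (a : ℂ) : e (-a) = (e a)⁻¹ := by unfold e; rw [← exp_neg]; ring_nf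
lemma e_sub (a b : ℂ) : e (a - b) = e a / e b := by rw [sub_eq_add_neg, e_add, e_neg]; rfl
lemma e_pow (a : ℂ) (n : ℕ) : e a ^ n = e (n * a) := by unfold e; rw [← exp_nat_mul]; ring_nf
lemma e_int (n : ℤ) : e n = 1 := by
  unfold e; rw [mul_comm]; exact exp_int_mul_two_pi_mul_I n
lemma e_one : e 1 = 1 := by simpa using e_int 1
lemma e_half : e (1 / 2) = -1 := by
  unfold e; rw [show 2 * π * I * (1 / 2) = π * I by ring, exp_pi_mul_I]
lemma e_add_int (a : ℂ) (n : ℤ) : e (a + n) = e a := by rw [e_add, e_int, mul_one]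
lemma norm_e (a : ℂ) : ‖e a‖ = Real.exp (-(2 * π * a.im)) := by
  unfold e; rw [norm_exp]; congr 1; simp
lemma norm_e_lt {τ : ℂ} (h : τ ∈ UH) : ‖e τ‖ < 1 := by
  have : 0 < τ.im := h
  rw [norm_e, Real.exp_lt_one_iff]; have := Real.pi_pos; nlinarith
lemma hasDerivAt_e (a : ℂ) : HasDerivAt e (2 * π * I * e a) a := by
  refine HasDerivAt.congr_deriv ((hasDerivAt_id' a).const_mul (2 * π * I)).cexp ?_
  unfold e; ring
@[fun_prop] lemma differentiable_e : Differentiable ℂ e := fun a => (hasDerivAt_e a).differentiableAt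
lemma Q_ne (τ : ℂ) : Q τ ≠ 0 := e_ne _
lemma norm_Q (τ : ℂ) : ‖Q τ‖ = Real.exp (-(2 * π * τ.im / 37)) := by
  unfold Q; rw [norm_e]; congr 2
  rw [show (37 : ℂ) = ((37 : ℝ) : ℂ) by norm_num, div_ofReal_im]; ring
lemma Q_pow (τ : ℂ) : Q τ ^ 37 = e τ := by unfold Q; rw [e_pow]; congr 1; push_cast; ring
lemma div_mem_UH {τ : ℂ} (h : τ ∈ UH) : τ / 37 ∈ UH := by
  have : 0 < τ.im := h
  show 0 < (τ / 37).im
  rw [show (37 : ℂ) = ((37 : ℝ) : ℂ) by norm_num, div_ofReal_im]; positivity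
lemma norm_Q_lt {τ : ℂ} (h : τ ∈ UH) : ‖Q τ‖ < 1 := norm_e_lt (div_mem_UH h)
lemma hasDerivAt_Q (τ : ℂ) : HasDerivAt Q (2 * π * I / 37 * Q τ) τ := by
  have := (hasDerivAt_e (τ / 37)).comp τ ((hasDerivAt_id τ).div_const 37)
  refine HasDerivAt.congr_deriv this ?_
  unfold Q; ring
@[fun_prop] lemma differentiable_Q : Differentiable ℂ Q := fun a => (hasDerivAt_Q a).differentiableAt
lemma isOpen_UH : IsOpen UH := isOpen_lt continuous_const continuous_im
lemma convex_UH : Convex ℝ UH := convex_halfSpace_im_gt 0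
lemma convex_UC : Convex ℝ UC := convex_halfSpace_im_ge 0
lemma ne_of_UH {τ : ℂ} (h : τ ∈ UH) : τ ≠ 0 := fun h0 => by simp [h0, UH] at h
lemma inv_mem_UH {τ : ℂ} (h : τ ∈ UH) : -1 / τ ∈ UH := by
  have h1 : 0 < τ.im := h
  have := normSq_pos.mpr (ne_of_UH h)
  show 0 < (-1 / τ).im
  rw [neg_div, one_div, neg_im, inv_im, neg_div, neg_neg]; positivity
lemma add_mem_UH {τ : ℂ} (h : τ ∈ UH) {c : ℂ} (hc : c.im = 0) : τ + c ∈ UH := by
  show 0 < (τ + c).im
  rw [add_im, hc, add_zero]; exact h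
lemma key_mem_UH {τ : ℂ} (h : τ ∈ UH) : 3 - 1 / τ ∈ UH := by
  have := add_mem_UH (inv_mem_UH h) (c := 3) (by simp)
  convert this using 1; ring
lemma tendsto_im_cusp : Tendsto Complex.im cusp atTop := tendsto_comap
lemma ev_im_cusp (R : ℝ) : ∀ᶠ τ in cusp, R < τ.im := tendsto_im_cusp.eventually (eventually_gt_atTop R)
lemma ev_UH_cusp : ∀ᶠ τ in cusp, τ ∈ UH := ev_im_cusp 0
instance : cusp.NeBot := comap_neBot fun t ht => by
  obtain ⟨y, hy⟩ := Filter.nonempty_of_mem ht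
  exact ⟨y * I, by simpa using hy⟩
lemma tendsto_Q_cusp : Tendsto Q cusp (𝓝 0) := by
  rw [tendsto_zero_iff_norm_tendsto_zero]
  simp only [norm_Q]
  refine Real.tendsto_exp_neg_atTop_nhds_zero.comp ?_
  exact (tendsto_im_cusp.const_mul_atTop (by positivity)).atTop_div_const (by norm_num)
lemma tendsto_e_cusp : Tendsto e cusp (𝓝 0) := by
  have := tendsto_Q_cusp.pow 37
  simpa [Q_pow] using this
lemma psi_eq (a : ZMod 37) : ψ a = e (a.val / 37) := by
  unfold ψ e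
  rw [ZMod.stdAddChar_apply, ZMod.toCircle_apply]
  congr 1; push_cast; ring
lemma psi_nat (n : ℕ) : ψ n = e (n / 37) := by
  unfold ψ e
  rw [ZMod.stdAddChar_apply, ZMod.toCircle_natCast]
  congr 1; push_cast; ring
lemma psi_add (a b : ZMod 37) : ψ (a + b) = ψ a * ψ b := AddChar.map_add_eq_mul _ _ _
lemma norm_psi (a : ZMod 37) : ‖ψ a‖ = 1 := by
  unfold ψ; rw [ZMod.stdAddChar_apply]; exact Circle.norm_coe _
instance : Fact (Nat.Prime 37) := ⟨by norm_num⟩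

lemma hw : w ^ 2 + w + 1 = 0 := by
  have h3 : w ^ 3 = 1 := by
    unfold w; rw [← exp_nat_mul, show ((3 : ℕ) : ℂ) * (2 * π * I / 3) = 2 * π * I by push_cast; ring,
      exp_two_pi_mul_I]
  have h1 : w ≠ 1 := by
    have := (isPrimitiveRoot_exp 3 (by norm_num)).ne_one (by norm_num)
    simpa [w] using this
  have : (w - 1) * (w ^ 2 + w + 1) = 0 := by linear_combination h3
  exact (mul_eq_zero.mp this).resolve_left (sub_ne_zero.mpr h1)
lemma w_cube : w ^ 3 = 1 := by linear_combination (w - 1) * hw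
lemma w_ne : w ≠ 0 := exp_ne_zero _
lemma norm_w : ‖w‖ = 1 := by
  unfold w; rw [norm_exp]; simp

/-! ### differentials -/

variable {F G : ℂ → ℝ} {a b τ : ℂ} {f g h : ℂ → ℂ}

lemma DI.add (h1 : DI F a τ) (h2 : DI G b τ) : DI (fun σ => F σ + G σ) (a + b) τ :=
  (HasFDerivAt.add h1 h2).congr_fderiv (by ext v; simp; ring)
lemma DI.sub (h1 : DI F a τ) (h2 : DI G b τ) : DI (fun σ => F σ - G σ) (a - b) τ :=
  (HasFDerivAt.sub h1 h2).congr_fderiv (by ext v; simp; ring)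
lemma DI.cmul (c : ℝ) (h1 : DI F a τ) : DI (fun σ => c * F σ) (c * a) τ :=
  (HasFDerivAt.const_mul h1 c).congr_fderiv (by ext v; simp; ring)
lemma DI.neg (h1 : DI F a τ) : DI (fun σ => -F σ) (-a) τ :=
  (HasFDerivAt.neg h1).congr_fderiv (by ext v; simp)
lemma DI.const (c : ℝ) (τ : ℂ) : DI (fun _ => c) 0 τ :=
  (hasFDerivAt_const c τ).congr_fderiv (by ext v; simp)
lemma DI.congr (h1 : DI F a τ) (h2 : G =ᶠ[𝓝 τ] F) (h3 : a = b) : DI G b τ :=
  h3 ▸ HasFDerivAt.congr_of_eventuallyEq h1 h2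
lemma DI.im (h1 : HasDerivAt f a τ) : DI (fun σ => (f σ).im) a τ := fd_im h1
lemma DI.re (h1 : HasDerivAt f a τ) : DI (fun σ => (f σ).re) (I * a) τ :=
  (fd_re h1).congr_fderiv (by ext v; simp; ring)
lemma DI.log (h1 : HasDerivAt f a τ) (h0 : f τ ≠ 0) :
    DI (fun σ => Real.log ‖f σ‖) (I * (a / f τ)) τ :=
  (fd_log h1 h0).congr_fderiv (by ext v; simp; ring)
lemma DI.mul (h1 : DI F a τ) (h2 : DI G b τ) :
    DI (fun σ => F σ * G σ) (F τ * b + G τ * a) τ :=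
  (HasFDerivAt.mul h1 h2).congr_fderiv (by ext v; simp; ring)
lemma DI.comp (h1 : DI F a (f τ)) (h2 : HasDerivAt f b τ) : DI (fun σ => F (f σ)) (a * b) τ := by
  refine (HasFDerivAt.comp τ h1 (h2.hasFDerivAt.restrictScalars ℝ)).congr_fderiv ?_
  ext v; simp; ring
lemma DI.conj (h1 : DI F a (conj τ)) : DI (fun σ => -F (conj σ)) (conj a) τ := by
  refine ((HasFDerivAt.comp τ h1
    (conjCLE.toContinuousLinearMap.hasFDerivAt (x := τ))).neg).congr_fderiv ?_
  ext v; simp; ring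
lemma DI.continuousAt (h1 : DI F a τ) : ContinuousAt F τ := HasFDerivAt.continuousAt h1
/-- derivative along a real curve -/
lemma DI.curve {γ : ℝ → ℂ} {t : ℝ} (h1 : DI F a (γ t)) (h2 : HasDerivAt γ b t) :
    HasDerivAt (fun s => F (γ s)) (a * b).im t :=
  HasFDerivAt.comp_hasDerivAt t h1 h2
/-- a function with zero differential on a preconnected open set is constant -/
lemma DI.eq_of_zero {U : Set ℂ} (ho : IsOpen U) (hc : IsPreconnected U) (h1 : ∀ z ∈ U, DI F 0 z)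
    {x y : ℂ} (hx : x ∈ U) (hy : y ∈ U) : F x = F y :=
  ho.is_const_of_fderiv_eq_zero (𝕜 := ℝ) hc
    (fun z hz => (HasFDerivAt.differentiableAt (h1 z hz)).differentiableWithinAt)
    (fun z hz => by rw [HasFDerivAt.fderiv (h1 z hz)]; ext v; simp) hx hy

lemma LL_congr (h1 : f =ᶠ[𝓝 τ] g) : LL f τ = LL g τ := by
  simp only [LL, logDeriv_apply, h1.deriv_eq, h1.eq_of_nhds]
lemma LL_const {c : ℂ} (hc : ‖c‖ = 1) : LL (fun _ => c) τ = 0 := by
  simp [LL, hc, logDeriv_apply]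
lemma LL_mul (h1 : DifferentiableAt ℂ f τ) (h2 : DifferentiableAt ℂ g τ) (n1 : f τ ≠ 0)
    (n2 : g τ ≠ 0) : LL (fun σ => f σ * g σ) τ = LL f τ + LL g τ := by
  simp only [LL, Prod.mk_add_mk, norm_mul,
    Real.log_mul (norm_ne_zero_iff.mpr n1) (norm_ne_zero_iff.mpr n2), logDeriv_mul τ n1 n2 h1 h2]
lemma LL_div (h1 : DifferentiableAt ℂ f τ) (h2 : DifferentiableAt ℂ g τ) (n1 : f τ ≠ 0)
    (n2 : g τ ≠ 0) : LL (fun σ => f σ / g σ) τ = LL f τ - LL g τ := by
  simp only [LL, Prod.mk_sub_mk, norm_div,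
    Real.log_div (norm_ne_zero_iff.mpr n1) (norm_ne_zero_iff.mpr n2), logDeriv_div τ n1 n2 h1 h2]
lemma LL_pow (h1 : DifferentiableAt ℂ f τ) (n : ℕ) :
    LL (fun σ => f σ ^ n) τ = (n : ℝ) • LL f τ := by
  simp only [LL, norm_pow, Real.log_pow, logDeriv_fun_pow h1, Prod.smul_mk, smul_eq_mul,
    real_smul, ofReal_natCast]
lemma LL_cmul {c : ℂ} (hc : ‖c‖ = 1) : LL (fun σ => c * f σ) τ = LL f τ := by
  have : c ≠ 0 := fun h => by simp [h] at hc
  simp only [LL, norm_mul, hc, one_mul, logDeriv_const_mul τ c this]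
lemma LL_neg : LL (fun σ => -f σ) τ = LL f τ := by
  simpa using LL_cmul (f := f) (τ := τ) (c := -1) (by simp)
lemma LL_comp (h1 : DifferentiableAt ℂ f (g τ)) (h2 : DifferentiableAt ℂ g τ) :
    LL (fun σ => f (g σ)) τ = ((LL f (g τ)).1, (LL f (g τ)).2 * deriv g τ) := by
  have := logDeriv_comp h1 h2
  simp only [LL, ← this]; rfl
lemma eta_comp (h1 : DifferentiableAt ℂ f (h τ)) (h2 : DifferentiableAt ℂ g (h τ))
    (h3 : DifferentiableAt ℂ h τ) :
    eta (fun σ => f (h σ)) (fun σ => g (h σ)) τ = eta f g (h τ) * deriv h τ := by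
  simp only [eta, LL_comp h1 h3, LL_comp h2 h3, wd]; ring

/-- the Bloch-Wigner function -/
lemma exists_DD : ∃ D : ℂ → ℝ, (∀ z, D (conj z) = -D z) ∧
    ∀ z, z ≠ 0 → 1 - z ≠ 0 → HasFDerivAt D (etaL z) z := by
  obtain ⟨D, hD⟩ := exists_BW
  refine ⟨fun z => (1 / 2 : ℝ) * (D z + -D (conj z)), fun z => by simp; ring, fun z h0 h1 => ?_⟩
  have h2 := P_conj (hD (conj z) (by simpa using h0) (fun h => h1 (by
    have := congrArg conj h; simpa using this)))
  refine (((hD z h0 h1).add h2).const_mul (1 / 2 : ℝ)).congr_fderiv ?_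
  ext v; simp; ring

noncomputable def DD : ℂ → ℝ := exists_DD.choose
lemma DD_conj (z : ℂ) : DD (conj z) = -DD z := exists_DD.choose_spec.1 z
lemma DD_di {z : ℂ} (h0 : z ≠ 0) (h1 : 1 - z ≠ 0) : DI DD (eta id (fun x => 1 - x) z) z := by
  refine (exists_DD.choose_spec.2 z h0 h1).congr_fderiv (ContinuousLinearMap.ext fun v => ?_)
  have e1 : logDeriv (fun x : ℂ => 1 - x) z = -(1 - z)⁻¹ := by
    rw [logDeriv_apply, ((hasDerivAt_id' z).const_sub 1).deriv]; ring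
  simp only [etaL_apply, imMul_apply, eta, wd, LL, e1, logDeriv_id, id, one_div, sub_mul, sub_im,
    mul_assoc, im_ofReal_mul]

/-- the projective Steinberg relation -/
lemma stb {c1 c2 c3 : ℂ} (n1 : ‖c1‖ = 1) (n2 : ‖c2‖ = 1) (n3 : ‖c3‖ = 1)
    (d1 : DifferentiableAt ℂ f τ) (d2 : DifferentiableAt ℂ g τ) (d3 : DifferentiableAt ℂ h τ)
    (f0 : f τ ≠ 0) (g0 : g τ ≠ 0) (h0 : h τ ≠ 0)
    (hr : ∀ᶠ σ in 𝓝 τ, c1 * f σ + c2 * g σ + c3 * h σ = 0) :
    DI (fun σ => DD (-c1 / c3 * (f σ / h σ))) (cyc f g h τ) τ := by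
  have k1 : c1 ≠ 0 := fun h => by simp [h] at n1
  have k2 : c2 ≠ 0 := fun h => by simp [h] at n2
  have k3 : c3 ≠ 0 := fun h => by simp [h] at n3
  set u : ℂ → ℂ := fun σ => -c1 / c3 * (f σ / h σ) with hu
  have du : DifferentiableAt ℂ u τ := (d1.div d3 h0).const_mul _
  have e1 : (fun σ => 1 - u σ) =ᶠ[𝓝 τ] fun σ => -c2 / c3 * (g σ / h σ) := by
    filter_upwards [hr, d3.continuousAt.eventually_ne h0] with σ h1 h2
    simp only [hu]; field_simp; linear_combination h1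
  have u0 : u τ ≠ 0 := by simp [hu, k1, k3, f0, h0]
  have u1 : 1 - u τ ≠ 0 := by rw [e1.eq_of_nhds]; simp [k2, k3, g0, h0]
  refine ((DD_di u0 u1).comp du.hasDerivAt).congr (.refl _ _) ?_
  rw [← eta_comp (f := id) (g := fun x => 1 - x) differentiableAt_id (by fun_prop) du]
  simp only [eta, cyc, id]
  rw [LL_congr e1, hu, LL_cmul (by simp [n1, n3]), LL_cmul (by simp [n2, n3]),
    LL_div d1 d3 f0 h0, LL_div d2 d3 g0 h0]
  simp only [wd, Prod.fst_sub, Prod.snd_sub]; push_cast; ring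

/-! ### integrals over the positive half-line -/

section HI

open Real

variable {f g : ℝ → ℝ} {u v : ℝ}

lemma HI.add (h1 : HI f u) (h2 : HI g v) : HI (fun y => f y + g y) (u + v) :=
  ⟨h1.1.add h2.1, by rw [integral_add h1.1 h2.1, h1.2, h2.2]⟩
lemma HI.sub (h1 : HI f u) (h2 : HI g v) : HI (fun y => f y - g y) (u - v) :=
  ⟨h1.1.sub h2.1, by rw [integral_sub h1.1 h2.1, h1.2, h2.2]⟩
lemma HI.cmul (c : ℝ) (h : HI f v) : HI (fun y => c * f y) (c * v) :=
  ⟨h.1.const_mul c, by rw [integral_const_mul, h.2]⟩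
lemma HI.congr (h : HI f v) (hf : ∀ y, 0 < y → f y = g y) (hv : v = u) : HI g u :=
  ⟨h.1.congr_fun hf measurableSet_Ioi, by
    rw [← hv, ← h.2]; exact (setIntegral_congr_fun measurableSet_Ioi hf).symm⟩
lemma HI.unique (h1 : HI f v) (h2 : HI f u) : v = u := h1.2.symm.trans h2.2
lemma HI.sum {ι : Type} (s : Finset ι) {F : ι → ℝ → ℝ} {c : ι → ℝ} (h : ∀ i ∈ s, HI (F i) (c i)) :
    HI (fun y => ∑ i ∈ s, F i y) (∑ i ∈ s, c i) :=
  ⟨integrable_finsetSum s fun i hi => (h i hi).1, by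
    rw [integral_finsetSum s fun i hi => (h i hi).1]
    exact Finset.sum_congr rfl fun i hi => (h i hi).2⟩
lemma HI.scale (h : HI f v) {c : ℝ} (hc : 0 < c) : HI (fun y => f (c * y)) (v / c) :=
  ⟨(integrableOn_Ioi_comp_mul_left_iff f 0 hc).mpr (by simpa using h.1), by
    rw [integral_comp_mul_left_Ioi f 0 hc, mul_zero, h.2, smul_eq_mul, div_eq_inv_mul]⟩
lemma HI.inv (h : HI f v) : HI (fun y => f (1 / y) / y ^ 2) v := by
  have h1 : HI (fun x => (|(-1 : ℝ)| * x ^ ((-1 : ℝ) - 1)) • f (x ^ (-1 : ℝ))) v :=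
    ⟨(integrableOn_Ioi_comp_rpow_iff f (by norm_num)).mpr h.1, by
      rw [integral_comp_rpow_Ioi f (by norm_num), h.2]⟩
  refine h1.congr (fun y hy => ?_) rfl
  rw [rpow_neg_one, show (-1 : ℝ) - 1 = -(2 : ℕ) by norm_num, rpow_neg hy.le, rpow_natCast]
  simp [div_eq_inv_mul]
lemma HI_tsum {ι : Type} [Countable ι] {F : ι → ℝ → ℝ} {u : ι → ℝ} (hF : ∀ i, HI (F i) (u i))
    (hs : Summable fun i => ∫ y in Ioi 0, ‖F i y‖)
    (hf : ∀ y, 0 < y → HasSum (fun i => F i y) (f y)) : HI f (∑' i, u i) := by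
  refine HI.congr (f := fun y => ∑' i, F i y) (v := ∑' i, u i) ⟨⟨?_, ?_⟩, ?_⟩
    (fun y hy => (hf y hy).tsum_eq) rfl
  · exact AEStronglyMeasurable.tsum fun i => (hF i).1.1
  · refine lt_of_le_of_lt (lintegral_mono fun y => enorm_tsum_le_tsum_enorm) ?_
    rw [lintegral_tsum fun i => (hF i).1.1.enorm, lt_top_iff_ne_top]
    simp only [← ofReal_integral_norm_eq_lintegral_enorm (hF _).1]
    rw [← ENNReal.ofReal_tsum_of_nonneg (fun i => integral_nonneg fun _ => norm_nonneg _) hs]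
    exact ENNReal.ofReal_ne_top
  · rw [← integral_tsum_of_summable_integral_norm (fun i => (hF i).1) hs]
    exact tsum_congr fun i => (hF i).2
lemma HI_tsum_pos {ι : Type} [Countable ι] {G : ι → ℝ → ℝ} {c u : ι → ℝ}
    (hG : ∀ i, HI (G i) (u i)) (h0 : ∀ i y, 0 < y → 0 ≤ G i y)
    (hs : Summable fun i => |c i| * u i)
    (hf : ∀ y, 0 < y → HasSum (fun i => c i * G i y) (f y)) : HI f (∑' i, c i * u i) := by
  refine HI_tsum (fun i => (hG i).cmul (c i)) (hs.congr fun i => ?_) hf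
  exact (((hG i).cmul |c i|).congr (fun y hy => by
    rw [norm_mul, Real.norm_of_nonneg (h0 i y hy), Real.norm_eq_abs]) rfl).2.symm
lemma HI_exp (k : ℕ) {c : ℝ} (hc : 0 < c) :
    HI (fun y => Real.exp (-(c * y)) * y ^ k) (k.factorial / c ^ (k + 1)) := by
  have key := integral_rpow_mul_exp_neg_mul_Ioi (a := k + 1) (by positivity) hc
  have hint : IntegrableOn (fun x => x ^ ((k + 1 : ℝ) - 1) * Real.exp (-(c * x))) (Ioi 0) :=
    .of_integral_ne_zero (by rw [key]; positivity)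
  refine HI.congr ⟨hint, key⟩ (fun y _ => by simp [mul_comm]) ?_
  rw [Real.Gamma_nat_eq_factorial, ← Nat.cast_succ, rpow_natCast, one_div_pow, one_div_mul_eq_div]

end HI

end C37
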